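import Pool.Agent.H82.Max.Defs

open MeasureTheory Set Filter Topology
open scoped ENNReal Real InnerProductSpace symmDiff

namespace Pool.Agent.H82.Max

variable {d : ℕ}

private theorem gauss_integrable (d : ℕ) {c : ℝ} (hc : 0 < c) :
    Integrable (fun ξ : X d => Real.exp (-c * ‖ξ‖ ^ 2)) := by
  have h := (GaussianFourier.integrable_cexp_neg_mul_sq_norm_add (V := X d) (b := (c : ℂ))
    (by simpa using hc) 0 0).norm
  refine h.congr (Eventually.of_forall fun ξ => ?_)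
  simp only [zero_mul, add_zero]
  rw [Complex.norm_exp]
  congr 1
  rw [← Complex.ofReal_pow, ← Complex.ofReal_neg, ← Complex.ofReal_mul, Complex.ofReal_re]

private theorem pow_mul_exp_le (k : ℕ) {c t : ℝ} (hc : 0 < c) (ht : 0 ≤ t) :
    t ^ k * Real.exp (-(c / 2) * t ^ 2) ≤ 1 + k.factorial * (2 / c) ^ k := by
  have h1 : t ^ k ≤ 1 + t ^ (2 * k) := by
    have : t ^ (2 * k) = (t ^ k) ^ 2 := by rw [← pow_mul]; ring_nf
    rw [this]
    nlinarith [sq_nonneg (t ^ k - 1), pow_nonneg ht k]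
  have h2 := Real.pow_div_factorial_le_exp (x := c / 2 * t ^ 2) (by positivity) k
  have hE : 0 < Real.exp (-(c / 2) * t ^ 2) := Real.exp_pos _
  have h3 : Real.exp (c / 2 * t ^ 2) * Real.exp (-(c / 2) * t ^ 2) = 1 := by
    rw [← Real.exp_add]; simp
  have h4 : Real.exp (-(c / 2) * t ^ 2) ≤ 1 := by
    apply Real.exp_le_one_iff.2
    have : 0 ≤ c / 2 * t ^ 2 := by positivity
    linarith
  have h5 : t ^ (2 * k) * Real.exp (-(c / 2) * t ^ 2) ≤ k.factorial * (2 / c) ^ k := by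
    have h6 : t ^ (2 * k) = (2 / c) ^ k * (c / 2 * t ^ 2) ^ k := by
      rw [mul_pow, ← mul_assoc, ← mul_pow, ← pow_mul]
      have : 2 / c * (c / 2) = 1 := by field_simp
      rw [this, one_pow, one_mul]
    have hf : (0 : ℝ) < k.factorial := by positivity
    rw [div_le_iff₀ hf] at h2
    calc t ^ (2 * k) * Real.exp (-(c / 2) * t ^ 2)
        = (2 / c) ^ k * ((c / 2 * t ^ 2) ^ k * Real.exp (-(c / 2) * t ^ 2)) := by rw [h6]; ring
      _ ≤ (2 / c) ^ k * ((Real.exp (c / 2 * t ^ 2) * k.factorial) *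
            Real.exp (-(c / 2) * t ^ 2)) := by gcongr
      _ = k.factorial * (2 / c) ^ k *
            (Real.exp (c / 2 * t ^ 2) * Real.exp (-(c / 2) * t ^ 2)) := by ring
      _ = k.factorial * (2 / c) ^ k := by rw [h3, mul_one]
  calc t ^ k * Real.exp (-(c / 2) * t ^ 2)
      ≤ (1 + t ^ (2 * k)) * Real.exp (-(c / 2) * t ^ 2) := by gcongr
    _ = Real.exp (-(c / 2) * t ^ 2) + t ^ (2 * k) * Real.exp (-(c / 2) * t ^ 2) := by ring
    _ ≤ _ := add_le_add h4 h5

theorem exp_mom_integrable (d k : ℕ) {c : ℝ} (hc : 0 < c) :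
    Integrable (fun ξ : X d => ‖ξ‖ ^ k * Real.exp (-c * ‖ξ‖ ^ 2)) := by
  have h1 := (gauss_integrable d (c := c / 2) (by positivity)).const_mul
    (1 + k.factorial * (2 / c) ^ k)
  refine h1.mono' ?_ (Eventually.of_forall fun ξ => ?_)
  · exact Continuous.aestronglyMeasurable (by fun_prop)
  · rw [Real.norm_of_nonneg (by positivity)]
    have h2 := pow_mul_exp_le k hc (norm_nonneg ξ)
    have h3 : Real.exp (-c * ‖ξ‖ ^ 2) =
        Real.exp (-(c / 2) * ‖ξ‖ ^ 2) * Real.exp (-(c / 2) * ‖ξ‖ ^ 2) := by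
      rw [← Real.exp_add]; congr 1; ring
    rw [h3, ← mul_assoc]
    exact mul_le_mul_of_nonneg_right h2 (Real.exp_pos _).le

/-- scaling -/
theorem exp_mom (d k : ℕ) {c p : ℝ} (hc : 0 < c) (hp : 0 < p) :
    ∫ ξ : X d, ‖ξ‖ ^ k * Real.exp (-c * p * ‖ξ‖ ^ 2) =
      p ^ (-((d : ℝ) + k) / 2) * ∫ ξ : X d, ‖ξ‖ ^ k * Real.exp (-c * ‖ξ‖ ^ 2) := by
  have hsp : 0 < √p := Real.sqrt_pos.2 hp
  have h1 := Measure.integral_comp_smul_of_nonneg (volume : Measure (X d))
    (fun ξ : X d => ‖ξ‖ ^ k * Real.exp (-c * ‖ξ‖ ^ 2)) (√p) (hR := hsp.le)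
  have h2 : (fun ξ : X d => ‖√p • ξ‖ ^ k * Real.exp (-c * ‖√p • ξ‖ ^ 2)) =
      fun ξ => (√p) ^ k * (‖ξ‖ ^ k * Real.exp (-c * p * ‖ξ‖ ^ 2)) := by
    funext ξ
    rw [norm_smul, Real.norm_of_nonneg hsp.le, mul_pow, mul_pow, Real.sq_sqrt hp.le]
    ring_nf
  rw [h2, integral_const_mul, finrank_euclideanSpace_fin, smul_eq_mul] at h1
  have h3 : p ^ (-((d : ℝ) + k) / 2) = ((√p) ^ k)⁻¹ * ((√p) ^ d)⁻¹ := by
    rw [Real.sqrt_eq_rpow, ← Real.rpow_natCast, ← Real.rpow_natCast, ← Real.rpow_mul hp.le,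
      ← Real.rpow_mul hp.le, ← Real.rpow_neg hp.le, ← Real.rpow_neg hp.le, ← Real.rpow_add hp]
    congr 1
    ring
  rw [h3, mul_assoc, ← h1, ← mul_assoc, inv_mul_cancel₀ (by positivity), one_mul]

theorem mom (d k : ℕ) {c₀ : ℝ} (hc₀ : 0 < c₀) : ∃ C : ℝ, 0 < C ∧ ∀ P : X d → ℝ, Measurable P →
    (∀ ξ, 0 ≤ P ξ) → (∀ ξ, P ξ ≤ 1 - c₀ * min 1 (‖ξ‖ ^ 2)) → ∀ p : ℝ, 1 ≤ p →
    ∫ ξ in Metric.closedBall 0 1, ‖ξ‖ ^ k * P ξ ^ p ≤ C * p ^ (-((d : ℝ) + k) / 2) := by
  set J : ℝ := ∫ ξ : X d, ‖ξ‖ ^ k * Real.exp (-c₀ * ‖ξ‖ ^ 2) with hJ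
  have hJ0 : 0 ≤ J := integral_nonneg fun ξ => by positivity
  refine ⟨J + 1, by positivity, fun P hPm hP0 hP1 p hp => ?_⟩
  have hp0 : 0 < p := by linarith
  have hint : Integrable (fun ξ : X d => ‖ξ‖ ^ k * Real.exp (-c₀ * p * ‖ξ‖ ^ 2)) := by
    have := exp_mom_integrable d k (c := c₀ * p) (by positivity)
    refine this.congr (Eventually.of_forall fun ξ => ?_)
    simp only [neg_mul]
  have h1 : ∫ ξ in Metric.closedBall (0 : X d) 1, ‖ξ‖ ^ k * P ξ ^ p ≤
      ∫ ξ in Metric.closedBall (0 : X d) 1, ‖ξ‖ ^ k * Real.exp (-c₀ * p * ‖ξ‖ ^ 2) := by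
    refine integral_mono_of_nonneg (Eventually.of_forall fun ξ => ?_) hint.integrableOn ?_
    · exact mul_nonneg (by positivity) (Real.rpow_nonneg (hP0 ξ) _)
    · refine (ae_restrict_iff' Metric.isClosed_closedBall.measurableSet).2
        (Eventually.of_forall fun ξ hξ => ?_)
      rw [mem_closedBall_zero_iff] at hξ
      have h2 : min 1 (‖ξ‖ ^ 2) = ‖ξ‖ ^ 2 := by
        apply min_eq_right
        nlinarith [norm_nonneg ξ]
      have h3 : P ξ ≤ Real.exp (-c₀ * ‖ξ‖ ^ 2) := by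
        have h4 := hP1 ξ
        rw [h2] at h4
        have h5 := Real.add_one_le_exp (-c₀ * ‖ξ‖ ^ 2)
        linarith
      have h6 : P ξ ^ p ≤ Real.exp (-c₀ * p * ‖ξ‖ ^ 2) := by
        refine (Real.rpow_le_rpow (hP0 ξ) h3 hp0.le).trans (le_of_eq ?_)
        rw [← Real.exp_mul]; congr 1; ring
      exact mul_le_mul_of_nonneg_left h6 (by positivity)
  have h2 : ∫ ξ in Metric.closedBall (0 : X d) 1, ‖ξ‖ ^ k * Real.exp (-c₀ * p * ‖ξ‖ ^ 2) ≤
      ∫ ξ : X d, ‖ξ‖ ^ k * Real.exp (-c₀ * p * ‖ξ‖ ^ 2) :=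
    setIntegral_le_integral hint (Eventually.of_forall fun ξ => by positivity)
  rw [exp_mom d k hc₀ hp0, ← hJ] at h2
  have h3 : 0 ≤ p ^ (-((d : ℝ) + k) / 2) := Real.rpow_nonneg hp0.le _
  nlinarith

theorem mom_out (d : ℕ) {c₀ : ℝ} (hc₀ : 0 < c₀) (P : X d → ℝ) (hP : Integrable P)
    (h0 : ∀ ξ, 0 ≤ P ξ) (h1 : ∀ ξ, P ξ ≤ 1 - c₀ * min 1 (‖ξ‖ ^ 2)) (hI : ∫ ξ, P ξ ≤ 1)
    (p : ℝ) (hp : 1 ≤ p) :
    ∫ ξ in (Metric.closedBall 0 1)ᶜ, P ξ ^ p ≤ Real.exp (-c₀ * (p - 1)) := by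
  have h2 : ∫ ξ in (Metric.closedBall (0 : X d) 1)ᶜ, P ξ ^ p ≤
      ∫ ξ in (Metric.closedBall (0 : X d) 1)ᶜ, Real.exp (-c₀ * (p - 1)) * P ξ := by
    refine integral_mono_of_nonneg (Eventually.of_forall fun ξ => Real.rpow_nonneg (h0 ξ) _)
      (hP.const_mul _).integrableOn ?_
    refine (ae_restrict_iff' Metric.isClosed_closedBall.measurableSet.compl).2
        (Eventually.of_forall fun ξ hξ => ?_)
    rw [mem_compl_iff, mem_closedBall_zero_iff, not_le] at hξ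
    have h3 : min 1 (‖ξ‖ ^ 2) = 1 := by
      apply min_eq_left
      nlinarith [norm_nonneg ξ]
    have h4 : P ξ ≤ Real.exp (-c₀) := by
      have h5 := h1 ξ
      rw [h3] at h5
      have h6 := Real.add_one_le_exp (-c₀)
      linarith
    rcases (h0 ξ).eq_or_lt with h5 | h5
    · simp only [← h5]
      rw [Real.zero_rpow (by linarith)]
      simp
    · have h6 : P ξ ^ p = P ξ ^ (p - 1) * P ξ := by
        rw [← Real.rpow_add_one h5.ne']; congr 1; ring
      simp only [h6]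
      refine mul_le_mul_of_nonneg_right ?_ h5.le
      refine (Real.rpow_le_rpow h5.le h4 (by linarith)).trans (le_of_eq ?_)
      rw [← Real.exp_mul]
  have h3 : ∫ ξ in (Metric.closedBall (0 : X d) 1)ᶜ, Real.exp (-c₀ * (p - 1)) * P ξ ≤
      Real.exp (-c₀ * (p - 1)) * 1 := by
    rw [integral_const_mul]
    refine mul_le_mul_of_nonneg_left ?_ (Real.exp_pos _).le
    exact (setIntegral_le_integral hP (Eventually.of_forall h0)).trans hI
  linarith

/-- `e^{-c p} ≤ C p^{-m}` -/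
theorem exp_le_rpow {c : ℝ} (hc : 0 < c) (m : ℝ) : ∃ C : ℝ, 0 < C ∧ ∀ p : ℝ, 1 ≤ p →
    Real.exp (-c * p) ≤ C * p ^ (-m) := by
  obtain ⟨n, hn⟩ := exists_nat_ge m
  refine ⟨n.factorial / c ^ n, by positivity, fun p hp => ?_⟩
  have hp0 : 0 < p := by linarith
  have h1 : p ^ m ≤ p ^ n := by
    rw [← Real.rpow_natCast]
    exact Real.rpow_le_rpow_of_exponent_le hp hn
  have h2 := Real.pow_div_factorial_le_exp (x := c * p) (by positivity) n
  have hf : (0 : ℝ) < n.factorial := by positivity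
  rw [div_le_iff₀ hf, mul_pow] at h2
  have h3 : p ^ n ≤ n.factorial / c ^ n * Real.exp (c * p) := by
    rw [div_mul_eq_mul_div, le_div_iff₀ (by positivity)]
    linarith
  have h4 : Real.exp (c * p) * Real.exp (-c * p) = 1 := by
    rw [← Real.exp_add]; simp
  have h5 : p ^ m * p ^ (-m) = 1 := by
    rw [← Real.rpow_add hp0]; simp
  have h6 : 0 < p ^ (-m) := Real.rpow_pos_of_pos hp0 _
  have h7 : 0 < Real.exp (-c * p) := Real.exp_pos _
  calc Real.exp (-c * p) = (p ^ m * p ^ (-m)) * Real.exp (-c * p) := by rw [h5, one_mul]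
    _ ≤ ((n.factorial / c ^ n * Real.exp (c * p)) * p ^ (-m)) * Real.exp (-c * p) := by
        gcongr
        exact h1.trans h3
    _ = n.factorial / c ^ n * p ^ (-m) * (Real.exp (c * p) * Real.exp (-c * p)) := by ring
    _ = n.factorial / c ^ n * p ^ (-m) := by rw [h4, mul_one]

private theorem rpow_sub_le {x y p : ℝ} (hx : 0 ≤ x) (hy : 0 ≤ y) (hp : 2 ≤ p) :
    y ^ (p - 1) - x ^ (p - 1) ≤ (p - 1) * y ^ (p - 2) * (y - x) := by
  rcases hy.eq_or_lt with h | h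
  · subst h
    rw [Real.zero_rpow (by linarith)]
    have h1 : 0 ≤ x ^ (p - 1) := Real.rpow_nonneg hx _
    rcases hp.eq_or_lt with h2 | h2
    · subst h2
      norm_num
    · rw [Real.zero_rpow (by linarith)]
      linarith
  · have h1 := one_add_mul_self_le_rpow_one_add (s := x / y - 1) (p := p - 1)
      (by have : 0 ≤ x / y := by positivity
          linarith) (by linarith)
    have h2 : (1 + (x / y - 1)) ^ (p - 1) * y ^ (p - 1) = x ^ (p - 1) := by
      rw [add_sub_cancel, ← Real.mul_rpow (by positivity) h.le, div_mul_cancel₀ _ h.ne']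
    have h3 : y ^ (p - 1) = y ^ (p - 2) * y := by
      rw [← Real.rpow_add_one h.ne']; congr 1; ring
    have h4 : 0 < y ^ (p - 1) := Real.rpow_pos_of_pos h _
    have h5 := mul_le_mul_of_nonneg_right h1 h4.le
    rw [h2] at h5
    have h6 : (1 + (p - 1) * (x / y - 1)) * y ^ (p - 1) =
        y ^ (p - 1) + (p - 1) * y ^ (p - 2) * (x - y) := by
      rw [h3]; field_simp
    rw [h6] at h5
    linarith

/-- second order Taylor estimate -/
theorem taylor_rpow {a b p : ℝ} (ha : 0 ≤ a) (hb : 0 ≤ b) (hp : 2 ≤ p) :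
    b ^ p - a ^ p ≤ p * a ^ (p - 1) * (b - a) +
      p ^ 2 / 2 * (b - a) ^ 2 * (a ^ (p - 2) + b ^ (p - 2)) := by
  have hA : 0 ≤ a ^ (p - 2) := Real.rpow_nonneg ha _
  have hB : 0 ≤ b ^ (p - 2) := Real.rpow_nonneg hb _
  -- the auxiliary function
  have hder : ∀ K x : ℝ, HasDerivAt (fun x : ℝ => p * a ^ (p - 1) * (x - a) +
      p * (p - 1) / 2 * K * (x - a) ^ 2 - x ^ p) (p * a ^ (p - 1) +
      p * (p - 1) * K * (x - a) - p * x ^ (p - 1)) x := by
    intro K x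
    have h1 := (((hasDerivAt_id x).sub_const a).const_mul (p * a ^ (p - 1))).add
      ((((hasDerivAt_id x).sub_const a).pow 2).const_mul (p * (p - 1) / 2 * K))
    have h2 := h1.sub (Real.hasDerivAt_rpow_const (x := x) (p := p) (Or.inr (by linarith)))
    refine h2.congr_deriv ?_
    simp
    ring
  have hcont : ∀ K : ℝ, Continuous (fun x : ℝ => p * a ^ (p - 1) * (x - a) +
      p * (p - 1) / 2 * K * (x - a) ^ 2 - x ^ p) := fun K =>
    continuous_iff_continuousAt.2 fun x => (hder K x).continuousAt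
  have main : ∀ K : ℝ, 0 ≤ K → K ≤ a ^ (p - 2) + b ^ (p - 2) →
      (0 : ℝ) - a ^ p ≤ p * a ^ (p - 1) * (b - a) + p * (p - 1) / 2 * K * (b - a) ^ 2 - b ^ p →
      b ^ p - a ^ p ≤ p * a ^ (p - 1) * (b - a) +
        p ^ 2 / 2 * (b - a) ^ 2 * (a ^ (p - 2) + b ^ (p - 2)) := by
    intro K hK0 hK h
    have h1 : p * (p - 1) / 2 * K * (b - a) ^ 2 ≤
        p ^ 2 / 2 * (b - a) ^ 2 * (a ^ (p - 2) + b ^ (p - 2)) := by
      have h2 : p * (p - 1) / 2 ≤ p ^ 2 / 2 := by nlinarith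
      calc p * (p - 1) / 2 * K * (b - a) ^ 2 ≤ p ^ 2 / 2 * K * (b - a) ^ 2 := by gcongr
        _ ≤ p ^ 2 / 2 * (a ^ (p - 2) + b ^ (p - 2)) * (b - a) ^ 2 := by gcongr
        _ = _ := by ring
    linarith
  rcases le_total a b with hab | hab
  · refine main (b ^ (p - 2)) hB (by linarith) ?_
    have hmono := monotoneOn_of_deriv_nonneg (convex_Icc a b) (hcont (b ^ (p - 2))).continuousOn
      (fun x _ => (hder _ x).differentiableAt.differentiableWithinAt) (fun x hx => by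
        rw [interior_Icc] at hx
        rw [(hder _ x).deriv]
        have h1 := rpow_sub_le ha (ha.trans hx.1.le) hp
        have h2 : x ^ (p - 2) ≤ b ^ (p - 2) :=
          Real.rpow_le_rpow (ha.trans hx.1.le) hx.2.le (by linarith)
        have h3 : (p - 1) * x ^ (p - 2) * (x - a) ≤ (p - 1) * b ^ (p - 2) * (x - a) := by
          have : 0 ≤ x - a := by linarith [hx.1]
          have : 0 ≤ p - 1 := by linarith
          gcongr
        have h4 : x ^ (p - 1) - a ^ (p - 1) ≤ (p - 1) * b ^ (p - 2) * (x - a) := h1.trans h3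
        have h5 := mul_le_mul_of_nonneg_left h4 (show 0 ≤ p by linarith)
        linarith)
    have := hmono (left_mem_Icc.2 hab) (right_mem_Icc.2 hab) hab
    simpa using this
  · refine main (a ^ (p - 2)) hA (by linarith) ?_
    have hanti := antitoneOn_of_deriv_nonpos (convex_Icc b a) (hcont (a ^ (p - 2))).continuousOn
      (fun x _ => (hder _ x).differentiableAt.differentiableWithinAt) (fun x hx => by
        rw [interior_Icc] at hx
        rw [(hder _ x).deriv]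
        have h1 := rpow_sub_le (hb.trans hx.1.le) ha hp
        have h5 := mul_le_mul_of_nonneg_left h1 (show 0 ≤ p by linarith)
        linarith)
    have := hanti (left_mem_Icc.2 hab) (right_mem_Icc.2 hab) hab
    simpa using this

end Pool.Agent.H82.Max
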