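import Pool.Agent.H82.Max.Basic
import Pool.Agent.H82.Max.Mom

open MeasureTheory Set Filter Topology
open scoped ENNReal Real InnerProductSpace symmDiff

namespace Pool.Agent.H82.Max

variable {d : ℕ}

lemma vball_pos (d : ℕ) : 0 < volume.real (Metric.closedBall (0 : X d) 1) := by
  rw [measureReal_def]
  exact ENNReal.toReal_pos (Metric.measure_closedBall_pos volume _ one_pos).ne'
    measure_closedBall_lt_top.ne

theorem rd_pos (d : ℕ) : 0 < rd d := Real.rpow_pos_of_pos (vball_pos d) _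

lemma measurableSet_Bl (d : ℕ) : MeasurableSet (Bl d) := Metric.isClosed_closedBall.measurableSet

lemma vol_closedBall (d : ℕ) {r : ℝ} (hr : 0 ≤ r) :
    volume.real (Metric.closedBall (0 : X d) r) =
      r ^ d * volume.real (Metric.closedBall (0 : X d) 1) := by
  rw [measureReal_def, Measure.addHaar_closedBall' _ _ hr, ENNReal.toReal_mul,
    ENNReal.toReal_ofReal (by positivity), finrank_euclideanSpace_fin]
  rfl

lemma rd_pow {d : ℕ} (hd : 0 < d) :
    rd d ^ d * volume.real (Metric.closedBall (0 : X d) 1) = 1 := by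
  unfold rd
  rw [← Real.rpow_natCast, ← Real.rpow_mul (vball_pos d).le]
  have : -(1 : ℝ) / d * d = -1 := by
    have : (d : ℝ) ≠ 0 := by exact_mod_cast hd.ne'
    field_simp
  rw [this, Real.rpow_neg_one]
  exact inv_mul_cancel₀ (vball_pos d).ne'

theorem unitVol_Bl {d : ℕ} (hd : 0 < d) : UnitVol (Bl d) := by
  refine ⟨measurableSet_Bl d, ?_⟩
  have h : volume.real (Bl d) = 1 := by
    unfold Bl
    rw [vol_closedBall d (rd_pos d).le, rd_pow hd]
  rw [measureReal_def, ENNReal.toReal_eq_one_iff] at h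
  exact h

lemma vol_Bl_ne_top (d : ℕ) : volume (Bl d) ≠ ⊤ := measure_closedBall_lt_top.ne

lemma integrableOn_Bl {f : X d → ℝ} (hf : Continuous f) : IntegrableOn f (Bl d) :=
  hf.continuousOn.integrableOn_compact (isCompact_closedBall _ _)

theorem sg_pos {d : ℕ} (hd : 0 < d) : 0 < sg d := by
  unfold sg
  have hd' : (0 : ℝ) < d := by exact_mod_cast hd
  refine div_pos ?_ hd'
  have : Nonempty (Fin d) := ⟨⟨0, hd⟩⟩
  rw [setIntegral_pos_iff_support_of_nonneg_ae (Eventually.of_forall fun x => by positivity)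
    (integrableOn_Bl (by fun_prop))]
  have h1 : Bl d \ {0} ⊆ Function.support (fun x : X d => ‖x‖ ^ 2) ∩ Bl d := by
    rintro x ⟨hx, hx0⟩
    refine ⟨?_, hx⟩
    simp only [Function.mem_support]
    have : x ≠ 0 := hx0
    positivity
  refine lt_of_lt_of_le ?_ (measure_mono h1)
  rw [measure_sdiff_null (measure_singleton 0), (unitVol_Bl hd).vol]
  exact one_pos

/-- odd functions integrate to zero over the ball -/
lemma integral_Bl_odd {f : X d → ℝ} (hf : ∀ x, f (-x) = - f x) : ∫ x in Bl d, f x = 0 := by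
  rw [← integral_indicator (measurableSet_Bl d)]
  have h1 := integral_neg_eq_self ((Bl d).indicator f) volume
  have h2 : ∀ x, (Bl d).indicator f (-x) = - (Bl d).indicator f x := by
    intro x
    have h3 : -x ∈ Bl d ↔ x ∈ Bl d := by simp [Bl]
    by_cases hx : x ∈ Bl d
    · rw [indicator_of_mem hx, indicator_of_mem (h3.mpr hx), hf]
    · rw [indicator_of_notMem hx, indicator_of_notMem (fun h => hx (h3.mp h)), neg_zero]
  simp_rw [h2, integral_neg] at h1
  linarith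

/-- rotation invariance -/
lemma integral_Bl_radial (g : ℝ → ℝ) {u v : X d} (h : ‖u‖ = ‖v‖) :
    ∫ x in Bl d, g ⟪x, u⟫_ℝ = ∫ x in Bl d, g ⟪x, v⟫_ℝ := by
  set R : X d ≃ₗᵢ[ℝ] X d := (ℝ ∙ (u - v))ᗮ.reflection with hR
  have hRu : R u = v := Submodule.reflection_sub h
  have h1 := (LinearIsometryEquiv.measurePreserving R).setIntegral_preimage_emb
    R.toHomeomorph.measurableEmbedding (fun x => g ⟪x, v⟫_ℝ) (Bl d)
  have h2 : R ⁻¹' Bl d = Bl d := by
    ext x
    simp [Bl]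
  rw [h2] at h1
  rw [← h1]
  refine setIntegral_congr_fun (measurableSet_Bl d) fun x _ => ?_
  rw [← hRu, R.inner_map_map]

theorem ball_cen (d : ℕ) (u : X d) : ∫ x in Bl d, ⟪x, u⟫_ℝ = 0 :=
  integral_Bl_odd fun x => by rw [inner_neg_left]

theorem ball_iso {d : ℕ} (hd : 0 < d) (u : X d) :
    ∫ x in Bl d, ⟪x, u⟫_ℝ ^ 2 = sg d * ‖u‖ ^ 2 := by
  have hd' : (0 : ℝ) < d := by exact_mod_cast hd
  have h1 : ∀ i : Fin d, ∫ x in Bl d, ⟪x, u⟫_ℝ ^ 2 = ‖u‖ ^ 2 * ∫ x in Bl d, (x i) ^ 2 := by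
    intro i
    have h2 := integral_Bl_radial (d := d) (fun t => t ^ 2) (u := u)
      (v := ‖u‖ • EuclideanSpace.single i (1 : ℝ)) (by rw [norm_smul]; simp)
    rw [h2, ← integral_const_mul]
    refine setIntegral_congr_fun (measurableSet_Bl d) fun x _ => ?_
    simp only
    rw [inner_smul_right, EuclideanSpace.inner_single_right]
    simp
    ring
  have h3 : ∑ i : Fin d, ∫ x in Bl d, ⟪x, u⟫_ℝ ^ 2 = ‖u‖ ^ 2 * ∫ x in Bl d, ‖x‖ ^ 2 := by
    rw [Finset.sum_congr rfl fun i _ => h1 i, ← Finset.mul_sum,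
      ← integral_finsetSum _ fun i _ => integrableOn_Bl (by fun_prop)]
    congr 1
    refine setIntegral_congr_fun (measurableSet_Bl d) fun x _ => ?_
    simp only
    rw [EuclideanSpace.norm_sq_eq]
    simp
  rw [Finset.sum_const, Finset.card_univ, Fintype.card_fin, nsmul_eq_mul] at h3
  unfold sg
  field_simp
  linarith

theorem sn_Bl (ξ : X d) : sn (Bl d) ξ = 0 :=
  integral_Bl_odd fun x => by rw [inner_neg_left, mul_neg, Real.sin_neg]

theorem cs_Bl_radial {ξ η : X d} (h : ‖ξ‖ = ‖η‖) : cs (Bl d) ξ = cs (Bl d) η :=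
  integral_Bl_radial (fun t => Real.cos (2 * π * t)) h

lemma PP_Bl_eq (ξ : X d) : PP (Bl d) ξ = cs (Bl d) ξ ^ 2 := by
  unfold PP
  rw [sn_Bl]
  ring

lemma integral_Bl_one {d : ℕ} (hd : 0 < d) : ∫ _x in Bl d, (1 : ℝ) = 1 := by
  rw [setIntegral_const, measureReal_def, (unitVol_Bl hd).vol]
  simp

/-- `1 - cos t ≤ t^2/2` -/
theorem one_sub_cs_Bl_le {d : ℕ} (hd : 0 < d) (ξ : X d) :
    1 - cs (Bl d) ξ ≤ 2 * π ^ 2 * sg d * ‖ξ‖ ^ 2 := by
  have h1 : 1 - cs (Bl d) ξ = ∫ x in Bl d, (1 - Real.cos (2 * π * ⟪x, ξ⟫_ℝ)) := by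
    rw [integral_sub (integrableOn_Bl (by fun_prop)) (integrableOn_Bl (by fun_prop)),
      integral_Bl_one hd]
    rfl
  rw [h1]
  calc ∫ x in Bl d, (1 - Real.cos (2 * π * ⟪x, ξ⟫_ℝ))
      ≤ ∫ x in Bl d, (2 * π ^ 2) * ⟪x, ξ⟫_ℝ ^ 2 := by
        refine setIntegral_mono_on (integrableOn_Bl (by fun_prop)) (integrableOn_Bl (by fun_prop))
          (measurableSet_Bl d) fun x _ => ?_
        have := Real.one_sub_sq_div_two_le_cos (x := 2 * π * ⟪x, ξ⟫_ℝ)
        nlinarith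
    _ = 2 * π ^ 2 * sg d * ‖ξ‖ ^ 2 := by
        rw [integral_const_mul, ball_iso hd]
        ring

lemma cs_Bl_le_one {d : ℕ} (hd : 0 < d) (ξ : X d) : cs (Bl d) ξ ≤ 1 := by
  calc cs (Bl d) ξ ≤ ∫ _x in Bl d, (1 : ℝ) :=
        setIntegral_mono_on (integrableOn_Bl (by fun_prop)) (integrableOn_Bl (by fun_prop))
          (measurableSet_Bl d) fun x _ => Real.cos_le_one _
    _ = 1 := integral_Bl_one hd

theorem one_sub_PP_Bl_le {d : ℕ} (hd : 0 < d) (ξ : X d) :
    1 - PP (Bl d) ξ ≤ 4 * π ^ 2 * sg d * ‖ξ‖ ^ 2 := by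
  rw [PP_Bl_eq]
  have h1 := one_sub_cs_Bl_le hd ξ
  have h2 := cs_Bl_le_one hd ξ
  nlinarith [sq_nonneg (cs (Bl d) ξ - 1)]

lemma pow_sub_pow_le' (n : ℕ) {T : ℝ} (hT : 0 ≤ T) : ∃ C : ℝ, 0 < C ∧ ∀ s t : ℝ, 0 ≤ s → s ≤ t →
    t ≤ T → t ^ n - s ^ n ≤ C * (t - s) := by
  induction n with
  | zero => exact ⟨1, one_pos, fun s t _ h _ => by simp; linarith⟩
  | succ n ih =>
    obtain ⟨C, hC, h⟩ := ih
    refine ⟨T * C + T ^ n + 1, by positivity, fun s t hs hst ht => ?_⟩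
    have h1 := h s t hs hst ht
    have h2 : s ^ n ≤ T ^ n := pow_le_pow_left₀ hs (hst.trans ht) n
    have h3 : t ^ (n + 1) - s ^ (n + 1) = t * (t ^ n - s ^ n) + s ^ n * (t - s) := by ring
    have h4 : 0 ≤ t ^ n - s ^ n := by
      have := pow_le_pow_left₀ hs hst n
      linarith
    have h5 : t * (t ^ n - s ^ n) ≤ T * (C * (t - s)) :=
      mul_le_mul ht h1 h4 hT
    have h6 : s ^ n * (t - s) ≤ T ^ n * (t - s) :=
      mul_le_mul_of_nonneg_right h2 (by linarith)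
    rw [h3]
    nlinarith

/-- volume of thin shells -/
theorem shell_vol {d : ℕ} (hd : 0 < d) : ∃ C : ℝ, 0 < C ∧ ∀ s t : ℝ, 0 ≤ s → s ≤ t → t ≤ 2 * rd d →
    volume.real {x : X d | s ≤ ‖x‖ ∧ ‖x‖ ≤ t} ≤ C * (t - s) := by
  have : Nonempty (Fin d) := ⟨⟨0, hd⟩⟩
  have hr := rd_pos d
  obtain ⟨C, hC, h⟩ := pow_sub_pow_le' d (T := 2 * rd d) (by positivity)
  refine ⟨C * volume.real (Metric.closedBall (0 : X d) 1), mul_pos hC (vball_pos d), ?_⟩
  intro s t hs hst ht
  have h1 : {x : X d | s ≤ ‖x‖ ∧ ‖x‖ ≤ t} = Metric.closedBall 0 t \ Metric.ball 0 s := by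
    ext x
    rw [Set.mem_sdiff]
    simp only [mem_ofPred_eq, Metric.mem_closedBall, dist_zero_right, Metric.mem_ball, not_lt]
    tauto
  have h2 : volume.real (Metric.ball (0 : X d) s) =
      s ^ d * volume.real (Metric.closedBall (0 : X d) 1) := by
    rw [← vol_closedBall d hs, measureReal_def, measureReal_def,
      Measure.addHaar_closedBall_eq_addHaar_ball]
  rw [h1, measureReal_sdiff (Metric.ball_subset_closedBall.trans (Metric.closedBall_subset_closedBall hst))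
    Metric.isOpen_ball.measurableSet (h₁ := measure_closedBall_lt_top.ne), h2,
    vol_closedBall d (hs.trans hst)]
  have h3 := h s t hs hst ht
  have := vball_pos d
  nlinarith

/-- decay of the transform: translate by `h = ξ/(2|ξ|^2)`, which changes the sign of the transform,
and `|B ∆ (B+h)| ≤ C|h|` -/
theorem PP_Bl_decay {d : ℕ} (hd : 0 < d) : ∃ C : ℝ, 0 < C ∧ ∀ ξ : X d,
    ‖ξ‖ ^ 2 * PP (Bl d) ξ ≤ C := by
  obtain ⟨C, hC, hsh⟩ := shell_vol hd
  have hr := rd_pos d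
  refine ⟨(1 / (2 * rd d)) ^ 2 + C ^ 2, by positivity, fun ξ => ?_⟩
  rcases le_total ‖ξ‖ (1 / (2 * rd d)) with h1 | h1
  · have h2 := PP_le_one (unitVol_Bl hd) ξ
    have h3 := PP_nonneg (Bl d) ξ
    have h4 : ‖ξ‖ ^ 2 ≤ (1 / (2 * rd d)) ^ 2 := by gcongr
    calc ‖ξ‖ ^ 2 * PP (Bl d) ξ ≤ (1 / (2 * rd d)) ^ 2 * 1 := by gcongr
      _ ≤ _ := by nlinarith [sq_nonneg C]
  · have hξ : 0 < ‖ξ‖ := lt_of_lt_of_le (by positivity) h1
    set h : X d := (1 / (2 * ‖ξ‖ ^ 2)) • ξ with hh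
    have hn : ‖h‖ = 1 / (2 * ‖ξ‖) := by
      rw [hh, norm_smul, Real.norm_of_nonneg (by positivity)]
      field_simp
    have hle : ‖h‖ ≤ rd d := by
      rw [hn]
      rw [div_le_iff₀ (by positivity)] at h1 ⊢
      nlinarith
    have hin : ⟪h, ξ⟫_ℝ = 1 / 2 := by
      rw [hh, inner_smul_left, real_inner_self_eq_norm_sq]
      simp
      field_simp
    have hcos : ∀ x : X d, Real.cos (2 * π * ⟪x + h, ξ⟫_ℝ) = - Real.cos (2 * π * ⟪x, ξ⟫_ℝ) := by
      intro x
      rw [inner_add_left, hin]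
      have : 2 * π * (⟪x, ξ⟫_ℝ + 1 / 2) = 2 * π * ⟪x, ξ⟫_ℝ + π := by ring
      rw [this, Real.cos_add_pi]
    set f : X d → ℝ := fun x => Real.cos (2 * π * ⟪x, ξ⟫_ℝ) with hf
    have hfc : Continuous f := by fun_prop
    have hf1 : ∀ x, |f x| ≤ 1 := fun x => Real.abs_cos_le_one _
    have e1 : cs (Bl d) ξ = ∫ x, (Bl d).indicator f x := by
      rw [integral_indicator (measurableSet_Bl d)]
      rfl
    have e2 : - cs (Bl d) ξ = ∫ x, (Bl d).indicator (fun y => f (y + h)) (x - h) := by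
      rw [integral_sub_right_eq_self (fun x => (Bl d).indicator (fun y => f (y + h)) x) h,
        integral_indicator (measurableSet_Bl d)]
      simp only [hf, hcos, integral_neg]
      rfl
    have i1 : Integrable ((Bl d).indicator f) :=
      (integrable_indicator_iff (measurableSet_Bl d)).mpr (integrableOn_Bl hfc)
    have i2 : Integrable (fun x => (Bl d).indicator (fun y => f (y + h)) (x - h)) := by
      refine Integrable.comp_sub_right (f := fun x => (Bl d).indicator (fun y => f (y + h)) x) ?_ h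
      exact (integrable_indicator_iff (measurableSet_Bl d)).mpr (integrableOn_Bl (by fun_prop))
    set Sh : Set (X d) := {x : X d | rd d - ‖h‖ ≤ ‖x‖ ∧ ‖x‖ ≤ rd d + ‖h‖} with hSh
    have hShm : MeasurableSet Sh := by
      apply MeasurableSet.inter
      · exact measurableSet_le measurable_const measurable_norm
      · exact measurableSet_le measurable_norm measurable_const
    have hShf : volume Sh ≠ ⊤ := by
      refine ((measure_mono (t := Metric.closedBall (0 : X d) (rd d + ‖h‖)) ?_).trans_lt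
        measure_closedBall_lt_top).ne
      rintro x ⟨_, hx⟩
      simpa using hx
    have e3 : 2 * cs (Bl d) ξ =
        ∫ x, ((Bl d).indicator f x - (Bl d).indicator (fun y => f (y + h)) (x - h)) := by
      rw [integral_sub i1 i2, ← e1, ← e2]
      ring
    have e4 : |2 * cs (Bl d) ξ| ≤ volume.real Sh := by
      rw [e3, ← Real.norm_eq_abs]
      have e5 : volume.real Sh = ∫ x, Sh.indicator (fun _ => (1 : ℝ)) x := by
        rw [integral_indicator hShm, setIntegral_const]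
        simp
      rw [e5]
      refine norm_integral_le_of_norm_le
        ((integrable_indicator_iff hShm).mpr (integrableOn_const hShf)) (Eventually.of_forall ?_)
      intro x
      rw [Real.norm_eq_abs]
      have hsub : x - h + h = x := by abel
      by_cases hx : x ∈ Bl d <;> by_cases hxh : x - h ∈ Bl d
      · rw [indicator_of_mem hx, indicator_of_mem hxh]
        simp only [hsub, sub_self, abs_zero]
        exact indicator_nonneg (fun _ _ => zero_le_one) _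
      · rw [indicator_of_mem hx, indicator_of_notMem hxh, sub_zero]
        have hm : x ∈ Sh := by
          simp only [Bl, Metric.mem_closedBall, dist_zero_right, not_le] at hx hxh
          have := norm_sub_le x h
          exact ⟨by linarith, by linarith [norm_nonneg h]⟩
        rw [indicator_of_mem hm]
        exact hf1 x
      · rw [indicator_of_notMem hx, indicator_of_mem hxh, zero_sub, abs_neg]
        have hm : x ∈ Sh := by
          simp only [Bl, Metric.mem_closedBall, dist_zero_right, not_le] at hx hxh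
          have := norm_sub_norm_le x h
          exact ⟨by linarith [norm_nonneg h], by linarith⟩
        rw [indicator_of_mem hm]
        simp only [hsub]
        exact hf1 x
      · rw [indicator_of_notMem hx, indicator_of_notMem hxh]
        simp only [sub_self, abs_zero]
        exact indicator_nonneg (fun _ _ => zero_le_one) _
    have e6 := hsh (rd d - ‖h‖) (rd d + ‖h‖) (by linarith) (by linarith [norm_nonneg h])
      (by linarith)
    have e7 : |2 * cs (Bl d) ξ| ≤ C / ‖ξ‖ := by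
      refine (e4.trans e6).trans (le_of_eq ?_)
      rw [hn]
      field_simp
      ring
    have e8 : |cs (Bl d) ξ| ≤ C / ‖ξ‖ := by
      rw [abs_mul, abs_two] at e7
      linarith [abs_nonneg (cs (Bl d) ξ)]
    have e9 : ‖ξ‖ ^ 2 * PP (Bl d) ξ ≤ C ^ 2 := by
      rw [PP_Bl_eq, ← sq_abs (cs (Bl d) ξ)]
      calc ‖ξ‖ ^ 2 * |cs (Bl d) ξ| ^ 2 ≤ ‖ξ‖ ^ 2 * (C / ‖ξ‖) ^ 2 := by gcongr
        _ = C ^ 2 := by field_simp
    have : 0 ≤ (1 / (2 * rd d)) ^ 2 := by positivity
    linarith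

/-- `P^p ≥ exp(-px) (1 - 2 p x^2)` if `P ≥ 1 - x`, `P ≥ 0` -/
lemma rpow_lower {P x p : ℝ} (hP : 0 ≤ P) (hx : 0 ≤ x) (h : 1 - P ≤ x) (hp : 4 ≤ p) :
    Real.exp (-p * x) * (1 - 2 * p * x ^ 2) ≤ P ^ p := by
  rcases le_total x (1 / 2) with h1 | h1
  · have h2 : 0 < 1 - x := by linarith
    have h3 : (1 - x) ^ p ≤ P ^ p := Real.rpow_le_rpow h2.le (by linarith) (by linarith)
    have h4 : -x - 2 * x ^ 2 ≤ Real.log (1 - x) := by
      have h5 := Real.one_sub_inv_le_log_of_pos h2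
      have h6 : -x - 2 * x ^ 2 ≤ 1 - (1 - x)⁻¹ := by
        rw [le_sub_iff_add_le, ← le_sub_iff_add_le', inv_le_iff_one_le_mul₀ h2]
        nlinarith [sq_nonneg x, mul_nonneg hx (sq_nonneg x)]
      linarith
    calc Real.exp (-p * x) * (1 - 2 * p * x ^ 2)
        ≤ Real.exp (-p * x) * Real.exp (-(2 * p * x ^ 2)) := by
          gcongr
          have := Real.add_one_le_exp (-(2 * p * x ^ 2))
          linarith
      _ = Real.exp (p * (-x - 2 * x ^ 2)) := by
          rw [← Real.exp_add]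
          congr 1
          ring
      _ ≤ Real.exp (p * Real.log (1 - x)) := by
          gcongr
      _ = (1 - x) ^ p := by
          rw [Real.rpow_def_of_pos h2, mul_comm]
      _ ≤ P ^ p := h3
  · have h2 : 1 - 2 * p * x ^ 2 ≤ 0 := by nlinarith [mul_self_le_mul_self (by norm_num) h1]
    have h3 : Real.exp (-p * x) * (1 - 2 * p * x ^ 2) ≤ 0 :=
      mul_nonpos_of_nonneg_of_nonpos (Real.exp_pos _).le h2
    exact h3.trans (Real.rpow_nonneg hP _)

/-- lower bound for the ball; `(1-x)_+^p ≥ exp(-px) (1 - p x^2)` for `x ≥ 0`, `p ≥ 4` -/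
theorem ball_lower {d : ℕ} (hd : 0 < d) : ∃ C : ℝ, 0 < C ∧ ∀ p : ℝ, 4 ≤ p →
    (4 * π * sg d) ^ (-(d : ℝ) / 2) - C / p ≤ p ^ ((d : ℝ) / 2) * MM p (Bl d) := by
  have hs := sg_pos hd
  set a : ℝ := 4 * π ^ 2 * sg d with ha
  have ha0 : 0 < a := by positivity
  set K : ℝ := ∫ ξ : X d, ‖ξ‖ ^ 4 * Real.exp (-a * ‖ξ‖ ^ 2) with hK
  have hK0 : 0 ≤ K := integral_nonneg fun ξ => by positivity
  refine ⟨2 * a ^ 2 * K + 1, by positivity, fun p hp => ?_⟩
  have hp0 : 0 < p := by linarith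
  have i0 : Integrable (fun ξ : X d => Real.exp (-(a * p) * ‖ξ‖ ^ 2)) := by
    have := exp_mom_integrable d 0 (c := a * p) (by positivity)
    simpa using this
  have i4 : Integrable (fun ξ : X d => ‖ξ‖ ^ 4 * Real.exp (-(a * p) * ‖ξ‖ ^ 2)) :=
    exp_mom_integrable d 4 (c := a * p) (by positivity)
  have g0 : ∫ ξ : X d, Real.exp (-(a * p) * ‖ξ‖ ^ 2) =
      p ^ (-(d : ℝ) / 2) * (4 * π * sg d) ^ (-(d : ℝ) / 2) := by
    rw [GaussianFourier.integral_rexp_neg_mul_sq_norm (by positivity), finrank_euclideanSpace_fin,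
      ← Real.mul_rpow (by positivity) (by positivity)]
    have e1 : π / (a * p) = (p * (4 * π * sg d))⁻¹ := by
      rw [ha]
      field_simp
    rw [e1, Real.inv_rpow (by positivity), ← Real.rpow_neg (by positivity)]
    congr 1
    ring
  have g4 : ∫ ξ : X d, ‖ξ‖ ^ 4 * Real.exp (-(a * p) * ‖ξ‖ ^ 2) =
      p ^ (-((d : ℝ) + 4) / 2) * K := by
    have h2 := exp_mom d 4 (c := a) (p := p) ha0 hp0
    simp only [Nat.cast_ofNat] at h2
    rw [← neg_mul, h2]
  have h1 : ∫ ξ : X d, (Real.exp (-(a * p) * ‖ξ‖ ^ 2)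
      - 2 * p * a ^ 2 * (‖ξ‖ ^ 4 * Real.exp (-(a * p) * ‖ξ‖ ^ 2))) ≤ MM p (Bl d) := by
    unfold MM
    refine integral_mono (i0.sub (i4.const_mul _))
      (PP_rpow_integrable (unitVol_Bl hd) (by linarith)) fun ξ => ?_
    have h2 := rpow_lower (P := PP (Bl d) ξ) (x := a * ‖ξ‖ ^ 2) (p := p) (PP_nonneg _ _)
      (by positivity) (one_sub_PP_Bl_le hd ξ) hp
    simp only
    have h3 : Real.exp (-(a * p) * ‖ξ‖ ^ 2)
      - 2 * p * a ^ 2 * (‖ξ‖ ^ 4 * Real.exp (-(a * p) * ‖ξ‖ ^ 2))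
      = Real.exp (-p * (a * ‖ξ‖ ^ 2)) * (1 - 2 * p * (a * ‖ξ‖ ^ 2) ^ 2) := by
      have h4 : -(a * p) * ‖ξ‖ ^ 2 = -p * (a * ‖ξ‖ ^ 2) := by ring
      rw [h4]
      ring
    rw [h3]
    exact h2
  rw [integral_sub i0 (i4.const_mul _), integral_const_mul, g0, g4] at h1
  have hpd : 0 < p ^ ((d : ℝ) / 2) := Real.rpow_pos_of_pos hp0 _
  have h5 := mul_le_mul_of_nonneg_left h1 hpd.le
  refine le_trans ?_ h5
  have e2 : p ^ ((d : ℝ) / 2) * p ^ (-(d : ℝ) / 2) = 1 := by
    rw [← Real.rpow_add hp0]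
    have : (d : ℝ) / 2 + -(d : ℝ) / 2 = 0 := by ring
    rw [this, Real.rpow_zero]
  have e3 : p ^ ((d : ℝ) / 2) * p ^ (-((d : ℝ) + 4) / 2) = 1 / p ^ 2 := by
    rw [← Real.rpow_add hp0]
    have : (d : ℝ) / 2 + -((d : ℝ) + 4) / 2 = -2 := by ring
    rw [this, Real.rpow_neg hp0.le, one_div]
    norm_cast
  have e4 : p ^ ((d : ℝ) / 2) * (p ^ (-(d : ℝ) / 2) * (4 * π * sg d) ^ (-(d : ℝ) / 2)
      - 2 * p * a ^ 2 * (p ^ (-((d : ℝ) + 4) / 2) * K))
      = (p ^ ((d : ℝ) / 2) * p ^ (-(d : ℝ) / 2)) * (4 * π * sg d) ^ (-(d : ℝ) / 2)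
        - 2 * p * a ^ 2 * K * (p ^ ((d : ℝ) / 2) * p ^ (-((d : ℝ) + 4) / 2)) := by ring
  rw [e4, e2, e3, one_mul]
  have e5 : 2 * p * a ^ 2 * K * (1 / p ^ 2) = 2 * a ^ 2 * K / p := by
    field_simp
  rw [e5]
  have e6 : (2 * a ^ 2 * K + 1) / p = 2 * a ^ 2 * K / p + 1 / p := by ring
  rw [e6]
  have : 0 < 1 / p := by positivity
  linarith

end Pool.Agent.H82.Max
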