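import Pool.Agent.H82.Max.Defs
import Pool.Agent.H51.Maxi.Affine
import Pool.Agent.H51.Maxi.Planch

open MeasureTheory Set Filter Topology FourierTransform
open scoped ENNReal Real InnerProductSpace symmDiff

namespace Pool.Agent.H82.Max

variable {d : ℕ}

theorem fin_restrict {E : Set (X d)} (hE' : volume E ≠ ⊤) :
    IsFiniteMeasure (volume.restrict E) := ⟨by simpa using hE'.lt_top⟩

theorem cos_meas (ξ : X d) : Measurable fun x : X d => Real.cos (2 * π * ⟪x, ξ⟫_ℝ) := by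
  fun_prop

theorem sin_meas (ξ : X d) : Measurable fun x : X d => Real.sin (2 * π * ⟪x, ξ⟫_ℝ) := by
  fun_prop

theorem cos_int {ν : Measure (X d)} [IsFiniteMeasure ν] (ξ : X d) :
    Integrable (fun x : X d => Real.cos (2 * π * ⟪x, ξ⟫_ℝ)) ν :=
  (integrable_const (1 : ℝ)).mono' (cos_meas ξ).aestronglyMeasurable
    (ae_of_all _ fun _ => Real.abs_cos_le_one _)

theorem sin_int {ν : Measure (X d)} [IsFiniteMeasure ν] (ξ : X d) :
    Integrable (fun x : X d => Real.sin (2 * π * ⟪x, ξ⟫_ℝ)) ν :=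
  (integrable_const (1 : ℝ)).mono' (sin_meas ξ).aestronglyMeasurable
    (ae_of_all _ fun _ => Real.abs_sin_le_one _)

theorem fourier_ind_eq {E : Set (X d)} (hE : MeasurableSet E) (hE' : volume E ≠ ⊤) (ξ : X d) :
    𝓕 (E.indicator fun _ => (1 : ℂ)) ξ = ((cs E ξ : ℝ) : ℂ) - ((sn E ξ : ℝ) : ℂ) * Complex.I := by
  have := fin_restrict hE'
  rw [Real.fourier_eq']
  have h1 : (fun v : X d => Complex.exp (((-2 * π * ⟪v, ξ⟫_ℝ : ℝ) : ℂ) * Complex.I) •
      (E.indicator (fun _ => (1 : ℂ)) v)) = E.indicator fun v : X d =>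
        ((Real.cos (2 * π * ⟪v, ξ⟫_ℝ) : ℝ) : ℂ) -
          ((Real.sin (2 * π * ⟪v, ξ⟫_ℝ) : ℝ) : ℂ) * Complex.I := by
    ext v
    by_cases hv : v ∈ E
    · rw [indicator_of_mem hv, indicator_of_mem hv, smul_eq_mul, mul_one, Complex.exp_mul_I,
        ← Complex.ofReal_cos, ← Complex.ofReal_sin]
      have : -2 * π * ⟪v, ξ⟫_ℝ = -(2 * π * ⟪v, ξ⟫_ℝ) := by ring
      rw [this, Real.cos_neg, Real.sin_neg]
      push_cast
      ring
    · rw [indicator_of_notMem hv, indicator_of_notMem hv, smul_zero]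
  rw [h1, integral_indicator hE, integral_sub, integral_mul_const, integral_complex_ofReal,
    integral_complex_ofReal]
  · rfl
  · exact (cos_int ξ).ofReal
  · exact ((sin_int ξ).ofReal).mul_const _

theorem PP_eq {E : Set (X d)} (hE : MeasurableSet E) (hE' : volume E ≠ ⊤) (ξ : X d) :
    PP E ξ = ‖𝓕 (E.indicator fun _ => (1 : ℂ)) ξ‖ ^ 2 := by
  rw [fourier_ind_eq hE hE', ← Complex.normSq_eq_norm_sq, Complex.normSq_apply]
  simp [PP]
  ring

theorem PP_nonneg (E : Set (X d)) (ξ : X d) : 0 ≤ PP E ξ := by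
  unfold PP; positivity

theorem PP_congr {E F : Set (X d)} (h : E =ᵐ[volume] F) : PP E = PP F := by
  ext ξ
  unfold PP cs sn
  rw [setIntegral_congr_set h, setIntegral_congr_set h]

theorem PP_zero {E : Set (X d)} : PP E 0 = volume.real E ^ 2 := by
  simp [PP, cs, sn, measureReal_def]

theorem PP_neg (E : Set (X d)) (ξ : X d) : PP E (-ξ) = PP E ξ := by
  simp [PP, cs, sn, integral_neg]

theorem ind_int {E : Set (X d)} (hE : MeasurableSet E) (hE' : volume E ≠ ⊤) :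
    Integrable (E.indicator fun _ => (1 : ℂ)) volume := by
  rw [integrable_indicator_iff hE]
  exact integrableOn_const hE'

theorem ind_mem {E : Set (X d)} (hE : MeasurableSet E) (hE' : volume E ≠ ⊤) :
    MemLp (E.indicator fun _ => (1 : ℂ)) 2 volume :=
  memLp_indicator_const 2 hE (1 : ℂ) (Or.inr hE')

theorem PP_le_sq {E : Set (X d)} (hE : MeasurableSet E) (hE' : volume E ≠ ⊤) (ξ : X d) :
    PP E ξ ≤ volume.real E ^ 2 := by
  rw [PP_eq hE hE']
  refine pow_le_pow_left₀ (norm_nonneg _) ?_ 2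
  rw [Real.fourier_eq']
  refine (norm_integral_le_integral_norm _).trans ?_
  have h1 : (fun v : X d => ‖Complex.exp (((-2 * π * ⟪v, ξ⟫_ℝ : ℝ) : ℂ) * Complex.I) •
      (E.indicator (fun _ => (1 : ℂ)) v)‖) = E.indicator fun _ => (1 : ℝ) := by
    ext v
    rw [norm_smul, Complex.norm_exp_ofReal_mul_I, one_mul]
    by_cases hv : v ∈ E
    · rw [indicator_of_mem hv, indicator_of_mem hv, norm_one]
    · rw [indicator_of_notMem hv, indicator_of_notMem hv, norm_zero]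
  rw [h1, integral_indicator hE]
  simp

theorem UnitVol.ne_top {E : Set (X d)} (hE : UnitVol E) : volume E ≠ ⊤ := by
  rw [hE.vol]; exact ENNReal.one_ne_top

theorem UnitVol.real {E : Set (X d)} (hE : UnitVol E) : volume.real E = 1 := by
  rw [measureReal_def, hE.vol, ENNReal.toReal_one]

theorem PP_le_one {E : Set (X d)} (hE : UnitVol E) (ξ : X d) : PP E ξ ≤ 1 := by
  have := PP_le_sq hE.meas hE.ne_top ξ
  rwa [hE.real, one_pow] at this

theorem cs_continuous {E : Set (X d)} (_hE : MeasurableSet E) (hE' : volume E ≠ ⊤) :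
    Continuous (cs E) := by
  have := fin_restrict hE'
  unfold cs
  refine continuous_of_dominated (bound := fun _ => (1 : ℝ)) ?_ ?_ (integrable_const _) ?_
  · exact fun ξ => (cos_meas ξ).aestronglyMeasurable
  · exact fun ξ => ae_of_all _ fun _ => Real.abs_cos_le_one _
  · exact ae_of_all _ fun x => by fun_prop

theorem sn_continuous {E : Set (X d)} (_hE : MeasurableSet E) (hE' : volume E ≠ ⊤) :
    Continuous (sn E) := by
  have := fin_restrict hE'
  unfold sn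
  refine continuous_of_dominated (bound := fun _ => (1 : ℝ)) ?_ ?_ (integrable_const _) ?_
  · exact fun ξ => (sin_meas ξ).aestronglyMeasurable
  · exact fun ξ => ae_of_all _ fun _ => Real.abs_sin_le_one _
  · exact ae_of_all _ fun x => by fun_prop

theorem PP_continuous {E : Set (X d)} (hE : MeasurableSet E) (hE' : volume E ≠ ⊤) :
    Continuous (PP E) := by
  unfold PP
  exact ((cs_continuous hE hE').pow 2).add ((sn_continuous hE hE').pow 2)

/-- Plancherel -/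
theorem PP_integrable {E : Set (X d)} (hE : UnitVol E) : Integrable (PP E) := by
  have h := (Pool.Agent.H51.Maxi.memLp_fourier (ind_int hE.meas hE.ne_top)
    (ind_mem hE.meas hE.ne_top))
  have h2 := (memLp_two_iff_integrable_sq_norm h.1).1 h
  refine h2.congr (ae_of_all _ fun ξ => ?_)
  exact (PP_eq hE.meas hE.ne_top ξ).symm

theorem integral_PP {E : Set (X d)} (hE : UnitVol E) : ∫ ξ, PP E ξ = 1 := by
  simp only [PP_eq hE.meas hE.ne_top]
  rw [Pool.Agent.H51.Maxi.integral_fourier_sq (ind_int hE.meas hE.ne_top)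
    (ind_mem hE.meas hE.ne_top)]
  have h1 : (fun x : X d => ‖E.indicator (fun _ => (1 : ℂ)) x‖ ^ 2) =
      E.indicator fun _ => (1 : ℝ) := by
    ext v
    by_cases hv : v ∈ E
    · rw [indicator_of_mem hv, indicator_of_mem hv, norm_one, one_pow]
    · rw [indicator_of_notMem hv, indicator_of_notMem hv, norm_zero]
      simp
  rw [h1, integral_indicator hE.meas]
  simp [hE.real]

/-- Riemann-Lebesgue -/
theorem PP_tendsto {E : Set (X d)} (hE : UnitVol E) :
    Tendsto (PP E) (cocompact (X d)) (𝓝 0) := by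
  have h := tendsto_integral_exp_inner_smul_cocompact (V := X d) (E.indicator fun _ => (1 : ℂ))
  have h2 : Tendsto (fun w : X d => ‖𝓕 (E.indicator fun _ => (1 : ℂ)) w‖ ^ 2)
      (cocompact (X d)) (𝓝 0) := by
    have := (h.norm).pow 2
    simpa [Real.fourier_eq] using this
  refine h2.congr fun ξ => (PP_eq hE.meas hE.ne_top ξ).symm

theorem PP_rpow_integrable {E : Set (X d)} (hE : UnitVol E) {p : ℝ} (hp : 1 ≤ p) :
    Integrable (fun ξ => PP E ξ ^ p) := by
  refine (PP_integrable hE).mono' ?_ (ae_of_all _ fun ξ => ?_)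
  · exact ((PP_continuous hE.meas hE.ne_top).measurable.pow_const p).aestronglyMeasurable
  · have h0 := PP_nonneg E ξ
    have h1 := PP_le_one hE ξ
    rw [Real.norm_eq_abs, abs_of_nonneg (Real.rpow_nonneg h0 p)]
    rcases h0.eq_or_lt with h | h
    · rw [← h, Real.zero_rpow (by linarith)]
    · calc PP E ξ ^ p ≤ PP E ξ ^ (1 : ℝ) := Real.rpow_le_rpow_of_exponent_ge h h1 hp
        _ = PP E ξ := Real.rpow_one _

/-- relation with the functional of `Pool.Agent.H51.Maxi` -/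
theorem JE_eq {E : Set (X d)} (hE : UnitVol E) {q : ℝ} (hq : 2 ≤ q) :
    Pool.Agent.H51.Maxi.JE q E = ENNReal.ofReal (MM (q / 2) E) := by
  unfold Pool.Agent.H51.Maxi.JE MM
  rw [ofReal_integral_eq_lintegral_ofReal (PP_rpow_integrable hE (by linarith))
    (ae_of_all _ fun ξ => Real.rpow_nonneg (PP_nonneg E ξ) _)]
  refine lintegral_congr fun ξ => ?_
  rw [PP_eq hE.meas hE.ne_top, ← ofReal_norm, ENNReal.ofReal_rpow_of_nonneg (norm_nonneg _)
    (by linarith), ← Real.rpow_natCast, ← Real.rpow_mul (norm_nonneg _)]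
  congr 2
  push_cast
  ring

theorem Wf_prod_int {μ ν : Measure (X d)} [IsFiniteMeasure μ] [IsFiniteMeasure ν] (ξ : X d) :
    Integrable (fun q : X d × X d => 1 - Real.cos (2 * π * ⟪q.1 - q.2, ξ⟫_ℝ)) (μ.prod ν) := by
  refine (integrable_const (2 : ℝ)).mono' (by fun_prop) (ae_of_all _ fun q => ?_)
  rw [Real.norm_eq_abs, abs_le]
  constructor <;> linarith [Real.neg_one_le_cos (2 * π * ⟪q.1 - q.2, ξ⟫_ℝ),
    Real.cos_le_one (2 * π * ⟪q.1 - q.2, ξ⟫_ℝ)]

/-- `1 - |hat 1_E|^2 = ∫∫_{E×E} (1 - cos)` and its version for a subset -/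
theorem sq_sub_PP {N : Set (X d)} (hN : MeasurableSet N) (hN' : volume N ≠ ⊤) (ξ : X d) :
    volume.real N ^ 2 - PP N ξ =
      Wf ((volume.restrict N).prod (volume.restrict N)) (fun q : X d × X d => q.1 - q.2) ξ := by
  have := fin_restrict hN'
  unfold Wf
  have h1 : (fun q : X d × X d => 1 - Real.cos (2 * π * ⟪q.1 - q.2, ξ⟫_ℝ)) = fun q =>
      1 - (Real.cos (2 * π * ⟪q.1, ξ⟫_ℝ) * Real.cos (2 * π * ⟪q.2, ξ⟫_ℝ) +
        Real.sin (2 * π * ⟪q.1, ξ⟫_ℝ) * Real.sin (2 * π * ⟪q.2, ξ⟫_ℝ)) := by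
    ext q
    rw [inner_sub_left, mul_sub, Real.cos_sub]
  rw [h1, integral_sub (integrable_const _), integral_add, integral_prod_mul
    (fun x : X d => Real.cos (2 * π * ⟪x, ξ⟫_ℝ)) (fun x : X d => Real.cos (2 * π * ⟪x, ξ⟫_ℝ)),
    integral_prod_mul
    (fun x : X d => Real.sin (2 * π * ⟪x, ξ⟫_ℝ)) (fun x : X d => Real.sin (2 * π * ⟪x, ξ⟫_ℝ))]
  · unfold PP cs sn
    have h2 : ((volume.restrict N).prod (volume.restrict N)).real univ = volume.real N ^ 2 := by
      rw [measureReal_def, ← univ_prod_univ, Measure.prod_prod, ENNReal.toReal_mul,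
        Measure.restrict_apply_univ, sq, measureReal_def]
    simp only [integral_const, smul_eq_mul, mul_one, h2]
    ring
  · exact (cos_int ξ).mul_prod (cos_int ξ)
  · exact (sin_int ξ).mul_prod (sin_int ξ)
  · exact ((cos_int ξ).mul_prod (cos_int ξ)).add ((sin_int ξ).mul_prod (sin_int ξ))

theorem one_sub_PP {E : Set (X d)} (hE : UnitVol E) (ξ : X d) :
    1 - PP E ξ =
      Wf ((volume.restrict E).prod (volume.restrict E)) (fun q : X d × X d => q.1 - q.2) ξ := by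
  rw [← sq_sub_PP hE.meas hE.ne_top, hE.real, one_pow]

theorem one_sub_cos_nonneg (t : ℝ) : 0 ≤ 1 - Real.cos t := by
  linarith [Real.cos_le_one t]

/-- lower bound by the pairs `N×N` and `N×F`, `F×N` for disjoint `N, F ⊆ E` -/
theorem Wf_add_le_one_sub_PP {E N F : Set (X d)} (hE : UnitVol E) (hN : MeasurableSet N)
    (hF : MeasurableSet F) (hNE : N ⊆ E) (hFE : F ⊆ E) (hNF : Disjoint N F) (ξ : X d) :
    Wf ((volume.restrict N).prod (volume.restrict N)) (fun q : X d × X d => q.1 - q.2) ξ +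
      2 * Wf ((volume.restrict N).prod (volume.restrict F)) (fun q : X d × X d => q.1 - q.2) ξ ≤
    1 - PP E ξ := by
  have hfE := fin_restrict hE.ne_top
  have hN' : volume N ≠ ⊤ := ((measure_mono hNE).trans_lt hE.ne_top.lt_top).ne
  have hF' : volume F ≠ ⊤ := ((measure_mono hFE).trans_lt hE.ne_top.lt_top).ne
  have hfN := fin_restrict hN'
  have hfF := fin_restrict hF'
  set g : X d × X d → ℝ := fun q => 1 - Real.cos (2 * π * ⟪q.1 - q.2, ξ⟫_ℝ) with hg
  have hg0 : ∀ q, 0 ≤ g q := fun q => one_sub_cos_nonneg _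
  have hgi : IntegrableOn g (E ×ˢ E) (volume.prod volume) := by
    have := Wf_prod_int (μ := volume.restrict E) (ν := volume.restrict E) ξ
    rwa [Measure.prod_restrict] at this
  have hsym : Wf ((volume.restrict N).prod (volume.restrict F)) (fun q : X d × X d => q.1 - q.2) ξ
      = Wf ((volume.restrict F).prod (volume.restrict N)) (fun q : X d × X d => q.1 - q.2) ξ := by
    unfold Wf
    have h := integral_prod_swap (μ := volume.restrict N) (ν := volume.restrict F)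
      (fun q : X d × X d => 1 - Real.cos (2 * π * ⟪q.1 - q.2, ξ⟫_ℝ))
    rw [← h]
    congr 1
    ext q
    simp only [Prod.fst_swap, Prod.snd_swap]
    rw [← Real.cos_neg, ← neg_sub q.2 q.1, inner_neg_left]
    ring_nf
  rw [two_mul]
  nth_rewrite 2 [hsym]
  rw [one_sub_PP hE]
  unfold Wf
  rw [Measure.prod_restrict, Measure.prod_restrict, Measure.prod_restrict, Measure.prod_restrict]
  change (∫ q in N ×ˢ N, g q ∂(volume.prod volume)) + ((∫ q in N ×ˢ F, g q ∂(volume.prod volume)) +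
    ∫ q in F ×ˢ N, g q ∂(volume.prod volume)) ≤ ∫ q in E ×ˢ E, g q ∂(volume.prod volume)
  have d1 : Disjoint (N ×ˢ F) (F ×ˢ N) := by
    rw [Set.disjoint_prod]
    exact Or.inl hNF
  have d2 : Disjoint (N ×ˢ N) (N ×ˢ F ∪ F ×ˢ N) := by
    rw [Set.disjoint_union_right]
    constructor
    · rw [Set.disjoint_prod]
      exact Or.inr hNF
    · rw [Set.disjoint_prod]
      exact Or.inl hNF
  have s1 : N ×ˢ F ⊆ E ×ˢ E := prod_mono hNE hFE
  have s2 : F ×ˢ N ⊆ E ×ˢ E := prod_mono hFE hNE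
  have s3 : N ×ˢ N ⊆ E ×ˢ E := prod_mono hNE hNE
  rw [← setIntegral_union d1 (hF.prod hN) (hgi.mono_set s1) (hgi.mono_set s2),
    ← setIntegral_union d2 ((hN.prod hF).union (hF.prod hN)) (hgi.mono_set s3)
      ((hgi.mono_set s1).union (hgi.mono_set s2))]
  refine setIntegral_mono_set hgi (ae_of_all _ hg0) ?_
  exact (union_subset s3 (union_subset s1 s2)).eventuallyLE

/-- affine images -/
theorem unitVol_image {E : Set (X d)} (hE : UnitVol E) (A : X d ≃ₗ[ℝ] X d)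
    (hA : |LinearMap.det (A : X d →ₗ[ℝ] X d)| = 1) (b : X d) :
    UnitVol ((fun x => A x + b) '' E) := by
  constructor
  · have h1 : MeasurableEmbedding fun x : X d => A x + b :=
      (Homeomorph.addRight b).measurableEmbedding.comp
        (Pool.Agent.H51.Maxi.emb_lin (A := (A : X d →ₗ[ℝ] X d)) (Pool.Agent.H51.Maxi.det_ne A))
    exact h1.measurableSet_image.2 hE.meas
  · rw [Pool.Agent.H51.Maxi.vol_affine, hA, hE.vol]
    simp

theorem PP_image {E : Set (X d)} (hE : UnitVol E) (A : X d ≃ₗ[ℝ] X d)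
    (hA : |LinearMap.det (A : X d →ₗ[ℝ] X d)| = 1) (b : X d) (ξ : X d) :
    PP ((fun x => A x + b) '' E) ξ = PP E (LinearMap.adjoint (A : X d →ₗ[ℝ] X d) ξ) := by
  have hU := unitVol_image hE A hA b
  rw [PP_eq hU.meas hU.ne_top, PP_eq hE.meas hE.ne_top]
  have h := Pool.Agent.H51.Maxi.fourier_affine A b E ξ
  rw [hA, ENNReal.ofReal_one, one_mul] at h
  have h2 := congrArg ENNReal.toReal h
  rw [toReal_enorm, toReal_enorm] at h2
  rw [h2]

theorem MM_nonneg (p : ℝ) (E : Set (X d)) : 0 ≤ MM p E :=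
  integral_nonneg fun ξ => Real.rpow_nonneg (PP_nonneg E ξ) p

theorem MM_image {E : Set (X d)} (hE : UnitVol E) (A : X d ≃ₗ[ℝ] X d)
    (hA : |LinearMap.det (A : X d →ₗ[ℝ] X d)| = 1) (b : X d) {p : ℝ} (hp : 1 ≤ p) :
    MM p ((fun x => A x + b) '' E) = MM p E := by
  have hU := unitVol_image hE A hA b
  have h := Pool.Agent.H51.Maxi.JE_affine (q := 2 * p) (by linarith) A b E
  rw [hA, Real.one_rpow, ENNReal.ofReal_one, one_mul, JE_eq hU (by linarith),
    JE_eq hE (by linarith), show 2 * p / 2 = p by ring] at h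
  exact (ENNReal.ofReal_eq_ofReal_iff (MM_nonneg _ _) (MM_nonneg _ _)).1 h

theorem one_sub_cos_ge (t : ℝ) : t ^ 2 / 2 - t ^ 4 / 24 ≤ 1 - Real.cos t := by
  wlog ht : 0 ≤ t with H
  · have := H (-t) (by linarith)
    rw [Real.cos_neg] at this
    have e1 : (-t) ^ 2 = t ^ 2 := by ring
    have e2 : (-t) ^ 4 = t ^ 4 := by ring
    rw [e1, e2] at this
    exact this
  let f (t : ℝ) : ℝ := 1 - Real.cos t - (t ^ 2 / 2 - t ^ 4 / 24)
  have hderiv (t : ℝ) : deriv f t = Real.sin t - (t - t ^ 3 / 6) := by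
    simp (disch := fun_prop) [f]
    ring
  have hmono : MonotoneOn f (Set.Ici 0) := by
    apply monotoneOn_of_deriv_nonneg (convex_Ici 0) (by fun_prop) (by fun_prop)
    intro x hx
    rw [interior_Ici] at hx
    rw [hderiv]
    linarith [Real.sin_gt_sub_cube hx]
  have h0 : f 0 ≤ f t := hmono (by simp) ht ht
  simp only [f] at h0
  simp at h0
  linarith

theorem quad_int {N : Set (X d)} (hN' : volume N ≠ ⊤)
    {R : ℝ} {y : X d} (hNR : N ⊆ Metric.closedBall y R) (hN : MeasurableSet N) (ξ : X d) :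
    Integrable (fun q : X d × X d => ⟪q.1 - q.2, ξ⟫_ℝ ^ 2)
      ((volume.restrict N).prod (volume.restrict N)) := by
  have := fin_restrict hN'
  have hfm : IsFiniteMeasure ((volume.restrict N).prod (volume.restrict N)) := inferInstance
  rw [Measure.prod_restrict] at hfm ⊢
  refine (integrable_const ((2 * R * ‖ξ‖) ^ 2)).mono' (by fun_prop) ?_
  refine (ae_restrict_iff' (hN.prod hN)).2 (ae_of_all _ fun q hq => ?_)
  rw [Real.norm_eq_abs, abs_of_nonneg (sq_nonneg _), sq_le_sq]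
  have h1 : ‖q.1 - q.2‖ ≤ 2 * R := by
    have a := hNR hq.1
    have b := hNR hq.2
    rw [mem_closedBall_iff_norm] at a b
    calc ‖q.1 - q.2‖ = ‖(q.1 - y) - (q.2 - y)‖ := by congr 1; abel
      _ ≤ ‖q.1 - y‖ + ‖q.2 - y‖ := norm_sub_le _ _
      _ ≤ 2 * R := by linarith
  calc |⟪q.1 - q.2, ξ⟫_ℝ| ≤ ‖q.1 - q.2‖ * ‖ξ‖ := abs_real_inner_le_norm _ _
    _ ≤ 2 * R * ‖ξ‖ := by gcongr
    _ ≤ |2 * R * ‖ξ‖| := le_abs_self _

/-- the quadratic lower bound from a bounded part -/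
theorem quad_lower {E N : Set (X d)} (hE : UnitVol E) (hN : MeasurableSet N) (hNE : N ⊆ E)
    {R : ℝ} (hR : 0 ≤ R) {y : X d} (hNR : N ⊆ Metric.closedBall y R) (ξ : X d) :
    (1 - 14 * R ^ 2 * ‖ξ‖ ^ 2) * (2 * π ^ 2 *
      ∫ x in N, ∫ y in N, ⟪x - y, ξ⟫_ℝ ^ 2) ≤ 1 - PP E ξ := by
  have hN' : volume N ≠ ⊤ := ((measure_mono hNE).trans_lt hE.ne_top.lt_top).ne
  have hfN := fin_restrict hN'
  have hint := quad_int hN' hNR hN ξ
  have e1 : ∫ x in N, ∫ y in N, ⟪x - y, ξ⟫_ℝ ^ 2 =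
      ∫ q, ⟪q.1 - q.2, ξ⟫_ℝ ^ 2 ∂((volume.restrict N).prod (volume.restrict N)) :=
    (integral_prod _ hint).symm
  have e2 := Wf_add_le_one_sub_PP hE hN MeasurableSet.empty hNE (empty_subset E)
    (disjoint_empty N) ξ
  have e3 : Wf ((volume.restrict N).prod (volume.restrict (∅ : Set (X d))))
      (fun q : X d × X d => q.1 - q.2) ξ = 0 := by
    simp [Wf]
  rw [e3, mul_zero, add_zero] at e2
  refine le_trans ?_ e2
  rw [e1, ← integral_const_mul, ← integral_const_mul]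
  unfold Wf
  refine integral_mono_ae (by exact (hint.const_mul _).const_mul _) (Wf_prod_int ξ) ?_
  rw [Measure.prod_restrict]
  refine (ae_restrict_iff' (hN.prod hN)).2 (ae_of_all _ fun q hq => ?_)
  have h1 : ‖q.1 - q.2‖ ≤ 2 * R := by
    have a := hNR hq.1
    have b := hNR hq.2
    rw [mem_closedBall_iff_norm] at a b
    calc ‖q.1 - q.2‖ = ‖(q.1 - y) - (q.2 - y)‖ := by congr 1; abel
      _ ≤ ‖q.1 - y‖ + ‖q.2 - y‖ := norm_sub_le _ _
      _ ≤ 2 * R := by linarith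
  have h2 : ⟪q.1 - q.2, ξ⟫_ℝ ^ 2 ≤ (2 * R * ‖ξ‖) ^ 2 := by
    rw [sq_le_sq]
    calc |⟪q.1 - q.2, ξ⟫_ℝ| ≤ ‖q.1 - q.2‖ * ‖ξ‖ := abs_real_inner_le_norm _ _
      _ ≤ 2 * R * ‖ξ‖ := by gcongr
      _ ≤ |2 * R * ‖ξ‖| := le_abs_self _
  have h3 := one_sub_cos_ge (2 * π * ⟪q.1 - q.2, ξ⟫_ℝ)
  set s := ⟪q.1 - q.2, ξ⟫_ℝ with hs
  refine le_trans ?_ h3
  have hpi : π ^ 2 < 10 := by
    have := Real.pi_lt_d2
    nlinarith [Real.pi_pos]
  have h4 : (2 * π * s) ^ 2 / 2 - (2 * π * s) ^ 4 / 24 = 2 * π ^ 2 * s ^ 2 *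
      (1 - π ^ 2 * s ^ 2 / 3) := by ring
  rw [h4]
  have h5 : (1 - 14 * R ^ 2 * ‖ξ‖ ^ 2) * (2 * π ^ 2 * s ^ 2) = 2 * π ^ 2 * s ^ 2 *
      (1 - 14 * R ^ 2 * ‖ξ‖ ^ 2) := by ring
  change (1 - 14 * R ^ 2 * ‖ξ‖ ^ 2) * (2 * π ^ 2 * s ^ 2) ≤ _
  rw [h5]
  refine mul_le_mul_of_nonneg_left ?_ (by positivity)
  have h6 : π ^ 2 * s ^ 2 ≤ 10 * (4 * (R ^ 2 * ‖ξ‖ ^ 2)) := by
    have : s ^ 2 ≤ 4 * (R ^ 2 * ‖ξ‖ ^ 2) := by nlinarith
    exact mul_le_mul hpi.le this (sq_nonneg _) (by norm_num)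
  nlinarith

/-- `∫∫ ⟨x-y,ξ⟩^2` for a centred set -/
theorem double_inner {N : Set (X d)} (hN : MeasurableSet N) {R : ℝ}
    (hNR : N ⊆ Metric.closedBall 0 R) (ξ : X d) :
    ∫ x in N, ∫ y in N, ⟪x - y, ξ⟫_ℝ ^ 2 =
      2 * volume.real N * (∫ x in N, ⟪x, ξ⟫_ℝ ^ 2) - 2 * (∫ x in N, ⟪x, ξ⟫_ℝ) ^ 2 := by
  have hN' : volume N ≠ ⊤ :=
    ((measure_mono hNR).trans_lt measure_closedBall_lt_top).ne
  have hfN := fin_restrict hN'
  have hb : ∀ x ∈ N, |⟪x, ξ⟫_ℝ| ≤ R * ‖ξ‖ := by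
    intro x hx
    have a := hNR hx
    rw [mem_closedBall_zero_iff] at a
    exact (abs_real_inner_le_norm _ _).trans (by gcongr)
  have i1 : Integrable (fun x : X d => ⟪x, ξ⟫_ℝ) (volume.restrict N) := by
    refine (integrable_const (R * ‖ξ‖)).mono' (by fun_prop) ?_
    exact (ae_restrict_iff' hN).2 (ae_of_all _ fun x hx => hb x hx)
  have i2 : Integrable (fun x : X d => ⟪x, ξ⟫_ℝ ^ 2) (volume.restrict N) := by
    refine (integrable_const ((R * ‖ξ‖) ^ 2)).mono' (by fun_prop) ?_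
    refine (ae_restrict_iff' hN).2 (ae_of_all _ fun x hx => ?_)
    rw [Real.norm_eq_abs, abs_of_nonneg (sq_nonneg _)]
    exact sq_le_sq' (by linarith [abs_le.1 (hb x hx)]) (abs_le.1 (hb x hx)).2
  set a := ∫ x in N, ⟪x, ξ⟫_ℝ with ha
  set b := ∫ x in N, ⟪x, ξ⟫_ℝ ^ 2 with hb'
  have h1 : ∀ x : X d, ∫ y in N, ⟪x - y, ξ⟫_ℝ ^ 2 =
      volume.real N * ⟪x, ξ⟫_ℝ ^ 2 - 2 * a * ⟪x, ξ⟫_ℝ + b := by
    intro x
    have e : (fun y : X d => ⟪x - y, ξ⟫_ℝ ^ 2) = fun y =>
        (⟪x, ξ⟫_ℝ ^ 2 - 2 * ⟪x, ξ⟫_ℝ * ⟪y, ξ⟫_ℝ) + ⟪y, ξ⟫_ℝ ^ 2 := by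
      ext y
      rw [inner_sub_left]
      ring
    have j1 : Integrable (fun _ : X d => ⟪x, ξ⟫_ℝ ^ 2) (volume.restrict N) := integrable_const _
    have j2 : Integrable (fun y : X d => 2 * ⟪x, ξ⟫_ℝ * ⟪y, ξ⟫_ℝ) (volume.restrict N) :=
      i1.const_mul _
    have j3 : Integrable (fun y : X d => ⟪x, ξ⟫_ℝ ^ 2 - 2 * ⟪x, ξ⟫_ℝ * ⟪y, ξ⟫_ℝ)
      (volume.restrict N) := j1.sub j2
    rw [e, integral_add j3 i2, integral_sub j1 j2, integral_const_mul]
    simp only [integral_const, smul_eq_mul]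
    rw [← ha, ← hb', measureReal_restrict_apply_univ]
    ring
  simp only [h1]
  have k1 : Integrable (fun x : X d => volume.real N * ⟪x, ξ⟫_ℝ ^ 2) (volume.restrict N) :=
    i2.const_mul _
  have k2 : Integrable (fun x : X d => 2 * a * ⟪x, ξ⟫_ℝ) (volume.restrict N) := i1.const_mul _
  have k3 : Integrable (fun x : X d => volume.real N * ⟪x, ξ⟫_ℝ ^ 2 - 2 * a * ⟪x, ξ⟫_ℝ)
    (volume.restrict N) := k1.sub k2
  rw [integral_add k3 (integrable_const _), integral_sub k1 k2, integral_const_mul,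
    integral_const_mul]
  simp only [integral_const, smul_eq_mul]
  rw [← ha, ← hb', measureReal_restrict_apply_univ]
  ring

end Pool.Agent.H82.Max
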