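import Pool.Agent.H82.Max.Ball

open MeasureTheory Set Filter Topology
open scoped ENNReal Real InnerProductSpace symmDiff

namespace Pool.Agent.H82.Max

variable {d : ℕ}

theorem gap_nonneg (N : Set (X d)) : 0 ≤ gap N :=
  integral_nonneg fun _ => abs_nonneg _

private lemma bath_f_cont (d : ℕ) : Continuous fun x : X d => ‖x‖ ^ 2 - rd d ^ 2 := by fun_prop

private lemma bath_int {N : Set (X d)} {R : ℝ} (hR : N ⊆ Metric.closedBall 0 R) :
    IntegrableOn (fun x : X d => ‖x‖ ^ 2 - rd d ^ 2) N :=
  ((bath_f_cont d).continuousOn.integrableOn_compact (isCompact_closedBall _ _)).mono_set hR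

private lemma meas_Bl (d : ℕ) : MeasurableSet (Bl d) := Metric.isClosed_closedBall.measurableSet

theorem gap_eq {N : Set (X d)} (hN : MeasurableSet N) {R : ℝ} (hR : N ⊆ Metric.closedBall 0 R) :
    gap N = (∫ x in N, (‖x‖ ^ 2 - rd d ^ 2)) - ∫ x in Bl d, (‖x‖ ^ 2 - rd d ^ 2) := by
  have hB := meas_Bl d
  have iN := bath_int (d := d) hR
  have iB : IntegrableOn (fun x : X d => ‖x‖ ^ 2 - rd d ^ 2) (Bl d) :=
    bath_int (d := d) (R := rd d) (N := Bl d) (fun _ h => h)
  have hr := (rd_pos d).le
  unfold gap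
  rw [Set.symmDiff_def]
  rw [setIntegral_union (disjoint_sdiff_sdiff) (hB.diff hN) (iN.mono_set sdiff_subset).abs
    (iB.mono_set sdiff_subset).abs]
  have e1 : ∫ x in N \ Bl d, |‖x‖ ^ 2 - rd d ^ 2| = ∫ x in N \ Bl d, (‖x‖ ^ 2 - rd d ^ 2) := by
    apply setIntegral_congr_fun (hN.diff hB)
    intro x hx
    have h1 : rd d < ‖x‖ := by
      have := hx.2
      simp only [Bl, Metric.mem_closedBall, dist_zero_right, not_le] at this
      exact this
    simp only
    rw [abs_of_nonneg]
    nlinarith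
  have e2 : ∫ x in Bl d \ N, |‖x‖ ^ 2 - rd d ^ 2| = - ∫ x in Bl d \ N, (‖x‖ ^ 2 - rd d ^ 2) := by
    rw [← integral_neg]
    apply setIntegral_congr_fun (hB.diff hN)
    intro x hx
    have h1 : ‖x‖ ≤ rd d := by
      have := hx.1
      simpa only [Bl, Metric.mem_closedBall, dist_zero_right] using this
    simp only
    rw [abs_of_nonpos]
    nlinarith [norm_nonneg x]
  rw [e1, e2]
  have h1 := integral_inter_add_sdiff hB iN
  have h2 := integral_inter_add_sdiff hN iB
  rw [inter_comm] at h2
  linarith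

private lemma symmDiff_finite {N : Set (X d)} {R : ℝ} (hR : N ⊆ Metric.closedBall 0 R) :
    volume (N ∆ Bl d) ≠ ⊤ := by
  have h1 : N ∆ Bl d ⊆ Metric.closedBall 0 (max R (rd d)) := by
    intro x hx
    rcases hx with hx | hx
    · exact Metric.closedBall_subset_closedBall (le_max_left _ _) (hR hx.1)
    · exact Metric.closedBall_subset_closedBall (le_max_right _ _) hx.1
  exact ((measure_mono h1).trans_lt measure_closedBall_lt_top).ne

/-- bathtub principle with stability -/
theorem bath {d : ℕ} (hd : 0 < d) : ∃ C : ℝ, 0 < C ∧ ∀ (N : Set (X d)) (R : ℝ), MeasurableSet N →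
    N ⊆ Metric.closedBall 0 R → volume.real N ≤ 2 → volume.real (N ∆ Bl d) ^ 2 ≤ C * gap N := by
  obtain ⟨C0, hC0, hshell⟩ := shell_vol hd
  have hr := rd_pos d
  set r := rd d with hrdef
  refine ⟨(2 * C0 / r + 1) ^ 2 + 9 / r ^ 4, by positivity, fun N R hN hR hv => ?_⟩
  set β := volume.real (N ∆ Bl d) with hβ
  set g := gap N with hg
  have hβ0 : 0 ≤ β := measureReal_nonneg
  have hg0 : 0 ≤ g := gap_nonneg N
  have hB := meas_Bl d
  have hβ3 : β ≤ 3 := by
    have hBf : volume (Bl d) ≠ ⊤ := measure_closedBall_lt_top.ne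
    have hNf : volume N ≠ ⊤ := ((measure_mono hR).trans_lt measure_closedBall_lt_top).ne
    have h1 : β ≤ volume.real N + volume.real (Bl d) := by
      calc β ≤ volume.real (N ∪ Bl d) := by
            apply measureReal_mono _ (measure_union_ne_top hNf hBf)
            intro x hx
            rcases hx with hx | hx
            · exact Or.inl hx.1
            · exact Or.inr hx.1
        _ ≤ _ := measureReal_union_le _ _
    have h2 : volume.real (Bl d) = 1 := by
      rw [measureReal_def, (unitVol_Bl hd).vol]; rfl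
    linarith
  -- the basic inequality
  have key : ∀ θ : ℝ, 0 < θ → θ ≤ r ^ 2 → β ≤ 2 * C0 / r * θ + g / θ := by
    intro θ hθ hθr
    have hfc : Continuous fun x : X d => |‖x‖ ^ 2 - rd d ^ 2| := (bath_f_cont d).abs
    have hm : MeasurableSet {x : X d | θ ≤ |‖x‖ ^ 2 - rd d ^ 2|} :=
      (isClosed_le continuous_const hfc).measurableSet
    have hint : IntegrableOn (fun x : X d => |‖x‖ ^ 2 - rd d ^ 2|) (N ∆ Bl d) := by
      have h1 : N ∆ Bl d ⊆ Metric.closedBall 0 (max R (rd d)) := by
        intro x hx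
        rcases hx with hx | hx
        · exact Metric.closedBall_subset_closedBall (le_max_left _ _) (hR hx.1)
        · exact Metric.closedBall_subset_closedBall (le_max_right _ _) hx.1
      exact (bath_int h1).abs
    have hmk := mul_meas_ge_le_integral_of_nonneg (μ := volume.restrict (N ∆ Bl d))
      (f := fun x : X d => |‖x‖ ^ 2 - rd d ^ 2|) (Eventually.of_forall fun _ => abs_nonneg _)
      hint θ
    rw [measureReal_restrict_apply hm] at hmk
    change θ * _ ≤ g at hmk
    have h2 : volume.real ({x : X d | θ ≤ |‖x‖ ^ 2 - rd d ^ 2|} ∩ N ∆ Bl d) ≤ g / θ := by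
      rw [le_div_iff₀ hθ, mul_comm]; exact hmk
    have h3 : {x : X d | |‖x‖ ^ 2 - rd d ^ 2| < θ} ⊆
        {x : X d | r - θ / r ≤ ‖x‖ ∧ ‖x‖ ≤ r + θ / r} := by
      intro x hx
      simp only [mem_ofPred_eq, ← hrdef, abs_lt] at hx ⊢
      have hx0 := norm_nonneg x
      constructor
      · by_contra hcon
        push Not at hcon
        have h4 : 0 < r - θ / r - ‖x‖ := by linarith
        have h5 : θ < (r - ‖x‖) * r := by
          have : θ / r < r - ‖x‖ := by linarith
          rwa [div_lt_iff₀ hr] at this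
        have h6 : ‖x‖ ≤ r := by
          have : 0 < θ / r := by positivity
          linarith
        nlinarith
      · by_contra hcon
        push Not at hcon
        have h5 : θ < (‖x‖ - r) * r := by
          have : θ / r < ‖x‖ - r := by linarith
          rwa [div_lt_iff₀ hr] at this
        have h6 : r ≤ ‖x‖ := by
          have : 0 < θ / r := by positivity
          linarith
        nlinarith
    have hθr' : θ / r ≤ r := by
      rw [div_le_iff₀ hr]; nlinarith
    have h7 := hshell (r - θ / r) (r + θ / r) (by linarith)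
      (by have : 0 < θ / r := by positivity
          linarith) (by linarith)
    have hfin : volume {x : X d | r - θ / r ≤ ‖x‖ ∧ ‖x‖ ≤ r + θ / r} ≠ ⊤ := by
      have : {x : X d | r - θ / r ≤ ‖x‖ ∧ ‖x‖ ≤ r + θ / r} ⊆ Metric.closedBall 0 (r + θ / r) := by
        intro x hx
        simpa using hx.2
      exact ((measure_mono this).trans_lt measure_closedBall_lt_top).ne
    have hfin2 : volume ({x : X d | θ ≤ |‖x‖ ^ 2 - rd d ^ 2|} ∩ N ∆ Bl d) ≠ ⊤ :=
      ((measure_mono inter_subset_right).trans_lt (symmDiff_finite hR).lt_top).ne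
    calc β ≤ volume.real (({x : X d | θ ≤ |‖x‖ ^ 2 - rd d ^ 2|} ∩ N ∆ Bl d) ∪
          {x : X d | r - θ / r ≤ ‖x‖ ∧ ‖x‖ ≤ r + θ / r}) := by
          apply measureReal_mono _ (measure_union_ne_top hfin2 hfin)
          intro x hx
          by_cases hxθ : θ ≤ |‖x‖ ^ 2 - rd d ^ 2|
          · exact Or.inl ⟨hxθ, hx⟩
          · exact Or.inr (h3 (not_le.1 hxθ))
      _ ≤ volume.real ({x : X d | θ ≤ |‖x‖ ^ 2 - rd d ^ 2|} ∩ N ∆ Bl d) +
          volume.real {x : X d | r - θ / r ≤ ‖x‖ ∧ ‖x‖ ≤ r + θ / r} := measureReal_union_le _ _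
      _ ≤ g / θ + C0 * ((r + θ / r) - (r - θ / r)) := add_le_add h2 h7
      _ = 2 * C0 / r * θ + g / θ := by field_simp; ring
  have hK : 0 < 2 * C0 / r := by positivity
  set K := 2 * C0 / r
  rcases le_or_gt g (r ^ 4) with hcase | hcase
  · rcases hg0.eq_or_lt with h0 | hpos
    · -- gap zero
      have hβz : β = 0 := by
        by_contra hne
        have hβp : 0 < β := lt_of_le_of_ne hβ0 (Ne.symm hne)
        have h1 := key (min (r ^ 2) (β / (2 * K))) (by positivity) (min_le_left _ _)
        rw [← h0, zero_div, add_zero] at h1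
        have h2 : K * min (r ^ 2) (β / (2 * K)) ≤ K * (β / (2 * K)) :=
          mul_le_mul_of_nonneg_left (min_le_right _ _) hK.le
        have h3 : K * (β / (2 * K)) = β / 2 := by field_simp
        linarith
      rw [hβz, ← h0]; simp
    · have hs : √g ≤ r ^ 2 := by
        rw [show r ^ 2 = √(r ^ 4) by
          rw [show r ^ 4 = (r ^ 2) ^ 2 by ring, Real.sqrt_sq (by positivity)]]
        exact Real.sqrt_le_sqrt hcase
      have hs0 : 0 < √g := Real.sqrt_pos.2 hpos
      have h1 := key (√g) hs0 hs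
      rw [Real.div_sqrt] at h1
      have h2 : β ≤ (K + 1) * √g := by linarith
      calc β ^ 2 ≤ ((K + 1) * √g) ^ 2 := pow_le_pow_left₀ hβ0 h2 2
        _ = (K + 1) ^ 2 * g := by rw [mul_pow, Real.sq_sqrt hg0]
        _ ≤ ((K + 1) ^ 2 + 9 / r ^ 4) * g := by
          apply mul_le_mul_of_nonneg_right _ hg0
          have : 0 < 9 / r ^ 4 := by positivity
          linarith
  · have h1 : β ^ 2 ≤ 9 := by nlinarith
    have h2 : 9 ≤ 9 / r ^ 4 * g := by
      rw [div_mul_eq_mul_div, le_div_iff₀ (by positivity)]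
      nlinarith
    calc β ^ 2 ≤ 9 / r ^ 4 * g := h1.trans h2
      _ ≤ ((K + 1) ^ 2 + 9 / r ^ 4) * g := by
          apply mul_le_mul_of_nonneg_right _ hg0
          have : 0 < (K + 1) ^ 2 := by positivity
          linarith

theorem gap_le {d : ℕ} (hd : 0 < d) {N : Set (X d)} (hN : MeasurableSet N)
    (hR : N ⊆ Metric.closedBall 0 (3 * rd d)) :
    gap N ≤ 8 * rd d ^ 2 * volume.real (N ∆ Bl d) := by
  have hr := rd_pos d
  have h1 : ∀ x ∈ N ∆ Bl d, ‖|‖x‖ ^ 2 - rd d ^ 2|‖ ≤ 8 * rd d ^ 2 := by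
    intro x hx
    have h2 : ‖x‖ ≤ 3 * rd d := by
      rcases hx with hx | hx
      · simpa using hR hx.1
      · have := hx.1
        simp only [Bl, Metric.mem_closedBall, dist_zero_right] at this
        linarith
    rw [Real.norm_eq_abs, abs_abs, abs_le]
    have := norm_nonneg x
    constructor <;> nlinarith
  have h3 := norm_setIntegral_le_of_norm_le_const (symmDiff_finite hR).lt_top h1
  exact (le_abs_self _).trans h3

theorem ae_eq_of_gap {d : ℕ} (hd : 0 < d) {N : Set (X d)} (hN : MeasurableSet N)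
    (hR : N ⊆ Metric.closedBall 0 (3 * rd d)) (hv : volume.real N ≤ 2) (h : gap N = 0) :
    N =ᵐ[volume] Bl d := by
  obtain ⟨C, _, hC⟩ := bath hd
  have h1 := hC N _ hN hR hv
  rw [h, mul_zero] at h1
  have h2 : volume.real (N ∆ Bl d) = 0 := by
    have := measureReal_nonneg (μ := volume) (s := N ∆ Bl d)
    nlinarith
  rw [measureReal_eq_zero_iff (symmDiff_finite hR)] at h2
  exact measure_symmDiff_eq_zero_iff.1 h2

end Pool.Agent.H82.Max
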