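import Pool.Agent.H82.Max.Ball

open MeasureTheory Set Filter Topology
open scoped ENNReal Real InnerProductSpace symmDiff

namespace Pool.Agent.H82.Max

variable {d : ℕ}

/-- difference of the integrals of a function over two sets -/
lemma abs_setIntegral_sub_le {E F : Set (X d)} (hE : MeasurableSet E) (hF : MeasurableSet F)
    (hE' : volume E ≠ ⊤) (hF' : volume F ≠ ⊤) {g : X d → ℝ} (iE : IntegrableOn g E)
    (iF : IntegrableOn g F) {c : ℝ} (hc : ∀ x ∈ E ∆ F, |g x| ≤ c) :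
    |(∫ x in E, g x) - ∫ x in F, g x| ≤ c * volume.real (E ∆ F) := by
  have h1 := integral_inter_add_sdiff hF iE
  have h2 := integral_inter_add_sdiff hE iF
  rw [inter_comm] at h2
  have e : (∫ x in E, g x) - ∫ x in F, g x = (∫ x in E \ F, g x) - ∫ x in F \ E, g x := by
    linarith
  have f1 : volume (E \ F) < ⊤ := (measure_mono sdiff_subset).trans_lt hE'.lt_top
  have f2 : volume (F \ E) < ⊤ := (measure_mono sdiff_subset).trans_lt hF'.lt_top
  have b1 : ‖∫ x in E \ F, g x‖ ≤ c * volume.real (E \ F) :=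
    norm_setIntegral_le_of_norm_le_const f1 (fun x hx => hc x (Or.inl hx))
  have b2 : ‖∫ x in F \ E, g x‖ ≤ c * volume.real (F \ E) :=
    norm_setIntegral_le_of_norm_le_const f2 (fun x hx => hc x (Or.inr hx))
  rw [Real.norm_eq_abs] at b1 b2
  rw [e, measureReal_symmDiff_eq hE hF hE' hF', mul_add]
  exact (abs_sub _ _).trans (add_le_add b1 b2)

private lemma integrableOn_bdd {E : Set (X d)} (hE' : volume E ≠ ⊤) {g : X d → ℝ}
    (hg : Continuous g) {c : ℝ} (hc : ∀ x, |g x| ≤ c) : IntegrableOn g E :=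
  Measure.integrableOn_of_bounded (M := c) hE' hg.aestronglyMeasurable
    (Eventually.of_forall fun x => by rw [Real.norm_eq_abs]; exact hc x)

theorem PP_close {E F : Set (X d)} (hE : UnitVol E) (hF : UnitVol F) (ξ : X d) :
    |PP E ξ - PP F ξ| ≤ 2 * volume.real (E ∆ F) := by
  set A := cs E ξ + cs F ξ with hA
  set B := sn E ξ + sn F ξ with hB
  have hE' : volume E ≠ ⊤ := by rw [hE.vol]; exact ENNReal.one_ne_top
  have hF' : volume F ≠ ⊤ := by rw [hF.vol]; exact ENNReal.one_ne_top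
  set g : X d → ℝ := fun x => A * Real.cos (2 * π * ⟪x, ξ⟫_ℝ) + B * Real.sin (2 * π * ⟪x, ξ⟫_ℝ)
    with hg
  have hcc : Continuous fun x : X d => Real.cos (2 * π * ⟪x, ξ⟫_ℝ) := by fun_prop
  have hsc : Continuous fun x : X d => Real.sin (2 * π * ⟪x, ξ⟫_ℝ) := by fun_prop
  have hgc : Continuous g := by rw [hg]; fun_prop
  have hAB : A ^ 2 + B ^ 2 ≤ 4 := by
    have h1 := PP_le_one hE ξ
    have h2 := PP_le_one hF ξ
    unfold PP at h1 h2
    rw [hA, hB]
    nlinarith [sq_nonneg (cs E ξ - cs F ξ), sq_nonneg (sn E ξ - sn F ξ)]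
  have hgb : ∀ x, |g x| ≤ 2 := by
    intro x
    apply abs_le_of_sq_le_sq _ (by norm_num)
    have h1 := Real.sin_sq_add_cos_sq (2 * π * ⟪x, ξ⟫_ℝ)
    simp only [hg]
    set c := Real.cos (2 * π * ⟪x, ξ⟫_ℝ)
    set s := Real.sin (2 * π * ⟪x, ξ⟫_ℝ)
    have h2 : (A * c + B * s) ^ 2 + (A * s - B * c) ^ 2 = (A ^ 2 + B ^ 2) * (s ^ 2 + c ^ 2) := by ring
    rw [h1] at h2
    nlinarith [sq_nonneg (A * s - B * c)]
  have hcb : ∀ x : X d, |Real.cos (2 * π * ⟪x, ξ⟫_ℝ)| ≤ 1 := fun x => Real.abs_cos_le_one _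
  have hsb : ∀ x : X d, |Real.sin (2 * π * ⟪x, ξ⟫_ℝ)| ≤ 1 := fun x => Real.abs_sin_le_one _
  have hint : ∀ G : Set (X d), volume G ≠ ⊤ → ∫ x in G, g x = A * cs G ξ + B * sn G ξ := by
    intro G hG
    simp only [hg]
    rw [integral_add ((integrableOn_bdd hG hcc hcb).const_mul A)
      ((integrableOn_bdd hG hsc hsb).const_mul B), integral_const_mul, integral_const_mul]
    rfl
  have key := abs_setIntegral_sub_le hE.meas hF.meas hE' hF'
    (integrableOn_bdd hE' hgc hgb) (integrableOn_bdd hF' hgc hgb) (fun x _ => hgb x)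
  rw [hint E hE', hint F hF'] at key
  have e : PP E ξ - PP F ξ = A * cs E ξ + B * sn E ξ - (A * cs F ξ + B * sn F ξ) := by
    unfold PP; rw [hA, hB]; ring
  rw [e]
  exact key

private lemma cs_Bl_lt_one {d : ℕ} (hd : 0 < d) {ξ : X d} (hξ : ξ ≠ 0) : cs (Bl d) ξ < 1 := by
  have hU := unitVol_Bl hd
  have hB' : volume (Bl d) ≠ ⊤ := by rw [hU.vol]; exact ENNReal.one_ne_top
  have hr := rd_pos d
  have hcc : Continuous fun x : X d => Real.cos (2 * π * ⟪x, ξ⟫_ℝ) := by fun_prop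
  have hcb : ∀ x : X d, |Real.cos (2 * π * ⟪x, ξ⟫_ℝ)| ≤ 1 := fun x => Real.abs_cos_le_one _
  have ic := integrableOn_bdd hB' hcc hcb
  have i1 : IntegrableOn (fun _ : X d => (1:ℝ)) (Bl d) := integrableOn_const hB'
  have e : ∫ x in Bl d, (1 - Real.cos (2 * π * ⟪x, ξ⟫_ℝ)) = 1 - cs (Bl d) ξ := by
    rw [integral_sub i1 ic]
    simp [measureReal_def, hU.vol, cs]
  have hnn : 0 ≤ᵐ[volume.restrict (Bl d)] fun x : X d => 1 - Real.cos (2 * π * ⟪x, ξ⟫_ℝ) :=
    Eventually.of_forall fun x => by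
      have := Real.cos_le_one (2 * π * ⟪x, ξ⟫_ℝ)
      simp only [Pi.zero_apply]; linarith
  have ii : IntegrableOn (fun x : X d => 1 - Real.cos (2 * π * ⟪x, ξ⟫_ℝ)) (Bl d) := i1.sub ic
  have hpos : 0 < ∫ x in Bl d, (1 - Real.cos (2 * π * ⟪x, ξ⟫_ℝ)) := by
    rw [setIntegral_pos_iff_support_of_nonneg_ae hnn ii]
    have hopen : IsOpen ((Function.support fun x : X d => 1 - Real.cos (2 * π * ⟪x, ξ⟫_ℝ)) ∩
        Metric.ball 0 (rd d)) :=
      (isOpen_ne_fun (by fun_prop) continuous_const).inter Metric.isOpen_ball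
    have hn : 0 < ‖ξ‖ := norm_pos_iff.2 hξ
    have hne : ((Function.support fun x : X d => 1 - Real.cos (2 * π * ⟪x, ξ⟫_ℝ)) ∩
        Metric.ball 0 (rd d)).Nonempty := by
      set τ := min (1 / (4 * ‖ξ‖ ^ 2)) (rd d / (2 * ‖ξ‖)) with hτ
      have hτ0 : 0 < τ := by positivity
      refine ⟨τ • ξ, ?_, ?_⟩
      · simp only [Function.mem_support]
        rw [real_inner_smul_left, real_inner_self_eq_norm_sq]
        have h1 : τ * ‖ξ‖ ^ 2 ≤ 1 / 4 := by
          calc τ * ‖ξ‖ ^ 2 ≤ 1 / (4 * ‖ξ‖ ^ 2) * ‖ξ‖ ^ 2 := by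
                apply mul_le_mul_of_nonneg_right (min_le_left _ _) (by positivity)
            _ = 1 / 4 := by field_simp
        have h0 : 0 < τ * ‖ξ‖ ^ 2 := by positivity
        have hpi := Real.pi_pos
        have h2 : Real.cos (2 * π * (τ * ‖ξ‖ ^ 2)) < 1 := by
          rw [← Real.cos_zero]
          apply Real.cos_lt_cos_of_nonneg_of_le_pi le_rfl
          · nlinarith
          · positivity
        linarith
      · rw [Metric.mem_ball, dist_zero_right, norm_smul, Real.norm_of_nonneg hτ0.le]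
        calc τ * ‖ξ‖ ≤ rd d / (2 * ‖ξ‖) * ‖ξ‖ := by
              apply mul_le_mul_of_nonneg_right (min_le_right _ _) hn.le
          _ = rd d / 2 := by field_simp
          _ < rd d := by linarith
    refine (hopen.measure_pos volume hne).trans_le (measure_mono ?_)
    exact inter_subset_inter_right _ Metric.ball_subset_closedBall
  linarith

private lemma cs_Bl_gt {d : ℕ} (hd : 0 < d) (ξ : X d) : -1 < cs (Bl d) ξ := by
  have hU := unitVol_Bl hd
  have hB' : volume (Bl d) ≠ ⊤ := by rw [hU.vol]; exact ENNReal.one_ne_top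
  have hr := rd_pos d
  have hcc : Continuous fun x : X d => Real.cos (2 * π * ⟪x, ξ⟫_ℝ) := by fun_prop
  have hcb : ∀ x : X d, |Real.cos (2 * π * ⟪x, ξ⟫_ℝ)| ≤ 1 := fun x => Real.abs_cos_le_one _
  have ic := integrableOn_bdd hB' hcc hcb
  have i1 : IntegrableOn (fun _ : X d => (1:ℝ)) (Bl d) := integrableOn_const hB'
  have e : ∫ x in Bl d, (1 + Real.cos (2 * π * ⟪x, ξ⟫_ℝ)) = 1 + cs (Bl d) ξ := by
    rw [integral_add i1 ic]
    simp [measureReal_def, hU.vol, cs]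
  have hnn : 0 ≤ᵐ[volume.restrict (Bl d)] fun x : X d => 1 + Real.cos (2 * π * ⟪x, ξ⟫_ℝ) :=
    Eventually.of_forall fun x => by
      have := Real.neg_one_le_cos (2 * π * ⟪x, ξ⟫_ℝ)
      simp only [Pi.zero_apply]; linarith
  have ii : IntegrableOn (fun x : X d => 1 + Real.cos (2 * π * ⟪x, ξ⟫_ℝ)) (Bl d) := i1.add ic
  have hpos : 0 < ∫ x in Bl d, (1 + Real.cos (2 * π * ⟪x, ξ⟫_ℝ)) := by
    rw [setIntegral_pos_iff_support_of_nonneg_ae hnn ii]
    have hopen : IsOpen ((Function.support fun x : X d => 1 + Real.cos (2 * π * ⟪x, ξ⟫_ℝ)) ∩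
        Metric.ball 0 (rd d)) :=
      (isOpen_ne_fun (by fun_prop) continuous_const).inter Metric.isOpen_ball
    have hne : ((Function.support fun x : X d => 1 + Real.cos (2 * π * ⟪x, ξ⟫_ℝ)) ∩
        Metric.ball 0 (rd d)).Nonempty := by
      refine ⟨0, ?_, by simpa using hr⟩
      simp
    refine (hopen.measure_pos volume hne).trans_le (measure_mono ?_)
    exact inter_subset_inter_right _ Metric.ball_subset_closedBall
  linarith

private lemma PP_Bl_lt_one {d : ℕ} (hd : 0 < d) {ξ : X d} (hξ : ξ ≠ 0) : PP (Bl d) ξ < 1 := by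
  unfold PP
  rw [sn_Bl]
  have h1 := cs_Bl_lt_one hd hξ
  have h2 := cs_Bl_gt hd ξ
  nlinarith

/-- away from the origin `1 - PP` of the ball is bounded below -/
private lemma PP_Bl_gap {d : ℕ} (hd : 0 < d) {s : ℝ} (hs : 0 < s) :
    ∃ m : ℝ, 0 < m ∧ ∀ ξ : X d, s ≤ ‖ξ‖ → m ≤ 1 - PP (Bl d) ξ := by
  have hU := unitVol_Bl hd
  have hB' : volume (Bl d) ≠ ⊤ := by rw [hU.vol]; exact ENNReal.one_ne_top
  have hcont : Continuous (fun ξ => 1 - PP (Bl d) ξ) :=
    continuous_const.sub (PP_continuous hU.meas hB')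
  have htend := PP_tendsto hU
  have h1 : ∀ᶠ ξ in cocompact (X d), PP (Bl d) ξ < 1 / 2 :=
    htend.eventually (gt_mem_nhds (by norm_num))
  obtain ⟨K, hK, hK2⟩ := mem_cocompact.1 h1
  have hKs : IsCompact (K ∩ {ξ : X d | s ≤ ‖ξ‖}) :=
    hK.inter_right (isClosed_le continuous_const continuous_norm)
  rcases (K ∩ {ξ : X d | s ≤ ‖ξ‖}).eq_empty_or_nonempty with hemp | hne
  · refine ⟨1 / 2, by norm_num, fun ξ hξ => ?_⟩
    have hnot : ξ ∉ K := fun h => by
      have : ξ ∈ K ∩ {ξ : X d | s ≤ ‖ξ‖} := ⟨h, hξ⟩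
      rw [hemp] at this
      exact this
    have h2 : PP (Bl d) ξ < 1 / 2 := hK2 hnot
    linarith
  · obtain ⟨ξ0, hξ0, hmin⟩ := hKs.exists_isMinOn hne hcont.continuousOn
    have hξ0' : ξ0 ≠ 0 := by
      intro h
      have h2 : s ≤ ‖ξ0‖ := hξ0.2
      rw [h, norm_zero] at h2
      linarith
    have hp := PP_Bl_lt_one hd hξ0'
    refine ⟨min (1 - PP (Bl d) ξ0) (1 / 2), ?_, fun ξ hξ => ?_⟩
    · apply lt_min _ (by norm_num)
      linarith
    · by_cases hmem : ξ ∈ K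
      · exact (min_le_left _ _).trans (hmin ⟨hmem, hξ⟩)
      · have h2 : PP (Bl d) ξ < 1 / 2 := hK2 hmem
        have := min_le_right (1 - PP (Bl d) ξ0) (1 / 2)
        linarith

private lemma coer_alg {σ δ r n S T V P η : ℝ} (hσ : 0 < σ) (hr : 0 < r) (hn : 0 ≤ n)
    (hδ0 : 0 ≤ δ) (hδ1 : δ ≤ 1 / 2) (hδ2 : r ^ 2 * δ ≤ σ / 8) (hη : η ≤ δ)
    (k1 : |S - σ * n ^ 2| ≤ r ^ 2 * n ^ 2 * η) (k2 : |T| ≤ r * n * η) (k3 : |V - 1| ≤ η)
    (hnear : n < 1 / (6 * r))
    (hq : (1 - 14 * r ^ 2 * n ^ 2) * (2 * π ^ 2 * (2 * V * S - 2 * T ^ 2)) ≤ P) :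
    π ^ 2 * σ / 4 * n ^ 2 ≤ P := by
  have hpi := Real.pi_pos
  have hn2 : 0 ≤ n ^ 2 := by positivity
  have l1 : (σ - r ^ 2 * δ) * n ^ 2 ≤ S := by
    have h1 := (abs_le.1 k1).1
    have h2 : r ^ 2 * n ^ 2 * η ≤ r ^ 2 * n ^ 2 * δ := by gcongr
    nlinarith
  have l2 : T ^ 2 ≤ r ^ 2 * δ * n ^ 2 := by
    have h1 : |T| ≤ r * n * δ := k2.trans (by gcongr)
    calc T ^ 2 = |T| ^ 2 := (sq_abs T).symm
      _ ≤ (r * n * δ) ^ 2 := pow_le_pow_left₀ (abs_nonneg _) h1 2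
      _ = r ^ 2 * n ^ 2 * δ ^ 2 := by ring
      _ ≤ r ^ 2 * n ^ 2 * δ := by
          apply mul_le_mul_of_nonneg_left _ (by positivity)
          nlinarith
      _ = _ := by ring
  have l3 : 1 / 2 ≤ V := by
    have h1 := (abs_le.1 k3).1
    linarith
  have l4 : σ / 4 * n ^ 2 ≤ 2 * V * S - 2 * T ^ 2 := by
    have h1 : (7 / 8 * σ) * n ^ 2 ≤ S := by
      refine le_trans ?_ l1
      apply mul_le_mul_of_nonneg_right _ hn2
      linarith
    have h2 : T ^ 2 ≤ σ / 8 * n ^ 2 := l2.trans (mul_le_mul_of_nonneg_right hδ2 hn2)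
    have h3 : 0 ≤ S := le_trans (by positivity) h1
    have h4 : S ≤ 2 * V * S := by nlinarith
    have h5 : 0 ≤ σ * n ^ 2 := by positivity
    nlinarith
  have l5 : 1 / 2 ≤ 1 - 14 * r ^ 2 * n ^ 2 := by
    have h1 : r * n ≤ 1 / 6 := by
      have : n * (6 * r) ≤ 1 := by
        rw [lt_div_iff₀ (by positivity)] at hnear
        exact hnear.le
      linarith
    have h2 : (r * n) ^ 2 ≤ (1 / 6) ^ 2 := pow_le_pow_left₀ (by positivity) h1 2
    nlinarith
  refine le_trans ?_ hq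
  have h0 : 0 ≤ σ / 4 * n ^ 2 := by positivity
  have h1 : 0 ≤ 2 * π ^ 2 * (2 * V * S - 2 * T ^ 2) := by
    have : 0 ≤ 2 * V * S - 2 * T ^ 2 := h0.trans l4
    positivity
  calc π ^ 2 * σ / 4 * n ^ 2 = 1 / 2 * (2 * π ^ 2 * (σ / 4 * n ^ 2)) := by ring
    _ ≤ 1 / 2 * (2 * π ^ 2 * (2 * V * S - 2 * T ^ 2)) := by gcongr
    _ ≤ (1 - 14 * r ^ 2 * n ^ 2) * (2 * π ^ 2 * (2 * V * S - 2 * T ^ 2)) :=
      mul_le_mul_of_nonneg_right l5 h1

/-- coercivity near the ball: near `0` use `quad_lower`-type bounds on `E ∩ B`, away from `0`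
compactness for the ball (strict positivity, continuity, Riemann-Lebesgue) and `PP_close`. -/
theorem coer {d : ℕ} (hd : 0 < d) : ∃ δ₀ c₀ : ℝ, 0 < δ₀ ∧ 0 < c₀ ∧ c₀ ≤ 1 / 2 ∧
    ∀ E : Set (X d), UnitVol E → volume.real (E ∆ Bl d) ≤ δ₀ →
      ∀ ξ, c₀ * min 1 (‖ξ‖ ^ 2) ≤ 1 - PP E ξ := by
  have hU := unitVol_Bl hd
  have hB' : volume (Bl d) ≠ ⊤ := by rw [hU.vol]; exact ENNReal.one_ne_top
  have hr := rd_pos d
  have hsg := sg_pos hd
  set r := rd d with hrdef
  set σ := sg d with hσ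
  have hs0 : 0 < 1 / (6 * r) := by positivity
  obtain ⟨m, hm, hmB⟩ := PP_Bl_gap hd hs0
  have hpi := Real.pi_pos
  refine ⟨min (min (1 / 2) (σ / (8 * r ^ 2))) (m / 4), min (min (1 / 2) (π ^ 2 * σ / 4)) (m / 2),
    by positivity, by positivity, (min_le_left _ _).trans (min_le_left _ _), ?_⟩
  intro E hE hδ ξ
  set δ := volume.real (E ∆ Bl d) with hδdef
  have hδ0 : 0 ≤ δ := measureReal_nonneg
  have hδ1 : δ ≤ 1 / 2 := hδ.trans ((min_le_left _ _).trans (min_le_left _ _))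
  have hδ2 : r ^ 2 * δ ≤ σ / 8 := by
    have h1 : δ ≤ σ / (8 * r ^ 2) := hδ.trans ((min_le_left _ _).trans (min_le_right _ _))
    calc r ^ 2 * δ ≤ r ^ 2 * (σ / (8 * r ^ 2)) := by gcongr
      _ = σ / 8 := by field_simp
  have hδ3 : δ ≤ m / 4 := hδ.trans (min_le_right _ _)
  set c₀ := min (min (1 / 2) (π ^ 2 * σ / 4)) (m / 2) with hc0
  have hc0pos : 0 < c₀ := by positivity
  rcases le_or_gt (1 / (6 * r)) ‖ξ‖ with hfar | hnear
  · -- away from the origin
    have h1 := hmB ξ hfar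
    have h2 := PP_close hE hU ξ
    rw [abs_le] at h2
    have h3 : m / 2 ≤ 1 - PP E ξ := by linarith [h2.2]
    calc c₀ * min 1 (‖ξ‖ ^ 2) ≤ c₀ * 1 := by gcongr; exact min_le_left _ _
      _ ≤ m / 2 := by rw [mul_one]; exact min_le_right _ _
      _ ≤ _ := h3
  · -- near the origin
    set N := E ∩ Bl d with hN
    have hNm : MeasurableSet N := hE.meas.inter hU.meas
    have hNB : N ⊆ Metric.closedBall 0 r := fun x hx => hx.2
    have hN' : volume N ≠ ⊤ := ((measure_mono inter_subset_right).trans_lt hB'.lt_top).ne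
    have hq := quad_lower hE hNm inter_subset_left hr.le hNB ξ
    rw [double_inner hNm hNB ξ] at hq
    have hNδ : volume.real (N ∆ Bl d) ≤ δ := by
      rw [hδdef]
      apply measureReal_mono
      · intro x hx
        rcases hx with hx | hx
        · exact (hx.2 hx.1.2).elim
        · refine Or.inr ⟨hx.1, fun h => hx.2 ⟨h, hx.1⟩⟩
      · rw [Set.symmDiff_def]
        apply measure_union_ne_top
        · exact ((measure_mono sdiff_subset).trans_lt (by rw [hE.vol]; exact ENNReal.one_lt_top)).ne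
        · exact ((measure_mono sdiff_subset).trans_lt hB'.lt_top).ne
    have hnorm : ∀ x ∈ N ∆ Bl d, ‖x‖ ≤ r := by
      intro x hx
      have hxB : x ∈ Bl d := by
        rcases hx with hx | hx
        · exact hx.1.2
        · exact hx.1
      simpa [Bl] using hxB
    have hin : ∀ x ∈ N ∆ Bl d, |⟪x, ξ⟫_ℝ| ≤ r * ‖ξ‖ := by
      intro x hx
      exact (abs_real_inner_le_norm x ξ).trans
        (mul_le_mul_of_nonneg_right (hnorm x hx) (norm_nonneg _))
    have ic : ∀ g : X d → ℝ, Continuous g → ∀ G : Set (X d), G ⊆ Metric.closedBall 0 r →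
        IntegrableOn g G := fun g hg G hG =>
      (hg.continuousOn.integrableOn_compact (isCompact_closedBall _ _)).mono_set hG
    have hBr : Bl d ⊆ Metric.closedBall 0 r := fun x hx => hx
    have c1 : Continuous fun x : X d => ⟪x, ξ⟫_ℝ := by fun_prop
    have c2 : Continuous fun x : X d => ⟪x, ξ⟫_ℝ ^ 2 := by fun_prop
    have hξ0 := norm_nonneg ξ
    -- second moments
    have k1 := abs_setIntegral_sub_le hNm hU.meas hN' hB' (ic _ c2 N hNB) (ic _ c2 _ hBr)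
      (c := r ^ 2 * ‖ξ‖ ^ 2) (fun x hx => by
        rw [abs_of_nonneg (by positivity), ← sq_abs, ← mul_pow]
        exact pow_le_pow_left₀ (abs_nonneg _) (hin x hx) 2)
    have k2 := abs_setIntegral_sub_le hNm hU.meas hN' hB' (ic _ c1 N hNB) (ic _ c1 _ hBr)
      (c := r * ‖ξ‖) hin
    have k3 := abs_setIntegral_sub_le hNm hU.meas hN' hB' (ic _ continuous_const N hNB)
      (ic (fun _ => (1:ℝ)) continuous_const _ hBr) (c := 1) (fun x _ => by simp)
    rw [ball_iso hd] at k1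
    rw [ball_cen, sub_zero] at k2
    simp only [integral_const, smul_eq_mul, mul_one, measureReal_restrict_apply_univ, one_mul] at k3
    have hBv : volume.real (Bl d) = 1 := by rw [measureReal_def, hU.vol]; rfl
    rw [hBv] at k3
    have l6 : π ^ 2 * σ / 4 * ‖ξ‖ ^ 2 ≤ 1 - PP E ξ :=
      coer_alg hsg hr (norm_nonneg ξ) hδ0 hδ1 hδ2 hNδ k1 k2 k3 hnear hq
    calc c₀ * min 1 (‖ξ‖ ^ 2) ≤ c₀ * ‖ξ‖ ^ 2 := by gcongr; exact min_le_right _ _
      _ ≤ π ^ 2 * σ / 4 * ‖ξ‖ ^ 2 := by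
          apply mul_le_mul_of_nonneg_right _ (by positivity)
          exact (min_le_left _ _).trans (min_le_right _ _)
      _ ≤ _ := l6

end Pool.Agent.H82.Max
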