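import Mathlib

open MeasureTheory Set Filter Topology
open scoped ENNReal Real InnerProductSpace symmDiff

namespace Pool.Agent.H82.Max

/-- Euclidean space -/
abbrev X (d : ℕ) := EuclideanSpace ℝ (Fin d)

variable {d : ℕ}

/-- real part of the transform of the indicator of `E` -/
noncomputable def cs (E : Set (X d)) (ξ : X d) : ℝ := ∫ x in E, Real.cos (2 * π * ⟪x, ξ⟫_ℝ)

/-- (minus the) imaginary part of the transform of the indicator of `E` -/
noncomputable def sn (E : Set (X d)) (ξ : X d) : ℝ := ∫ x in E, Real.sin (2 * π * ⟪x, ξ⟫_ℝ)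

/-- `|hat 1_E|^2` -/
noncomputable def PP (E : Set (X d)) (ξ : X d) : ℝ := cs E ξ ^ 2 + sn E ξ ^ 2

/-- `∫ |hat 1_E|^(2p)` -/
noncomputable def MM (p : ℝ) (E : Set (X d)) : ℝ := ∫ ξ, PP E ξ ^ p

/-- `√(1 - |hat 1_E|^2)`, a subadditive function -/
noncomputable def rho (E : Set (X d)) (ξ : X d) : ℝ := √(1 - PP E ξ)

/-- measurable sets of measure one -/
structure UnitVol (E : Set (X d)) : Prop where
  meas : MeasurableSet E
  vol : volume E = 1

/-- `∫ (1 - cos (2π⟨z,ξ⟩)) dν` -/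
noncomputable def Wf {Ω : Type*} [MeasurableSpace Ω] (ν : Measure Ω) (z : Ω → X d) (ξ : X d) : ℝ :=
  ∫ ω, (1 - Real.cos (2 * π * ⟪z ω, ξ⟫_ℝ)) ∂ν

/-- radius of the ball of measure one -/
noncomputable def rd (d : ℕ) : ℝ := (volume.real (Metric.closedBall (0 : X d) 1)) ^ (-(1 : ℝ) / d)

/-- the closed ball of measure one -/
noncomputable def Bl (d : ℕ) : Set (X d) := Metric.closedBall 0 (rd d)

/-- the common second moment `∫_B ⟨x,u⟩^2` for unit `u` -/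
noncomputable def sg (d : ℕ) : ℝ := (∫ x in Bl d, ‖x‖ ^ 2) / d

/-- `∫ | |x|^2 - r^2 | |1_N - 1_B|` -/
noncomputable def gap (N : Set (X d)) : ℝ := ∫ x in N ∆ Bl d, |‖x‖ ^ 2 - rd d ^ 2|

/-- the convolution kernel of the first variation at the ball -/
noncomputable def KK (d : ℕ) (p : ℝ) (x : X d) : ℝ :=
  ∫ ξ, PP (Bl d) ξ ^ (p - 1) * cs (Bl d) ξ * Real.cos (2 * π * ⟪x, ξ⟫_ℝ)

/-- the situation of the local step: `N` is the near part (centred and isotropic), `F` the far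
part -/
structure Loc (d : ℕ) (p δ : ℝ) (N F : Set (X d)) : Prop where
  mN : MeasurableSet N
  mF : MeasurableSet F
  disj : Disjoint N F
  vol : volume (N ∪ F) = 1
  hN : N ⊆ Metric.closedBall 0 (3 * rd d)
  hF : ∀ x ∈ F, 3 / 2 * rd d ≤ ‖x‖
  cen : ∀ u : X d, ∫ x in N, ⟪x, u⟫_ℝ = 0
  iso : ∃ τ : ℝ, ∀ u : X d, ∫ x in N, ⟪x, u⟫_ℝ ^ 2 = τ * ‖u‖ ^ 2
  close : volume.real (N ∆ Bl d) ≤ δ
  far : ∫ x in F, min p (‖x‖ ^ 2) ≤ δ

end Pool.Agent.H82.Max
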