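import Pool.Agent.H82.Max.Level
import Pool.Agent.H82.Max.Coer
import Pool.Agent.H82.Max.Mom

open MeasureTheory Set Filter Topology
open scoped ENNReal Real InnerProductSpace symmDiff

namespace Pool.Agent.H82.Max

variable {d : ℕ}

theorem far_kappa_pow (d : ℕ) : (1 + 1 / (4 * ((d : ℝ) + 1))) ^ d ≤ 3 / 2 := by
  have h1 : (1 + 1 / (4 * ((d : ℝ) + 1))) ^ d ≤ Real.exp (1 / 4) := by
    have h2 : (1 + 1 / (4 * ((d : ℝ) + 1))) ≤ Real.exp (1 / (4 * ((d : ℝ) + 1))) := by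
      have := Real.add_one_le_exp (1 / (4 * ((d : ℝ) + 1)))
      linarith
    calc (1 + 1 / (4 * ((d : ℝ) + 1))) ^ d ≤ (Real.exp (1 / (4 * ((d : ℝ) + 1)))) ^ d := by
          gcongr
      _ = Real.exp (d * (1 / (4 * ((d : ℝ) + 1)))) := by rw [← Real.exp_nat_mul]
      _ ≤ Real.exp (1 / 4) := by
          apply Real.exp_le_exp.mpr
          have : (0 : ℝ) < (d : ℝ) + 1 := by positivity
          rw [← mul_div_assoc, div_le_div_iff₀ (by positivity) (by norm_num)]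
          linarith
  refine h1.trans ?_
  by_contra hcon
  push Not at hcon
  have h4 : (3 / 2 : ℝ) ^ 4 < Real.exp (1 / 4) ^ 4 := by gcongr
  rw [← Real.exp_nat_mul] at h4
  have h5 : ((4 : ℕ) : ℝ) * (1 / 4) = 1 := by norm_num
  rw [h5] at h4
  have := Real.exp_one_lt_d9
  norm_num at h4
  linarith

/-- `W` small on average over a ball is small on a smaller ball. -/
theorem Wf_avg (d : ℕ) : ∃ κ : ℝ, 0 < κ ∧ κ ≤ 1 ∧ ∀ {Ω : Type} [MeasurableSpace Ω]
    (ν : Measure Ω) [IsFiniteMeasure ν] (z : Ω → X d), Measurable z → ∀ p b t : ℝ, 0 < p → 0 < b →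
    0 < t → t ≤ 1 → (∫ ξ in Metric.closedBall (0 : X d) b, min 1 (p * Wf ν z ξ) ≤
      t / 10 * volume.real (Metric.closedBall (0 : X d) b)) →
    ∀ ξ : X d, ‖ξ‖ ≤ κ * b → p * Wf ν z ξ ≤ 4 * t := by
  refine ⟨1 / (4 * ((d : ℝ) + 1)), by positivity, ?_, ?_⟩
  · rw [div_le_one (by positivity)]
    have : (0 : ℝ) ≤ d := by positivity
    linarith
  intro Ω _ ν _ z hz p b t hp hb ht ht1 hint u hu
  set κ : ℝ := 1 / (4 * ((d : ℝ) + 1)) with hκ
  have hκ0 : 0 < κ := by positivity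
  have hWc : Continuous (Wf ν z) := Wf_continuous ν hz
  set V : ℝ := volume.real (Metric.closedBall (0 : X d) b) with hV
  have hfin : ∀ r : ℝ, volume (Metric.closedBall (0 : X d) r) ≠ ⊤ := fun r =>
    (isCompact_closedBall (0 : X d) r).measure_ne_top
  have hVpos : 0 < V := by
    apply ENNReal.toReal_pos
    · exact (Metric.measure_closedBall_pos volume (0 : X d) hb).ne'
    · exact hfin b
  set Good : Set (X d) := Metric.closedBall (0 : X d) b ∩ {ξ | p * Wf ν z ξ ≤ t} with hGood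
  set Bad : Set (X d) := Metric.closedBall (0 : X d) b ∩ {ξ | t < p * Wf ν z ξ} with hBad
  have hmG : MeasurableSet Good :=
    Metric.isClosed_closedBall.measurableSet.inter
      (measurableSet_le (continuous_const.mul hWc).measurable measurable_const)
  have hmB : MeasurableSet Bad :=
    Metric.isClosed_closedBall.measurableSet.inter
      (measurableSet_lt measurable_const (continuous_const.mul hWc).measurable)
  have hfB : volume Bad ≠ ⊤ := measure_ne_top_of_subset inter_subset_left (hfin b)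
  have hfG : volume Good ≠ ⊤ := measure_ne_top_of_subset inter_subset_left (hfin b)
  have hcont : Continuous (fun ξ => min 1 (p * Wf ν z ξ)) := by fun_prop
  have hintb : IntegrableOn (fun ξ => min 1 (p * Wf ν z ξ)) (Metric.closedBall (0 : X d) b) :=
    hcont.continuousOn.integrableOn_compact (isCompact_closedBall _ _)
  have hnn : ∀ ξ, 0 ≤ min 1 (p * Wf ν z ξ) := fun ξ =>
    le_min zero_le_one (mul_nonneg hp.le (Wf_nonneg ν z ξ))
  have hM : t * volume.real Bad ≤ t / 10 * V := by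
    calc t * volume.real Bad = ∫ ξ in Bad, t := by
          rw [setIntegral_const, smul_eq_mul, mul_comm]
      _ ≤ ∫ ξ in Bad, min 1 (p * Wf ν z ξ) := by
          apply setIntegral_mono_on
          · exact integrableOn_const hfB
          · exact hintb.mono_set inter_subset_left
          · exact hmB
          · intro ξ hξ
            exact le_min ht1 hξ.2.le
      _ ≤ ∫ ξ in Metric.closedBall (0 : X d) b, min 1 (p * Wf ν z ξ) :=
          setIntegral_mono_set hintb (Eventually.of_forall hnn)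
            (LE.le.eventuallyLE inter_subset_left)
      _ ≤ _ := hint
  have hBadle : volume.real Bad ≤ V / 10 := by
    have : t * volume.real Bad ≤ t * (V / 10) := by linarith
    exact le_of_mul_le_mul_left this ht
  have hun : Metric.closedBall (0 : X d) b = Good ∪ Bad := by
    ext ξ
    simp only [hGood, hBad, mem_union, mem_inter_iff, mem_ofPred_eq]
    constructor
    · intro h
      rcases le_or_gt (p * Wf ν z ξ) t with h1 | h1
      · exact Or.inl ⟨h, h1⟩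
      · exact Or.inr ⟨h, h1⟩
    · rintro (h | h)
      · exact h.1
      · exact h.1
  have hsum : V = volume.real Good + volume.real Bad := by
    rw [← measureReal_union _ hmB hfG hfB, ← hun]
    rw [Set.disjoint_left]
    rintro ξ ⟨_, h1⟩ ⟨_, h2⟩
    have h1' : p * Wf ν z ξ ≤ t := h1
    have h2' : t < p * Wf ν z ξ := h2
    exact absurd h1' (not_le.mpr h2')
  have hGoodge : 9 / 10 * V ≤ volume.real Good := by linarith
  -- the translate
  have hT0 : volume ((fun x => x - u) ⁻¹' Good) = volume Good := by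
    have := measure_preimage_add_right (volume : Measure (X d)) (-u) Good
    simpa only [← sub_eq_add_neg] using this
  have hT : volume.real ((fun x => x - u) ⁻¹' Good) = volume.real Good := by
    rw [measureReal_def, measureReal_def, hT0]
  have hmT : MeasurableSet ((fun x => x - u) ⁻¹' Good) :=
    (measurable_id.sub_const u) hmG
  have hne : ¬ Disjoint Good ((fun x => x - u) ⁻¹' Good) := by
    intro hdisj
    have hfT : volume ((fun x => x - u) ⁻¹' Good) ≠ ⊤ := by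
      rw [hT0]; exact hfG
    have h1 : volume.real (Good ∪ ((fun x => x - u) ⁻¹' Good)) =
        volume.real Good + volume.real Good := by
      rw [measureReal_union hdisj hmT hfG hfT, hT]
    have h2 : volume.real (Good ∪ ((fun x => x - u) ⁻¹' Good)) ≤
        volume.real (Metric.closedBall (0 : X d) ((1 + κ) * b)) := by
      apply measureReal_mono _ (hfin _)
      apply union_subset
      · intro x hx
        have := mem_closedBall_zero_iff.mp hx.1
        rw [mem_closedBall_zero_iff]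
        nlinarith
      · intro x hx
        have h3 := mem_closedBall_zero_iff.mp hx.1
        rw [mem_closedBall_zero_iff]
        have h4 : ‖x‖ ≤ ‖x - u‖ + ‖u‖ := by
          calc ‖x‖ = ‖(x - u) + u‖ := by rw [sub_add_cancel]
            _ ≤ _ := norm_add_le _ _
        simp only at h3
        linarith
    have h3 : volume.real (Metric.closedBall (0 : X d) ((1 + κ) * b)) = (1 + κ) ^ d * V := by
      rw [hV, Measure.addHaar_real_closedBall' volume _ (by positivity),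
        Measure.addHaar_real_closedBall' volume _ hb.le, finrank_euclideanSpace_fin, mul_pow]
      ring
    have h4 : (1 + κ) ^ d * V ≤ 3 / 2 * V := by
      have := far_kappa_pow d
      gcongr
    linarith
  rw [Set.not_disjoint_iff] at hne
  obtain ⟨x, hx1, hx2⟩ := hne
  have hx3 : p * Wf ν z x ≤ t := hx1.2
  have hx4 : p * Wf ν z (x - u) ≤ t := hx2.2
  have h5 : √(Wf ν z u) ≤ √(Wf ν z x) + √(Wf ν z (x - u)) := by
    have h6 := sqrt_Wf_add ν hz x (-(x - u))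
    rw [Wf_neg] at h6
    have h7 : x + -(x - u) = u := by abel
    rwa [h7] at h6
  have h8 : √(Wf ν z x) ≤ √(t / p) := by
    apply Real.sqrt_le_sqrt
    rw [le_div_iff₀ hp]; linarith
  have h9 : √(Wf ν z (x - u)) ≤ √(t / p) := by
    apply Real.sqrt_le_sqrt
    rw [le_div_iff₀ hp]; linarith
  have h10 : √(Wf ν z u) ≤ 2 * √(t / p) := by linarith
  have h11 : Wf ν z u ≤ 4 * (t / p) := by
    have h12 : √(Wf ν z u) ^ 2 ≤ (2 * √(t / p)) ^ 2 := by gcongr
    rw [Real.sq_sqrt (Wf_nonneg ν z u), mul_pow, Real.sq_sqrt (by positivity)] at h12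
    linarith
  calc p * Wf ν z u ≤ p * (4 * (t / p)) := by gcongr
    _ = 4 * t := by field_simp

theorem far_cos_quartic (x : ℝ) : x ^ 2 / 2 - x ^ 4 / 24 ≤ 1 - Real.cos x := by
  wlog hx : 0 ≤ x generalizing x
  · have := this (-x) (by linarith)
    rw [Real.cos_neg] at this
    have h1 : (-x) ^ 2 = x ^ 2 := by ring
    have h2 : (-x) ^ 4 = x ^ 4 := by ring
    rwa [h1, h2] at this
  set y := x / 2 with hy
  have hxy : x = 2 * y := by rw [hy]; ring
  have hy0 : 0 ≤ y := by positivity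
  have hcos : Real.cos x = 1 - 2 * Real.sin y ^ 2 := by
    rw [hxy, Real.cos_two_mul, ← Real.sin_sq_add_cos_sq y]
    ring
  rw [hcos, hxy]
  rcases le_or_gt (y ^ 2) 6 with h6 | h6
  · have hs : y - y ^ 3 / 6 ≤ Real.sin y := Real.sin_ge_sub_cube hy0
    have hnn : 0 ≤ y - y ^ 3 / 6 := by
      have : y - y ^ 3 / 6 = y * (1 - y ^ 2 / 6) := by ring
      rw [this]
      apply mul_nonneg hy0
      linarith
    have hsq : (y - y ^ 3 / 6) ^ 2 ≤ Real.sin y ^ 2 := by gcongr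
    nlinarith [sq_nonneg (y ^ 3)]
  · nlinarith [sq_nonneg (Real.sin y), sq_nonneg y]

theorem far_exp_min {x : ℝ} (hx : 0 ≤ x) : Real.exp (-x) ≤ 1 - 1 / 2 * min 1 x := by
  have h1 : Real.exp (-x) ≤ 1 / (1 + x) := by
    rw [Real.exp_neg, ← one_div]
    apply one_div_le_one_div_of_le (by linarith)
    have := Real.add_one_le_exp x
    linarith
  refine h1.trans ?_
  rw [div_le_iff₀ (by linarith)]
  rcases le_total 1 x with h | h
  · rw [min_eq_left h]; nlinarith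
  · rw [min_eq_right h]; nlinarith

theorem far_pair {R : ℝ} {N : Set (X d)} (hNR : N ⊆ Metric.closedBall 0 R) (ξ : X d)
    {x y : X d} (hx : x ∈ N) (hy : y ∈ N) : ⟪x - y, ξ⟫_ℝ ^ 2 ≤ 4 * R ^ 2 * ‖ξ‖ ^ 2 := by
  have h1 : ‖x‖ ≤ R := mem_closedBall_zero_iff.mp (hNR hx)
  have h2 : ‖y‖ ≤ R := mem_closedBall_zero_iff.mp (hNR hy)
  have h3 : ‖x - y‖ ≤ 2 * R := by
    calc ‖x - y‖ ≤ ‖x‖ + ‖y‖ := norm_sub_le _ _
      _ ≤ _ := by linarith
  have h4 : |⟪x - y, ξ⟫_ℝ| ≤ 2 * R * ‖ξ‖ :=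
    (abs_real_inner_le_norm _ _).trans (by gcongr)
  have h5 : |⟪x - y, ξ⟫_ℝ| ^ 2 ≤ (2 * R * ‖ξ‖) ^ 2 := by gcongr
  rw [sq_abs] at h5
  calc _ ≤ _ := h5
    _ = _ := by ring

theorem far_point {R u n : ℝ} (hu : u ^ 2 ≤ 4 * R ^ 2 * n ^ 2) :
    (1 - 14 * R ^ 2 * n ^ 2) * (2 * π ^ 2 * u ^ 2) ≤ 1 - Real.cos (2 * π * u) := by
  refine le_trans ?_ (far_cos_quartic (2 * π * u))
  have hpi : π ^ 2 ≤ 10.5 := by
    have h1 := Real.pi_lt_d2
    have h2 := Real.pi_pos
    nlinarith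
  have h3 : 0 ≤ 2 * π ^ 2 * u ^ 2 := by positivity
  have h4 : (2 * π * u) ^ 2 / 2 - (2 * π * u) ^ 4 / 24 =
      (1 - π ^ 2 * u ^ 2 / 3) * (2 * π ^ 2 * u ^ 2) := by ring
  rw [h4]
  apply mul_le_mul_of_nonneg_right _ h3
  have h5 : π ^ 2 * u ^ 2 ≤ 10.5 * (4 * R ^ 2 * n ^ 2) := by
    have h6 : (0 : ℝ) ≤ u ^ 2 := sq_nonneg u
    gcongr
  linarith

theorem far_int_prod {R : ℝ} {N : Set (X d)} (hN : MeasurableSet N)
    (hNR : N ⊆ Metric.closedBall 0 R) (ξ : X d) :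
    Integrable (fun q : X d × X d => ⟪q.1 - q.2, ξ⟫_ℝ ^ 2)
      ((volume.restrict N).prod (volume.restrict N)) := by
  have hfin : volume N ≠ ⊤ := measure_ne_top_of_subset hNR
    (isCompact_closedBall (0 : X d) R).measure_ne_top
  have : IsFiniteMeasure (volume.restrict N) :=
    ⟨by rw [Measure.restrict_apply_univ]; exact hfin.lt_top⟩
  have hc : Continuous (fun q : X d × X d => ⟪q.1 - q.2, ξ⟫_ℝ ^ 2) := by fun_prop
  refine Integrable.of_bound hc.aestronglyMeasurable (4 * R ^ 2 * ‖ξ‖ ^ 2) ?_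
  rw [Measure.prod_restrict]
  rw [ae_restrict_iff' (hN.prod hN)]
  refine Eventually.of_forall ?_
  rintro ⟨x, y⟩ ⟨hx, hy⟩
  rw [Real.norm_eq_abs, abs_of_nonneg (sq_nonneg _)]
  exact far_pair hNR ξ hx hy

theorem far_Wf_self {R : ℝ} {N : Set (X d)} (hN : MeasurableSet N)
    (hNR : N ⊆ Metric.closedBall 0 R) (ξ : X d) :
    (1 - 14 * R ^ 2 * ‖ξ‖ ^ 2) * (2 * π ^ 2 * ∫ x in N, ∫ y in N, ⟪x - y, ξ⟫_ℝ ^ 2) ≤
      Wf ((volume.restrict N).prod (volume.restrict N)) (fun q : X d × X d => q.1 - q.2) ξ := by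
  have hfin : volume N ≠ ⊤ := measure_ne_top_of_subset hNR
    (isCompact_closedBall (0 : X d) R).measure_ne_top
  have : IsFiniteMeasure (volume.restrict N) :=
    ⟨by rw [Measure.restrict_apply_univ]; exact hfin.lt_top⟩
  have h1 : ∫ x in N, ∫ y in N, ⟪x - y, ξ⟫_ℝ ^ 2 =
      ∫ q, ⟪q.1 - q.2, ξ⟫_ℝ ^ 2 ∂((volume.restrict N).prod (volume.restrict N)) := by
    rw [integral_prod _ (far_int_prod hN hNR ξ)]
  rw [h1, ← integral_const_mul, ← integral_const_mul]
  unfold Wf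
  apply integral_mono_ae
  · exact ((far_int_prod hN hNR ξ).const_mul _).const_mul _
  · have hc : Continuous (fun q : X d × X d =>
        1 - Real.cos (2 * π * ⟪q.1 - q.2, ξ⟫_ℝ)) := by fun_prop
    refine Integrable.of_bound hc.aestronglyMeasurable 2 ?_
    refine Eventually.of_forall fun q => ?_
    rw [Real.norm_eq_abs, abs_le]
    have h3 := Real.neg_one_le_cos (2 * π * ⟪q.1 - q.2, ξ⟫_ℝ)
    have h4 := Real.cos_le_one (2 * π * ⟪q.1 - q.2, ξ⟫_ℝ)
    constructor <;> linarith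
  · rw [Measure.prod_restrict, EventuallyLE, ae_restrict_iff' (hN.prod hN)]
    refine Eventually.of_forall ?_
    rintro ⟨x, y⟩ ⟨hx, hy⟩
    exact far_point (far_pair hNR ξ hx hy)

theorem far_inner_lower {d : ℕ} (hd : 0 < d) {E : Set (X d)} (hE : UnitVol E) {δ : ℝ}
    (hδ1 : δ ≤ 1) (hE' : volume.real (E ∆ Bl d) ≤ δ) (ξ : X d) :
    (2 * sg d - 2 * δ * (2 * rd d ^ 2 + sg d)) * ‖ξ‖ ^ 2 ≤
      ∫ x in E ∩ Bl d, ∫ y in E ∩ Bl d, ⟪x - y, ξ⟫_ℝ ^ 2 := by
  have hB := unitVol_Bl hd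
  have hr := rd_pos d
  have hsg := sg_pos hd
  have hfinB : volume (Bl d) ≠ ⊤ := by rw [hB.vol]; simp
  have hfinE : volume E ≠ ⊤ := by rw [hE.vol]; simp
  have hmN : MeasurableSet (E ∩ Bl d) := hE.meas.inter hB.meas
  have hmD : MeasurableSet (Bl d \ E) := hB.meas.diff hE.meas
  have hNR : E ∩ Bl d ⊆ Metric.closedBall 0 (rd d) := inter_subset_right
  rw [double_inner hmN hNR]
  have hdisj : Disjoint (E ∩ Bl d) (Bl d \ E) := by
    rw [Set.disjoint_left]
    rintro x ⟨h1, _⟩ ⟨_, h2⟩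
    exact h2 h1
  have hun : (E ∩ Bl d) ∪ (Bl d \ E) = Bl d := by
    rw [inter_comm]; exact inter_union_sdiff _ _
  have hfinD : volume (Bl d \ E) ≠ ⊤ := measure_ne_top_of_subset sdiff_subset hfinB
  have hfinN : volume (E ∩ Bl d) ≠ ⊤ := measure_ne_top_of_subset inter_subset_right hfinB
  have hfinS : volume (E ∆ Bl d) ≠ ⊤ := by
    refine measure_ne_top_of_subset ?_ (measure_union_lt_top hfinE.lt_top hfinB.lt_top).ne
    intro x hx
    rcases hx with hx | hx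
    · exact Or.inl hx.1
    · exact Or.inr hx.1
  have hD : volume.real (Bl d \ E) ≤ δ :=
    (measureReal_mono (by intro x hx; exact Or.inr hx) hfinS).trans hE'
  have hD0 : 0 ≤ volume.real (Bl d \ E) := measureReal_nonneg
  have hδ0 : 0 ≤ δ := hD0.trans hD
  have hvB : volume.real (Bl d) = 1 := by rw [measureReal_def, hB.vol]; simp
  have hvN : volume.real (E ∩ Bl d) = 1 - volume.real (Bl d \ E) := by
    have h1 := measureReal_union hdisj hmD hfinN hfinD
    rw [hun, hvB] at h1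
    linarith
  have hbd : ∀ x ∈ Bl d, |⟪x, ξ⟫_ℝ| ≤ rd d * ‖ξ‖ := by
    intro x hx
    have h1 : ‖x‖ ≤ rd d := mem_closedBall_zero_iff.mp hx
    exact (abs_real_inner_le_norm _ _).trans (by gcongr)
  have hcont : Continuous (fun x : X d => ⟪x, ξ⟫_ℝ) := by fun_prop
  have hcompB : IsCompact (Bl d) := isCompact_closedBall _ _
  have hi1 : IntegrableOn (fun x : X d => ⟪x, ξ⟫_ℝ) (Bl d) :=
    hcont.continuousOn.integrableOn_compact hcompB
  have hi2 : IntegrableOn (fun x : X d => ⟪x, ξ⟫_ℝ ^ 2) (Bl d) :=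
    (hcont.pow 2).continuousOn.integrableOn_compact hcompB
  have hs1 : ∫ x in E ∩ Bl d, ⟪x, ξ⟫_ℝ = - ∫ x in Bl d \ E, ⟪x, ξ⟫_ℝ := by
    have h1 := setIntegral_union hdisj hmD (hi1.mono_set inter_subset_right)
      (hi1.mono_set sdiff_subset)
    rw [hun, ball_cen] at h1
    linarith
  have hs2 : ∫ x in E ∩ Bl d, ⟪x, ξ⟫_ℝ ^ 2 = sg d * ‖ξ‖ ^ 2 - ∫ x in Bl d \ E, ⟪x, ξ⟫_ℝ ^ 2 := by
    have h1 := setIntegral_union hdisj hmD (hi2.mono_set inter_subset_right)
      (hi2.mono_set sdiff_subset)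
    rw [hun, ball_iso hd] at h1
    linarith
  have hb1 : |∫ x in Bl d \ E, ⟪x, ξ⟫_ℝ| ≤ rd d * ‖ξ‖ * δ := by
    have h1 : ‖∫ x in Bl d \ E, ⟪x, ξ⟫_ℝ‖ ≤ (rd d * ‖ξ‖) * volume.real (Bl d \ E) :=
      norm_setIntegral_le_of_norm_le_const hfinD.lt_top (fun x hx => by
        rw [Real.norm_eq_abs]; exact hbd x hx.1)
    rw [Real.norm_eq_abs] at h1
    exact h1.trans (by gcongr)
  have hb2 : ∫ x in Bl d \ E, ⟪x, ξ⟫_ℝ ^ 2 ≤ rd d ^ 2 * ‖ξ‖ ^ 2 * δ := by
    have h1 : ‖∫ x in Bl d \ E, ⟪x, ξ⟫_ℝ ^ 2‖ ≤ (rd d ^ 2 * ‖ξ‖ ^ 2) * volume.real (Bl d \ E) :=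
      norm_setIntegral_le_of_norm_le_const hfinD.lt_top (fun x hx => by
        rw [Real.norm_eq_abs, abs_of_nonneg (sq_nonneg _), ← mul_pow, ← sq_abs]
        have := hbd x hx.1
        gcongr)
    rw [Real.norm_eq_abs] at h1
    exact (le_abs_self _).trans (h1.trans (by gcongr))
  have hb3 : (∫ x in E ∩ Bl d, ⟪x, ξ⟫_ℝ) ^ 2 ≤ rd d ^ 2 * ‖ξ‖ ^ 2 * δ := by
    rw [hs1, neg_sq, ← sq_abs]
    calc |∫ x in Bl d \ E, ⟪x, ξ⟫_ℝ| ^ 2 ≤ (rd d * ‖ξ‖ * δ) ^ 2 := by gcongr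
      _ = rd d ^ 2 * ‖ξ‖ ^ 2 * (δ * δ) := by ring
      _ ≤ rd d ^ 2 * ‖ξ‖ ^ 2 * (δ * 1) := by gcongr
      _ = _ := by ring
  have hJ0 : 0 ≤ ∫ x in E ∩ Bl d, ⟪x, ξ⟫_ℝ ^ 2 := integral_nonneg fun x => sq_nonneg _
  have hJ : (sg d - rd d ^ 2 * δ) * ‖ξ‖ ^ 2 ≤ ∫ x in E ∩ Bl d, ⟪x, ξ⟫_ℝ ^ 2 := by
    rw [hs2]; linarith
  have hvN' : 1 - δ ≤ volume.real (E ∩ Bl d) := by rw [hvN]; linarith
  have h7 : 2 * (1 - δ) * ((sg d - rd d ^ 2 * δ) * ‖ξ‖ ^ 2) ≤
      2 * volume.real (E ∩ Bl d) * ∫ x in E ∩ Bl d, ⟪x, ξ⟫_ℝ ^ 2 := by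
    calc 2 * (1 - δ) * ((sg d - rd d ^ 2 * δ) * ‖ξ‖ ^ 2) ≤
        2 * (1 - δ) * ∫ x in E ∩ Bl d, ⟪x, ξ⟫_ℝ ^ 2 := by
          apply mul_le_mul_of_nonneg_left hJ
          linarith
      _ ≤ _ := by
          apply mul_le_mul_of_nonneg_right _ hJ0
          linarith
  have h8 : 0 ≤ δ ^ 2 * rd d ^ 2 * ‖ξ‖ ^ 2 := by positivity
  nlinarith [h7, hb3, h8]

/-- the lower bound of `1 - PP` -/
theorem far_lower {d : ℕ} (hd : 0 < d) {E : Set (X d)} (hE : UnitVol E) {δ : ℝ}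
    (hδ1 : δ ≤ 1) (hE' : volume.real (E ∆ Bl d) ≤ δ) (ξ : X d)
    (hξ : 14 * rd d ^ 2 * ‖ξ‖ ^ 2 ≤ 1) :
    4 * π ^ 2 * sg d * ‖ξ‖ ^ 2 - 4 * π ^ 2 * (2 * rd d ^ 2 + sg d) * δ * ‖ξ‖ ^ 2 -
      56 * π ^ 2 * sg d * rd d ^ 2 * ‖ξ‖ ^ 4 +
      2 * Wf ((volume.restrict (E ∩ Bl d)).prod
        (volume.restrict (E \ Metric.closedBall 0 (2 * rd d))))
        (fun q : X d × X d => q.1 - q.2) ξ ≤ 1 - PP E ξ := by
  have hB := unitVol_Bl hd
  have hr := rd_pos d
  have hsg := sg_pos hd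
  have hD0 : 0 ≤ volume.real (E ∆ Bl d) := measureReal_nonneg
  have hδ0 : 0 ≤ δ := hD0.trans hE'
  have hmN : MeasurableSet (E ∩ Bl d) := hE.meas.inter hB.meas
  have hmF : MeasurableSet (E \ Metric.closedBall 0 (2 * rd d)) :=
    hE.meas.diff Metric.isClosed_closedBall.measurableSet
  have hdisj : Disjoint (E ∩ Bl d) (E \ Metric.closedBall 0 (2 * rd d)) := by
    rw [Set.disjoint_left]
    rintro x ⟨_, h1⟩ ⟨_, h2⟩
    apply h2
    exact Metric.closedBall_subset_closedBall (by linarith) h1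
  have h1 := Wf_add_le_one_sub_PP hE hmN hmF inter_subset_left sdiff_subset hdisj ξ
  have h2 := far_Wf_self hmN (R := rd d) inter_subset_right ξ
  have h3 := far_inner_lower hd hE hδ1 hE' ξ
  refine le_trans ?_ h1
  have h4 : (1 - 14 * rd d ^ 2 * ‖ξ‖ ^ 2) * (2 * π ^ 2 *
      ((2 * sg d - 2 * δ * (2 * rd d ^ 2 + sg d)) * ‖ξ‖ ^ 2)) ≤
      (1 - 14 * rd d ^ 2 * ‖ξ‖ ^ 2) * (2 * π ^ 2 *
        ∫ x in E ∩ Bl d, ∫ y in E ∩ Bl d, ⟪x - y, ξ⟫_ℝ ^ 2) := by
    apply mul_le_mul_of_nonneg_left _ (by linarith)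
    apply mul_le_mul_of_nonneg_left h3 (by positivity)
  have h5 : 4 * π ^ 2 * sg d * ‖ξ‖ ^ 2 - 4 * π ^ 2 * (2 * rd d ^ 2 + sg d) * δ * ‖ξ‖ ^ 2 -
      56 * π ^ 2 * sg d * rd d ^ 2 * ‖ξ‖ ^ 4 ≤ (1 - 14 * rd d ^ 2 * ‖ξ‖ ^ 2) * (2 * π ^ 2 *
      ((2 * sg d - 2 * δ * (2 * rd d ^ 2 + sg d)) * ‖ξ‖ ^ 2)) := by
    have h6 : (1 - 14 * rd d ^ 2 * ‖ξ‖ ^ 2) * (2 * π ^ 2 *
      ((2 * sg d - 2 * δ * (2 * rd d ^ 2 + sg d)) * ‖ξ‖ ^ 2)) =
      4 * π ^ 2 * sg d * ‖ξ‖ ^ 2 - 4 * π ^ 2 * (2 * rd d ^ 2 + sg d) * δ * ‖ξ‖ ^ 2 -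
      56 * π ^ 2 * sg d * rd d ^ 2 * ‖ξ‖ ^ 4 +
      56 * π ^ 2 * rd d ^ 2 * ‖ξ‖ ^ 4 * δ * (2 * rd d ^ 2 + sg d) := by ring
    rw [h6]
    have : 0 ≤ 56 * π ^ 2 * rd d ^ 2 * ‖ξ‖ ^ 4 * δ * (2 * rd d ^ 2 + sg d) := by positivity
    linarith
  linarith

theorem far_finite {d : ℕ} {E : Set (X d)} (hE : UnitVol E) :
    IsFiniteMeasure ((volume.restrict (E ∩ Bl d)).prod
      (volume.restrict (E \ Metric.closedBall 0 (2 * rd d)))) := by
  have hfinE : volume E ≠ ⊤ := by rw [hE.vol]; simp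
  have h1 : IsFiniteMeasure (volume.restrict (E ∩ Bl d)) :=
    ⟨by rw [Measure.restrict_apply_univ]
        exact (measure_ne_top_of_subset inter_subset_left hfinE).lt_top⟩
  have h2 : IsFiniteMeasure (volume.restrict (E \ Metric.closedBall 0 (2 * rd d))) :=
    ⟨by rw [Measure.restrict_apply_univ]
        exact (measure_ne_top_of_subset sdiff_subset hfinE).lt_top⟩
  infer_instance

theorem far_main {d : ℕ} (hd : 0 < d) {E : Set (X d)} (hE : UnitVol E) {δ : ℝ}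
    (hδ1 : δ ≤ 1) (hE' : volume.real (E ∆ Bl d) ≤ δ) {L p s' : ℝ} (hL : 1 ≤ L) (hp : 8 ≤ p)
    (hLp : 14 * rd d ^ 2 * L ^ 2 ≤ p)
    (hs' : 4 * π ^ 2 * (2 * rd d ^ 2 + sg d) * δ * L ^ 2 +
      56 * π ^ 2 * sg d * rd d ^ 2 * L ^ 4 / p ≤ s') :
    ∫ ξ in Metric.closedBall (0 : X d) (L / √p), PP E ξ ^ p ≤
      Real.exp s' * ((∫ ξ : X d, Real.exp (-(4 * π ^ 2 * sg d * p) * ‖ξ‖ ^ 2)) -
        1 / 2 * Real.exp (-(4 * π ^ 2 * sg d)) *
          ∫ ξ in Metric.closedBall (0 : X d) (1 / √p), min 1 (p *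
            Wf ((volume.restrict (E ∩ Bl d)).prod
              (volume.restrict (E \ Metric.closedBall 0 (2 * rd d))))
              (fun q : X d × X d => q.1 - q.2) ξ)) := by
  have hr := rd_pos d
  have hsg := sg_pos hd
  have hp0 : 0 < p := by linarith
  have hsp : 0 < √p := Real.sqrt_pos.mpr hp0
  have hsp2 : √p ^ 2 = p := Real.sq_sqrt hp0.le
  have hD0 : 0 ≤ volume.real (E ∆ Bl d) := measureReal_nonneg
  have hδ0 : 0 ≤ δ := hD0.trans hE'
  have hfinE : volume E ≠ ⊤ := by rw [hE.vol]; simp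
  have := far_finite hE
  have hWc : Continuous (Wf ((volume.restrict (E ∩ Bl d)).prod
      (volume.restrict (E \ Metric.closedBall 0 (2 * rd d))))
      (fun q : X d × X d => q.1 - q.2)) := Wf_continuous _ (by fun_prop)
  have hlow := fun ξ => far_lower hd hE hδ1 hE' ξ
  have hWn := fun ξ => Wf_nonneg ((volume.restrict (E ∩ Bl d)).prod
      (volume.restrict (E \ Metric.closedBall 0 (2 * rd d))))
      (fun q : X d × X d => q.1 - q.2) ξ
  generalize Wf ((volume.restrict (E ∩ Bl d)).prod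
      (volume.restrict (E \ Metric.closedBall 0 (2 * rd d))))
      (fun q : X d × X d => q.1 - q.2) = W at *
  set g : X d → ℝ := fun ξ => Real.exp (-(4 * π ^ 2 * sg d * p) * ‖ξ‖ ^ 2) with hg
  have hgc : Continuous g := by fun_prop
  have hmc : Continuous (fun ξ => min 1 (p * W ξ)) := by fun_prop
  have hm0 : ∀ ξ, 0 ≤ min 1 (p * W ξ) := fun ξ => le_min zero_le_one (mul_nonneg hp0.le (hWn ξ))
  have hg0 : ∀ ξ, 0 ≤ g ξ := fun ξ => (Real.exp_pos _).le
  have hgi : Integrable g := by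
    have h1 := GaussianFourier.integrable_cexp_neg_mul_sq_norm_add (V := X d)
      (b := ((4 * π ^ 2 * sg d * p : ℝ) : ℂ)) (by
        rw [Complex.ofReal_re]; positivity) 0 0
    have h2 := h1.re
    refine h2.congr (Eventually.of_forall fun ξ => ?_)
    simp only [hg, zero_mul, add_zero]
    rw [← Complex.ofReal_pow, ← Complex.ofReal_neg, ← Complex.ofReal_mul]
    exact Complex.exp_ofReal_re _
  have hcomp : ∀ R : ℝ, IsCompact (Metric.closedBall (0 : X d) R) := fun R =>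
    isCompact_closedBall _ _
  -- pointwise
  have hpt : ∀ ξ ∈ Metric.closedBall (0 : X d) (L / √p), PP E ξ ^ p ≤
      Real.exp s' * (g ξ - 1 / 2 * (g ξ * min 1 (p * W ξ))) := by
    intro ξ hξ
    have h1 : ‖ξ‖ ≤ L / √p := mem_closedBall_zero_iff.mp hξ
    have h2 : ‖ξ‖ ^ 2 ≤ L ^ 2 / p := by
      calc ‖ξ‖ ^ 2 ≤ (L / √p) ^ 2 := by gcongr
        _ = _ := by rw [div_pow, hsp2]
    have h3 : p * ‖ξ‖ ^ 2 ≤ L ^ 2 := by
      rw [le_div_iff₀ hp0] at h2; linarith
    have h4 : p * ‖ξ‖ ^ 4 ≤ L ^ 4 / p := by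
      rw [le_div_iff₀ hp0]
      calc p * ‖ξ‖ ^ 4 * p = (p * ‖ξ‖ ^ 2) ^ 2 := by ring
        _ ≤ (L ^ 2) ^ 2 := by gcongr
        _ = _ := by ring
    have h5 : 14 * rd d ^ 2 * ‖ξ‖ ^ 2 ≤ 1 := by
      have h6 : 14 * rd d ^ 2 * (p * ‖ξ‖ ^ 2) ≤ 14 * rd d ^ 2 * L ^ 2 := by gcongr
      have h7 : p * (14 * rd d ^ 2 * ‖ξ‖ ^ 2) ≤ p * 1 := by linarith
      exact le_of_mul_le_mul_left h7 hp0
    have h8 := hlow ξ h5
    have hPP0 := PP_nonneg E ξ
    have h9 : PP E ξ ^ p ≤ Real.exp (-(1 - PP E ξ) * p) := by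
      rw [Real.exp_mul]
      apply Real.rpow_le_rpow hPP0 _ hp0.le
      have := Real.add_one_le_exp (-(1 - PP E ξ))
      linarith
    refine h9.trans ?_
    have h10 : -(1 - PP E ξ) * p ≤ s' + (-(4 * π ^ 2 * sg d * p) * ‖ξ‖ ^ 2) + -(p * W ξ) := by
      have h11 : 4 * π ^ 2 * (2 * rd d ^ 2 + sg d) * δ * (p * ‖ξ‖ ^ 2) ≤
          4 * π ^ 2 * (2 * rd d ^ 2 + sg d) * δ * L ^ 2 := by gcongr
      have h12 : 56 * π ^ 2 * sg d * rd d ^ 2 * (p * ‖ξ‖ ^ 4) ≤
          56 * π ^ 2 * sg d * rd d ^ 2 * (L ^ 4 / p) := by gcongr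
      have h13 := mul_le_mul_of_nonneg_left h8 hp0.le
      have h14 := mul_nonneg hp0.le (hWn ξ)
      have h15 : 56 * π ^ 2 * sg d * rd d ^ 2 * (L ^ 4 / p) =
        56 * π ^ 2 * sg d * rd d ^ 2 * L ^ 4 / p := by ring
      nlinarith
    calc Real.exp (-(1 - PP E ξ) * p) ≤
        Real.exp (s' + (-(4 * π ^ 2 * sg d * p) * ‖ξ‖ ^ 2) + -(p * W ξ)) :=
          Real.exp_le_exp.mpr h10
      _ = Real.exp s' * g ξ * Real.exp (-(p * W ξ)) := by
          rw [Real.exp_add, Real.exp_add]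
      _ ≤ Real.exp s' * g ξ * (1 - 1 / 2 * min 1 (p * W ξ)) := by
          apply mul_le_mul_of_nonneg_left (far_exp_min (mul_nonneg hp0.le (hWn ξ)))
          have := hg0 ξ
          positivity
      _ = _ := by ring
  have hPPi : IntegrableOn (fun ξ => PP E ξ ^ p) (Metric.closedBall (0 : X d) (L / √p)) :=
    (PP_rpow_integrable hE (by linarith)).integrableOn
  have hgmi : ∀ R : ℝ, IntegrableOn (fun ξ => g ξ * min 1 (p * W ξ))
      (Metric.closedBall (0 : X d) R) := fun R =>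
    (hgc.mul hmc).continuousOn.integrableOn_compact (hcomp R)
  have hsub : Metric.closedBall (0 : X d) (1 / √p) ⊆ Metric.closedBall (0 : X d) (L / √p) := by
    apply Metric.closedBall_subset_closedBall
    gcongr
  calc ∫ ξ in Metric.closedBall (0 : X d) (L / √p), PP E ξ ^ p ≤
      ∫ ξ in Metric.closedBall (0 : X d) (L / √p),
        Real.exp s' * (g ξ - 1 / 2 * (g ξ * min 1 (p * W ξ))) := by
        apply setIntegral_mono_on hPPi _ Metric.isClosed_closedBall.measurableSet hpt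
        exact ((hgi.integrableOn).sub ((hgmi _).const_mul _)).const_mul _
    _ = Real.exp s' * ((∫ ξ in Metric.closedBall (0 : X d) (L / √p), g ξ) -
        1 / 2 * ∫ ξ in Metric.closedBall (0 : X d) (L / √p), g ξ * min 1 (p * W ξ)) := by
        rw [integral_const_mul, integral_sub hgi.integrableOn ((hgmi _).const_mul _),
          integral_const_mul]
    _ ≤ _ := by
        apply mul_le_mul_of_nonneg_left _ (Real.exp_pos _).le
        have h1 : ∫ ξ in Metric.closedBall (0 : X d) (L / √p), g ξ ≤ ∫ ξ, g ξ :=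
          setIntegral_le_integral hgi (Eventually.of_forall hg0)
        have h2 : ∫ ξ in Metric.closedBall (0 : X d) (1 / √p), g ξ * min 1 (p * W ξ) ≤
            ∫ ξ in Metric.closedBall (0 : X d) (L / √p), g ξ * min 1 (p * W ξ) :=
          setIntegral_mono_set (hgmi _)
            (Eventually.of_forall fun ξ => mul_nonneg (hg0 ξ) (hm0 ξ))
            (LE.le.eventuallyLE hsub)
        have h3 : ∫ ξ in Metric.closedBall (0 : X d) (1 / √p),
              Real.exp (-(4 * π ^ 2 * sg d)) * min 1 (p * W ξ) ≤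
            ∫ ξ in Metric.closedBall (0 : X d) (1 / √p), g ξ * min 1 (p * W ξ) := by
          apply setIntegral_mono_on _ (hgmi _) Metric.isClosed_closedBall.measurableSet
          · intro ξ hξ
            apply mul_le_mul_of_nonneg_right _ (hm0 ξ)
            apply Real.exp_le_exp.mpr
            have h4 : ‖ξ‖ ≤ 1 / √p := mem_closedBall_zero_iff.mp hξ
            have h5 : ‖ξ‖ ^ 2 ≤ 1 / p := by
              calc ‖ξ‖ ^ 2 ≤ (1 / √p) ^ 2 := by gcongr
                _ = _ := by rw [div_pow, hsp2]; simp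
            have h6 : p * ‖ξ‖ ^ 2 ≤ 1 := by
              rw [le_div_iff₀ hp0] at h5; linarith
            have h7 : 4 * π ^ 2 * sg d * (p * ‖ξ‖ ^ 2) ≤ 4 * π ^ 2 * sg d * 1 := by gcongr
            linarith
          · exact (continuous_const.mul hmc).continuousOn.integrableOn_compact (hcomp _)
        rw [integral_const_mul] at h3
        linarith

theorem far_tail {d : ℕ} {E : Set (X d)} (hE : UnitVol E) {c₀ L p C : ℝ} (hc₀ : 0 < c₀)
    (hco : ∀ ξ, c₀ * min 1 (‖ξ‖ ^ 2) ≤ 1 - PP E ξ) (hL : 1 ≤ L) (hp : 8 ≤ p) (hLp : L ^ 2 ≤ p)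
    (hT : ∀ p Λ : ℝ, 8 ≤ p → 0 ≤ Λ → ∫ ξ in {ξ | Λ / √p < rho E ξ}, PP E ξ ^ p ≤
      C * Real.exp (-Λ ^ 2 / 2) * p ^ (-(d : ℝ) / 2)) :
    ∫ ξ in (Metric.closedBall (0 : X d) (L / √p))ᶜ, PP E ξ ^ p ≤
      C * Real.exp (-c₀ * L ^ 2 / 8) * p ^ (-(d : ℝ) / 2) := by
  have hp0 : 0 < p := by linarith
  have hsp : 0 < √p := Real.sqrt_pos.mpr hp0
  have hsp2 : √p ^ 2 = p := Real.sq_sqrt hp0.le
  have hsc : 0 < √c₀ := Real.sqrt_pos.mpr hc₀
  have hL0 : 0 < L := by linarith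
  have h1 := hT p (√c₀ * L / 2) hp (by positivity)
  have h2 : -(√c₀ * L / 2) ^ 2 / 2 = -c₀ * L ^ 2 / 8 := by
    rw [div_pow, mul_pow, Real.sq_sqrt hc₀.le]; ring
  rw [h2] at h1
  refine le_trans ?_ h1
  apply setIntegral_mono_set (PP_rpow_integrable hE (by linarith)).integrableOn
  · exact Eventually.of_forall fun ξ => Real.rpow_nonneg (PP_nonneg E ξ) p
  · apply LE.le.eventuallyLE
    intro ξ hξ
    have h3 : L / √p < ‖ξ‖ := by
      by_contra hcon
      exact hξ (mem_closedBall_zero_iff.mpr (not_lt.mp hcon))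
    have h4 : L ^ 2 / p ≤ ‖ξ‖ ^ 2 := by
      calc L ^ 2 / p = (L / √p) ^ 2 := by rw [div_pow, hsp2]
        _ ≤ _ := by gcongr
    have h5 : L ^ 2 / p ≤ 1 := by rw [div_le_one hp0]; exact hLp
    have h6 : c₀ * (L ^ 2 / p) ≤ 1 - PP E ξ := by
      refine le_trans ?_ (hco ξ)
      gcongr
      exact le_min h5 h4
    have h7 : √c₀ * L / √p ≤ rho E ξ := by
      unfold rho
      apply Real.le_sqrt_of_sq_le
      rw [div_pow, mul_pow, Real.sq_sqrt hc₀.le, hsp2]
      calc _ = c₀ * (L ^ 2 / p) := by ring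
        _ ≤ _ := h6
    show √c₀ * L / 2 / √p < rho E ξ
    refine lt_of_lt_of_le ?_ h7
    apply div_lt_div_of_pos_right _ hsp
    have : 0 < √c₀ * L := by positivity
    linarith

theorem far_final {G η : ℝ} (hG : 0 < G) (hη : 0 < η) :
    (1 + η / (4 * (G + 1))) * (G - η) ≤ G - η + η / 4 := by
  have h7 : η / (4 * (G + 1)) * G ≤ η / 4 := by
    rw [div_mul_eq_mul_div, div_le_div_iff₀ (by positivity) (by norm_num)]
    linarith
  have h8 : 0 ≤ η / (4 * (G + 1)) * η := by positivity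
  calc (1 + η / (4 * (G + 1))) * (G - η) =
      G - η + η / (4 * (G + 1)) * G - η / (4 * (G + 1)) * η := by ring
    _ ≤ _ := by linarith

theorem far_gauss (d : ℕ) {σ p : ℝ} (hσ : 0 < σ) (hp : 0 < p) :
    ∫ ξ : X d, Real.exp (-(4 * π ^ 2 * σ * p) * ‖ξ‖ ^ 2) =
      (4 * π * σ) ^ (-(d : ℝ) / 2) * p ^ (-(d : ℝ) / 2) := by
  rw [GaussianFourier.integral_rexp_neg_mul_sq_norm (by positivity), finrank_euclideanSpace_fin,
    ← Real.mul_rpow (by positivity) hp.le, neg_div, Real.rpow_neg (by positivity),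
    ← Real.inv_rpow (by positivity)]
  congr 1
  field_simp

/-- the main comparison for a set close to the ball: the cross term `W` is small on average -/
theorem far_avg {d : ℕ} (hd : 0 < d) {s : ℝ} (hs : 0 < s) : ∃ δ₁ P : ℝ, 0 < δ₁ ∧ 8 ≤ P ∧
    ∀ p : ℝ, P ≤ p → ∀ E : Set (X d), UnitVol E → volume.real (E ∆ Bl d) ≤ δ₁ →
    MM p (Bl d) ≤ MM p E →
    ∫ ξ in Metric.closedBall (0 : X d) (1 / √p), min 1 (p *
      Wf ((volume.restrict (E ∩ Bl d)).prod (volume.restrict (E \ Metric.closedBall 0 (2 * rd d))))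
        (fun q : X d × X d => q.1 - q.2) ξ) ≤
      s * volume.real (Metric.closedBall (0 : X d) (1 / √p)) := by
  obtain ⟨δ₀, c₀, hδ₀, hc₀, hc₀', hco⟩ := coer hd
  obtain ⟨CT, hCT, hT⟩ := MM_tail d
  obtain ⟨CB, hCB, hB⟩ := ball_lower hd
  have hr := rd_pos d
  have hsg := sg_pos hd
  set G : ℝ := (4 * π * sg d) ^ (-(d : ℝ) / 2) with hG
  have hG0 : 0 < G := by positivity
  set v : ℝ := volume.real (Metric.closedBall (0 : X d) 1) with hv
  have hv0 : 0 < v := by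
    apply ENNReal.toReal_pos
    · exact (Metric.measure_closedBall_pos volume (0 : X d) one_pos).ne'
    · exact (isCompact_closedBall (0 : X d) 1).measure_ne_top
  set η : ℝ := 1 / 2 * Real.exp (-(4 * π ^ 2 * sg d)) * s * v with hη
  have hη0 : 0 < η := by positivity
  set τ : ℝ := Real.log (1 + η / (4 * (G + 1))) with hτ
  have hτ0 : 0 < τ := Real.log_pos (by
    have : 0 < η / (4 * (G + 1)) := by positivity
    linarith)
  have hτe : Real.exp τ = 1 + η / (4 * (G + 1)) := Real.exp_log (by positivity)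
  set L : ℝ := max 1 (32 * CT / (c₀ * η)) with hL
  have hL1 : 1 ≤ L := le_max_left _ _
  have hL2 : 32 * CT / (c₀ * η) ≤ L := le_max_right _ _
  have hL0 : 0 < L := by linarith
  have htail : CT * Real.exp (-c₀ * L ^ 2 / 8) ≤ η / 4 := by
    have h1 : 32 * CT ≤ L * (c₀ * η) := by
      rwa [div_le_iff₀ (by positivity)] at hL2
    have h2 : Real.exp (-c₀ * L ^ 2 / 8) ≤ 1 / (c₀ * L / 8) := by
      have h3 : Real.exp (-c₀ * L ^ 2 / 8) = 1 / Real.exp (c₀ * L ^ 2 / 8) := by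
        rw [one_div, ← Real.exp_neg]; congr 1; ring
      rw [h3]
      apply one_div_le_one_div_of_le (by positivity)
      have h4 := Real.add_one_le_exp (c₀ * L ^ 2 / 8)
      have h5 : c₀ * L ≤ c₀ * L ^ 2 := by
        apply mul_le_mul_of_nonneg_left _ hc₀.le
        nlinarith
      linarith
    calc CT * Real.exp (-c₀ * L ^ 2 / 8) ≤ CT * (1 / (c₀ * L / 8)) := by gcongr
      _ ≤ η / 4 := by
        rw [mul_one_div, div_le_div_iff₀ (by positivity) (by norm_num)]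
        linarith
  set K : ℝ := 4 * π ^ 2 * (2 * rd d ^ 2 + sg d) * L ^ 2 with hK
  have hK0 : 0 < K := by positivity
  set M : ℝ := 56 * π ^ 2 * sg d * rd d ^ 2 * L ^ 4 with hM
  have hM0 : 0 < M := by positivity
  refine ⟨min (min δ₀ 1) (τ / 2 / K), max 8 (max (14 * rd d ^ 2 * L ^ 2) (max (L ^ 2)
    (max (2 * M / τ) (4 * CB / η)))), ?_, le_max_left _ _, ?_⟩
  · apply lt_min (lt_min hδ₀ one_pos)
    positivity
  intro p hp E hE hE' hMM
  simp only [max_le_iff] at hp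
  obtain ⟨hp8, hp1, hp2, hp3, hp4⟩ := hp
  simp only [le_min_iff] at hE'
  obtain ⟨⟨hE1, hE2⟩, hE3⟩ := hE'
  by_contra hcon
  push Not at hcon
  have hp0 : 0 < p := by linarith
  have hsp : 0 < √p := Real.sqrt_pos.mpr hp0
  set δ : ℝ := volume.real (E ∆ Bl d) with hδ
  have hδ0 : 0 ≤ δ := measureReal_nonneg
  have hδK : K * δ ≤ τ / 2 := by
    rw [le_div_iff₀ hK0] at hE3; linarith
  have hMp : M / p ≤ τ / 2 := by
    rw [div_le_iff₀ hτ0] at hp3
    rw [div_le_iff₀ hp0]; linarith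
  have hCBp : CB / p ≤ η / 4 := by
    rw [div_le_iff₀ hη0] at hp4
    rw [div_le_iff₀ hp0]; linarith
  have hs' : 4 * π ^ 2 * (2 * rd d ^ 2 + sg d) * δ * L ^ 2 +
      56 * π ^ 2 * sg d * rd d ^ 2 * L ^ 4 / p ≤ τ := by
    have h1 : 4 * π ^ 2 * (2 * rd d ^ 2 + sg d) * δ * L ^ 2 = K * δ := by rw [hK]; ring
    rw [h1]
    linarith
  have hmain := far_main hd hE hE2 hδ.ge hL1 hp8 hp1 hs'
  have htl := far_tail hE hc₀ (hco E hE hE1) hL1 hp8 hp2 (hT E hE)
  rw [far_gauss d hsg hp0] at hmain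
  have hvol : volume.real (Metric.closedBall (0 : X d) (1 / √p)) = p ^ (-(d : ℝ) / 2) * v := by
    rw [Measure.addHaar_real_closedBall' volume _ (by positivity), finrank_euclideanSpace_fin]
    congr 1
    rw [neg_div, Real.rpow_neg hp0.le, one_div, inv_pow]
    congr 1
    rw [Real.sqrt_eq_rpow, ← Real.rpow_natCast, ← Real.rpow_mul hp0.le]
    congr 1
    ring
  rw [hvol] at hcon
  set q : ℝ := p ^ (-(d : ℝ) / 2) with hq
  have hq0 : 0 < q := by positivity
  have hqq : p ^ ((d : ℝ) / 2) * q = 1 := by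
    rw [hq, ← Real.rpow_add hp0]
    have : (d : ℝ) / 2 + -(d : ℝ) / 2 = 0 := by ring
    rw [this, Real.rpow_zero]
  generalize (∫ ξ in Metric.closedBall (0 : X d) (1 / √p), min 1 (p *
            Wf ((volume.restrict (E ∩ Bl d)).prod
              (volume.restrict (E \ Metric.closedBall 0 (2 * rd d))))
              (fun q : X d × X d => q.1 - q.2) ξ)) = A at hmain hcon
  have hsplit : MM p E = (∫ ξ in Metric.closedBall (0 : X d) (L / √p), PP E ξ ^ p) +
      ∫ ξ in (Metric.closedBall (0 : X d) (L / √p))ᶜ, PP E ξ ^ p :=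
    (integral_add_compl Metric.isClosed_closedBall.measurableSet
      (PP_rpow_integrable hE (by linarith))).symm
  have hup : MM p E ≤ q * (Real.exp τ * (G - η) + η / 4) := by
    have h1 : Real.exp τ * (G * q - 1 / 2 * Real.exp (-(4 * π ^ 2 * sg d)) * A) ≤
        Real.exp τ * (G * q - 1 / 2 * Real.exp (-(4 * π ^ 2 * sg d)) * (s * (q * v))) := by
      gcongr
    have h2 : G * q - 1 / 2 * Real.exp (-(4 * π ^ 2 * sg d)) * (s * (q * v)) = q * (G - η) := by
      rw [hη]; ring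
    rw [h2] at h1
    have h3 : CT * Real.exp (-c₀ * L ^ 2 / 8) * q ≤ η / 4 * q := by gcongr
    rw [hsplit]
    linarith
  have hlowB := hB p (by linarith)
  have h4 : p ^ ((d : ℝ) / 2) * MM p (Bl d) ≤ Real.exp τ * (G - η) + η / 4 := by
    have h5 : p ^ ((d : ℝ) / 2) * MM p (Bl d) ≤
        p ^ ((d : ℝ) / 2) * (q * (Real.exp τ * (G - η) + η / 4)) :=
      mul_le_mul_of_nonneg_left (hMM.trans hup) (by positivity)
    rw [← mul_assoc, hqq, one_mul] at h5
    exact h5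
  have h6 : Real.exp τ * (G - η) ≤ G - η + η / 4 := by
    rw [hτe]
    exact far_final hG0 hη0
  linarith

theorem far_small {d : ℕ} (hd : 0 < d) {δ : ℝ} (hδ : 0 < δ) : ∃ δ₁ P : ℝ, 0 < δ₁ ∧ 8 ≤ P ∧
    ∀ p : ℝ, P ≤ p → ∀ E : Set (X d), UnitVol E → volume.real (E ∆ Bl d) ≤ δ₁ →
    MM p (Bl d) ≤ MM p E →
    ∫ x in E \ Metric.closedBall 0 (2 * rd d), min p (‖x‖ ^ 2) ≤ δ := by
  obtain ⟨κ, hκ0, hκ1, hav⟩ := Wf_avg d
  obtain ⟨C, hC, hax⟩ := Wf_axis d hd
  set t : ℝ := min 1 (δ * κ ^ 2 / (32 * C)) with ht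
  have ht0 : 0 < t := lt_min one_pos (by positivity)
  have ht1 : t ≤ 1 := min_le_left _ _
  have ht2 : 32 * C * t ≤ δ * κ ^ 2 := by
    have h1 : t ≤ δ * κ ^ 2 / (32 * C) := min_le_right _ _
    rw [le_div_iff₀ (by positivity)] at h1
    linarith
  obtain ⟨δ₁, P, hδ₁, hP, hfar⟩ := far_avg hd (s := t / 10) (by positivity)
  refine ⟨min δ₁ (1 / 2), P, lt_min hδ₁ (by norm_num), hP, ?_⟩
  intro p hp E hE hE' hMM
  have hp8 : 8 ≤ p := hP.trans hp
  have hp0 : 0 < p := by linarith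
  have hsp : 0 < √p := Real.sqrt_pos.mpr hp0
  have hsp2 : √p ^ 2 = p := Real.sq_sqrt hp0.le
  have hr := rd_pos d
  have hB := unitVol_Bl hd
  have h1 := hfar p hp E hE (hE'.trans (min_le_left _ _)) hMM
  have hfin := far_finite hE
  have hfinE : volume E ≠ ⊤ := by rw [hE.vol]; simp
  have hfinB : volume (Bl d) ≠ ⊤ := by rw [hB.vol]; simp
  have hz : Measurable (fun q : X d × X d => q.1 - q.2) := by fun_prop
  have h2 := hav _ (fun q : X d × X d => q.1 - q.2) hz p (1 / √p) t hp0 (by positivity) ht0 ht1 h1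
  have h3 := hax _ (fun q : X d × X d => q.1 - q.2) hz (κ * (1 / √p)) (4 * t / p)
    (by positivity) (by
      intro i s hs
      have h4 : ‖(EuclideanSpace.single i s : X d)‖ ≤ κ * (1 / √p) := by
        rw [EuclideanSpace.norm_single, Real.norm_eq_abs, abs_of_nonneg hs.1]
        exact hs.2
      have h5 := h2 _ h4
      rw [le_div_iff₀ hp0]
      linarith)
  -- the lower bound
  have hmN : MeasurableSet (E ∩ Bl d) := hE.meas.inter hB.meas
  have hmF : MeasurableSet (E \ Metric.closedBall 0 (2 * rd d)) :=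
    hE.meas.diff Metric.isClosed_closedBall.measurableSet
  have hlow : ∫ q, κ ^ 2 / (4 * p) * (1 * min p (‖(q : X d × X d).2‖ ^ 2))
      ∂((volume.restrict (E ∩ Bl d)).prod
        (volume.restrict (E \ Metric.closedBall 0 (2 * rd d)))) ≤
      ∫ q, min 1 ((κ * (1 / √p)) ^ 2 * ‖(q : X d × X d).1 - q.2‖ ^ 2)
      ∂((volume.restrict (E ∩ Bl d)).prod
        (volume.restrict (E \ Metric.closedBall 0 (2 * rd d)))) := by
    apply integral_mono_ae
    · have hc : Continuous (fun q : X d × X d => κ ^ 2 / (4 * p) * (1 * min p (‖q.2‖ ^ 2))) := by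
        fun_prop
      refine Integrable.of_bound hc.aestronglyMeasurable (κ ^ 2 / (4 * p) * p) ?_
      refine Eventually.of_forall fun q => ?_
      have h6 : 0 ≤ min p (‖q.2‖ ^ 2) := le_min hp0.le (by positivity)
      rw [Real.norm_eq_abs, abs_of_nonneg (by positivity), one_mul]
      gcongr
      exact min_le_left _ _
    · have hc : Continuous (fun q : X d × X d =>
        min 1 ((κ * (1 / √p)) ^ 2 * ‖q.1 - q.2‖ ^ 2)) := by fun_prop
      refine Integrable.of_bound hc.aestronglyMeasurable 1 ?_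
      refine Eventually.of_forall fun q => ?_
      have h6 : 0 ≤ min 1 ((κ * (1 / √p)) ^ 2 * ‖q.1 - q.2‖ ^ 2) :=
        le_min zero_le_one (by positivity)
      rw [Real.norm_eq_abs, abs_of_nonneg h6]
      exact min_le_left _ _
    · rw [Measure.prod_restrict, EventuallyLE, ae_restrict_iff' (hmN.prod hmF)]
      refine Eventually.of_forall ?_
      rintro ⟨x, y⟩ ⟨hx, hy⟩
      have hx' : ‖x‖ ≤ rd d := mem_closedBall_zero_iff.mp hx.2
      have hy' : 2 * rd d < ‖y‖ := by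
        by_contra hcon
        exact hy.2 (mem_closedBall_zero_iff.mpr (not_lt.mp hcon))
      have h7 : ‖y‖ / 2 ≤ ‖x - y‖ := by
        have h8 : ‖y‖ ≤ ‖x‖ + ‖x - y‖ := by
          calc ‖y‖ = ‖x - (x - y)‖ := by rw [sub_sub_cancel]
            _ ≤ _ := norm_sub_le _ _
        linarith
      have h9 : ‖y‖ ^ 2 / 4 ≤ ‖x - y‖ ^ 2 := by
        calc ‖y‖ ^ 2 / 4 = (‖y‖ / 2) ^ 2 := by ring
          _ ≤ _ := by gcongr
      show κ ^ 2 / (4 * p) * (1 * min p (‖y‖ ^ 2)) ≤ min 1 ((κ * (1 / √p)) ^ 2 * ‖x - y‖ ^ 2)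
      rw [one_mul]
      apply le_min
      · calc κ ^ 2 / (4 * p) * min p (‖y‖ ^ 2) ≤ κ ^ 2 / (4 * p) * p := by
              gcongr
              exact min_le_left _ _
          _ = κ ^ 2 / 4 := by field_simp
          _ ≤ 1 := by nlinarith
      · calc κ ^ 2 / (4 * p) * min p (‖y‖ ^ 2) ≤ κ ^ 2 / (4 * p) * ‖y‖ ^ 2 := by
              gcongr
              exact min_le_right _ _
          _ = κ ^ 2 / p * (‖y‖ ^ 2 / 4) := by field_simp
          _ ≤ κ ^ 2 / p * ‖x - y‖ ^ 2 := by gcongr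
          _ = _ := by rw [mul_pow, div_pow, hsp2]; ring
  rw [integral_const_mul, integral_prod_mul (fun _ : X d => (1 : ℝ))
    (fun y : X d => min p (‖y‖ ^ 2))] at hlow
  rw [setIntegral_const, smul_eq_mul, mul_one] at hlow
  set I : ℝ := ∫ x in E \ Metric.closedBall 0 (2 * rd d), min p (‖x‖ ^ 2) with hI
  have hI0 : 0 ≤ I := integral_nonneg fun x => le_min hp0.le (by positivity)
  have hN : 1 / 2 ≤ volume.real (E ∩ Bl d) := by
    have hfinS : volume (E ∆ Bl d) ≠ ⊤ := by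
      refine measure_ne_top_of_subset ?_ (measure_union_lt_top hfinE.lt_top hfinB.lt_top).ne
      intro x hx
      rcases hx with hx | hx
      · exact Or.inl hx.1
      · exact Or.inr hx.1
    have hD : volume.real (E \ Bl d) ≤ 1 / 2 :=
      (measureReal_mono (by intro x hx; exact Or.inl hx) hfinS).trans
        (hE'.trans (min_le_right _ _))
    have h10 : volume.real (E ∩ Bl d) + volume.real (E \ Bl d) = volume.real E :=
      measureReal_inter_add_sdiff hB.meas hfinE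
    have h11 : volume.real E = 1 := by rw [measureReal_def, hE.vol]; simp
    linarith
  have h12 : κ ^ 2 / (4 * p) * (1 / 2 * I) ≤ C * (4 * t / p) := by
    refine le_trans ?_ (hlow.trans h3)
    gcongr
  have h13 : κ ^ 2 * I ≤ 32 * C * t := by
    have h14 : κ ^ 2 / (4 * p) * (1 / 2 * I) = κ ^ 2 * I / (8 * p) := by
      field_simp; ring
    have h15 : C * (4 * t / p) = 32 * C * t / (8 * p) := by
      field_simp; ring
    rw [h14, h15] at h12
    exact (div_le_div_iff_of_pos_right (by positivity)).mp h12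
  have h16 : κ ^ 2 * I ≤ κ ^ 2 * δ := by linarith
  exact le_of_mul_le_mul_left h16 (by positivity)

end Pool.Agent.H82.Max
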