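import Pool.Agent.H82.Max.Bath

open MeasureTheory Set Filter Topology
open scoped ENNReal Real InnerProductSpace symmDiff

namespace Pool.Agent.H82.Max

variable {d : ℕ}

namespace Four

theorem one_sub_cos_le (t : ℝ) : 1 - Real.cos t ≤ t ^ 2 / 2 := by
  have := Real.one_sub_sq_div_two_le_cos (x := t)
  linarith

theorem one_sub_cos_ge (t : ℝ) : t ^ 2 / 2 - t ^ 4 / 24 ≤ 1 - Real.cos t := by
  have h1 : 1 - Real.cos t = 2 * Real.sin (t / 2) ^ 2 := by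
    have := Real.cos_two_mul (t / 2)
    rw [show 2 * (t / 2) = t by ring] at this
    rw [this, Real.cos_sq']
    ring
  rw [h1]
  have h2 := Real.abs_sub_sin_le (t / 2)
  by_cases h3 : t ^ 2 ≤ 24
  · -- `|sin u| ≥ |u| - |u|^3/6`
    set u := t / 2 with hu
    have hu2 : u ^ 2 ≤ 6 := by rw [hu]; nlinarith
    have h4 : |u| - |u| ^ 3 / 6 ≤ |Real.sin u| := by
      have := abs_sub_abs_le_abs_sub u (Real.sin u)
      linarith
    have h5 : 0 ≤ |u| - |u| ^ 3 / 6 := by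
      have : |u| ^ 2 ≤ 6 := by rw [sq_abs]; exact hu2
      have h0 := abs_nonneg u
      nlinarith
    have h6 : (|u| - |u| ^ 3 / 6) ^ 2 ≤ Real.sin u ^ 2 := by
      rw [← sq_abs (Real.sin u)]
      exact pow_le_pow_left₀ h5 h4 2
    have h7 : (|u| - |u| ^ 3 / 6) ^ 2 = u ^ 2 - u ^ 4 / 3 + u ^ 6 / 36 := by
      have e1 : |u| ^ 2 = u ^ 2 := sq_abs u
      have e : (|u| - |u| ^ 3 / 6) ^ 2 = |u| ^ 2 - (|u| ^ 2) ^ 2 / 3 + (|u| ^ 2) ^ 3 / 36 := by ring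
      rw [e, e1]
      ring
    have h8 : 0 ≤ u ^ 6 := by positivity
    have e2 : t ^ 2 / 2 = 2 * u ^ 2 := by rw [hu]; ring
    have e3 : t ^ 4 / 24 = 2 * (u ^ 4 / 3) := by rw [hu]; ring
    rw [e2, e3]
    linarith
  · have h4 : t ^ 2 / 2 - t ^ 4 / 24 ≤ 0 := by
      have e : t ^ 2 / 2 - t ^ 4 / 24 = t ^ 2 / 24 * (12 - t ^ 2) := by ring
      rw [e]
      apply mul_nonpos_of_nonneg_of_nonpos
      · positivity
      · linarith
    have := sq_nonneg (Real.sin (t / 2))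
    linarith

/-- a continuous function on a set of finite measure, bounded there -/
theorem intOn {N : Set (X d)} (hN : MeasurableSet N) (vN : volume N ≠ ⊤) {f : X d → ℝ}
    (hf : Continuous f) {M : ℝ} (hM : ∀ x ∈ N, |f x| ≤ M) : IntegrableOn f N :=
  Measure.integrableOn_of_bounded (M := M) vN hf.aestronglyMeasurable
    ((ae_restrict_iff' hN).mpr (Eventually.of_forall hM))

theorem diff_le {N B : Set (X d)} (hN : MeasurableSet N) (hB : MeasurableSet B)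
    (vN : volume N ≠ ⊤) (vB : volume B ≠ ⊤) {f : X d → ℝ} (hfN : IntegrableOn f N)
    (hfB : IntegrableOn f B) {M : ℝ} (hM : ∀ x ∈ N ∪ B, |f x| ≤ M) :
    |(∫ x in N, f x) - ∫ x in B, f x| ≤ M * volume.real (N ∆ B) := by
  have h1 : (∫ x in N, f x) = (∫ x in N ∩ B, f x) + ∫ x in N \ B, f x :=
    (integral_inter_add_sdiff hB hfN).symm
  have h2 : (∫ x in B, f x) = (∫ x in B ∩ N, f x) + ∫ x in B \ N, f x :=
    (integral_inter_add_sdiff hN hfB).symm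
  have h3 : |∫ x in N \ B, f x| ≤ M * volume.real (N \ B) := by
    rw [← Real.norm_eq_abs]
    exact norm_setIntegral_le_of_norm_le_const (lt_of_le_of_lt (measure_mono sdiff_subset) vN.lt_top)
      (fun x hx => hM x (Or.inl hx.1))
  have h4 : |∫ x in B \ N, f x| ≤ M * volume.real (B \ N) := by
    rw [← Real.norm_eq_abs]
    exact norm_setIntegral_le_of_norm_le_const (lt_of_le_of_lt (measure_mono sdiff_subset) vB.lt_top)
      (fun x hx => hM x (Or.inr hx.1))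
  have h5 : volume.real (N ∆ B) = volume.real (N \ B) + volume.real (B \ N) :=
    measureReal_symmDiff_eq hN hB vN vB
  rw [h1, h2, inter_comm B N, h5, mul_add]
  have : (∫ x in N ∩ B, f x) + (∫ x in N \ B, f x) - ((∫ x in N ∩ B, f x) +
      ∫ x in B \ N, f x) = (∫ x in N \ B, f x) - ∫ x in B \ N, f x := by ring
  rw [this]
  exact (abs_sub _ _).trans (add_le_add h3 h4)

section

variable {p δ : ℝ} {N F : Set (X d)}

theorem volN (h : Loc d p δ N F) : volume N ≠ ⊤ :=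
  ne_top_of_le_ne_top (by rw [h.vol]; exact ENNReal.one_ne_top)
    (measure_mono (subset_union_left : N ⊆ N ∪ F))

theorem volF (h : Loc d p δ N F) : volume F ≠ ⊤ :=
  ne_top_of_le_ne_top (by rw [h.vol]; exact ENNReal.one_ne_top)
    (measure_mono (subset_union_right : F ⊆ N ∪ F))

theorem vol_add (h : Loc d p δ N F) : volume.real N + volume.real F = 1 := by
  have h1 : volume.real (N ∪ F) = volume.real N + volume.real F :=
    measureReal_union h.disj h.mF (volN h) (volF h)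
  have h2 : volume.real (N ∪ F) = 1 := by
    rw [measureReal_def, h.vol]
    rfl
  rw [← h1, h2]

theorem intF (h : Loc d p δ N F) (hp : 0 ≤ p) {f : X d → ℝ} (hf : Continuous f) {M : ℝ}
    (hM : ∀ x, |f x| ≤ M) : IntegrableOn f F :=
  intOn h.mF (volF h) hf (fun x _ => hM x)

theorem int_min (h : Loc d p δ N F) (hp : 0 ≤ p) :
    IntegrableOn (fun x : X d => min p (‖x‖ ^ 2)) F := by
  refine intF h hp (by fun_prop) (M := p) ?_
  intro x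
  rw [abs_of_nonneg (le_min hp (by positivity))]
  exact min_le_left _ _

theorem volF_le (h : Loc d p δ N F) (hp : 9 / 4 * rd d ^ 2 ≤ p) :
    9 / 4 * rd d ^ 2 * volume.real F ≤ ∫ x in F, min p (‖x‖ ^ 2) := by
  have hp0 : 0 ≤ p := le_trans (by positivity) hp
  have h1 : ∫ x in F, (9 / 4 * rd d ^ 2 : ℝ) = 9 / 4 * rd d ^ 2 * volume.real F := by
    rw [setIntegral_const, smul_eq_mul, mul_comm]
  rw [← h1]
  refine setIntegral_mono_on (integrableOn_const (volF h)) (int_min h hp0) h.mF ?_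
  intro x hx
  refine le_min hp ?_
  have h2 := h.hF x hx
  have h3 := rd_pos d
  nlinarith

theorem min_nonneg' (hp : 0 ≤ p) (x : X d) : 0 ≤ min p (‖x‖ ^ 2) := le_min hp (by positivity)

theorem gam_nonneg (hp : 0 ≤ p) : 0 ≤ ∫ x in F, min p (‖x‖ ^ 2) :=
  integral_nonneg (fun x => min_nonneg' hp x)

theorem cs_union (h : Loc d p δ N F) (ξ : X d) : cs (N ∪ F) ξ = cs N ξ + cs F ξ := by
  unfold cs
  refine setIntegral_union h.disj h.mF ?_ ?_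
  · exact intOn h.mN (volN h) (by fun_prop) (M := 1) (fun x _ => Real.abs_cos_le_one _)
  · exact intOn h.mF (volF h) (by fun_prop) (M := 1) (fun x _ => Real.abs_cos_le_one _)

theorem sn_union (h : Loc d p δ N F) (ξ : X d) : sn (N ∪ F) ξ = sn N ξ + sn F ξ := by
  unfold sn
  refine setIntegral_union h.disj h.mF ?_ ?_
  · exact intOn h.mN (volN h) (by fun_prop) (M := 1) (fun x _ => Real.abs_sin_le_one _)
  · exact intOn h.mF (volF h) (by fun_prop) (M := 1) (fun x _ => Real.abs_sin_le_one _)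

theorem cs_abs_le {E : Set (X d)} (vE : volume E ≠ ⊤) (ξ : X d) :
    |cs E ξ| ≤ volume.real E := by
  have := norm_setIntegral_le_of_norm_le_const (μ := (volume : Measure (X d))) (s := E)
    (f := fun x => Real.cos (2 * π * ⟪x, ξ⟫_ℝ)) (C := 1) vE.lt_top
    (fun x _ => by rw [Real.norm_eq_abs]; exact Real.abs_cos_le_one _)
  rw [one_mul, Real.norm_eq_abs] at this
  exact this

theorem sn_abs_le {E : Set (X d)} (vE : volume E ≠ ⊤) (ξ : X d) :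
    |sn E ξ| ≤ volume.real E := by
  have := norm_setIntegral_le_of_norm_le_const (μ := (volume : Measure (X d))) (s := E)
    (f := fun x => Real.sin (2 * π * ⟪x, ξ⟫_ℝ)) (C := 1) vE.lt_top
    (fun x _ => by rw [Real.norm_eq_abs]; exact Real.abs_sin_le_one _)
  rw [one_mul, Real.norm_eq_abs] at this
  exact this

theorem cs_N (hd : 0 < d) (h : Loc d p δ N F) (ξ : X d) :
    |cs N ξ - cs (Bl d) ξ| ≤ volume.real (N ∆ Bl d) := by
  have hB := unitVol_Bl hd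
  have vB : volume (Bl d) ≠ ⊤ := by rw [hB.vol]; exact ENNReal.one_ne_top
  have := diff_le h.mN hB.meas (volN h) vB (f := fun x => Real.cos (2 * π * ⟪x, ξ⟫_ℝ))
    (intOn h.mN (volN h) (by fun_prop) (M := 1) (fun x _ => Real.abs_cos_le_one _))
    (intOn hB.meas vB (by fun_prop) (M := 1) (fun x _ => Real.abs_cos_le_one _))
    (M := 1) (fun x _ => Real.abs_cos_le_one _)
  rw [one_mul] at this
  exact this

theorem sn_N (hd : 0 < d) (h : Loc d p δ N F) (ξ : X d) :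
    |sn N ξ| ≤ volume.real (N ∆ Bl d) := by
  have hB := unitVol_Bl hd
  have vB : volume (Bl d) ≠ ⊤ := by rw [hB.vol]; exact ENNReal.one_ne_top
  have := diff_le h.mN hB.meas (volN h) vB (f := fun x => Real.sin (2 * π * ⟪x, ξ⟫_ℝ))
    (intOn h.mN (volN h) (by fun_prop) (M := 1) (fun x _ => Real.abs_sin_le_one _))
    (intOn hB.meas vB (by fun_prop) (M := 1) (fun x _ => Real.abs_sin_le_one _))
    (M := 1) (fun x _ => Real.abs_sin_le_one _)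
  rw [one_mul] at this
  have h2 := sn_Bl (d := d) ξ
  unfold sn at h2 ⊢
  rw [h2, sub_zero] at this
  exact this

/-- bounds on the near part -/
theorem arg_le (h : Loc d p δ N F) (ξ : X d) {x : X d} (hx : x ∈ N ∪ Bl d) :
    |2 * π * ⟪x, ξ⟫_ℝ| ≤ 6 * π * rd d * ‖ξ‖ := by
  have h1 : ‖x‖ ≤ 3 * rd d := by
    rcases hx with hx | hx
    · have := h.hN hx
      rwa [Metric.mem_closedBall, dist_zero_right] at this
    · have h2 : ‖x‖ ≤ rd d := by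
        have : x ∈ Metric.closedBall (0 : X d) (rd d) := hx
        rwa [Metric.mem_closedBall, dist_zero_right] at this
      have := rd_pos d
      linarith
  rw [abs_mul, abs_of_pos (by positivity : (0 : ℝ) < 2 * π)]
  have h2 := abs_real_inner_le_norm x ξ
  have h3 : ‖x‖ * ‖ξ‖ ≤ 3 * rd d * ‖ξ‖ := mul_le_mul_of_nonneg_right h1 (norm_nonneg _)
  have h4 : 2 * π * |⟪x, ξ⟫_ℝ| ≤ 2 * π * (3 * rd d * ‖ξ‖) :=
    mul_le_mul_of_nonneg_left (h2.trans h3) (by positivity)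
  refine h4.trans (le_of_eq ?_)
  ring

/-- `sg` for the near part -/
theorem tau_sub (hd : 0 < d) (h : Loc d p δ N F) {τ : ℝ}
    (hτ : ∀ u : X d, ∫ x in N, ⟪x, u⟫_ℝ ^ 2 = τ * ‖u‖ ^ 2) :
    d * (τ - sg d) = gap N - rd d ^ 2 * volume.real F := by
  have hB := unitVol_Bl hd
  have vB : volume (Bl d) ≠ ⊤ := by rw [hB.vol]; exact ENNReal.one_ne_top
  have hd' : (d : ℝ) ≠ 0 := by exact_mod_cast hd.ne'
  have hin : IntegrableOn (fun x : X d => ‖x‖ ^ 2) N := by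
    refine intOn h.mN (volN h) (by fun_prop) (M := (3 * rd d) ^ 2) ?_
    intro x hx
    have := h.hN hx
    rw [Metric.mem_closedBall, dist_zero_right] at this
    rw [abs_of_nonneg (by positivity)]
    exact pow_le_pow_left₀ (norm_nonneg _) this 2
  have hiB : IntegrableOn (fun x : X d => ‖x‖ ^ 2) (Bl d) := by
    refine intOn hB.meas vB (by fun_prop) (M := (rd d) ^ 2) ?_
    intro x hx
    have : x ∈ Metric.closedBall (0 : X d) (rd d) := hx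
    rw [Metric.mem_closedBall, dist_zero_right] at this
    rw [abs_of_nonneg (by positivity)]
    exact pow_le_pow_left₀ (norm_nonneg _) this 2
  have h1 : ∫ x in N, ‖x‖ ^ 2 = d * τ := by
    have e : ∀ x : X d, ‖x‖ ^ 2 = ∑ i, ⟪x, EuclideanSpace.single i (1 : ℝ)⟫_ℝ ^ 2 := by
      intro x
      rw [EuclideanSpace.norm_sq_eq]
      refine Finset.sum_congr rfl fun i _ => ?_
      rw [EuclideanSpace.inner_single_right]
      simp
    simp_rw [e]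
    rw [integral_finsetSum]
    · simp_rw [hτ]
      simp
    · intro i _
      refine intOn h.mN (volN h) (by fun_prop) (M := (3 * rd d) ^ 2) ?_
      intro x hx
      have := h.hN hx
      rw [Metric.mem_closedBall, dist_zero_right] at this
      rw [abs_of_nonneg (by positivity)]
      refine le_trans ?_ (pow_le_pow_left₀ (norm_nonneg _) this 2)
      rw [← sq_abs]
      refine pow_le_pow_left₀ (abs_nonneg _) ?_ 2
      refine (abs_real_inner_le_norm _ _).trans ?_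
      simp
  have h2 : ∫ x in Bl d, ‖x‖ ^ 2 = d * sg d := by
    unfold sg
    field_simp
  rw [gap_eq h.mN h.hN, integral_sub hin (integrableOn_const (volN h)),
    integral_sub hiB (integrableOn_const vB), h1, h2, setIntegral_const, setIntegral_const]
  have h3 : volume.real (Bl d) = 1 := by
    rw [measureReal_def, hB.vol]; rfl
  have h4 := vol_add h
  rw [h3, smul_eq_mul, smul_eq_mul]
  have h5 : volume.real N = 1 - volume.real F := by linarith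
  rw [h5]
  ring

theorem cs_expand {E : Set (X d)} (hE : MeasurableSet E) (vE : volume E ≠ ⊤) {R : ℝ}
    (hR : E ⊆ Metric.closedBall 0 R) (ξ : X d) {τ : ℝ}
    (hτ : ∫ x in E, ⟪x, ξ⟫_ℝ ^ 2 = τ * ‖ξ‖ ^ 2) :
    cs E ξ = volume.real E - 2 * π ^ 2 * τ * ‖ξ‖ ^ 2 +
      ∫ x in E, ((2 * π * ⟪x, ξ⟫_ℝ) ^ 2 / 2 - (1 - Real.cos (2 * π * ⟪x, ξ⟫_ℝ))) := by
  have hb : ∀ x ∈ E, |⟪x, ξ⟫_ℝ| ≤ R * ‖ξ‖ := by
    intro x hx
    have := hR hx
    rw [Metric.mem_closedBall, dist_zero_right] at this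
    exact (abs_real_inner_le_norm _ _).trans (mul_le_mul_of_nonneg_right this (norm_nonneg _))
  have i2 : IntegrableOn (fun x : X d => (2 * π * ⟪x, ξ⟫_ℝ) ^ 2 / 2) E := by
    refine intOn hE vE (by fun_prop) (M := (2 * π * (R * ‖ξ‖)) ^ 2 / 2) ?_
    intro x hx
    rw [abs_of_nonneg (by positivity)]
    have h1 : |2 * π * ⟪x, ξ⟫_ℝ| ≤ 2 * π * (R * ‖ξ‖) := by
      rw [abs_mul, abs_of_pos (by positivity : (0 : ℝ) < 2 * π)]
      exact mul_le_mul_of_nonneg_left (hb x hx) (by positivity)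
    have h2 := pow_le_pow_left₀ (abs_nonneg _) h1 2
    rw [sq_abs] at h2
    linarith
  have ic : IntegrableOn (fun x : X d => Real.cos (2 * π * ⟪x, ξ⟫_ℝ)) E :=
    intOn hE vE (by fun_prop) (M := 1) (fun x _ => Real.abs_cos_le_one _)
  have i1 : IntegrableOn (fun _ : X d => (1 : ℝ)) E := integrableOn_const vE
  have e1 : ∫ x in E, ((2 * π * ⟪x, ξ⟫_ℝ) ^ 2 / 2 - (1 - Real.cos (2 * π * ⟪x, ξ⟫_ℝ))) =
      (∫ x in E, (2 * π * ⟪x, ξ⟫_ℝ) ^ 2 / 2) - ((∫ x in E, (1 : ℝ)) - cs E ξ) := by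
    have i3 : IntegrableOn (fun x : X d => 1 - Real.cos (2 * π * ⟪x, ξ⟫_ℝ)) E := i1.sub ic
    rw [integral_sub i2 i3, integral_sub i1 ic]
    rfl
  have e2 : ∫ x in E, (2 * π * ⟪x, ξ⟫_ℝ) ^ 2 / 2 = 2 * π ^ 2 * τ * ‖ξ‖ ^ 2 := by
    have : ∀ x : X d, (2 * π * ⟪x, ξ⟫_ℝ) ^ 2 / 2 = 2 * π ^ 2 * ⟪x, ξ⟫_ℝ ^ 2 := by
      intro x; ring
    simp_rw [this]
    rw [integral_const_mul, hτ]
    ring
  have e3 : ∫ x in E, (1 : ℝ) = volume.real E := by
    rw [setIntegral_const, smul_eq_mul, mul_one]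
  rw [e1, e2, e3]
  ring

theorem Bl_sub (d : ℕ) : Bl d ⊆ Metric.closedBall (0 : X d) (rd d) := fun _ h => h

theorem one_sub_cos_min (hp : 0 < p) (x ξ : X d) :
    1 - Real.cos (2 * π * ⟪x, ξ⟫_ℝ) ≤ (2 * π ^ 2 * ‖ξ‖ ^ 2 + 2 / p) * min p (‖x‖ ^ 2) := by
  rcases le_total (‖x‖ ^ 2) p with h1 | h1
  · rw [min_eq_right h1]
    have h2 := one_sub_cos_le (2 * π * ⟪x, ξ⟫_ℝ)
    have h3 : ⟪x, ξ⟫_ℝ ^ 2 ≤ ‖x‖ ^ 2 * ‖ξ‖ ^ 2 := by
      have := pow_le_pow_left₀ (abs_nonneg _) (abs_real_inner_le_norm x ξ) 2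
      rwa [sq_abs, mul_pow] at this
    have h4 : (2 * π * ⟪x, ξ⟫_ℝ) ^ 2 / 2 = 2 * π ^ 2 * ⟪x, ξ⟫_ℝ ^ 2 := by ring
    have h5 : 2 * π ^ 2 * ⟪x, ξ⟫_ℝ ^ 2 ≤ 2 * π ^ 2 * (‖x‖ ^ 2 * ‖ξ‖ ^ 2) :=
      mul_le_mul_of_nonneg_left h3 (by positivity)
    have h6 : 0 ≤ 2 / p * ‖x‖ ^ 2 := by positivity
    have h7 : (2 * π ^ 2 * ‖ξ‖ ^ 2 + 2 / p) * ‖x‖ ^ 2 = 2 * π ^ 2 * (‖x‖ ^ 2 * ‖ξ‖ ^ 2) +
      2 / p * ‖x‖ ^ 2 := by ring
    rw [h7]
    linarith
  · rw [min_eq_left h1]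
    have h2 := Real.neg_one_le_cos (2 * π * ⟪x, ξ⟫_ℝ)
    have h3 : (2 * π ^ 2 * ‖ξ‖ ^ 2 + 2 / p) * p = 2 * π ^ 2 * ‖ξ‖ ^ 2 * p + 2 := by
      field_simp
    rw [h3]
    have : 0 ≤ 2 * π ^ 2 * ‖ξ‖ ^ 2 * p := by positivity
    linarith

theorem sin_sq_min (hp : 0 < p) (x ξ : X d) :
    Real.sin (2 * π * ⟪x, ξ⟫_ℝ) ^ 2 ≤ (4 * π ^ 2 * ‖ξ‖ ^ 2 + 1 / p) * min p (‖x‖ ^ 2) := by
  rcases le_total (‖x‖ ^ 2) p with h1 | h1
  · rw [min_eq_right h1]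
    have h2 : Real.sin (2 * π * ⟪x, ξ⟫_ℝ) ^ 2 ≤ (2 * π * ⟪x, ξ⟫_ℝ) ^ 2 := by
      have := Real.abs_sin_le_abs (x := 2 * π * ⟪x, ξ⟫_ℝ)
      have h := pow_le_pow_left₀ (abs_nonneg _) this 2
      rwa [sq_abs, sq_abs] at h
    have h3 : ⟪x, ξ⟫_ℝ ^ 2 ≤ ‖x‖ ^ 2 * ‖ξ‖ ^ 2 := by
      have := pow_le_pow_left₀ (abs_nonneg _) (abs_real_inner_le_norm x ξ) 2
      rwa [sq_abs, mul_pow] at this
    have h4 : (2 * π * ⟪x, ξ⟫_ℝ) ^ 2 = 4 * π ^ 2 * ⟪x, ξ⟫_ℝ ^ 2 := by ring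
    have h5 : 4 * π ^ 2 * ⟪x, ξ⟫_ℝ ^ 2 ≤ 4 * π ^ 2 * (‖x‖ ^ 2 * ‖ξ‖ ^ 2) :=
      mul_le_mul_of_nonneg_left h3 (by positivity)
    have h6 : 0 ≤ 1 / p * ‖x‖ ^ 2 := by positivity
    have h7 : (4 * π ^ 2 * ‖ξ‖ ^ 2 + 1 / p) * ‖x‖ ^ 2 = 4 * π ^ 2 * (‖x‖ ^ 2 * ‖ξ‖ ^ 2) +
      1 / p * ‖x‖ ^ 2 := by ring
    rw [h7]
    linarith
  · rw [min_eq_left h1]
    have h2 := Real.sin_sq_le_one (2 * π * ⟪x, ξ⟫_ℝ)
    have h3 : (4 * π ^ 2 * ‖ξ‖ ^ 2 + 1 / p) * p = 4 * π ^ 2 * ‖ξ‖ ^ 2 * p + 1 := by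
      field_simp
    rw [h3]
    have : 0 ≤ 4 * π ^ 2 * ‖ξ‖ ^ 2 * p := by positivity
    linarith

theorem part3 (hd : 0 < d) (h : Loc d p δ N F) (hp : 0 < p) (ξ : X d) :
    |cs (N ∪ F) ξ - cs (Bl d) ξ| ≤ 2 * π ^ 2 * ‖ξ‖ ^ 2 * (gap N + rd d ^ 2 * volume.real F) +
      (6 * π * rd d) ^ 4 / 24 * ‖ξ‖ ^ 4 * volume.real (N ∆ Bl d) +
      (2 * π ^ 2 * ‖ξ‖ ^ 2 + 2 / p) * ∫ x in F, min p (‖x‖ ^ 2) := by
  have hB := unitVol_Bl hd
  have vB : volume (Bl d) ≠ ⊤ := by rw [hB.vol]; exact ENNReal.one_ne_top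
  obtain ⟨τ, hτ⟩ := h.iso
  have e1 := cs_expand h.mN (volN h) h.hN ξ (hτ ξ)
  have e2 := cs_expand hB.meas vB (Bl_sub d) ξ (ball_iso hd ξ)
  have e3 : volume.real (Bl d) = 1 := by
    rw [measureReal_def, hB.vol]; rfl
  have e4 : cs F ξ = volume.real F - ∫ x in F, (1 - Real.cos (2 * π * ⟪x, ξ⟫_ℝ)) := by
    have i1 : IntegrableOn (fun _ : X d => (1 : ℝ)) F := integrableOn_const (volF h)
    have i2 : IntegrableOn (fun x : X d => Real.cos (2 * π * ⟪x, ξ⟫_ℝ)) F :=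
      intOn h.mF (volF h) (by fun_prop) (M := 1) (fun x _ => Real.abs_cos_le_one _)
    rw [integral_sub i1 i2, setIntegral_const, smul_eq_mul, mul_one]
    unfold cs
    ring
  have e5 := vol_add h
  have e6 := tau_sub hd h hτ
  have hq : ∀ E : Set (X d), Continuous (fun x : X d => (2 * π * ⟪x, ξ⟫_ℝ) ^ 2 / 2 -
      (1 - Real.cos (2 * π * ⟪x, ξ⟫_ℝ))) := by intro E; fun_prop
  have hM : ∀ x ∈ N ∪ Bl d, |(2 * π * ⟪x, ξ⟫_ℝ) ^ 2 / 2 -
      (1 - Real.cos (2 * π * ⟪x, ξ⟫_ℝ))| ≤ (6 * π * rd d) ^ 4 / 24 * ‖ξ‖ ^ 4 := by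
    intro x hx
    have h1 := one_sub_cos_le (2 * π * ⟪x, ξ⟫_ℝ)
    have h2 := one_sub_cos_ge (2 * π * ⟪x, ξ⟫_ℝ)
    rw [abs_of_nonneg (by linarith)]
    have h3 := pow_le_pow_left₀ (abs_nonneg _) (arg_le h ξ hx) 4
    have h4 : |2 * π * ⟪x, ξ⟫_ℝ| ^ 4 = (2 * π * ⟪x, ξ⟫_ℝ) ^ 4 := by
      rw [show (4 : ℕ) = 2 * 2 by norm_num, pow_mul, pow_mul, sq_abs]
    rw [h4] at h3
    have h5 : (6 * π * rd d * ‖ξ‖) ^ 4 = (6 * π * rd d) ^ 4 * ‖ξ‖ ^ 4 := by ring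
    rw [h5] at h3
    linarith
  have e7 := diff_le h.mN hB.meas (volN h) vB
    (intOn h.mN (volN h) (hq N) (fun x hx => hM x (Or.inl hx)))
    (intOn hB.meas vB (hq N) (fun x hx => hM x (Or.inr hx))) hM
  have e8 : |∫ x in F, (1 - Real.cos (2 * π * ⟪x, ξ⟫_ℝ))| ≤
      (2 * π ^ 2 * ‖ξ‖ ^ 2 + 2 / p) * ∫ x in F, min p (‖x‖ ^ 2) := by
    rw [abs_of_nonneg (integral_nonneg (fun x => by
      have := Real.cos_le_one (2 * π * ⟪x, ξ⟫_ℝ)
      simp only [Pi.zero_apply]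
      linarith)), ← integral_const_mul]
    refine setIntegral_mono_on ?_ ((int_min h hp.le).const_mul _) h.mF
      (fun x _ => one_sub_cos_min hp x ξ)
    refine intOn h.mF (volF h) (by fun_prop) (M := 2) ?_
    intro x _
    have h1 := Real.neg_one_le_cos (2 * π * ⟪x, ξ⟫_ℝ)
    have h2 := Real.cos_le_one (2 * π * ⟪x, ξ⟫_ℝ)
    rw [abs_le]
    constructor <;> linarith
  have e9 : |τ - sg d| ≤ gap N + rd d ^ 2 * volume.real F := by
    have h1 : (1 : ℝ) ≤ d := by exact_mod_cast hd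
    have h2 : |(d : ℝ) * (τ - sg d)| ≤ gap N + rd d ^ 2 * volume.real F := by
      rw [e6]
      have h3 := gap_nonneg N
      have h4 : 0 ≤ rd d ^ 2 * volume.real F := by positivity
      rw [abs_le]
      constructor <;> linarith
    rw [abs_mul, abs_of_pos (by linarith : (0 : ℝ) < d)] at h2
    have h3 := abs_nonneg (τ - sg d)
    nlinarith
  have e10 : cs (N ∪ F) ξ - cs (Bl d) ξ = -(2 * π ^ 2 * ‖ξ‖ ^ 2 * (τ - sg d)) +
      ((∫ x in N, ((2 * π * ⟪x, ξ⟫_ℝ) ^ 2 / 2 - (1 - Real.cos (2 * π * ⟪x, ξ⟫_ℝ)))) -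
      ∫ x in Bl d, ((2 * π * ⟪x, ξ⟫_ℝ) ^ 2 / 2 - (1 - Real.cos (2 * π * ⟪x, ξ⟫_ℝ)))) -
      ∫ x in F, (1 - Real.cos (2 * π * ⟪x, ξ⟫_ℝ)) := by
    rw [cs_union h, e1, e2, e4, e3]
    have : volume.real N = 1 - volume.real F := by linarith
    rw [this]
    ring
  rw [e10]
  refine (abs_sub _ _).trans (add_le_add ((abs_add_le _ _).trans (add_le_add ?_ e7)) e8)
  rw [abs_neg, abs_mul, abs_of_nonneg (by positivity : (0 : ℝ) ≤ 2 * π ^ 2 * ‖ξ‖ ^ 2)]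
  exact mul_le_mul_of_nonneg_left e9 (by positivity)

theorem sq_integral_le {E : Set (X d)} (vE : volume E ≠ ⊤) {f : X d → ℝ} (hf : IntegrableOn f E)
    (hf2 : IntegrableOn (fun x => f x ^ 2) E) :
    (∫ x in E, f x) ^ 2 ≤ volume.real E * ∫ x in E, f x ^ 2 := by
  set S := ∫ x in E, f x with hS
  set V := volume.real E with hV
  have hV0 : 0 ≤ V := measureReal_nonneg
  have key : ∀ c : ℝ, 0 ≤ (∫ x in E, f x ^ 2) - 2 * c * S + c ^ 2 * V := by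
    intro c
    have h1 : 0 ≤ ∫ x in E, (f x - c) ^ 2 := integral_nonneg fun x => sq_nonneg _
    have h2 : ∫ x in E, (f x - c) ^ 2 = (∫ x in E, f x ^ 2) - 2 * c * S + c ^ 2 * V := by
      have e : ∀ x, (f x - c) ^ 2 = f x ^ 2 - 2 * c * f x + c ^ 2 := by intro x; ring
      simp_rw [e]
      have i1 : IntegrableOn (fun x => 2 * c * f x) E := hf.const_mul _
      have i2 : IntegrableOn (fun x => f x ^ 2 - 2 * c * f x) E := hf2.sub i1
      have i3 : IntegrableOn (fun _ : X d => c ^ 2) E := integrableOn_const vE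
      rw [integral_add i2 i3, integral_sub hf2 i1, integral_const_mul, setIntegral_const,
        smul_eq_mul]
      ring
    rwa [h2] at h1
  rcases hV0.eq_or_lt with h0 | h0
  · have : S = 0 := by
      have hz : volume E = 0 := by
        rw [hV, measureReal_def, eq_comm, ENNReal.toReal_eq_zero_iff] at h0
        exact h0.resolve_right vE
      rw [hS, Measure.restrict_eq_zero.mpr hz, integral_zero_measure]
    rw [this, ← h0]
    simp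
  · have h1 := key (S / V)
    have h2 : (∫ x in E, f x ^ 2) - 2 * (S / V) * S + (S / V) ^ 2 * V =
        (∫ x in E, f x ^ 2) - S ^ 2 / V := by
      field_simp
      ring
    rw [h2] at h1
    have h3 : S ^ 2 / V ≤ ∫ x in E, f x ^ 2 := by linarith
    rw [div_le_iff₀ h0] at h3
    linarith

theorem part4 (hd : 0 < d) (h : Loc d p δ N F) (hp : 0 < p) (ξ : X d) :
    sn (N ∪ F) ξ ^ 2 ≤ 2 * ((6 * π * rd d) ^ 3 / 6 * ‖ξ‖ ^ 3 * volume.real (N ∆ Bl d)) ^ 2 +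
      2 * (volume.real F * ((4 * π ^ 2 * ‖ξ‖ ^ 2 + 1 / p) * ∫ x in F, min p (‖x‖ ^ 2))) := by
  have hB := unitVol_Bl hd
  have vB : volume (Bl d) ≠ ⊤ := by rw [hB.vol]; exact ENNReal.one_ne_top
  have lin : ∀ {E : Set (X d)} (hE : MeasurableSet E) (vE : volume E ≠ ⊤) {R : ℝ}
      (hR : E ⊆ Metric.closedBall 0 R) (h0 : ∫ x in E, ⟪x, ξ⟫_ℝ = 0),
      sn E ξ = -∫ x in E, (2 * π * ⟪x, ξ⟫_ℝ - Real.sin (2 * π * ⟪x, ξ⟫_ℝ)) := by
    intro E hE vE R hR h0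
    have i1 : IntegrableOn (fun x : X d => 2 * π * ⟪x, ξ⟫_ℝ) E := by
      refine intOn hE vE (by fun_prop) (M := 2 * π * (R * ‖ξ‖)) ?_
      intro x hx
      have := hR hx
      rw [Metric.mem_closedBall, dist_zero_right] at this
      rw [abs_mul, abs_of_pos (by positivity : (0 : ℝ) < 2 * π)]
      exact mul_le_mul_of_nonneg_left ((abs_real_inner_le_norm _ _).trans
        (mul_le_mul_of_nonneg_right this (norm_nonneg _))) (by positivity)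
    rw [integral_sub i1 (intOn hE vE (by fun_prop) (M := 1)
      (fun x _ => Real.abs_sin_le_one _)), integral_const_mul, h0]
    unfold sn
    ring
  have e1 := lin h.mN (volN h) h.hN (h.cen ξ)
  have e2 := lin hB.meas vB (Bl_sub d) (ball_cen d ξ)
  rw [sn_Bl] at e2
  have hM : ∀ x ∈ N ∪ Bl d, |2 * π * ⟪x, ξ⟫_ℝ - Real.sin (2 * π * ⟪x, ξ⟫_ℝ)| ≤
      (6 * π * rd d) ^ 3 / 6 * ‖ξ‖ ^ 3 := by
    intro x hx
    have h1 := Real.abs_sub_sin_le (2 * π * ⟪x, ξ⟫_ℝ)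
    have h3 := pow_le_pow_left₀ (abs_nonneg _) (arg_le h ξ hx) 3
    have h5 : (6 * π * rd d * ‖ξ‖) ^ 3 = (6 * π * rd d) ^ 3 * ‖ξ‖ ^ 3 := by ring
    rw [h5] at h3
    linarith
  have hq : Continuous (fun x : X d => 2 * π * ⟪x, ξ⟫_ℝ - Real.sin (2 * π * ⟪x, ξ⟫_ℝ)) := by
    fun_prop
  have e7 := diff_le h.mN hB.meas (volN h) vB
    (intOn h.mN (volN h) hq (fun x hx => hM x (Or.inl hx)))
    (intOn hB.meas vB hq (fun x hx => hM x (Or.inr hx))) hM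
  have e8 : |sn N ξ| ≤ (6 * π * rd d) ^ 3 / 6 * ‖ξ‖ ^ 3 * volume.real (N ∆ Bl d) := by
    have h1 : ∫ x in Bl d, (2 * π * ⟪x, ξ⟫_ℝ - Real.sin (2 * π * ⟪x, ξ⟫_ℝ)) = 0 := by
      linarith
    rw [h1, sub_zero] at e7
    rw [e1, abs_neg]
    exact e7
  have e9 : sn F ξ ^ 2 ≤ volume.real F * ((4 * π ^ 2 * ‖ξ‖ ^ 2 + 1 / p) *
      ∫ x in F, min p (‖x‖ ^ 2)) := by
    have i1 : IntegrableOn (fun x : X d => Real.sin (2 * π * ⟪x, ξ⟫_ℝ) ^ 2) F := by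
      refine intOn h.mF (volF h) (by fun_prop) (M := 1) ?_
      intro x _
      rw [abs_of_nonneg (sq_nonneg _)]
      exact Real.sin_sq_le_one _
    have h1 := sq_integral_le (volF h) (f := fun x : X d => Real.sin (2 * π * ⟪x, ξ⟫_ℝ))
      (intOn h.mF (volF h) (by fun_prop) (M := 1) (fun x _ => Real.abs_sin_le_one _)) i1
    refine h1.trans (mul_le_mul_of_nonneg_left ?_ measureReal_nonneg)
    rw [← integral_const_mul]
    exact setIntegral_mono_on i1 ((int_min h hp.le).const_mul _) h.mF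
      (fun x _ => sin_sq_min hp x ξ)
  rw [sn_union h]
  have e10 : sn N ξ ^ 2 ≤ ((6 * π * rd d) ^ 3 / 6 * ‖ξ‖ ^ 3 * volume.real (N ∆ Bl d)) ^ 2 := by
    rw [← sq_abs]
    exact pow_le_pow_left₀ (abs_nonneg _) e8 2
  nlinarith [sq_nonneg (sn N ξ - sn F ξ)]

end

end Four

/-- Fourier bounds in the local situation. -/
theorem four_bounds {d : ℕ} (hd : 0 < d) : ∃ C P : ℝ, 0 < C ∧ 8 ≤ P ∧ ∀ p δ : ℝ, P ≤ p → δ ≤ 1 →
    ∀ N F : Set (X d), Loc d p δ N F → ∀ β γ : ℝ, β = volume.real (N ∆ Bl d) →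
    γ = ∫ x in F, min p (‖x‖ ^ 2) →
    (∀ ξ, |cs (N ∪ F) ξ - cs (Bl d) ξ| ≤ C * (β + γ)) ∧
    (∀ ξ, |sn (N ∪ F) ξ| ≤ C * (β + γ)) ∧
    (∀ ξ, ‖ξ‖ ≤ 1 → |cs (N ∪ F) ξ - cs (Bl d) ξ| ≤
      C * (‖ξ‖ ^ 2 * gap N + ‖ξ‖ ^ 4 * β + (‖ξ‖ ^ 2 + 1 / p) * γ)) ∧
    (∀ ξ, ‖ξ‖ ≤ 1 → sn (N ∪ F) ξ ^ 2 ≤ C * (‖ξ‖ ^ 6 * β ^ 2 + (‖ξ‖ ^ 2 + 1 / p) * γ ^ 2)) := by
  have hr := rd_pos d
  set r := rd d with hrd
  set c := 4 / (9 * r ^ 2) with hc
  have hc0 : 0 < c := by positivity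
  set K := (6 * π * r) ^ 4 / 24 with hK
  have hK0 : 0 < K := by positivity
  set K3 := (6 * π * r) ^ 3 / 6 with hK3
  have hK30 : 0 < K3 := by positivity
  refine ⟨1 + c + K + 2 * K3 ^ 2 + 20 * π ^ 2 + 2 + 10 * π ^ 2 * c, 8 + 9 / 4 * r ^ 2, by positivity,
    by nlinarith [sq_nonneg r], ?_⟩
  intro p δ hp hδ N F h β γ hβ hγ
  have hp8 : 8 ≤ p := by nlinarith [sq_nonneg r]
  have hp0 : 0 < p := by linarith
  have hpr : 9 / 4 * r ^ 2 ≤ p := by linarith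
  have hβ0 : 0 ≤ β := by rw [hβ]; exact measureReal_nonneg
  have hγ0 : 0 ≤ γ := by rw [hγ]; exact Four.gam_nonneg hp0.le
  have hF : volume.real F ≤ c * γ := by
    have := Four.volF_le h hpr
    rw [← hγ] at this
    rw [hc, div_mul_eq_mul_div, le_div_iff₀ (by positivity)]
    linarith
  have hF0 : 0 ≤ volume.real F := measureReal_nonneg
  have hFr : r ^ 2 * volume.real F ≤ γ := by
    have := Four.volF_le h hpr
    rw [← hγ] at this
    have h2 : 0 ≤ r ^ 2 * volume.real F := by positivity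
    linarith
  have hg0 := gap_nonneg N
  refine ⟨?_, ?_, ?_, ?_⟩
  · intro ξ
    have h1 := Four.cs_N hd h ξ
    have h2 := Four.cs_abs_le (Four.volF h) ξ
    rw [Four.cs_union h]
    have e : cs N ξ + cs F ξ - cs (Bl d) ξ = (cs N ξ - cs (Bl d) ξ) + cs F ξ := by ring
    rw [e]
    refine (abs_add_le _ _).trans ((add_le_add h1 (h2.trans hF)).trans ?_)
    rw [← hβ]
    have h3 : 0 ≤ c * β := by positivity
    have h4 : 0 ≤ (K + 2 * K3 ^ 2 + 20 * π ^ 2 + 2 + 10 * π ^ 2 * c) * (β + γ) := by positivity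
    nlinarith
  · intro ξ
    have h1 := Four.sn_N hd h ξ
    have h2 := Four.sn_abs_le (Four.volF h) ξ
    rw [Four.sn_union h]
    refine (abs_add_le _ _).trans ((add_le_add h1 (h2.trans hF)).trans ?_)
    rw [← hβ]
    have h3 : 0 ≤ c * β := by positivity
    have h4 : 0 ≤ (K + 2 * K3 ^ 2 + 20 * π ^ 2 + 2 + 10 * π ^ 2 * c) * (β + γ) := by positivity
    nlinarith
  · intro ξ _
    have h1 := Four.part3 hd h hp0 ξ
    rw [← hγ, ← hβ, ← hrd, ← hK] at h1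
    refine h1.trans ?_
    have a1 : 2 * π ^ 2 * ‖ξ‖ ^ 2 * (gap N + r ^ 2 * volume.real F) ≤
        2 * π ^ 2 * ‖ξ‖ ^ 2 * (gap N + γ) :=
      mul_le_mul_of_nonneg_left (by linarith) (by positivity)
    have hp1 : 0 ≤ 1 / p := by positivity
    have e2 : 2 / p = 2 * (1 / p) := by ring
    rw [e2]
    generalize 1 / p = w at *
    set A := ‖ξ‖ ^ 2 with hA
    have hA0 : 0 ≤ A := by positivity
    have hA4 : ‖ξ‖ ^ 4 = A ^ 2 := by rw [hA]; ring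
    rw [hA4]
    have t1 : 0 ≤ A * gap N := by positivity
    have t2 : 0 ≤ A ^ 2 * β := by positivity
    have t3 : 0 ≤ A * γ := by positivity
    have t4 : 0 ≤ w * γ := by positivity
    have e3 : 2 * π ^ 2 * A * (gap N + γ) + K * A ^ 2 * β + (2 * π ^ 2 * A + 2 * w) * γ =
        2 * π ^ 2 * (A * gap N) + K * (A ^ 2 * β) + 4 * π ^ 2 * (A * γ) + 2 * (w * γ) := by ring
    have e4 : (1 + c + K + 2 * K3 ^ 2 + 20 * π ^ 2 + 2 + 10 * π ^ 2 * c) *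
        (A * gap N + A ^ 2 * β + (A + w) * γ) =
        (1 + c + K + 2 * K3 ^ 2 + 20 * π ^ 2 + 2 + 10 * π ^ 2 * c) * (A * gap N) +
        (1 + c + K + 2 * K3 ^ 2 + 20 * π ^ 2 + 2 + 10 * π ^ 2 * c) * (A ^ 2 * β) +
        (1 + c + K + 2 * K3 ^ 2 + 20 * π ^ 2 + 2 + 10 * π ^ 2 * c) * (A * γ) +
        (1 + c + K + 2 * K3 ^ 2 + 20 * π ^ 2 + 2 + 10 * π ^ 2 * c) * (w * γ) := by ring
    rw [e4]
    have p1 : 2 * π ^ 2 ≤ 1 + c + K + 2 * K3 ^ 2 + 20 * π ^ 2 + 2 + 10 * π ^ 2 * c := by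
      have : 0 ≤ c + K + 2 * K3 ^ 2 + 18 * π ^ 2 + 10 * π ^ 2 * c := by positivity
      linarith
    have p2 : K ≤ 1 + c + K + 2 * K3 ^ 2 + 20 * π ^ 2 + 2 + 10 * π ^ 2 * c := by
      have : 0 ≤ c + 2 * K3 ^ 2 + 20 * π ^ 2 + 10 * π ^ 2 * c := by positivity
      linarith
    have p3 : 4 * π ^ 2 ≤ 1 + c + K + 2 * K3 ^ 2 + 20 * π ^ 2 + 2 + 10 * π ^ 2 * c := by
      have : 0 ≤ c + K + 2 * K3 ^ 2 + 16 * π ^ 2 + 10 * π ^ 2 * c := by positivity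
      linarith
    have p4 : 2 ≤ 1 + c + K + 2 * K3 ^ 2 + 20 * π ^ 2 + 2 + 10 * π ^ 2 * c := by
      have : 0 ≤ c + K + 2 * K3 ^ 2 + 20 * π ^ 2 + 10 * π ^ 2 * c := by positivity
      linarith
    have q1 := mul_le_mul_of_nonneg_right p1 t1
    have q2 := mul_le_mul_of_nonneg_right p2 t2
    have q3 := mul_le_mul_of_nonneg_right p3 t3
    have q4 := mul_le_mul_of_nonneg_right p4 t4
    have a2 : 2 * π ^ 2 * A * (gap N + r ^ 2 * volume.real F) + K * A ^ 2 * β +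
        (2 * π ^ 2 * A + 2 * w) * γ ≤ 2 * π ^ 2 * A * (gap N + γ) + K * A ^ 2 * β +
        (2 * π ^ 2 * A + 2 * w) * γ := by linarith
    rw [e3] at a2
    linarith
  · intro ξ _
    have h1 := Four.part4 hd h hp0 ξ
    rw [← hγ, ← hβ, ← hrd, ← hK3] at h1
    refine h1.trans ?_
    have hp1 : 0 ≤ 1 / p := by positivity
    generalize 1 / p = w at *
    set A := ‖ξ‖ ^ 2 with hA
    have hA0 : 0 ≤ A := by positivity
    have hA3 : (K3 * ‖ξ‖ ^ 3 * β) ^ 2 = K3 ^ 2 * (A ^ 3 * β ^ 2) := by rw [hA]; ring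
    have hA6 : ‖ξ‖ ^ 6 = A ^ 3 := by rw [hA]; ring
    rw [hA3, hA6]
    have t0 : 0 ≤ (4 * π ^ 2 * A + w) * γ := by positivity
    have a1 : volume.real F * ((4 * π ^ 2 * A + w) * γ) ≤ c * γ * ((4 * π ^ 2 * A + w) * γ) :=
      mul_le_mul_of_nonneg_right hF t0
    have t2 : 0 ≤ A ^ 3 * β ^ 2 := by positivity
    have t3 : 0 ≤ A * γ ^ 2 := by positivity
    have t4 : 0 ≤ w * γ ^ 2 := by positivity
    have e3 : c * γ * ((4 * π ^ 2 * A + w) * γ) = 4 * π ^ 2 * c * (A * γ ^ 2) +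
      c * (w * γ ^ 2) := by ring
    have e4 : (1 + c + K + 2 * K3 ^ 2 + 20 * π ^ 2 + 2 + 10 * π ^ 2 * c) *
        (A ^ 3 * β ^ 2 + (A + w) * γ ^ 2) =
        (1 + c + K + 2 * K3 ^ 2 + 20 * π ^ 2 + 2 + 10 * π ^ 2 * c) * (A ^ 3 * β ^ 2) +
        (1 + c + K + 2 * K3 ^ 2 + 20 * π ^ 2 + 2 + 10 * π ^ 2 * c) * (A * γ ^ 2) +
        (1 + c + K + 2 * K3 ^ 2 + 20 * π ^ 2 + 2 + 10 * π ^ 2 * c) * (w * γ ^ 2) := by ring
    rw [e4]
    have hpi : 1 ≤ π ^ 2 := by nlinarith [Real.pi_gt_three]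
    have p1 : 2 * K3 ^ 2 ≤ 1 + c + K + 2 * K3 ^ 2 + 20 * π ^ 2 + 2 + 10 * π ^ 2 * c := by
      have : 0 ≤ c + K + 20 * π ^ 2 + 10 * π ^ 2 * c := by positivity
      linarith
    have p3 : 8 * π ^ 2 * c ≤ 1 + c + K + 2 * K3 ^ 2 + 20 * π ^ 2 + 2 + 10 * π ^ 2 * c := by
      have : 0 ≤ c + K + 2 * K3 ^ 2 + 20 * π ^ 2 + 2 * π ^ 2 * c := by positivity
      linarith
    have p4 : 2 * c ≤ 1 + c + K + 2 * K3 ^ 2 + 20 * π ^ 2 + 2 + 10 * π ^ 2 * c := by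
      have h5 : c ≤ π ^ 2 * c := le_mul_of_one_le_left hc0.le hpi
      have : 0 ≤ c + K + 2 * K3 ^ 2 + 20 * π ^ 2 + 8 * (π ^ 2 * c) := by positivity
      linarith
    have q1 := mul_le_mul_of_nonneg_right p1 t2
    have q3 := mul_le_mul_of_nonneg_right p3 t3
    have q4 := mul_le_mul_of_nonneg_right p4 t4
    rw [e3] at a1
    linarith

end Pool.Agent.H82.Max
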