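import Pool.Agent.H82.Max.Defs

open MeasureTheory Set Filter Topology
open scoped ENNReal Real InnerProductSpace symmDiff Pointwise

namespace Pool.Agent.H82.Max

variable {d : ℕ}

namespace Lat

/-- integer vector -/
noncomputable def iv (n : Fin d → ℤ) : X d := WithLp.toLp 2 (fun i => (n i : ℝ))

/-- unit cube -/
def Q (d : ℕ) : Set (X d) := {x | ∀ i, x i ∈ Ico (0 : ℝ) 1}

lemma iv_apply (n : Fin d → ℤ) (i : Fin d) : iv n i = n i := rfl

lemma iv_add (m n : Fin d → ℤ) : iv (m + n) = iv m + iv n := by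
  ext i; simp [iv_apply]

lemma iv_neg (n : Fin d → ℤ) : iv (-n) = -iv n := by
  ext i; simp [iv_apply]

lemma iv_zero : iv (0 : Fin d → ℤ) = 0 := by
  ext i; simp [iv_apply]

lemma measQ : MeasurableSet (Q d) := by
  have : Q d = ⋂ i, (fun x : X d => x i) ⁻¹' Ico 0 1 := by ext; simp [Q]
  rw [this]
  refine MeasurableSet.iInter fun i => ?_
  have : Measurable (fun x : X d => x i) := by fun_prop
  exact this measurableSet_Ico

lemma existsUnique_iv (x : X d) : ∃! n : Fin d → ℤ, x + iv n ∈ Q d := by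
  refine ⟨fun i => -⌊x i⌋, ?_, ?_⟩
  · intro i
    simp only [PiLp.add_apply, iv_apply, Int.cast_neg, mem_Ico]
    exact ⟨by linarith [Int.floor_le (x i)], by linarith [Int.lt_floor_add_one (x i)]⟩
  · intro n hn
    funext i
    have h := hn i
    simp only [PiLp.add_apply, iv_apply, mem_Ico] at h
    have : ⌊x i⌋ = - n i := by
      rw [Int.floor_eq_iff]
      push_cast
      exact ⟨by linarith [h.1], by linarith [h.2]⟩
    omega

lemma vol_shift (S : Set (X d)) (v : X d) : volume {x | x + v ∈ S} = volume S :=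
  measure_preimage_add_right volume v S

lemma tsum_shift (A : Set (X d)) (hA : MeasurableSet A) (v : X d) :
    ∑' n : Fin d → ℤ, volume (A ∩ {x | x + v + iv n ∈ Q d}) = volume A := by
  have hm : ∀ n : Fin d → ℤ, MeasurableSet {x : X d | x + v + iv n ∈ Q d} := by
    intro n
    have : Measurable (fun x : X d => x + v + iv n) := by fun_prop
    exact this measQ
  rw [← measure_iUnion]
  · congr 1
    ext x
    simp only [mem_iUnion, mem_inter_iff, mem_ofPred_eq, exists_and_left, and_iff_left_iff_imp]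
    intro _
    exact (existsUnique_iv (x + v)).exists
  · intro m n hmn
    rw [Function.onFun, Set.disjoint_left]
    rintro x ⟨-, h1⟩ ⟨-, h2⟩
    exact hmn ((existsUnique_iv (x + v)).unique h1 h2)
  · intro n
    exact hA.inter (hm n)

lemma vol_unfold (S : Set (X d)) (hS : MeasurableSet S) :
    volume S = ∑' n : Fin d → ℤ, volume ({x | x + iv n ∈ S} ∩ Q d) := by
  rw [← tsum_shift S hS 0, ← (Equiv.neg (Fin d → ℤ)).tsum_eq]
  congr 1
  funext n
  rw [← vol_shift _ (iv n)]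
  congr 1
  ext x
  simp only [Equiv.neg_apply, iv_neg, mem_inter_iff, mem_ofPred_eq, add_zero, add_neg_cancel_right]

/-- translation invariance of the density of a periodic set -/
lemma vol_periodic (A : Set (X d)) (hA : MeasurableSet A)
    (hper : ∀ x ∈ A, ∀ n : Fin d → ℤ, x + iv n ∈ A) (v : X d) :
    volume ({x | x + v ∈ A} ∩ Q d) = volume (A ∩ Q d) := by
  have hper' : ∀ x, ∀ n : Fin d → ℤ, x + iv n ∈ A ↔ x ∈ A := by
    intro x n
    refine ⟨fun h => ?_, fun h => hper x h n⟩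
    have := hper _ h (-n)
    rwa [iv_neg, add_neg_cancel_right] at this
  have hm : ∀ w : X d, MeasurableSet {x : X d | x + w ∈ Q d} := by
    intro w
    have : Measurable (fun x : X d => x + w) := by fun_prop
    exact this measQ
  calc volume ({x | x + v ∈ A} ∩ Q d) = volume (A ∩ {x | x + -v ∈ Q d}) := by
        rw [← vol_shift (A ∩ {x | x + -v ∈ Q d}) v]
        congr 1
        ext x
        simp
    _ = ∑' n : Fin d → ℤ, volume ({x | x + iv n ∈ A ∩ {x | x + -v ∈ Q d}} ∩ Q d) :=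
        vol_unfold _ (hA.inter (hm _))
    _ = ∑' n : Fin d → ℤ, volume ((A ∩ Q d) ∩ {x | x + -v + iv n ∈ Q d}) := by
        congr 1
        funext n
        congr 1
        ext x
        simp only [mem_inter_iff, mem_ofPred_eq, hper']
        have : x + iv n + -v = x + -v + iv n := by abel
        rw [this]
        tauto
    _ = volume (A ∩ Q d) := tsum_shift _ (hA.inter measQ) _

lemma volQ : volume (Q d) = 1 := by
  have h : Q d = (MeasurableEquiv.toLp 2 (Fin d → ℝ)).symm ⁻¹' (Set.pi univ fun _ => Ico (0:ℝ) 1) := by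
    ext x
    simp [Q]
  rw [h, (EuclideanSpace.volume_preserving_symm_measurableEquiv_toLp (Fin d)).measure_preimage_equiv]
  rw [Real.volume_pi_Ico]
  simp

end Lat

open Pool.Agent.H82.Max.Lat

/-- Periodic sets: if `Y ⊆ ℝ^d` is `ℤ^d`-periodic, symmetric, measurable, of positive density and
`Y + Y` has density less than `3/2` times the density of `Y`, then `Y + Y` is everything. -/
theorem periodic_sum_eq_univ (d : ℕ) (Y : Set (X d)) (hY : MeasurableSet Y)
    (hYY : MeasurableSet (Y + Y)) (hsymm : ∀ x ∈ Y, -x ∈ Y)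
    (hper : ∀ x ∈ Y, ∀ n : Fin d → ℤ, x + WithLp.toLp 2 (fun i => (n i : ℝ)) ∈ Y)
    (hpos : 0 < volume (Y ∩ {x | ∀ i, x i ∈ Ico (0 : ℝ) 1}))
    (hlt : 2 * volume.real ((Y + Y) ∩ {x | ∀ i, x i ∈ Ico (0 : ℝ) 1}) <
      3 * volume.real (Y ∩ {x | ∀ i, x i ∈ Ico (0 : ℝ) 1})) :
    Y + Y = univ := by
  change 0 < volume (Y ∩ Q d) at hpos
  change 2 * volume.real ((Y + Y) ∩ Q d) < 3 * volume.real (Y ∩ Q d) at hlt
  change ∀ x ∈ Y, ∀ n : Fin d → ℤ, x + iv n ∈ Y at hper
  have hfin : ∀ S : Set (X d), volume (S ∩ Q d) ≠ ∞ := fun S =>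
    ne_top_of_le_ne_top (by rw [volQ]; exact ENNReal.one_ne_top) (measure_mono inter_subset_right)
  have hperYY : ∀ x ∈ Y + Y, ∀ n : Fin d → ℤ, x + iv n ∈ Y + Y := by
    rintro _ ⟨y, hy, z, hz, rfl⟩ n
    exact ⟨y, hy, z + iv n, hper z hz n, by simp only [add_assoc]⟩
  have hmt : ∀ (S : Set (X d)) (_ : MeasurableSet S) (v : X d), MeasurableSet {x : X d | x + v ∈ S} := by
    intro S hS w
    have : Measurable (fun x : X d => x + w) := by fun_prop
    exact this hS
  set τ := volume.real (Y ∩ Q d) with hτ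
  have hden : ∀ v : X d, volume.real ({x | x + v ∈ Y} ∩ Q d) = τ := by
    intro v
    rw [measureReal_def, vol_periodic Y hY hper v, ← measureReal_def]
  -- step 1
  have h1 : ∀ u ∈ Y + Y, τ < 2 * volume.real (Y ∩ {x | x + -u ∈ Y} ∩ Q d) := by
    rintro _ ⟨y1, hy1, y2, hy2, rfl⟩
    -- A = {x | x + y1 ∈ Y}, B = {x | x - y2 ∈ Y}
    have hAB : ({x | x + y1 ∈ Y} ∪ {x | x + -y2 ∈ Y}) ∩ Q d ⊆ (Y + Y) ∩ Q d := by
      apply inter_subset_inter_left
      rintro x (hx | hx)
      · exact ⟨x + y1, hx, -y1, hsymm _ hy1, by simp⟩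
      · exact ⟨x + -y2, hx, y2, hy2, by simp⟩
    have hle : volume.real (({x | x + y1 ∈ Y} ∪ {x | x + -y2 ∈ Y}) ∩ Q d) ≤
        volume.real ((Y + Y) ∩ Q d) := measureReal_mono hAB (hfin _)
    have hsum : volume.real (({x | x + y1 ∈ Y} ∪ {x | x + -y2 ∈ Y}) ∩ Q d) +
        volume.real (({x | x + y1 ∈ Y} ∩ {x | x + -y2 ∈ Y}) ∩ Q d) = τ + τ := by
      have := measureReal_union_add_inter (μ := volume) (s := {x | x + y1 ∈ Y} ∩ Q d)
        (t := {x | x + -y2 ∈ Y} ∩ Q d) ((hmt Y hY _).inter measQ) (hfin _) (hfin _)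
      rw [hden, hden] at this
      rw [← this, union_inter_distrib_right, inter_inter_distrib_right]
    have heq : volume.real (({x | x + y1 ∈ Y} ∩ {x | x + -y2 ∈ Y}) ∩ Q d) =
        volume.real (Y ∩ {x | x + -(y1 + y2) ∈ Y} ∩ Q d) := by
      have hp := vol_periodic (Y ∩ {x | x + -(y1 + y2) ∈ Y}) (hY.inter (hmt Y hY _)) (by
        rintro x ⟨hx1, hx2⟩ n
        refine ⟨hper x hx1 n, ?_⟩
        have := hper _ hx2 n
        show x + iv n + -(y1 + y2) ∈ Y
        convert this using 1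
        abel) y1
      rw [measureReal_def, measureReal_def, ← hp]
      congr 3
      ext x
      simp only [mem_inter_iff, mem_ofPred_eq]
      have : x + y1 + -(y1 + y2) = x + -y2 := by abel
      rw [this]
    show τ < 2 * volume.real (Y ∩ {x | x + -(y1 + y2) ∈ Y} ∩ Q d)
    rw [← heq]
    linarith
  -- step 2
  have h2 : ∀ a ∈ Y + Y, ∀ b ∈ Y + Y, a - b ∈ Y + Y := by
    intro a ha b hb
    have ha' := h1 a ha
    have hb' := h1 b hb
    have : ((Y ∩ {x | x + -a ∈ Y} ∩ Q d) ∩ (Y ∩ {x | x + -b ∈ Y} ∩ Q d)).Nonempty := by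
      by_contra hne
      rw [Set.not_nonempty_iff_eq_empty] at hne
      have hun := measureReal_union_add_inter (μ := volume) (s := Y ∩ {x | x + -a ∈ Y} ∩ Q d)
        (t := Y ∩ {x | x + -b ∈ Y} ∩ Q d) ((hY.inter (hmt Y hY _)).inter measQ) (hfin _) (hfin _)
      rw [hne, measureReal_empty] at hun
      have hle : volume.real ((Y ∩ {x | x + -a ∈ Y} ∩ Q d) ∪ (Y ∩ {x | x + -b ∈ Y} ∩ Q d)) ≤ τ := by
        apply measureReal_mono _ (hfin _)
        rintro x (hx | hx)
        · exact ⟨hx.1.1, hx.2⟩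
        · exact ⟨hx.1.1, hx.2⟩
      linarith
    obtain ⟨z, ⟨⟨_, hza⟩, _⟩, ⟨⟨_, hzb⟩, _⟩⟩ := this
    refine ⟨z + -b, hzb, -(z + -a), hsymm _ hza, ?_⟩
    show z + -b + -(z + -a) = a - b
    abel
  -- step 3
  have hYne : Y.Nonempty := by
    by_contra h
    rw [Set.not_nonempty_iff_eq_empty] at h
    rw [h] at hpos
    simp at hpos
  obtain ⟨y0, hy0⟩ := hYne
  have h0 : (0 : X d) ∈ Y + Y := ⟨y0, hy0, -y0, hsymm _ hy0, by simp⟩
  have hneg : ∀ a ∈ Y + Y, -a ∈ Y + Y := fun a ha => by simpa using h2 0 h0 a ha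
  have hadd : ∀ a ∈ Y + Y, ∀ b ∈ Y + Y, a + b ∈ Y + Y := fun a ha b hb => by
    simpa using h2 a ha (-b) (hneg b hb)
  have hposY : 0 < volume Y := lt_of_lt_of_le hpos (measure_mono inter_subset_left)
  have hnhds := Measure.sub_mem_nhds_zero_of_addHaar_pos volume Y hY hposY
  have hsub : Y - Y ⊆ Y + Y := by
    rintro _ ⟨a, ha, b, hb, rfl⟩
    exact ⟨a, ha, -b, hsymm _ hb, by simp [sub_eq_add_neg]⟩
  have hnhds' : Y + Y ∈ 𝓝 (0 : X d) := mem_of_superset hnhds hsub
  rw [Set.eq_univ_iff_forall]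
  intro x
  have hlim : Tendsto (fun n : ℕ => (1 / ((n : ℝ) + 1)) • x) atTop (𝓝 0) := by
    have := (tendsto_one_div_add_atTop_nhds_zero_nat (𝕜 := ℝ)).smul_const x
    simpa using this
  obtain ⟨n, hn⟩ := (hlim.eventually hnhds').exists
  have hmul : ∀ (k : ℕ) (w : X d), w ∈ Y + Y → (k : ℝ) • w ∈ Y + Y := by
    intro k w hw
    induction k with
    | zero => simpa using h0
    | succ k ih =>
      have := hadd _ ih _ hw
      push_cast
      rwa [add_smul, one_smul]
  have := hmul (n + 1) _ hn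
  rw [smul_smul] at this
  have h3 : (((n + 1 : ℕ) : ℝ)) * (1 / ((n : ℝ) + 1)) = 1 := by
    push_cast
    field_simp
  rwa [h3, one_smul] at this


namespace Lat

/-- the periodic extension of a set -/
def pr (Z : Set (X d)) : Set (X d) := ⋃ n : Fin d → ℤ, {x | x + iv n ∈ Z}

lemma mem_pr {Z : Set (X d)} {x : X d} : x ∈ pr Z ↔ ∃ n : Fin d → ℤ, x + iv n ∈ Z := by
  simp [pr]

lemma meas_shift {S : Set (X d)} (hS : MeasurableSet S) (v : X d) :
    MeasurableSet {x : X d | x + v ∈ S} := by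
  have : Measurable (fun x : X d => x + v) := by fun_prop
  exact this hS

lemma meas_pr {Z : Set (X d)} (hZ : MeasurableSet Z) : MeasurableSet (pr Z) :=
  MeasurableSet.iUnion fun _ => meas_shift hZ _

lemma pr_add (Z W : Set (X d)) : pr Z + pr W = pr (Z + W) := by
  ext x
  constructor
  · rintro ⟨a, ha, b, hb, rfl⟩
    obtain ⟨m, hm⟩ := mem_pr.1 ha
    obtain ⟨n, hn⟩ := mem_pr.1 hb
    refine mem_pr.2 ⟨m + n, a + iv m, hm, b + iv n, hn, ?_⟩
    simp only [iv_add]
    abel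
  · intro h
    obtain ⟨n, z, hz, w, hw, h⟩ := mem_pr.1 h
    refine ⟨z + iv (-n), mem_pr.2 ⟨n, ?_⟩, w, mem_pr.2 ⟨0, ?_⟩, ?_⟩
    · rw [iv_neg]; simpa using hz
    · rw [iv_zero]; simpa using hw
    · simp only at h ⊢
      rw [iv_neg]
      have : z + -iv n + w = (z + w) - iv n := by abel
      rw [this, h]
      abel

lemma vol_inter_Q (A : Set (X d)) (hA : MeasurableSet A) :
    volume (A ∩ Q d) = ∫⁻ x in Q d, A.indicator 1 x := by
  rw [lintegral_indicator_one hA, Measure.restrict_apply hA]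

/-- a set containing `Z + {0, …, N-1}^d` has large volume -/
lemma lower_box (Z S : Set (X d)) (hZ : MeasurableSet Z) (hS : MeasurableSet S) (N : ℕ)
    (h : ∀ z ∈ Z, ∀ k : Fin d → Fin N, z + iv (fun i => ((k i : ℕ) : ℤ)) ∈ S) :
    (N : ℝ≥0∞) ^ d * volume (pr Z ∩ Q d) ≤ volume S := by
  rw [vol_unfold S hS]
  have e1 : ∀ n : Fin d → ℤ, volume ({x | x + iv n ∈ S} ∩ Q d) =
      ∫⁻ x in Q d, ({x | x + iv n ∈ S} : Set (X d)).indicator 1 x := fun n =>
    vol_inter_Q _ (meas_shift hS _)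
  simp only [e1]
  rw [← lintegral_tsum (fun n => ((measurable_one).indicator (meas_shift hS _)).aemeasurable)]
  have e2 : (N : ℝ≥0∞) ^ d * volume (pr Z ∩ Q d) =
      ∫⁻ x in Q d, (pr Z).indicator (fun _ => (N : ℝ≥0∞) ^ d) x := by
    rw [lintegral_indicator_const (meas_pr hZ), Measure.restrict_apply (meas_pr hZ)]
  rw [e2]
  apply lintegral_mono
  intro x
  by_cases hx : x ∈ pr Z
  · rw [indicator_of_mem hx]
    obtain ⟨n0, hn0⟩ := mem_pr.1 hx
    let g : (Fin d → Fin N) → (Fin d → ℤ) := fun k => n0 + fun i => ((k i : ℕ) : ℤ)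
    have hg : Function.Injective g := by
      intro k k' hkk
      funext i
      have := congrFun hkk i
      simp only [g, Pi.add_apply] at this
      apply Fin.ext
      omega
    calc ((N : ℝ≥0∞) ^ d) = ∑' k : Fin d → Fin N,
          ({x | x + iv (g k) ∈ S} : Set (X d)).indicator (1 : X d → ℝ≥0∞) x := by
          have : ∀ k : Fin d → Fin N,
              ({x | x + iv (g k) ∈ S} : Set (X d)).indicator (1 : X d → ℝ≥0∞) x = 1 := by
            intro k
            rw [indicator_of_mem]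
            · rfl
            · show x + iv (g k) ∈ S
              have := h _ hn0 k
              simp only [g, iv_add]
              rwa [← add_assoc]
          simp only [this]
          rw [tsum_fintype]
          simp
      _ ≤ ∑' n : Fin d → ℤ, ({x | x + iv n ∈ S} : Set (X d)).indicator (1 : X d → ℝ≥0∞) x :=
          ENNReal.tsum_comp_le_tsum_of_injective hg
            (fun n => ({x | x + iv n ∈ S} : Set (X d)).indicator (1 : X d → ℝ≥0∞) x)
  · rw [indicator_of_notMem hx]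
    exact zero_le

lemma upper_cube (S : Set (X d)) (hS : MeasurableSet S) (h : ∀ x ∈ S, ∀ i, |x i| ≤ 1) :
    volume S ≤ 3 ^ d * volume (pr S ∩ Q d) := by
  rw [vol_unfold S hS]
  let F : Finset (Fin d → ℤ) := Fintype.piFinset (fun _ => ({-1, 0, 1} : Finset ℤ))
  rw [tsum_eq_sum (s := F)]
  · calc ∑ n ∈ F, volume ({x | x + iv n ∈ S} ∩ Q d) ≤ ∑ n ∈ F, volume (pr S ∩ Q d) := by
          apply Finset.sum_le_sum
          intro n _
          apply measure_mono
          rintro x ⟨hx, hq⟩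
          exact ⟨mem_pr.2 ⟨n, hx⟩, hq⟩
      _ = 3 ^ d * volume (pr S ∩ Q d) := by
          rw [Finset.sum_const, nsmul_eq_mul]
          congr 1
          simp [F]
  · intro n hn
    have : {x | x + iv n ∈ S} ∩ Q d = ∅ := by
      rw [Set.eq_empty_iff_forall_notMem]
      rintro x ⟨hx, hq⟩
      apply hn
      rw [Fintype.mem_piFinset]
      intro i
      have h1 := h _ hx i
      have h2 := hq i
      simp only [PiLp.add_apply, iv_apply, mem_Ico] at h1 h2
      rw [abs_le] at h1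
      have h3 : (-2 : ℝ) < n i := by linarith [h1.1, h2.2]
      have h4 : (n i : ℝ) ≤ 1 := by linarith [h1.2, h2.1]
      have h3' : (-2 : ℤ) < n i := by exact_mod_cast h3
      have h4' : n i ≤ 1 := by exact_mod_cast h4
      simp only [Finset.mem_insert, Finset.mem_singleton]
      omega
    rw [this, measure_empty]

/-- iterated doubling -/
def Zs (ρ : X d → ℝ) (a : ℝ) : ℕ → Set (X d)
  | 0 => {ξ | ρ ξ ≤ a}
  | j + 1 => Zs ρ a j + Zs ρ a j

section

variable {ρ : X d → ℝ} {a : ℝ}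

lemma rho_nat (h0 : ρ 0 = 0) (hadd : ∀ ξ η, ρ (ξ + η) ≤ ρ ξ + ρ η) (n : ℕ) (x : X d) :
    ρ ((n : ℝ) • x) ≤ n * ρ x := by
  induction n with
  | zero => simp [h0]
  | succ n ih =>
    push_cast
    rw [add_smul, one_smul, add_mul, one_mul]
    exact (hadd _ _).trans (by linarith)

lemma rho_int (h0 : ρ 0 = 0) (hs : ∀ ξ, ρ (-ξ) = ρ ξ) (hadd : ∀ ξ η, ρ (ξ + η) ≤ ρ ξ + ρ η)
    (n : ℤ) (x : X d) : ρ ((n : ℝ) • x) ≤ |(n : ℝ)| * ρ x := by
  rcases le_total 0 n with h | h
  · lift n to ℕ using h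
    have := rho_nat h0 hadd n x
    simpa using this
  · obtain ⟨m, hm⟩ := Int.exists_eq_neg_ofNat h
    subst hm
    have := rho_nat h0 hadd m x
    have e : (((-(m : ℤ)) : ℤ) : ℝ) • x = -((m : ℝ) • x) := by
      push_cast
      rw [neg_smul]
    rw [e, hs]
    simpa using this

lemma iv_eq_sum (n : Fin d → ℤ) :
    iv n = ∑ i, (n i : ℝ) • (EuclideanSpace.single i (1 : ℝ) : X d) := by
  ext j
  simp [iv_apply, Pi.single_apply]

lemma rho_iv (h0 : ρ 0 = 0) (hs : ∀ ξ, ρ (-ξ) = ρ ξ) (hadd : ∀ ξ η, ρ (ξ + η) ≤ ρ ξ + ρ η)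
    (he : ∀ i, ρ (EuclideanSpace.single i 1) ≤ a) (n : Fin d → ℤ) (B : ℝ)
    (hn : ∀ i, |(n i : ℝ)| ≤ B) (ha : 0 ≤ a) : ρ (iv n) ≤ d * B * a := by
  rw [iv_eq_sum]
  refine (Finset.le_sum_of_subadditive ρ h0.le hadd _ _).trans ?_
  calc ∑ i, ρ ((n i : ℝ) • (EuclideanSpace.single i (1 : ℝ) : X d)) ≤ ∑ _i : Fin d, B * a := by
        apply Finset.sum_le_sum
        intro i _
        refine (rho_int h0 hs hadd _ _).trans ?_
        exact mul_le_mul (hn i) (he i) (by
          have := hadd (EuclideanSpace.single i 1) (-(EuclideanSpace.single i 1))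
          rw [add_neg_cancel, h0, hs] at this
          linarith) ((abs_nonneg _).trans (hn i))
    _ = d * B * a := by simp [mul_assoc]

lemma Zs_compact (hc : Continuous ρ) (hcube : {ξ | ρ ξ ≤ a} ⊆ {ξ : X d | ∀ i, |ξ i| ≤ 1}) (j : ℕ) :
    IsCompact (Zs ρ a j) := by
  induction j with
  | zero =>
    apply Metric.isCompact_of_isClosed_isBounded
    · exact isClosed_le hc continuous_const
    · apply (Metric.isBounded_closedBall (x := (0 : X d)) (r := √(d : ℝ))).subset
      intro ξ hξ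
      rw [mem_closedBall_zero_iff, EuclideanSpace.norm_eq]
      apply Real.sqrt_le_sqrt
      calc ∑ i, ‖ξ i‖ ^ 2 ≤ ∑ _i : Fin d, (1 : ℝ) := by
            apply Finset.sum_le_sum
            intro i _
            have := hcube hξ i
            rw [Real.norm_eq_abs]
            exact pow_le_one₀ (abs_nonneg _) this
        _ = d := by simp
  | succ j ih => exact ih.add ih

lemma Zs_neg (hs : ∀ ξ, ρ (-ξ) = ρ ξ) (j : ℕ) : ∀ x ∈ Zs ρ a j, -x ∈ Zs ρ a j := by
  induction j with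
  | zero =>
    intro x hx
    show ρ (-x) ≤ a
    rw [hs]
    exact hx
  | succ j ih =>
    rintro _ ⟨x, hx, y, hy, rfl⟩
    exact ⟨-x, ih x hx, -y, ih y hy, by simp only [neg_add]⟩

lemma Zs_rho (hadd : ∀ ξ η, ρ (ξ + η) ≤ ρ ξ + ρ η) (j : ℕ) :
    ∀ x ∈ Zs ρ a j, ρ x ≤ 2 ^ j * a := by
  induction j with
  | zero =>
    intro x hx
    have h : ρ x ≤ a := hx
    simpa using h
  | succ j ih =>
    rintro _ ⟨x, hx, y, hy, rfl⟩
    have := hadd x y
    have h1 := ih x hx
    have h2 := ih y hy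
    rw [pow_succ]
    show ρ (x + y) ≤ _
    linarith

lemma Zs_cube (hcube : {ξ | ρ ξ ≤ a} ⊆ {ξ : X d | ∀ i, |ξ i| ≤ 1}) (j : ℕ) :
    ∀ x ∈ Zs ρ a j, ∀ i, |x i| ≤ 2 ^ j := by
  induction j with
  | zero => intro x hx i; simpa using hcube hx i
  | succ j ih =>
    rintro _ ⟨x, hx, y, hy, rfl⟩ i
    have h1 := ih x hx i
    have h2 := ih y hy i
    rw [pow_succ]
    show |(x + y) i| ≤ _
    rw [PiLp.add_apply]
    exact (abs_add_le _ _).trans (by linarith)

end

end Lat

/-- The case of a function adapted to the standard lattice. -/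
theorem lattice_std (d : ℕ) (M : ℝ) : ∃ K : ℝ, 1 ≤ K ∧ ∀ (ρ : X d → ℝ) (a D t₀ : ℝ),
    (∀ ξ, 0 ≤ ρ ξ) → ρ 0 = 0 → (∀ ξ, ρ (-ξ) = ρ ξ) → (∀ ξ η, ρ (ξ + η) ≤ ρ ξ + ρ η) →
    Continuous ρ → 0 < a → 0 < D → K * a ≤ t₀ →
    {ξ | ρ ξ ≤ a} ⊆ {ξ | ∀ i, |ξ i| ≤ 1} →
    (∀ i, ρ (EuclideanSpace.single i 1) ≤ a) →
    (∀ t, a ≤ t → t ≤ t₀ → volume {ξ | ρ ξ ≤ t} ≤ ENNReal.ofReal (D * (t / a) ^ d)) →
    ENNReal.ofReal D ≤ ENNReal.ofReal M * volume {ξ | ρ ξ ≤ a} →
    1 ≤ K * D ∧ ∀ ξ : X d, (∀ i, |ξ i| ≤ 1) → ρ ξ ≤ K * a := by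
  obtain ⟨J, hJ⟩ : ∃ J : ℕ, M * 3 ^ d * (1 + d : ℝ) ^ d < (3 / 2 : ℝ) ^ J :=
    pow_unbounded_of_one_lt _ (by norm_num)
  set K : ℝ := (1 + d : ℝ) ^ d + (1 + d) * 2 ^ J + d with hK
  have hd0 : (0 : ℝ) ≤ d := Nat.cast_nonneg d
  have h2J : (1 : ℝ) ≤ 2 ^ J := one_le_pow₀ (by norm_num)
  have hdd : (1 : ℝ) ≤ (1 + d : ℝ) ^ d := one_le_pow₀ (by linarith)
  have hK1 : (1 + d : ℝ) * 2 ^ J ≤ K := by rw [hK]; linarith
  have hK2 : (1 + d : ℝ) ^ d ≤ K := by rw [hK]; nlinarith
  refine ⟨K, by nlinarith, ?_⟩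
  intro ρ a D t₀ hnn h0 hs hadd hc ha hD hKt hcube he hvol hlow
  have hcpt := fun j => Zs_compact (a := a) hc hcube j
  have hmZ : ∀ j, MeasurableSet (Zs ρ a j) := fun j => (hcpt j).isClosed.measurableSet
  have hfin : ∀ S : Set (X d), volume (S ∩ Q d) ≠ ∞ := fun S =>
    ne_top_of_le_ne_top (by rw [volQ]; exact ENNReal.one_ne_top) (measure_mono inter_subset_right)
  set τ : ℕ → ℝ := fun j => volume.real (pr (Zs ρ a j) ∩ Q d) with hτ
  -- (A)
  have hA : ∀ j ≤ J, τ j ≤ (1 + d : ℝ) ^ d * D := by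
    intro j hj
    have h2 : (2 : ℝ) ^ j ≤ 2 ^ J := pow_le_pow_right₀ (by norm_num) hj
    have h1j : (1 : ℝ) ≤ 2 ^ j := one_le_pow₀ (by norm_num)
    have hta : a ≤ (1 + d) * 2 ^ j * a := by
      have : (1 : ℝ) ≤ (1 + d) * 2 ^ j := by nlinarith
      nlinarith
    have htt : (1 + d) * 2 ^ j * a ≤ t₀ := by
      refine le_trans ?_ hKt
      apply mul_le_mul_of_nonneg_right _ ha.le
      exact le_trans (by nlinarith) hK1
    have hb := lower_box (Zs ρ a j) {ξ | ρ ξ ≤ (1 + d) * 2 ^ j * a} (hmZ j)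
      (isClosed_le hc continuous_const).measurableSet (2 ^ j) (by
        intro z hz k
        have h1 := Zs_rho hadd j z hz
        have h3 := rho_iv h0 hs hadd he (fun i => ((k i : ℕ) : ℤ)) (2 ^ j) (by
          intro i
          have : ((k i : ℕ) : ℝ) ≤ 2 ^ j := by exact_mod_cast (k i).2.le
          push_cast
          rwa [abs_of_nonneg (Nat.cast_nonneg _)]) ha.le
        show ρ (z + _) ≤ (1 + d) * 2 ^ j * a
        refine (hadd _ _).trans ?_
        calc ρ z + ρ (iv fun i => ((k i : ℕ) : ℤ)) ≤ 2 ^ j * a + d * 2 ^ j * a := add_le_add h1 h3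
          _ = (1 + d) * 2 ^ j * a := by ring)
    have hv := hvol _ hta htt
    have hcomb := hb.trans hv
    have hr := ENNReal.toReal_mono ENNReal.ofReal_ne_top hcomb
    rw [ENNReal.toReal_mul, ENNReal.toReal_pow, ENNReal.toReal_natCast,
      ENNReal.toReal_ofReal (by positivity)] at hr
    have e1 : (1 + (d : ℝ)) * 2 ^ j * a / a = (1 + d) * 2 ^ j := by field_simp
    rw [e1, mul_pow] at hr
    push_cast at hr
    have hpos : (0 : ℝ) < (2 ^ j) ^ d := by positivity
    have : (2 ^ j) ^ d * τ j ≤ (2 ^ j) ^ d * ((1 + d : ℝ) ^ d * D) := by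
      calc (2 ^ j) ^ d * τ j ≤ D * ((1 + d : ℝ) ^ d * (2 ^ j) ^ d) := hr
        _ = _ := by ring
    exact le_of_mul_le_mul_left this hpos
  -- (B)
  have hB : D ≤ M * 3 ^ d * τ 0 := by
    have hu := upper_cube (Zs ρ a 0) (hmZ 0) (fun x hx => hcube hx)
    have hM : 0 ≤ M := by
      by_contra hM
      push Not at hM
      rw [ENNReal.ofReal_of_nonpos hM.le, zero_mul] at hlow
      have : ENNReal.ofReal D = 0 := le_antisymm hlow zero_le
      rw [ENNReal.ofReal_eq_zero] at this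
      linarith
    have hcomb : ENNReal.ofReal D ≤ ENNReal.ofReal M * (3 ^ d * volume (pr (Zs ρ a 0) ∩ Q d)) :=
      hlow.trans (mul_le_mul_right hu _)
    have hr := ENNReal.toReal_mono (by
      apply ENNReal.mul_ne_top ENNReal.ofReal_ne_top
      apply ENNReal.mul_ne_top _ (hfin _)
      exact ENNReal.pow_ne_top (by norm_num)) hcomb
    rw [ENNReal.toReal_ofReal hD.le, ENNReal.toReal_mul, ENNReal.toReal_ofReal hM,
      ENNReal.toReal_mul, ENNReal.toReal_pow] at hr
    calc D ≤ _ := hr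
      _ = M * 3 ^ d * τ 0 := by
        simp only [hτ, measureReal_def, ENNReal.toReal_ofNat]
        ring
  have hτ0 : 0 < τ 0 := by
    have h3 : (0 : ℝ) ≤ τ 0 := measureReal_nonneg
    rcases h3.lt_or_eq with h | h
    · exact h
    · rw [← h, mul_zero] at hB
      linarith
  -- find j
  obtain ⟨j, hjJ, hj⟩ : ∃ j < J, 2 * τ (j + 1) < 3 * τ j := by
    by_contra hcon
    push Not at hcon
    have : ∀ j ≤ J, (3 / 2 : ℝ) ^ j * τ 0 ≤ τ j := by
      intro j
      induction j with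
      | zero => intro _; simp
      | succ j ih =>
        intro hj
        have h1 := ih (by omega)
        have h2 := hcon j (by omega)
        rw [pow_succ]
        nlinarith
    have h1 := this J le_rfl
    have h2 := hA J le_rfl
    have h3 : (3 / 2 : ℝ) ^ J * τ 0 ≤ (1 + d : ℝ) ^ d * (M * 3 ^ d * τ 0) :=
      (h1.trans h2).trans (mul_le_mul_of_nonneg_left hB (by positivity))
    have h4 : (M * 3 ^ d * (1 + d : ℝ) ^ d) * τ 0 < (3 / 2 : ℝ) ^ J * τ 0 :=
      mul_lt_mul_of_pos_right hJ hτ0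
    nlinarith
  have hmono : τ 0 ≤ τ j := by
    have : ∀ k, Zs ρ a 0 ⊆ Zs ρ a k := by
      intro k
      induction k with
      | zero => exact subset_rfl
      | succ k ih =>
        intro x hx
        refine ⟨x, ih hx, 0, ih (show ρ 0 ≤ a by rw [h0]; exact ha.le), by simp⟩
    apply measureReal_mono _ (hfin _)
    apply inter_subset_inter_left
    intro x hx
    obtain ⟨n, hn⟩ := mem_pr.1 hx
    exact mem_pr.2 ⟨n, this j hn⟩
  have huniv : pr (Zs ρ a (j + 1)) = univ := by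
    have hsum : pr (Zs ρ a j) + pr (Zs ρ a j) = pr (Zs ρ a (j + 1)) := pr_add _ _
    rw [← hsum]
    apply periodic_sum_eq_univ d
    · exact meas_pr (hmZ j)
    · rw [hsum]; exact meas_pr (hmZ (j + 1))
    · intro x hx
      obtain ⟨n, hn⟩ := mem_pr.1 hx
      refine mem_pr.2 ⟨-n, ?_⟩
      have := Zs_neg hs j _ hn
      rw [iv_neg]
      rwa [neg_add] at this
    · intro x hx n
      obtain ⟨m, hm⟩ := mem_pr.1 hx
      refine mem_pr.2 ⟨m - n, ?_⟩
      have e : x + iv n + iv (m - n) = x + iv m := by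
        rw [add_assoc, ← iv_add]
        congr 2
        abel
      have : x + WithLp.toLp 2 (fun i => (n i : ℝ)) + iv (m - n) = x + iv m := e
      rwa [this]
    · have h1 : 0 < τ j := lt_of_lt_of_le hτ0 hmono
      simp only [hτ, measureReal_def] at h1
      exact (ENNReal.toReal_pos_iff.1 h1).1
    · rw [hsum]
      exact hj
  have hj1 : (2 : ℝ) ^ (j + 1) ≤ 2 ^ J := pow_le_pow_right₀ (by norm_num) hjJ
  constructor
  · have h1 := hA (j + 1) hjJ
    rw [hτ] at h1
    simp only [huniv, univ_inter, measureReal_def, volQ, ENNReal.toReal_one] at h1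
    exact h1.trans (mul_le_mul_of_nonneg_right hK2 hD.le)
  · intro ξ hξ
    have : ξ ∈ pr (Zs ρ a (j + 1)) := by rw [huniv]; trivial
    obtain ⟨n, hn⟩ := mem_pr.1 this
    have h1 := Zs_rho hadd _ _ hn
    have h2 := Zs_cube hcube _ _ hn
    have h3 := rho_iv h0 hs hadd he (-n) (2 ^ J + 1) (by
      intro i
      have := h2 i
      rw [PiLp.add_apply, iv_apply] at this
      have h4 := hξ i
      simp only [Pi.neg_apply, Int.cast_neg, abs_neg]
      rw [abs_le] at this h4 ⊢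
      constructor <;> linarith [this.1, this.2, h4.1, h4.2]) ha.le
    have e : ξ = (ξ + iv n) + iv (-n) := by rw [iv_neg]; abel
    calc ρ ξ = ρ ((ξ + iv n) + iv (-n)) := by rw [← e]
      _ ≤ 2 ^ (j + 1) * a + d * (2 ^ J + 1) * a := (hadd _ _).trans (add_le_add h1 h3)
      _ ≤ 2 ^ J * a + d * (2 ^ J + 1) * a := by
          gcongr
      _ = ((1 + d) * 2 ^ J + d) * a := by ring
      _ ≤ K * a := by
          apply mul_le_mul_of_nonneg_right _ ha.le
          rw [hK]
          linarith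

namespace Lat

lemma norm_le_of_coord (x : X d) (B : ℝ) (hB : 0 ≤ B) (h : ∀ i, |x i| ≤ B) : ‖x‖ ≤ √(d : ℝ) * B := by
  rw [EuclideanSpace.norm_eq]
  calc √(∑ i, ‖x i‖ ^ 2) ≤ √(∑ _i : Fin d, B ^ 2) := by
        apply Real.sqrt_le_sqrt
        apply Finset.sum_le_sum
        intro i _
        rw [Real.norm_eq_abs]
        exact pow_le_pow_left₀ (abs_nonneg _) (h i) 2
    _ = √(d : ℝ) * B := by
        simp only [Finset.sum_const, Finset.card_univ, Fintype.card_fin, nsmul_eq_mul]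
        rw [Real.sqrt_mul (Nat.cast_nonneg d), Real.sqrt_sq hB]

lemma coord_le_norm (x : X d) (i : Fin d) : |x i| ≤ ‖x‖ := by
  have := EuclideanSpace.norm_sq_eq x
  rw [← Real.norm_eq_abs]
  apply le_of_sq_le_sq _ (norm_nonneg _)
  rw [this]
  exact Finset.single_le_sum (f := fun i => ‖x i‖ ^ 2) (fun j _ => sq_nonneg _) (Finset.mem_univ i)

lemma vol_cube : volume {x : X d | ∀ i, |x i| ≤ 1} = 2 ^ d := by
  have h : {x : X d | ∀ i, |x i| ≤ 1} =
      (MeasurableEquiv.toLp 2 (Fin d → ℝ)).symm ⁻¹' (Set.pi univ fun _ => Icc (-1:ℝ) 1) := by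
    ext x
    simp [abs_le, Pi.le_def, forall_and]
  rw [h, (EuclideanSpace.volume_preserving_symm_measurableEquiv_toLp (Fin d)).measure_preimage_equiv]
  rw [volume_pi_pi]
  simp
  norm_num

/-- a compact set of positive measure is contained in a parallelepiped spanned by its elements -/
lemma exists_max (X0 : Set (X d)) (hX : IsCompact X0) (hpos : 0 < volume X0) :
    ∃ T : X d ≃ₗ[ℝ] X d, (∀ i, T (EuclideanSpace.single i 1) ∈ X0) ∧
      ∀ ξ, T ξ ∈ X0 → ∀ i, |ξ i| ≤ 1 := by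
  classical
  set e := (EuclideanSpace.basisFun (Fin d) ℝ).toBasis with he
  have herepr : ∀ (x : X d) i, e.repr x i = x i := by
    intro x i
    simp [he]
  have hesingle : ∀ i, e i = EuclideanSpace.single i 1 := by
    intro i
    simp [he]
  have hcont : Continuous (fun v : Fin d → X d => |e.det v|) := by
    have h1 : (fun v : Fin d → X d => |e.det v|) = fun v => |(e.toMatrix v).det| := by
      funext v
      rw [Module.Basis.det_apply]
    rw [h1]
    apply Continuous.abs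
    apply Continuous.matrix_det
    apply continuous_matrix
    intro i j
    simp only [Module.Basis.toMatrix_apply, herepr]
    fun_prop
  have hne : X0.Nonempty := by
    by_contra h
    rw [Set.not_nonempty_iff_eq_empty] at h
    rw [h] at hpos
    simp at hpos
  have hcp : IsCompact (Set.pi univ fun _ : Fin d => X0) := isCompact_univ_pi fun _ => hX
  obtain ⟨x0, hx0⟩ := hne
  obtain ⟨v, hv, hmax⟩ := hcp.exists_isMaxOn ⟨fun _ => x0, fun _ _ => hx0⟩ hcont.continuousOn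
  have hvm : ∀ i, v i ∈ X0 := fun i => hv i trivial
  -- span is everything
  have hspan : Submodule.span ℝ X0 = ⊤ := by
    by_contra h
    have := Measure.addHaar_submodule volume (Submodule.span ℝ X0) h
    have h2 : volume X0 ≤ 0 := by
      rw [← this]
      exact measure_mono Submodule.subset_span
    exact absurd hpos (not_lt.2 h2)
  have hdet : e.det v ≠ 0 := by
    obtain ⟨b, hb, hbspan, hli⟩ := exists_linearIndependent ℝ X0
    have hb2 : ⊤ ≤ Submodule.span ℝ (range ((↑) : b → X d)) := by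
      rw [Subtype.range_coe_subtype, Set.ofPred_mem_eq, hbspan, hspan]
    let w := Module.Basis.mk hli hb2
    have hfinb : Fintype b := FiniteDimensional.fintypeBasisIndex w
    have hcard : Fintype.card b = Fintype.card (Fin d) := by
      rw [← Module.finrank_eq_card_basis w]
      simp
    let eq := Fintype.equivOfCardEq hcard
    let w' := w.reindex eq
    have hw' : ∀ i, w' i ∈ X0 := by
      intro i
      simp only [w', w, Module.Basis.coe_reindex, Function.comp, Module.Basis.mk_apply]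
      exact hb (eq.symm i).2
    have h1 : IsUnit (e.det w') := e.isUnit_det w'
    have h2 := hmax (show (fun i => w' i) ∈ Set.pi univ fun _ : Fin d => X0 from fun i _ => hw' i)
    simp only [mem_ofPred_eq] at h2
    intro h0
    rw [h0, abs_zero] at h2
    exact h1.ne_zero (abs_nonpos_iff.1 h2)
  have hbas := (e.is_basis_iff_det (v := v)).2 (isUnit_iff_ne_zero.2 hdet)
  let bv := Module.Basis.mk hbas.1 hbas.2.ge
  have hcr : ∀ x ∈ X0, ∀ i, |bv.repr x i| ≤ 1 := by
    intro x hx i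
    have h1 := e.det_smul_mk_coord_eq_det_update hbas.1 hbas.2.ge i
    have h2 := LinearMap.congr_fun h1 x
    simp only [LinearMap.smul_apply, Module.Basis.coord_apply, smul_eq_mul] at h2
    have h3 : e.det v * bv.repr x i = e.det (Function.update v i x) := h2
    have h4 := hmax (show Function.update v i x ∈ Set.pi univ fun _ : Fin d => X0 from by
      intro j _
      by_cases hj : j = i
      · subst hj; simpa using hx
      · rw [Function.update_of_ne hj]; exact hvm j)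
    simp only [mem_ofPred_eq] at h4
    rw [← h3, abs_mul] at h4
    have h5 : 0 < |e.det v| := abs_pos.2 hdet
    by_contra hcon
    push Not at hcon
    nlinarith
  refine ⟨e.equiv bv (Equiv.refl _), ?_, ?_⟩
  · intro i
    rw [← hesingle, Module.Basis.equiv_apply]
    simpa [bv] using hvm i
  · intro ξ hξ i
    have := hcr _ hξ i
    have h2 : bv.repr ((e.equiv bv (Equiv.refl _)) ξ) i = ξ i := by
      rw [← herepr ξ i]
      simp [Module.Basis.equiv]
    rwa [h2] at this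

end Lat

/-- geometry of numbers lemma: approximate groups of polynomial growth in `ℝ^d` -/
theorem lattice (d : ℕ) (hd : 0 < d) (C c : ℝ) (hc : 0 < c) : ∃ C₂ κ : ℝ, 0 < C₂ ∧ 0 < κ ∧
    ∀ (ρ : X d → ℝ) (a t₀ : ℝ), (∀ ξ, 0 ≤ ρ ξ) → ρ 0 = 0 → (∀ ξ, ρ (-ξ) = ρ ξ) →
    (∀ ξ η, ρ (ξ + η) ≤ ρ ξ + ρ η) → Continuous ρ → 0 < a → a ≤ κ * t₀ →
    IsCompact {ξ | ρ ξ ≤ a} →
    (∀ t, 0 < t → t ≤ t₀ → volume {ξ | ρ ξ ≤ t} ≤ ENNReal.ofReal (C * t ^ d)) →
    ENNReal.ofReal (c * a ^ d) ≤ volume {ξ | ρ ξ ≤ a} →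
    ∃ L : X d ≃ₗ[ℝ] X d, |LinearMap.det (L : X d →ₗ[ℝ] X d)| = 1 ∧
      (∀ ξ, ρ (L ξ) ≤ a → ‖ξ‖ ≤ C₂ * a) ∧ (∀ ξ, ‖ξ‖ ≤ a → ρ (L ξ) ≤ C₂ * a) := by
  obtain ⟨K, hK1, hK⟩ := lattice_std d (C / c)
  set C' : ℝ := max 1 (K * C) with hC'
  set c' : ℝ := min 1 c / 2 with hc'
  have hc'0 : 0 < c' := by rw [hc']; positivity
  set n : ℕ := ⌈1 / c'⌉₊ with hn
  have hn1 : 1 / c' ≤ n := Nat.le_ceil _
  have hn0 : 0 < (n : ℝ) := lt_of_lt_of_le (by positivity) hn1
  refine ⟨√(d : ℝ) * C' + n * K + 1, 1 / K, by positivity, by positivity, ?_⟩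
  intro ρ a t₀ hnn h0 hs hadd hcont ha hat hcpt hvol hlow
  have hKt : K * a ≤ t₀ := by
    have := mul_le_mul_of_nonneg_left hat (by linarith : (0:ℝ) ≤ K)
    rwa [← mul_assoc, mul_one_div_cancel (by linarith), one_mul] at this
  have hat0 : a ≤ t₀ := by nlinarith
  have hpos : 0 < volume {ξ | ρ ξ ≤ a} :=
    lt_of_lt_of_le (ENNReal.ofReal_pos.2 (by positivity)) hlow
  have hfin : volume {ξ | ρ ξ ≤ a} ≠ ∞ := hcpt.measure_lt_top.ne
  have hC : 0 < C := by
    have h1 := hlow.trans (hvol a ha hat0)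
    by_contra hcon
    push Not at hcon
    have h2 : C * a ^ d ≤ 0 := mul_nonpos_of_nonpos_of_nonneg hcon (by positivity)
    rw [ENNReal.ofReal_of_nonpos h2] at h1
    have := ENNReal.ofReal_eq_zero.1 (le_antisymm h1 zero_le)
    have : 0 < c * a ^ d := by positivity
    linarith
  obtain ⟨T, hT1, hT2⟩ := exists_max _ hcpt hpos
  set D' : ℝ := |LinearMap.det (T : X d →ₗ[ℝ] X d)| with hD'
  have hD'0 : 0 < D' := by
    rw [hD', abs_pos]
    exact (LinearEquiv.isUnit_det' T).ne_zero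
  have hvolT : ∀ S : Set (X d), volume (T ⁻¹' S) = ENNReal.ofReal D'⁻¹ * volume S := by
    intro S
    have h1 : volume (T ⁻¹' S) = ENNReal.ofReal |LinearMap.det (T.symm : X d →ₗ[ℝ] X d)| * volume S :=
      Measure.addHaar_preimage_linearEquiv volume T S
    rw [h1]
    congr 2
    rw [LinearEquiv.det_coe_symm, abs_inv]
  set D : ℝ := C * a ^ d / D' with hD
  have hD0 : 0 < D := by rw [hD]; positivity
  obtain ⟨hr1, hr2⟩ := hK (fun ξ => ρ (T ξ)) a D t₀ (fun ξ => hnn _) (by simpa using h0)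
    (fun ξ => by simp only [map_neg, hs]) (fun ξ η => by simp only [map_add]; exact hadd _ _)
    (hcont.comp (LinearMap.continuous_of_finiteDimensional (T : X d →ₗ[ℝ] X d))) ha hD0 hKt
    (fun ξ hξ => hT2 ξ hξ) (fun i => hT1 i) (by
      intro t hta htt
      have ht : 0 < t := lt_of_lt_of_le ha hta
      have h1 := hvolT {ξ | ρ ξ ≤ t}
      have h2 : {ξ : X d | ρ (T ξ) ≤ t} = T ⁻¹' {ξ | ρ ξ ≤ t} := rfl
      rw [h2, h1]
      refine (mul_le_mul_right (hvol t ht htt) _).trans ?_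
      rw [← ENNReal.ofReal_mul (by positivity)]
      apply ENNReal.ofReal_le_ofReal
      rw [hD, div_pow]
      apply le_of_eq
      field_simp) (by
      have h1 := hvolT {ξ | ρ ξ ≤ a}
      have h2 : {ξ : X d | ρ (T ξ) ≤ a} = T ⁻¹' {ξ | ρ ξ ≤ a} := rfl
      rw [h2, h1]
      calc ENNReal.ofReal D = ENNReal.ofReal (C / c) * (ENNReal.ofReal D'⁻¹ * ENNReal.ofReal (c * a ^ d)) := by
            rw [← ENNReal.ofReal_mul (by positivity), ← ENNReal.ofReal_mul (by positivity)]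
            congr 1
            rw [hD]
            field_simp
        _ ≤ _ := by gcongr)
  -- the scaling
  set l : ℝ := D' ^ ((d : ℝ)⁻¹) with hl
  have hl0 : 0 < l := Real.rpow_pos_of_pos hD'0 _
  have hld : l ^ d = D' := Real.rpow_inv_natCast_pow hD'0.le hd.ne'
  have hD'up : D' ≤ K * C * a ^ d := by
    rw [hD] at hr1
    have : K * (C * a ^ d / D') = (K * C * a ^ d) / D' := by ring
    rw [this, one_le_div hD'0] at hr1
    exact hr1
  have hlup : l ≤ C' * a := by
    rw [← pow_le_pow_iff_left₀ hl0.le (by positivity) hd.ne', hld, mul_pow]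
    have h1 : K * C ≤ C' ^ d := (le_max_right 1 (K * C)).trans (le_self_pow₀ (le_max_left _ _) hd.ne')
    calc D' ≤ K * C * a ^ d := hD'up
      _ ≤ C' ^ d * a ^ d := by gcongr
  have hD'low : c * a ^ d ≤ 2 ^ d * D' := by
    have h1 : volume (T ⁻¹' {ξ | ρ ξ ≤ a}) ≤ 2 ^ d := by
      rw [← vol_cube]
      exact measure_mono (fun ξ hξ => hT2 ξ hξ)
    rw [hvolT] at h1
    have h2 : ENNReal.ofReal D'⁻¹ * ENNReal.ofReal (c * a ^ d) ≤ 2 ^ d :=
      (mul_le_mul_right hlow _).trans h1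
    rw [← ENNReal.ofReal_mul (by positivity)] at h2
    have h3 : (2 : ℝ≥0∞) ^ d = ENNReal.ofReal (2 ^ d) := by
      rw [ENNReal.ofReal_pow (by norm_num)]
      simp
    rw [h3, ENNReal.ofReal_le_ofReal_iff (by positivity)] at h2
    rw [inv_mul_le_iff₀ hD'0] at h2
    linarith
  have hllow : c' * a ≤ l := by
    rw [← pow_le_pow_iff_left₀ (by positivity) hl0.le hd.ne', hld]
    have h1 : (min 1 c) ^ d ≤ c := by
      calc (min 1 c) ^ d ≤ min 1 c := pow_le_of_le_one (by positivity) (min_le_left _ _) hd.ne'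
        _ ≤ c := min_le_right _ _
    have h2 : (c' * a) ^ d = (min 1 c) ^ d * a ^ d / 2 ^ d := by
      rw [hc', mul_pow, div_pow]
      ring
    rw [h2, div_le_iff₀ (by positivity)]
    calc (min 1 c) ^ d * a ^ d ≤ c * a ^ d := by gcongr
      _ ≤ 2 ^ d * D' := hD'low
      _ = D' * 2 ^ d := by ring
  have hlne : l⁻¹ ≠ 0 := inv_ne_zero hl0.ne'
  let L : X d ≃ₗ[ℝ] X d := (LinearEquiv.smulOfNeZero ℝ (X d) l⁻¹ hlne).trans T
  have hL : ∀ ξ, L ξ = T (l⁻¹ • ξ) := fun ξ => rfl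
  refine ⟨L, ?_, ?_, ?_⟩
  · have h1 : (L : X d →ₗ[ℝ] X d) = l⁻¹ • (T : X d →ₗ[ℝ] X d) := by
      ext1 ξ
      simp [hL]
    rw [h1, LinearMap.det_smul, abs_mul, ← hD', finrank_euclideanSpace, Fintype.card_fin, abs_pow,
      abs_inv, abs_of_pos hl0, inv_pow, hld]
    field_simp
  · intro ξ hξ
    rw [hL] at hξ
    have h1 := hT2 _ hξ
    have h2 : ∀ i, |ξ i| ≤ l := by
      intro i
      have := h1 i
      rw [PiLp.smul_apply, smul_eq_mul, abs_mul, abs_inv, abs_of_pos hl0, inv_mul_le_iff₀ hl0,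
        mul_one] at this
      exact this
    calc ‖ξ‖ ≤ √(d : ℝ) * l := norm_le_of_coord ξ l hl0.le h2
      _ ≤ √(d : ℝ) * (C' * a) := by gcongr
      _ ≤ (√(d : ℝ) * C' + n * K + 1) * a := by
          have : 0 ≤ (n * K + 1) * a := by positivity
          nlinarith
  · intro ξ hξ
    rw [hL]
    have h1 : l⁻¹ • ξ = (n : ℝ) • ((n : ℝ)⁻¹ • (l⁻¹ • ξ)) := by
      rw [smul_smul (n : ℝ), mul_inv_cancel₀ hn0.ne', one_smul]
    have h2 : ∀ i, |((n : ℝ)⁻¹ • (l⁻¹ • ξ)) i| ≤ 1 := by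
      intro i
      refine (coord_le_norm _ i).trans ?_
      rw [norm_smul, norm_smul, Real.norm_eq_abs, Real.norm_eq_abs, abs_inv, abs_inv,
        abs_of_pos hn0, abs_of_pos hl0]
      rw [inv_mul_le_iff₀ hn0, mul_one]
      calc l⁻¹ * ‖ξ‖ ≤ l⁻¹ * a := by gcongr
        _ ≤ (c' * a)⁻¹ * a := by gcongr
        _ = 1 / c' := by field_simp
        _ ≤ n := hn1
    have h3 := hr2 _ h2
    rw [h1, map_smul]
    calc ρ ((n : ℝ) • T ((n : ℝ)⁻¹ • (l⁻¹ • ξ))) ≤ n * ρ (T ((n : ℝ)⁻¹ • (l⁻¹ • ξ))) :=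
          rho_nat h0 hadd n _
      _ ≤ n * (K * a) := by gcongr
      _ ≤ (√(d : ℝ) * C' + n * K + 1) * a := by
          have : 0 ≤ (√(d : ℝ) * C' + 1) * a := by positivity
          nlinarith

end Pool.Agent.H82.Max
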