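import Pool.Agent.H82.Max.Ball

open MeasureTheory Set Filter Topology
open scoped ENNReal Real InnerProductSpace symmDiff

namespace Pool.Agent.H82.Max

variable {d : ℕ}

/-! ### linear algebra -/

lemma lin_diag (v : OrthonormalBasis (Fin d) ℝ (X d)) (a : Fin d → ℝ) (ha : ∀ i, a i ≠ 0) :
    ∃ A : X d ≃ₗ[ℝ] X d, LinearMap.det (A : X d →ₗ[ℝ] X d) = ∏ i, a i ∧
      (∀ x i, ⟪v i, A x⟫_ℝ = a i * ⟪v i, x⟫_ℝ) := by
  let D : (Fin d → ℝ) ≃ₗ[ℝ] (Fin d → ℝ) :=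
    LinearEquiv.piCongrRight (fun i => LinearEquiv.smulOfNeZero ℝ ℝ (a i) (ha i))
  let A : X d ≃ₗ[ℝ] X d := (v.toBasis.equivFun ≪≫ₗ D) ≪≫ₗ v.toBasis.equivFun.symm
  have hA : ∀ x i, ⟪v i, A x⟫_ℝ = a i * ⟪v i, x⟫_ℝ := by
    intro x i
    have h1 : v.toBasis.equivFun (A x) = D (v.toBasis.equivFun x) := by
      simp [A]
    have h2 := congrFun h1 i
    have h3 : ∀ y : X d, v.toBasis.equivFun y i = ⟪v i, y⟫_ℝ := by
      intro y
      rw [Module.Basis.equivFun_apply, OrthonormalBasis.coe_toBasis_repr_apply,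
        OrthonormalBasis.repr_apply_apply]
    rw [h3] at h2
    rw [h2]
    show (D (v.toBasis.equivFun x)) i = _
    simp only [D, LinearEquiv.piCongrRight_apply, LinearEquiv.smulOfNeZero_apply, smul_eq_mul]
    rw [h3]
  refine ⟨A, ?_, hA⟩
  rw [← LinearMap.det_toMatrix v.toBasis]
  have : LinearMap.toMatrix v.toBasis v.toBasis (A : X d →ₗ[ℝ] X d) = Matrix.diagonal a := by
    ext i j
    rw [LinearMap.toMatrix_apply, OrthonormalBasis.coe_toBasis_repr_apply,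
      OrthonormalBasis.repr_apply_apply, LinearEquiv.coe_coe, hA, OrthonormalBasis.coe_toBasis,
      orthonormal_iff_ite.1 v.orthonormal]
    by_cases hij : i = j
    · subst hij; simp
    · simp [hij]
  rw [this, Matrix.det_diagonal]

/-! ### measure theory -/

lemma lin_vol_lt_top {N : Set (X d)} {R : ℝ} (hR : N ⊆ Metric.closedBall 0 R) : volume N < ⊤ :=
  (measure_mono hR).trans_lt measure_closedBall_lt_top

lemma lin_int {E : Type*} [NormedAddCommGroup E] {N : Set (X d)} {R : ℝ}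
    (hR : N ⊆ Metric.closedBall 0 R) {f : X d → E} (hf : Continuous f) :
    IntegrableOn f N :=
  (hf.continuousOn.integrableOn_compact (isCompact_closedBall 0 R)).mono_set hR

/-- covariance operator -/
lemma lin_cov {N : Set (X d)} {R : ℝ} (hR : N ⊆ Metric.closedBall 0 R) (m : X d) :
    ∃ S : X d →ₗ[ℝ] X d, ∀ u w, ⟪S u, w⟫_ℝ = ∫ x in N, ⟪x - m, u⟫_ℝ * ⟪x - m, w⟫_ℝ := by
  have hi : ∀ u : X d, IntegrableOn (fun x : X d => ⟪x - m, u⟫_ℝ • (x - m)) N := fun u =>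
    lin_int hR (by fun_prop)
  refine ⟨{ toFun := fun u => ∫ x in N, ⟪x - m, u⟫_ℝ • (x - m)
            map_add' := ?_
            map_smul' := ?_ }, ?_⟩
  · intro u w
    rw [← integral_add (hi u) (hi w)]
    congr 1
    ext1 x
    rw [inner_add_right, add_smul]
  · intro c u
    rw [← integral_smul]
    congr 1
    ext1 x
    rw [inner_smul_right, mul_smul]
    rfl
  · intro u w
    show ⟪∫ x in N, ⟪x - m, u⟫_ℝ • (x - m), w⟫_ℝ = _
    rw [real_inner_comm, ← integral_inner (hi u)]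
    congr 1
    ext1 x
    rw [inner_smul_right, real_inner_comm w (x - m)]

lemma lin_mp (A : X d ≃ₗ[ℝ] X d) (hA : |LinearMap.det (A : X d →ₗ[ℝ] X d)| = 1) (b : X d) :
    MeasurePreserving (fun x => A x + b) (volume : Measure (X d)) volume := by
  have hne : LinearMap.det (A : X d →ₗ[ℝ] X d) ≠ 0 := by
    intro h
    rw [h] at hA
    simp at hA
  have h1 : MeasurePreserving (fun x => A x) (volume : Measure (X d)) volume := by
    refine ⟨(A.toContinuousLinearEquiv.continuous).measurable, ?_⟩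
    have := Measure.map_linearMap_addHaar_eq_smul_addHaar (volume : Measure (X d)) hne
    rw [abs_inv, hA] at this
    simpa using this
  exact (measurePreserving_add_right volume b).comp h1

lemma lin_image {N : Set (X d)} (A : X d ≃ₗ[ℝ] X d)
    (hA : |LinearMap.det (A : X d →ₗ[ℝ] X d)| = 1) (b : X d) (f : X d → ℝ) :
    ∫ x in (fun x => A x + b) '' N, f x = ∫ x in N, f (A x + b) := by
  refine (lin_mp A hA b).setIntegral_image_emb ?_ f N
  exact ((A.toContinuousLinearEquiv.toHomeomorph).trans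
    (Homeomorph.addRight b)).measurableEmbedding

lemma lin_pos {N : Set (X d)} {R : ℝ} (hR : N ⊆ Metric.closedBall 0 R) (hpos : 0 < volume N)
    (m : X d) {u : X d} (hu : u ≠ 0) : 0 < ∫ x in N, ⟪x - m, u⟫_ℝ * ⟪x - m, u⟫_ℝ := by
  have h0 : 0 ≤ ∫ x in N, ⟪x - m, u⟫_ℝ * ⟪x - m, u⟫_ℝ :=
    integral_nonneg fun x => mul_self_nonneg _
  refine lt_of_le_of_ne h0 fun h => ?_
  have h1 := (integral_eq_zero_iff_of_nonneg (μ := volume.restrict N)
    (f := fun x : X d => ⟪x - m, u⟫_ℝ * ⟪x - m, u⟫_ℝ)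
    (fun x => mul_self_nonneg _) (lin_int hR (by fun_prop))).1 h.symm
  have hH : volume {x : X d | ⟪x - m, u⟫_ℝ = 0} = 0 := by
    have h2 : {x : X d | ⟪x - m, u⟫_ℝ = 0} =
        (fun x => x + -m) ⁻¹' ((ℝ ∙ u)ᗮ : Submodule ℝ (X d)) := by
      ext x
      simp only [mem_ofPred_eq, mem_preimage, SetLike.mem_coe,
        Submodule.mem_orthogonal_singleton_iff_inner_left, sub_eq_add_neg]
    rw [h2, measure_preimage_add_right]
    refine Measure.addHaar_submodule _ _ ?_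
    intro htop
    have h3 : u ∈ ((ℝ ∙ u)ᗮ : Submodule ℝ (X d)) := by rw [htop]; trivial
    rw [Submodule.mem_orthogonal_singleton_iff_inner_left] at h3
    exact hu (inner_self_eq_zero.1 h3)
  have h4 : ∀ᵐ x ∂(volume.restrict N), x ∈ {x : X d | ⟪x - m, u⟫_ℝ = 0} := by
    filter_upwards [h1] with x hx
    exact mul_self_eq_zero.1 hx
  have h5 : (volume.restrict N) {x : X d | ⟪x - m, u⟫_ℝ = 0}ᶜ = 0 := h4
  have h6 : (volume.restrict N) {x : X d | ⟪x - m, u⟫_ℝ = 0} = 0 :=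
    le_antisymm ((Measure.restrict_apply_le _ _).trans hH.le) bot_le
  have h7 : (volume.restrict N) univ = 0 := by
    rw [← union_compl_self {x : X d | ⟪x - m, u⟫_ℝ = 0}]
    exact measure_union_null h6 h5
  rw [Measure.restrict_apply_univ] at h7
  exact hpos.ne' h7

/-- centroid -/
noncomputable def linCen (N : Set (X d)) : X d := (volume.real N)⁻¹ • ∫ x in N, x

lemma linCen_inner {N : Set (X d)} {R : ℝ} (hR : N ⊆ Metric.closedBall 0 R) (hpos : 0 < volume N)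
    (u : X d) : ∫ x in N, ⟪x - linCen N, u⟫_ℝ = 0 := by
  have hv : 0 < volume.real N := ENNReal.toReal_pos hpos.ne' (lin_vol_lt_top hR).ne
  have h1 : ∫ x in N, ⟪x - linCen N, u⟫_ℝ = ⟪u, ∫ x in N, (x - linCen N)⟫_ℝ := by
    rw [← integral_inner (lin_int hR (by fun_prop))]
    congr 1
    ext1 x
    rw [real_inner_comm]
  rw [h1, integral_sub (lin_int hR (by fun_prop)) (lin_int hR (by fun_prop)), setIntegral_const]
  unfold linCen
  rw [smul_smul, mul_inv_cancel₀ hv.ne', one_smul, sub_self, inner_zero_right]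

theorem iso_core {d : ℕ} (hd : 0 < d) {N : Set (X d)} {R : ℝ}
    (hR : N ⊆ Metric.closedBall 0 R) (hpos : 0 < volume N) :
    ∃ (A : X d ≃ₗ[ℝ] X d) (τ : ℝ), |LinearMap.det (A : X d →ₗ[ℝ] X d)| = 1 ∧ 0 < τ ∧
      (∀ u : X d, ∫ x in (fun x => A x + -(A (linCen N))) '' N, ⟪x, u⟫_ℝ = 0) ∧
      (∀ u : X d, ∫ x in (fun x => A x + -(A (linCen N))) '' N, ⟪x, u⟫_ℝ ^ 2 = τ * ‖u‖ ^ 2) ∧
      ∀ lo hi : ℝ, 0 < lo → (∀ u : X d, lo * ‖u‖ ^ 2 ≤ ∫ x in N, ⟪x - linCen N, u⟫_ℝ ^ 2 ∧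
        ∫ x in N, ⟪x - linCen N, u⟫_ℝ ^ 2 ≤ hi * ‖u‖ ^ 2) →
        ∀ x : X d, lo / hi * ‖x‖ ^ 2 ≤ ‖A x‖ ^ 2 ∧ ‖A x‖ ^ 2 ≤ hi / lo * ‖x‖ ^ 2 := by
  set m := linCen N with hm
  obtain ⟨S, hS⟩ := lin_cov hR m
  have hsym : S.IsSymmetric := by
    intro u w
    show ⟪S u, w⟫_ℝ = ⟪u, S w⟫_ℝ
    rw [real_inner_comm (S w) u, hS, hS]
    congr 1
    ext1 x
    ring
  have hn : Module.finrank ℝ (X d) = d := finrank_euclideanSpace_fin
  set v := hsym.eigenvectorBasis hn with hv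
  set l : Fin d → ℝ := hsym.eigenvalues hn with hl
  have hSv : ∀ i, S (v i) = l i • v i := fun i => hsym.apply_eigenvectorBasis hn i
  have hlint : ∀ i, l i = ∫ x in N, ⟪x - m, v i⟫_ℝ * ⟪x - m, v i⟫_ℝ := by
    intro i
    rw [← hS, hSv, inner_smul_left, real_inner_self_eq_norm_sq, v.orthonormal.1 i]
    simp
  have hlpos : ∀ i, 0 < l i := by
    intro i
    rw [hlint]
    exact lin_pos hR hpos m (v.orthonormal.ne_zero i)
  have hprod : 0 < ∏ i, l i := Finset.prod_pos fun i _ => hlpos i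
  set τ : ℝ := (∏ i, l i) ^ ((d : ℝ)⁻¹) with hτ
  have hτ0 : 0 < τ := Real.rpow_pos_of_pos hprod _
  have hτd : τ ^ d = ∏ i, l i := Real.rpow_inv_natCast_pow hprod.le hd.ne'
  set a : Fin d → ℝ := fun i => √(τ / l i) with ha
  have ha0 : ∀ i, 0 < a i := fun i => Real.sqrt_pos.2 (div_pos hτ0 (hlpos i))
  have ha2 : ∀ i, a i ^ 2 = τ / l i := fun i => Real.sq_sqrt (div_pos hτ0 (hlpos i)).le
  obtain ⟨A, hdet, hA⟩ := lin_diag v a fun i => (ha0 i).ne'
  have hdet1 : LinearMap.det (A : X d →ₗ[ℝ] X d) = 1 := by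
    rw [hdet]
    have h1 : (∏ i, a i) ^ 2 = 1 := by
      rw [← Finset.prod_pow, Finset.prod_congr rfl fun i _ => ha2 i, Finset.prod_div_distrib,
        Finset.prod_const, Finset.card_univ, Fintype.card_fin, hτd, div_self hprod.ne']
    have h2 : 0 < ∏ i, a i := Finset.prod_pos fun i _ => ha0 i
    nlinarith
  have hdet2 : |LinearMap.det (A : X d →ₗ[ℝ] X d)| = 1 := by rw [hdet1, abs_one]
  -- inner products in the eigenbasis
  have hexp : ∀ x y : X d, ⟪x, y⟫_ℝ = ∑ i, ⟪v i, x⟫_ℝ * ⟪v i, y⟫_ℝ := by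
    intro x y
    rw [← v.sum_inner_mul_inner x y]
    refine Finset.sum_congr rfl fun i _ => ?_
    rw [real_inner_comm x (v i)]
  have hAsym : ∀ x y : X d, ⟪A x, y⟫_ℝ = ⟪x, A y⟫_ℝ := by
    intro x y
    rw [hexp, hexp x]
    refine Finset.sum_congr rfl fun i _ => ?_
    rw [hA, hA]
    ring
  have hSinner : ∀ w : X d, ⟪S w, w⟫_ℝ = ∑ i, l i * ⟪v i, w⟫_ℝ ^ 2 := by
    intro w
    rw [hexp]
    refine Finset.sum_congr rfl fun i _ => ?_
    have : ⟪v i, S w⟫_ℝ = l i * ⟪v i, w⟫_ℝ := by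
      have h1 := hsym (v i) w
      change ⟪S (v i), w⟫_ℝ = ⟪v i, S w⟫_ℝ at h1
      rw [← h1, hSv, inner_smul_left]
      simp
    rw [this]
    ring
  have hnorm : ∀ w : X d, ‖w‖ ^ 2 = ∑ i, ⟪v i, w⟫_ℝ ^ 2 := by
    intro w
    rw [← real_inner_self_eq_norm_sq, hexp]
    refine Finset.sum_congr rfl fun i _ => ?_
    ring
  refine ⟨A, τ, hdet2, hτ0, ?_, ?_, ?_⟩
  · intro u
    rw [lin_image A hdet2 (-(A m)) (fun x => ⟪x, u⟫_ℝ)]
    have h1 := linCen_inner hR hpos (A u)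
    rw [← h1]
    congr 1
    ext1 x
    rw [← hAsym, map_sub, sub_eq_add_neg, hm]
  · intro u
    rw [lin_image A hdet2 (-(A m)) (fun x => ⟪x, u⟫_ℝ ^ 2)]
    have h1 : ∫ x in N, ⟪A x + -(A m), u⟫_ℝ ^ 2 =
        ∫ x in N, ⟪x - m, A u⟫_ℝ * ⟪x - m, A u⟫_ℝ := by
      congr 1
      ext1 x
      rw [← hAsym, map_sub, sub_eq_add_neg]
      ring
    rw [h1, ← hS, hSinner, hnorm u, Finset.mul_sum]
    refine Finset.sum_congr rfl fun i _ => ?_
    rw [hA, mul_pow, ha2]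
    have := (hlpos i).ne'
    field_simp
  · intro lo hi hlo hb x
    have hl1 : ∀ i, lo ≤ l i ∧ l i ≤ hi := by
      intro i
      have h1 := hb (v i)
      rw [v.orthonormal.1 i] at h1
      have h2 : ∫ x in N, ⟪x - m, v i⟫_ℝ ^ 2 = l i := by
        rw [hlint]
        congr 1
        ext1 x
        ring
      rw [h2] at h1
      simpa using h1
    have hne : Nonempty (Fin d) := ⟨⟨0, hd⟩⟩
    have hhi : 0 < hi := lt_of_lt_of_le hlo ((hl1 hne.some).1.trans (hl1 hne.some).2)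
    have hτlo : lo ≤ τ := by
      have h1 : lo ^ d ≤ τ ^ d := by
        rw [hτd]
        calc lo ^ d = ∏ _i : Fin d, lo := by simp
          _ ≤ ∏ i, l i := Finset.prod_le_prod (fun _ _ => hlo.le) fun i _ => (hl1 i).1
      exact (pow_le_pow_iff_left₀ hlo.le hτ0.le hd.ne').1 h1
    have hτhi : τ ≤ hi := by
      have h1 : τ ^ d ≤ hi ^ d := by
        rw [hτd]
        calc ∏ i, l i ≤ ∏ _i : Fin d, hi :=
              Finset.prod_le_prod (fun i _ => (hlpos i).le) fun i _ => (hl1 i).2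
          _ = hi ^ d := by simp
      exact (pow_le_pow_iff_left₀ hτ0.le hhi.le hd.ne').1 h1
    have h3 : ‖A x‖ ^ 2 = ∑ i, (τ / l i) * ⟪v i, x⟫_ℝ ^ 2 := by
      rw [hnorm]
      refine Finset.sum_congr rfl fun i _ => ?_
      rw [hA, mul_pow, ha2]
    rw [h3, hnorm x, Finset.mul_sum, Finset.mul_sum]
    constructor
    · refine Finset.sum_le_sum fun i _ => mul_le_mul_of_nonneg_right ?_ (sq_nonneg _)
      exact div_le_div₀ hτ0.le hτlo (hlpos i) (hl1 i).2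
    · refine Finset.sum_le_sum fun i _ => mul_le_mul_of_nonneg_right ?_ (sq_nonneg _)
      exact div_le_div₀ hhi.le hτhi hlo (hl1 i).1

/-- isotropic normalisation of a bounded set of positive measure -/
theorem isotropic (d : ℕ) (hd : 0 < d) (N : Set (X d)) (_hN : MeasurableSet N) {R : ℝ}
    (hR : N ⊆ Metric.closedBall 0 R) (hpos : 0 < volume N) :
    ∃ (A : X d ≃ₗ[ℝ] X d) (b : X d) (τ : ℝ), |LinearMap.det (A : X d →ₗ[ℝ] X d)| = 1 ∧ 0 < τ ∧
      (∀ u : X d, ∫ x in (fun x => A x + b) '' N, ⟪x, u⟫_ℝ = 0) ∧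
      (∀ u : X d, ∫ x in (fun x => A x + b) '' N, ⟪x, u⟫_ℝ ^ 2 = τ * ‖u‖ ^ 2) := by
  obtain ⟨A, τ, h1, h2, h3, h4, -⟩ := iso_core hd hR hpos
  exact ⟨A, _, τ, h1, h2, h3, h4⟩

lemma lin_diff {N B : Set (X d)} {R M : ℝ} (hN : MeasurableSet N) (hB : MeasurableSet B)
    (hNR : N ⊆ Metric.closedBall 0 R) (hBR : B ⊆ Metric.closedBall 0 R) {f : X d → ℝ}
    (hf : Continuous f) (hM : ∀ x ∈ Metric.closedBall (0 : X d) R, |f x| ≤ M) :
    |(∫ x in N, f x) - ∫ x in B, f x| ≤ M * volume.real (N ∆ B) := by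
  have hNf := (lin_vol_lt_top hNR).ne
  have hBf := (lin_vol_lt_top hBR).ne
  have h1 := integral_inter_add_sdiff hB (lin_int hNR hf)
  have h2 := integral_inter_add_sdiff hN (lin_int hBR hf)
  have h3 : |∫ x in N \ B, f x| ≤ M * volume.real (N \ B) := by
    rw [← Real.norm_eq_abs]
    refine norm_setIntegral_le_of_norm_le_const ((measure_mono sdiff_subset).trans_lt hNf.lt_top)
      fun x hx => ?_
    exact hM x (hNR hx.1)
  have h4 : |∫ x in B \ N, f x| ≤ M * volume.real (B \ N) := by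
    rw [← Real.norm_eq_abs]
    refine norm_setIntegral_le_of_norm_le_const ((measure_mono sdiff_subset).trans_lt hBf.lt_top)
      fun x hx => ?_
    exact hM x (hBR hx.1)
  have h5 : volume.real (N ∆ B) = volume.real (N \ B) + volume.real (B \ N) :=
    measureReal_symmDiff_eq hN hB hNf hBf
  rw [h5, mul_add, ← h1, ← h2, inter_comm B N]
  rw [abs_le] at *
  constructor <;> linarith [h3.1, h3.2, h4.1, h4.2]

lemma lin_poly_up {y : ℝ} (hy0 : 0 ≤ y) (hy1 : 4 * y ≤ 1) :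
    (1 + y) ≤ (1 + 4 * y) ^ 2 * (1 - y) := by
  have h1 : (1 + 4 * y) ^ 2 * (1 - y) - (1 + y) = y * (6 + 8 * y - 16 * y ^ 2) := by ring
  have h2 : 0 ≤ 6 + 8 * y - 16 * y ^ 2 := by nlinarith
  nlinarith [mul_nonneg hy0 h2]

lemma lin_poly_dn {y : ℝ} (hy0 : 0 ≤ y) (hy1 : 4 * y ≤ 1) :
    (1 - 4 * y) ^ 2 * (1 + y) ≤ 1 - y := by
  have h1 : (1 - y) - (1 - 4 * y) ^ 2 * (1 + y) = y * (6 - 8 * y - 16 * y ^ 2) := by ring
  have h2 : 0 ≤ 6 - 8 * y - 16 * y ^ 2 := by nlinarith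
  nlinarith [mul_nonneg hy0 h2]

/-- quantitative version near the ball -/
theorem isotropic_close (d : ℕ) (hd : 0 < d) : ∃ C η₀ : ℝ, 0 < C ∧ 0 < η₀ ∧
    ∀ (N : Set (X d)) (η : ℝ), MeasurableSet N → N ⊆ Metric.closedBall 0 (2 * rd d) →
    volume.real (N ∆ Bl d) ≤ η → η ≤ η₀ →
    ∃ (A : X d ≃ₗ[ℝ] X d) (b : X d) (τ : ℝ), |LinearMap.det (A : X d →ₗ[ℝ] X d)| = 1 ∧
      (∀ u : X d, ∫ x in (fun x => A x + b) '' N, ⟪x, u⟫_ℝ = 0) ∧
      (∀ u : X d, ∫ x in (fun x => A x + b) '' N, ⟪x, u⟫_ℝ ^ 2 = τ * ‖u‖ ^ 2) ∧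
      ‖b‖ ≤ C * η ∧ ∀ x : X d, (1 - C * η) * ‖x‖ ≤ ‖A x‖ ∧ ‖A x‖ ≤ (1 + C * η) * ‖x‖ := by
  have hr := rd_pos d
  have hσ := sg_pos hd
  set r := rd d with hrdef
  set σ := sg d with hσdef
  have hC1 : 0 < 52 * r ^ 2 := by positivity
  set C₁ : ℝ := 52 * r ^ 2 with hC₁
  have hC2 : 0 < 4 * C₁ / σ := by positivity
  refine ⟨4 * C₁ / σ + 8 * r, min (1 / 2) (σ / (4 * C₁)), by positivity, by positivity, ?_⟩
  intro N η hN hNR hηv hηη
  have hη0 : 0 ≤ η := measureReal_nonneg.trans hηv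
  have hη2 : η ≤ 1 / 2 := hηη.trans (min_le_left _ _)
  have hη3 : η ≤ σ / (4 * C₁) := hηη.trans (min_le_right _ _)
  have hη4 : 4 * C₁ * η ≤ σ := by
    rw [le_div_iff₀ (by positivity)] at hη3
    linarith
  have hBR : Bl d ⊆ Metric.closedBall 0 (2 * r) := by
    unfold Bl
    exact Metric.closedBall_subset_closedBall (by rw [← hrdef]; linarith)
  have hBm : MeasurableSet (Bl d) := (unitVol_Bl hd).meas
  have hBv : volume.real (Bl d) = 1 := by
    rw [measureReal_def, (unitVol_Bl hd).vol]; simp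
  -- volume
  have hvol : |volume.real N - 1| ≤ η := by
    have h := lin_diff (M := 1) hN hBm hNR hBR (f := fun _ => (1 : ℝ)) continuous_const (by simp)
    simp only [setIntegral_const, smul_eq_mul, mul_one, one_mul, hBv] at h
    exact h.trans hηv
  have hinner : ∀ u x : X d, x ∈ Metric.closedBall (0 : X d) (2 * r) → |⟪x, u⟫_ℝ| ≤ 2 * r * ‖u‖ := by
    intro u x hx
    refine (abs_real_inner_le_norm x u).trans ?_
    exact mul_le_mul_of_nonneg_right (by simpa using hx) (norm_nonneg u)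
  have hfirst : ∀ u : X d, |∫ x in N, ⟪x, u⟫_ℝ| ≤ 2 * r * ‖u‖ * η := by
    intro u
    have h := lin_diff (M := 2 * r * ‖u‖) hN hBm hNR hBR (f := fun x => ⟪x, u⟫_ℝ)
      (by fun_prop) (hinner u)
    rw [ball_cen, sub_zero] at h
    exact h.trans (mul_le_mul_of_nonneg_left hηv (by positivity))
  have hsecond : ∀ u : X d, |(∫ x in N, ⟪x, u⟫_ℝ ^ 2) - σ * ‖u‖ ^ 2| ≤
      (2 * r * ‖u‖) ^ 2 * η := by
    intro u
    have h := lin_diff (M := (2 * r * ‖u‖) ^ 2) hN hBm hNR hBR (f := fun x => ⟪x, u⟫_ℝ ^ 2)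
      (by fun_prop) (by
        intro x hx
        rw [abs_pow]
        exact pow_le_pow_left₀ (abs_nonneg _) (hinner u x hx) 2)
    rw [ball_iso hd] at h
    exact h.trans (mul_le_mul_of_nonneg_left hηv (by positivity))
  have hv1 : 1 / 2 ≤ volume.real N := by
    rw [abs_le] at hvol
    linarith [hvol.1]
  have hv2 : volume.real N ≤ 3 / 2 := by
    rw [abs_le] at hvol
    linarith [hvol.2]
  have hpos : 0 < volume N := by
    by_contra h
    have : volume N = 0 := by simpa using h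
    rw [measureReal_def, this] at hv1
    norm_num at hv1
  -- the centroid
  set m := linCen N with hm
  have hI1 : ‖∫ x in N, x‖ ≤ 2 * r * η := by
    set w := ∫ x in N, x with hw
    have h1 : ‖w‖ ^ 2 = ∫ x in N, ⟪x, w⟫_ℝ := by
      have h := integral_inner (𝕜 := ℝ) (μ := volume.restrict N) (f := fun x : X d => x)
        (lin_int hNR continuous_id) w
      rw [← hw, real_inner_self_eq_norm_sq] at h
      rw [← h]
      congr 1
      ext1 x
      rw [real_inner_comm]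
    have h2 := (le_abs_self _).trans (hfirst w)
    rw [← h1] at h2
    by_contra hcon
    push Not at hcon
    have h3 : 0 < ‖w‖ := lt_of_le_of_lt (by positivity) hcon
    nlinarith
  have hmn : ‖m‖ ≤ 4 * r * η := by
    rw [hm]
    unfold linCen
    rw [norm_smul, norm_inv, Real.norm_of_nonneg (by linarith : (0:ℝ) ≤ volume.real N)]
    have h1 : (volume.real N)⁻¹ ≤ 2 := by
      rw [inv_le_comm₀ (by linarith) (by norm_num)]
      linarith
    calc (volume.real N)⁻¹ * ‖∫ x in N, x‖ ≤ 2 * (2 * r * η) :=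
          mul_le_mul h1 hI1 (norm_nonneg _) (by norm_num)
      _ = 4 * r * η := by ring
  -- the centred second moments
  have hcent : ∀ u : X d, |(∫ x in N, ⟪x - m, u⟫_ℝ ^ 2) - σ * ‖u‖ ^ 2| ≤ C₁ * η * ‖u‖ ^ 2 := by
    intro u
    have h1 : ∫ x in N, ⟪x - m, u⟫_ℝ ^ 2 = (∫ x in N, ⟪x, u⟫_ℝ ^ 2) -
        2 * ⟪m, u⟫_ℝ * (∫ x in N, ⟪x, u⟫_ℝ) + volume.real N * ⟪m, u⟫_ℝ ^ 2 := by
      have e : ∀ x : X d, ⟪x - m, u⟫_ℝ ^ 2 = ⟪x, u⟫_ℝ ^ 2 - 2 * ⟪m, u⟫_ℝ * ⟪x, u⟫_ℝ +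
          ⟪m, u⟫_ℝ ^ 2 := by
        intro x
        rw [inner_sub_left]
        ring
      simp_rw [e]
      rw [integral_add (lin_int hNR (by fun_prop)) (lin_int hNR (by fun_prop)),
        integral_sub (lin_int hNR (by fun_prop)) (lin_int hNR (by fun_prop)), integral_const_mul,
        setIntegral_const, smul_eq_mul]
    have h2 : |⟪m, u⟫_ℝ| ≤ 4 * r * η * ‖u‖ :=
      (abs_real_inner_le_norm m u).trans (mul_le_mul_of_nonneg_right hmn (norm_nonneg u))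
    have h3 := hfirst u
    have h4 := hsecond u
    have h5 : |2 * ⟪m, u⟫_ℝ * (∫ x in N, ⟪x, u⟫_ℝ)| ≤ 16 * r ^ 2 * η ^ 2 * ‖u‖ ^ 2 := by
      rw [abs_mul, abs_mul, abs_two]
      calc 2 * |⟪m, u⟫_ℝ| * |∫ x in N, ⟪x, u⟫_ℝ| ≤ 2 * (4 * r * η * ‖u‖) * (2 * r * ‖u‖ * η) :=
            mul_le_mul (mul_le_mul_of_nonneg_left h2 (by norm_num)) h3 (abs_nonneg _)
              (by positivity)
        _ = 16 * r ^ 2 * η ^ 2 * ‖u‖ ^ 2 := by ring
    have h6 : |volume.real N * ⟪m, u⟫_ℝ ^ 2| ≤ 32 * r ^ 2 * η ^ 2 * ‖u‖ ^ 2 := by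
      rw [abs_mul, abs_pow, abs_of_nonneg (by linarith : (0:ℝ) ≤ volume.real N)]
      calc volume.real N * |⟪m, u⟫_ℝ| ^ 2 ≤ 2 * (4 * r * η * ‖u‖) ^ 2 :=
            mul_le_mul (by linarith) (pow_le_pow_left₀ (abs_nonneg _) h2 2) (by positivity)
              (by norm_num)
        _ = 32 * r ^ 2 * η ^ 2 * ‖u‖ ^ 2 := by ring
    have h7 : η ^ 2 ≤ η := by nlinarith
    have h8 : 16 * r ^ 2 * η ^ 2 * ‖u‖ ^ 2 ≤ 16 * r ^ 2 * η * ‖u‖ ^ 2 :=
      mul_le_mul_of_nonneg_right (mul_le_mul_of_nonneg_left h7 (by positivity)) (by positivity)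
    have h9 : 32 * r ^ 2 * η ^ 2 * ‖u‖ ^ 2 ≤ 32 * r ^ 2 * η * ‖u‖ ^ 2 :=
      mul_le_mul_of_nonneg_right (mul_le_mul_of_nonneg_left h7 (by positivity)) (by positivity)
    have h10 : C₁ * η * ‖u‖ ^ 2 = (2 * r * ‖u‖) ^ 2 * η + 16 * r ^ 2 * η * ‖u‖ ^ 2 +
        32 * r ^ 2 * η * ‖u‖ ^ 2 := by
      rw [hC₁]; ring
    rw [h1, h10]
    rw [abs_le] at h4 h5 h6 ⊢
    constructor <;> linarith [h4.1, h4.2, h5.1, h5.2, h6.1, h6.2]
  obtain ⟨A, τ, hdet, hτ, hA1, hA2, hA3⟩ := iso_core hd hNR hpos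
  have hlo : 0 < σ - C₁ * η := by nlinarith
  have hhi : 0 < σ + C₁ * η := by positivity
  have hA4 := hA3 (σ - C₁ * η) (σ + C₁ * η) hlo (by
    intro u
    have := hcent u
    rw [abs_le] at this
    constructor <;> nlinarith [this.1, this.2])
  set y : ℝ := C₁ * η / σ with hy
  have hy0 : 0 ≤ y := by positivity
  have hy1 : 4 * y ≤ 1 := by
    rw [hy, ← mul_div_assoc, div_le_one hσ]
    linarith
  have hyσ : C₁ * η = y * σ := by rw [hy]; field_simp
  have hup : (σ + C₁ * η) / (σ - C₁ * η) ≤ (1 + 4 * y) ^ 2 := by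
    rw [div_le_iff₀ hlo, hyσ]
    have h1 := mul_le_mul_of_nonneg_right (lin_poly_up hy0 hy1) hσ.le
    linarith
  have hdn : (1 - 4 * y) ^ 2 ≤ (σ - C₁ * η) / (σ + C₁ * η) := by
    rw [le_div_iff₀ hhi, hyσ]
    have h1 := mul_le_mul_of_nonneg_right (lin_poly_dn hy0 hy1) hσ.le
    linarith
  have hbd : ∀ x : X d, (1 - 4 * y) * ‖x‖ ≤ ‖A x‖ ∧ ‖A x‖ ≤ (1 + 4 * y) * ‖x‖ := by
    intro x
    have h1 := hA4 x
    have hxn := norm_nonneg x
    constructor
    · refine (pow_le_pow_iff_left₀ (mul_nonneg (by linarith) hxn) (norm_nonneg _) two_ne_zero).1 ?_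
      rw [mul_pow]
      exact (mul_le_mul_of_nonneg_right hdn (by positivity)).trans h1.1
    · refine (pow_le_pow_iff_left₀ (norm_nonneg _) (by positivity) two_ne_zero).1 ?_
      rw [mul_pow]
      exact h1.2.trans (mul_le_mul_of_nonneg_right hup (by positivity))
  have h4y : 4 * y = 4 * C₁ / σ * η := by rw [hy]; ring
  have h8r : 0 ≤ 8 * r * η := by positivity
  refine ⟨A, -(A m), τ, hdet, hA1, hA2, ?_, ?_⟩
  · rw [norm_neg]
    have h1 := (hbd m).2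
    have h2 : (1 + 4 * y) * ‖m‖ ≤ 2 * (4 * r * η) :=
      mul_le_mul (by linarith) hmn (norm_nonneg _) (by norm_num)
    have h3 : 0 ≤ 4 * C₁ / σ * η := by positivity
    nlinarith
  · intro x
    have h1 := hbd x
    have hxn := norm_nonneg x
    have e : (4 * C₁ / σ + 8 * r) * η = 4 * y + 8 * r * η := by rw [h4y]; ring
    rw [e]
    constructor
    · refine le_trans (mul_le_mul_of_nonneg_right ?_ hxn) h1.1
      linarith
    · refine h1.2.trans (mul_le_mul_of_nonneg_right ?_ hxn)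
      linarith

end Pool.Agent.H82.Max
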