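import Pool.Agent.H82.Max.Level
import Pool.Agent.H82.Max.Lattice
import Pool.Agent.H82.Max.Lin
import Pool.Agent.H82.Max.Bath
import Pool.Agent.H82.Max.Mom

open MeasureTheory Set Filter Topology
open scoped ENNReal Real InnerProductSpace symmDiff

namespace Pool.Agent.H82.Max

variable {d : ℕ}

theorem gl_det_ne (A : X d ≃ₗ[ℝ] X d) : LinearMap.det (A : X d →ₗ[ℝ] X d) ≠ 0 :=
  (LinearEquiv.isUnit_det' A).ne_zero

theorem gl_emb (A : X d ≃ₗ[ℝ] X d) (b : X d) : MeasurableEmbedding (fun x => A x + b) :=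
  (A.toContinuousLinearEquiv.toHomeomorph.trans (Homeomorph.addRight b)).measurableEmbedding

theorem gl_mp (A : X d ≃ₗ[ℝ] X d) (hA : |LinearMap.det (A : X d →ₗ[ℝ] X d)| = 1) (b : X d) :
    MeasurePreserving (fun x => A x + b) volume volume := by
  have h1 : MeasurePreserving (fun x : X d => (A : X d →ₗ[ℝ] X d) x) volume volume := by
    refine ⟨(LinearMap.continuous_of_finiteDimensional _).measurable, ?_⟩
    rw [Measure.map_linearMap_addHaar_eq_smul_addHaar _ (gl_det_ne A), abs_inv, hA]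
    simp
  exact (measurePreserving_add_right volume b).comp h1

theorem gl_int (A : X d ≃ₗ[ℝ] X d) (hA : |LinearMap.det (A : X d →ₗ[ℝ] X d)| = 1) (b : X d)
    (N : Set (X d)) (f : X d → ℝ) :
    ∫ x in (fun x => A x + b) '' N, f x = ∫ x in N, f (A x + b) :=
  (gl_mp A hA b).setIntegral_image_emb (gl_emb A b) f N

theorem gl_vol (A : X d ≃ₗ[ℝ] X d) (hA : |LinearMap.det (A : X d →ₗ[ℝ] X d)| = 1) (b : X d)
    (N : Set (X d)) : volume ((fun x => A x + b) '' N) = volume N := by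
  have h := (gl_mp A hA b).measure_preimage_emb (gl_emb A b) ((fun x => A x + b) '' N)
  rw [← h, preimage_image_eq _ (gl_emb A b).injective]

theorem gl_adj (L : X d ≃ₗ[ℝ] X d) (hL : |LinearMap.det (L : X d →ₗ[ℝ] X d)| = 1) :
    ∃ A : X d ≃ₗ[ℝ] X d, |LinearMap.det (A : X d →ₗ[ℝ] X d)| = 1 ∧
      LinearMap.adjoint (A : X d →ₗ[ℝ] X d) = (L : X d →ₗ[ℝ] X d) := by
  have h0 : LinearMap.det (LinearMap.adjoint (L : X d →ₗ[ℝ] X d)) ≠ 0 := by
    rw [Pool.Agent.H51.Maxi.det_adjoint']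
    exact gl_det_ne L
  refine ⟨LinearMap.equivOfDetNeZero _ h0, ?_, ?_⟩
  · have : ((LinearMap.equivOfDetNeZero _ h0 : X d ≃ₗ[ℝ] X d) : X d →ₗ[ℝ] X d) =
        LinearMap.adjoint (L : X d →ₗ[ℝ] X d) := rfl
    rw [this, Pool.Agent.H51.Maxi.det_adjoint', hL]
  · have : ((LinearMap.equivOfDetNeZero _ h0 : X d ≃ₗ[ℝ] X d) : X d →ₗ[ℝ] X d) =
        LinearMap.adjoint (L : X d →ₗ[ℝ] X d) := rfl
    rw [this, LinearMap.adjoint_adjoint]

theorem gl_rho_image {E : Set (X d)} (hE : UnitVol E) (A : X d ≃ₗ[ℝ] X d)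
    (hA : |LinearMap.det (A : X d →ₗ[ℝ] X d)| = 1) (b : X d) (ξ : X d) :
    rho ((fun x => A x + b) '' E) ξ = rho E (LinearMap.adjoint (A : X d →ₗ[ℝ] X d) ξ) := by
  unfold rho
  rw [PP_image hE A hA b]

/-- the constant of the Gaussian comparison -/
theorem gl_near {d : ℕ} (hd : 0 < d) : ∃ Cb : ℝ, 0 < Cb ∧ ∀ p : ℝ, 4 ≤ p → ∀ E : Set (X d),
    MM p (Bl d) ≤ MM p E →
    (4 * π * sg d) ^ (-(d : ℝ) / 2) - Cb / p ≤ p ^ ((d : ℝ) / 2) * MM p E := by
  obtain ⟨Cb, hCb, hball⟩ := ball_lower hd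
  refine ⟨Cb, hCb, fun p hp E hM => (hball p hp).trans ?_⟩
  have : 0 ≤ p ^ ((d : ℝ) / 2) := by positivity
  gcongr

/-- tightness at scale `√p/Λ` after a volume preserving affine map. -/
theorem global_tight {d : ℕ} (hd : 0 < d) : ∃ C₂ Λ₀ : ℝ, 0 < C₂ ∧ 1 ≤ Λ₀ ∧ ∀ Λ : ℝ, Λ₀ ≤ Λ →
    ∃ P : ℝ, 8 ≤ P ∧ ∀ p : ℝ, P ≤ p → ∀ E : Set (X d), UnitVol E → MM p (Bl d) ≤ MM p E →
    ∃ (A : X d ≃ₗ[ℝ] X d) (b : X d), |LinearMap.det (A : X d →ₗ[ℝ] X d)| = 1 ∧
      (∫ x in (fun x => A x + b) '' E, min (‖x‖ ^ 2) (p / Λ ^ 2) ≤ C₂) ∧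
      (∀ ξ, rho ((fun x => A x + b) '' E) ξ ≤ Λ / √p → ‖ξ‖ ≤ C₂ * (Λ / √p)) := by
  obtain ⟨Cb, hCb, hball⟩ := gl_near hd
  set g : ℝ := (4 * π * sg d) ^ (-(d : ℝ) / 2) with hg
  have hg0 : 0 < g := Real.rpow_pos_of_pos (by have := sg_pos hd; positivity) _
  obtain ⟨c, Λ₀, hc, hΛ₀, hlow⟩ := level_lower d (c₀ := g / 2) (by positivity)
  obtain ⟨Cv, hCv, hvol⟩ := level_vol d
  obtain ⟨C₂, κ, hC₂, hκ, hlat⟩ := lattice d hd Cv c hc
  obtain ⟨Cw, hCw, hW⟩ := Wf_axis d hd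
  refine ⟨max C₂ (Cw * C₂ ^ 2), Λ₀, lt_of_lt_of_le hC₂ (le_max_left _ _), hΛ₀, fun Λ hΛ => ?_⟩
  have hΛ0 : 0 < Λ := by linarith
  refine ⟨max 8 (max (2 * Cb / g) (max ((2 * Λ / κ) ^ 2) ((2 * Λ) ^ 2))), le_max_left _ _,
    fun p hp E hE hM => ?_⟩
  have hp8 : 8 ≤ p := (le_max_left _ _).trans hp
  have hp1 : 2 * Cb / g ≤ p := ((le_max_left _ _).trans (le_max_right _ _)).trans hp
  have hp2 : (2 * Λ / κ) ^ 2 ≤ p :=
    ((le_max_left _ _).trans ((le_max_right _ _).trans (le_max_right _ _))).trans hp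
  have hp3 : (2 * Λ) ^ 2 ≤ p :=
    ((le_max_right _ _).trans ((le_max_right _ _).trans (le_max_right _ _))).trans hp
  have hp0 : 0 < p := by linarith
  have hsp : 0 < √p := Real.sqrt_pos.2 hp0
  set a : ℝ := Λ / √p with ha_def
  have ha0 : 0 < a := by positivity
  have ha : a ≤ κ * (1 / 2) := by
    have h1 : 2 * Λ / κ ≤ √p := Real.le_sqrt_of_sq_le hp2
    rw [div_le_iff₀ hκ] at h1
    rw [ha_def, div_le_iff₀ hsp]
    linarith
  have ha1 : a < 1 := by
    have h1 : 2 * Λ ≤ √p := Real.le_sqrt_of_sq_le hp3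
    rw [ha_def, div_lt_one hsp]
    linarith
  have hMM : g / 2 * p ^ (-(d : ℝ) / 2) ≤ MM p E := by
    have h1 := hball p (by linarith) E hM
    have h2 : Cb / p ≤ g / 2 := by
      rw [div_le_iff₀ hp0]
      rw [div_le_iff₀ hg0] at hp1
      linarith
    have h3 : g / 2 ≤ p ^ ((d : ℝ) / 2) * MM p E := by linarith
    have h4 : p ^ (-(d : ℝ) / 2) = (p ^ ((d : ℝ) / 2))⁻¹ := by
      rw [← Real.rpow_neg hp0.le]
      congr 1
      ring
    have h5 : 0 < p ^ ((d : ℝ) / 2) := by positivity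
    rw [h4, ← div_eq_mul_inv, div_le_iff₀ h5]
    linarith
  obtain ⟨L, hL, hL1, hL2⟩ := hlat (rho E) a (1 / 2) (rho_nonneg E) (rho_zero hE) (rho_neg E)
    (rho_add hE) (rho_continuous hE) ha0 ha (rho_compact hE ha1)
    (fun t ht ht' => hvol E hE t ht ht') (hlow E hE p hp8 hMM Λ hΛ)
  obtain ⟨A, hA, hAL⟩ := gl_adj L hL
  have hrho : ∀ (b ξ : X d), rho ((fun x => A x + b) '' E) ξ = rho E (L ξ) := by
    intro b ξ
    rw [gl_rho_image hE A hA b, hAL]
    rfl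
  -- choice of the translation
  have hE' := unitVol_image hE A hA 0
  set E' : Set (X d) := (fun x => A x + 0) '' E with hE'def
  have hprob : IsProbabilityMeasure (volume.restrict E') :=
    ⟨by rw [Measure.restrict_apply_univ]; exact hE'.vol⟩
  have hWf := hW ((volume.restrict E').prod (volume.restrict E'))
    (fun q : X d × X d => q.1 - q.2) (measurable_fst.sub measurable_snd) a ((C₂ * a) ^ 2) ha0 (by
      intro i s hs
      rw [← one_sub_PP hE', ← rho_sq hE']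
      have h1 : rho E' (EuclideanSpace.single i s) ≤ C₂ * a := by
        rw [hE'def, hrho 0]
        apply hL2
        rw [PiLp.norm_single, Real.norm_eq_abs, abs_of_nonneg hs.1]
        exact hs.2
      exact pow_le_pow_left₀ (rho_nonneg _ _) h1 2)
  have hmeas : Measurable fun q : X d × X d => min 1 (a ^ 2 * ‖q.1 - q.2‖ ^ 2) := by fun_prop
  have hbd : ∀ q : X d × X d, ‖min 1 (a ^ 2 * ‖q.1 - q.2‖ ^ 2)‖ ≤ 1 := by
    intro q
    rw [Real.norm_eq_abs, abs_of_nonneg (le_min zero_le_one (by positivity))]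
    exact min_le_left _ _
  have hint : Integrable (fun q : X d × X d => min 1 (a ^ 2 * ‖q.1 - q.2‖ ^ 2))
      ((volume.restrict E').prod (volume.restrict E')) :=
    Integrable.of_bound hmeas.aestronglyMeasurable 1 (Eventually.of_forall hbd)
  rw [integral_prod _ hint] at hWf
  obtain ⟨x₀, hx₀⟩ := exists_le_integral hint.integral_prod_left
  have hx₁ := hx₀.trans hWf
  refine ⟨A, -x₀, hA, ?_, fun ξ hξ => ?_⟩
  · have h1 : ∫ x in (fun x => A x + -x₀) '' E, min (‖x‖ ^ 2) (p / Λ ^ 2) =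
        ∫ x in E', min (‖x - x₀‖ ^ 2) (p / Λ ^ 2) := by
      rw [gl_int A hA, hE'def, gl_int A hA]
      simp [sub_eq_add_neg]
    have hpa : p / Λ ^ 2 = 1 / a ^ 2 := by
      rw [ha_def, div_pow, Real.sq_sqrt hp0.le]
      field_simp
    have h2 : ∀ x : X d, min (‖x - x₀‖ ^ 2) (p / Λ ^ 2) =
        1 / a ^ 2 * min 1 (a ^ 2 * ‖x₀ - x‖ ^ 2) := by
      intro x
      rw [hpa, mul_min_of_nonneg _ _ (by positivity), mul_one, min_comm, norm_sub_rev]
      congr 1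
      field_simp
    rw [h1]
    simp_rw [h2]
    rw [integral_const_mul]
    refine le_trans ?_ (le_max_right _ _)
    rw [one_div, inv_mul_le_iff₀ (by positivity)]
    calc _ ≤ _ := hx₁
      _ = _ := by ring
  · rw [hrho] at hξ
    refine (hL1 ξ hξ).trans ?_
    gcongr
    exact le_max_left _ _

theorem gl_choose {C ε : ℝ} (hε : 0 < ε) (Λ₀ : ℝ) : ∃ Λ : ℝ, Λ₀ ≤ Λ ∧
    C * Real.exp (-Λ ^ 2 / 2) < ε := by
  have h1 : Tendsto (fun Λ : ℝ => C * Real.exp (-Λ ^ 2 / 2)) atTop (𝓝 (C * 0)) := by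
    refine Tendsto.const_mul _ (Real.tendsto_exp_atBot.comp ?_)
    have h2 : Tendsto (fun Λ : ℝ => Λ ^ 2) atTop atTop := tendsto_pow_atTop (by norm_num)
    have h3 : Tendsto (fun Λ : ℝ => -(Λ ^ 2 / 2)) atTop atBot :=
      tendsto_neg_atTop_atBot.comp (h2.atTop_div_const (by norm_num))
    refine h3.congr fun x => by ring
  rw [mul_zero] at h1
  obtain ⟨Λ, h⟩ := ((h1.eventually_lt_const hε).and (eventually_ge_atTop Λ₀)).exists
  exact ⟨Λ, h.2, h.1⟩

/-- the Gaussian upper bound -/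
theorem gl_gauss (C : ℝ) {p s Λ : ℝ} (hp : 8 ≤ p) (hs : 0 < s) {E : Set (X d)} (hE : UnitVol E)
    (ht : ∫ ξ in {ξ | Λ / √p < rho E ξ}, PP E ξ ^ p ≤
      C * Real.exp (-Λ ^ 2 / 2) * p ^ (-(d : ℝ) / 2))
    (hq : ∀ ξ, rho E ξ ≤ Λ / √p → s * ‖ξ‖ ^ 2 ≤ 1 - PP E ξ) :
    p ^ ((d : ℝ) / 2) * MM p E ≤ (π / s) ^ ((d : ℝ) / 2) + C * Real.exp (-Λ ^ 2 / 2) := by
  have hp0 : 0 < p := by linarith
  have hint := PP_rpow_integrable hE (p := p) (by linarith)
  have hS : MeasurableSet {ξ | rho E ξ ≤ Λ / √p} :=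
    measurableSet_le (rho_continuous hE).measurable measurable_const
  have hSc : {ξ | rho E ξ ≤ Λ / √p}ᶜ = {ξ | Λ / √p < rho E ξ} := by
    ext ξ
    simp
  have hG : Integrable (fun ξ : X d => Real.exp (-(s * p) * ‖ξ‖ ^ 2)) := by
    have := exp_mom_integrable d 0 (c := s * p) (by positivity)
    simpa using this
  have h1 : ∫ ξ in {ξ | rho E ξ ≤ Λ / √p}, PP E ξ ^ p ≤ (π / (s * p)) ^ ((d : ℝ) / 2) := by
    calc _ ≤ ∫ ξ in {ξ | rho E ξ ≤ Λ / √p}, Real.exp (-(s * p) * ‖ξ‖ ^ 2) := by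
          refine setIntegral_mono_on hint.integrableOn hG.integrableOn hS fun ξ hξ => ?_
          have h2 : PP E ξ ≤ Real.exp (-(s * ‖ξ‖ ^ 2)) := by
            have := Real.add_one_le_exp (-(s * ‖ξ‖ ^ 2))
            have := hq ξ hξ
            linarith
          calc PP E ξ ^ p ≤ Real.exp (-(s * ‖ξ‖ ^ 2)) ^ p :=
                Real.rpow_le_rpow (PP_nonneg _ _) h2 hp0.le
            _ = Real.exp (-(s * p) * ‖ξ‖ ^ 2) := by
                rw [← Real.exp_mul]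
                congr 1
                ring
      _ ≤ ∫ ξ : X d, Real.exp (-(s * p) * ‖ξ‖ ^ 2) :=
          setIntegral_le_integral hG (Eventually.of_forall fun ξ => (Real.exp_pos _).le)
      _ = _ := by
          rw [GaussianFourier.integral_rexp_neg_mul_sq_norm (by positivity)]
          simp
  have h2 : MM p E ≤ (π / (s * p)) ^ ((d : ℝ) / 2) +
      C * Real.exp (-Λ ^ 2 / 2) * p ^ (-(d : ℝ) / 2) := by
    unfold MM
    rw [← integral_add_compl hS hint, hSc]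
    exact add_le_add h1 ht
  have h3 : 0 < p ^ ((d : ℝ) / 2) := by positivity
  have h4 : p ^ ((d : ℝ) / 2) * (π / (s * p)) ^ ((d : ℝ) / 2) = (π / s) ^ ((d : ℝ) / 2) := by
    rw [← Real.mul_rpow hp0.le (by positivity)]
    congr 1
    field_simp
  have h5 : p ^ ((d : ℝ) / 2) * p ^ (-(d : ℝ) / 2) = 1 := by
    rw [← Real.rpow_add hp0]
    rw [show (d : ℝ) / 2 + -(d : ℝ) / 2 = 0 by ring, Real.rpow_zero]
  calc p ^ ((d : ℝ) / 2) * MM p E ≤ p ^ ((d : ℝ) / 2) * ((π / (s * p)) ^ ((d : ℝ) / 2) +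
      C * Real.exp (-Λ ^ 2 / 2) * p ^ (-(d : ℝ) / 2)) := by gcongr
    _ = p ^ ((d : ℝ) / 2) * (π / (s * p)) ^ ((d : ℝ) / 2) +
      C * Real.exp (-Λ ^ 2 / 2) * (p ^ ((d : ℝ) / 2) * p ^ (-(d : ℝ) / 2)) := by ring
    _ = _ := by rw [h4, h5, mul_one]

/-- the second moment of the main part is almost that of the ball. -/
theorem global_cov {d : ℕ} (hd : 0 < d) {η : ℝ} (hη : 0 < η) : ∃ P : ℝ, 8 ≤ P ∧
    ∀ p : ℝ, P ≤ p → ∀ E : Set (X d), UnitVol E → MM p (Bl d) ≤ MM p E →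
    ∃ (A : X d ≃ₗ[ℝ] X d) (b : X d) (N : Set (X d)) (R τ : ℝ),
      |LinearMap.det (A : X d →ₗ[ℝ] X d)| = 1 ∧ MeasurableSet N ∧
      N ⊆ (fun x => A x + b) '' E ∧ N ⊆ Metric.closedBall 0 R ∧ 1 - η ≤ volume.real N ∧
      (∀ u : X d, ∫ x in N, ⟪x, u⟫_ℝ = 0) ∧
      (∀ u : X d, ∫ x in N, ⟪x, u⟫_ℝ ^ 2 = τ * ‖u‖ ^ 2) ∧ τ ≤ (1 + η) * sg d := by
  obtain ⟨Cb, hCb, hball⟩ := gl_near hd
  have hsg := sg_pos hd
  set g : ℝ := (4 * π * sg d) ^ (-(d : ℝ) / 2) with hg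
  have hg0 : 0 < g := Real.rpow_pos_of_pos (by positivity) _
  obtain ⟨Ct, hCt, htail⟩ := MM_tail d
  obtain ⟨C₂, Λ₀, hC₂, hΛ₀, ht⟩ := global_tight hd
  have hdR : (0 : ℝ) < d := by exact_mod_cast hd
  set ε : ℝ := g * (1 - (1 + η / 2) ^ (-(d : ℝ) / 2)) with hε
  have hε0 : 0 < ε := by
    have : (1 + η / 2) ^ (-(d : ℝ) / 2) < 1 :=
      Real.rpow_lt_one_of_one_lt_of_neg (by linarith) (by linarith)
    have h2 : 0 < 1 - (1 + η / 2) ^ (-(d : ℝ) / 2) := by linarith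
    positivity
  obtain ⟨Λ, hΛ, hΛε⟩ := gl_choose (C := Ct) (half_pos hε0) Λ₀
  obtain ⟨P₁, hP₁, h₁⟩ := ht Λ hΛ
  have hΛ0 : 0 < Λ := by linarith
  set θ : ℝ := η / (4 * (1 + η)) with hθ
  have hθ0 : 0 < θ := by positivity
  have hθ1 : θ ≤ 1 / 4 := by
    rw [hθ, div_le_div_iff₀ (by positivity) (by norm_num)]
    linarith
  have hθη : θ ≤ η := by
    rw [hθ, div_le_iff₀ (by positivity)]
    nlinarith
  have hθ2 : θ * (4 * (1 + η)) = η := by
    rw [hθ]
    field_simp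
  set R : ℝ := √(C₂ / θ) with hR
  have hR0 : 0 < R := Real.sqrt_pos.2 (by positivity)
  have hR2 : R ^ 2 = C₂ / θ := Real.sq_sqrt (by positivity)
  refine ⟨max P₁ (max (2 * Cb / ε) (max (R ^ 2 * Λ ^ 2) (14 * R ^ 2 * C₂ ^ 2 * Λ ^ 2 / θ))),
    hP₁.trans (le_max_left _ _), fun p hp E hE hM => ?_⟩
  have hpP : P₁ ≤ p := (le_max_left _ _).trans hp
  have hp1 : 2 * Cb / ε ≤ p := ((le_max_left _ _).trans (le_max_right _ _)).trans hp
  have hp2 : R ^ 2 * Λ ^ 2 ≤ p :=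
    ((le_max_left _ _).trans ((le_max_right _ _).trans (le_max_right _ _))).trans hp
  have hp3 : 14 * R ^ 2 * C₂ ^ 2 * Λ ^ 2 / θ ≤ p :=
    ((le_max_right _ _).trans ((le_max_right _ _).trans (le_max_right _ _))).trans hp
  have hp8 : 8 ≤ p := hP₁.trans hpP
  have hp0 : 0 < p := by linarith
  obtain ⟨A₀, b₀, hA₀, hint, hrho⟩ := h₁ p hpP E hE hM
  have hE' := unitVol_image hE A₀ hA₀ b₀
  set E' : Set (X d) := (fun x => A₀ x + b₀) '' E with hE'def
  -- the near part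
  have hfin : volume E' ≠ ⊤ := by rw [hE'.vol]; exact ENNReal.one_ne_top
  have hout : volume.real (E' \ Metric.closedBall 0 R) ≤ θ := by
    have hmB : MeasurableSet (E' \ Metric.closedBall 0 R) := hE'.meas.diff measurableSet_closedBall
    have hI : IntegrableOn (fun x : X d => min (‖x‖ ^ 2) (p / Λ ^ 2)) E' := by
      refine Measure.integrableOn_of_bounded hfin (M := p / Λ ^ 2) ?_ (Eventually.of_forall ?_)
      · exact (by fun_prop : Measurable fun x : X d => min (‖x‖ ^ 2) (p / Λ ^ 2)).aestronglyMeasurable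
      · intro x
        rw [Real.norm_eq_abs, abs_of_nonneg (le_min (by positivity) (by positivity))]
        exact min_le_right _ _
    have h1 : R ^ 2 * volume.real (E' \ Metric.closedBall 0 R) ≤ C₂ := by
      calc R ^ 2 * volume.real (E' \ Metric.closedBall 0 R)
          = ∫ x in E' \ Metric.closedBall 0 R, R ^ 2 := by
            rw [setIntegral_const, smul_eq_mul, mul_comm]
        _ ≤ ∫ x in E' \ Metric.closedBall 0 R, min (‖x‖ ^ 2) (p / Λ ^ 2) := by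
            refine setIntegral_mono_on (integrableOn_const (measure_ne_top_of_subset
              sdiff_subset hfin)) (hI.mono_set sdiff_subset) hmB fun x hx => ?_
            have h2 : R < ‖x‖ := by
              have := hx.2
              rw [mem_closedBall_zero_iff, not_le] at this
              exact this
            refine le_min ?_ ?_
            · exact pow_le_pow_left₀ hR0.le h2.le 2
            · rw [le_div_iff₀ (by positivity)]
              exact hp2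
        _ ≤ ∫ x in E', min (‖x‖ ^ 2) (p / Λ ^ 2) := by
            refine setIntegral_mono_set hI (Eventually.of_forall fun x => ?_)
              (LE.le.eventuallyLE sdiff_subset)
            exact le_min (by positivity) (by positivity)
        _ ≤ C₂ := hint
    rw [hR2, div_mul_eq_mul_div, div_le_iff₀ hθ0] at h1
    exact le_of_mul_le_mul_left h1 hC₂
  set N₀ : Set (X d) := E' ∩ Metric.closedBall 0 R with hN₀
  have hmN₀ : MeasurableSet N₀ := hE'.meas.inter measurableSet_closedBall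
  have hvN₀ : 1 - θ ≤ volume.real N₀ := by
    have h1 : volume.real N₀ + volume.real (E' \ Metric.closedBall 0 R) = volume.real E' :=
      measureReal_inter_add_sdiff (s := E') measurableSet_closedBall hfin
    have h2 : volume.real E' = 1 := by rw [measureReal_def, hE'.vol]; simp
    linarith
  have hvN₀' : volume.real N₀ ≤ 1 := by
    have h2 : volume.real E' = 1 := by rw [measureReal_def, hE'.vol]; simp
    rw [← h2]
    exact measureReal_mono inter_subset_left hfin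
  have hpos : 0 < volume N₀ := by
    have h3 : 0 < volume.real N₀ := by linarith
    rw [measureReal_def] at h3
    exact (ENNReal.toReal_pos_iff.1 h3).1
  obtain ⟨A₁, b₁, τ, hA₁, hτ, hcen, hiso⟩ := isotropic d hd N₀ hmN₀ (R := R) inter_subset_right hpos
  have hE'' := unitVol_image hE' A₁ hA₁ b₁
  set N : Set (X d) := (fun x => A₁ x + b₁) '' N₀ with hN
  have hmN : MeasurableSet N := (gl_emb A₁ b₁).measurableSet_image' hmN₀
  have hvN : volume.real N = volume.real N₀ := by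
    rw [measureReal_def, measureReal_def, hN, gl_vol A₁ hA₁]
  obtain ⟨R', hR'⟩ : ∃ R', N ⊆ Metric.closedBall 0 R' := by
    have hc : IsCompact ((fun x => A₁ x + b₁) '' Metric.closedBall (0 : X d) R) := by
      refine (isCompact_closedBall 0 R).image ?_
      have : Continuous A₁ := A₁.toContinuousLinearEquiv.continuous
      fun_prop
    obtain ⟨R', h⟩ := hc.isBounded.subset_closedBall 0
    exact ⟨R', (image_mono inter_subset_right).trans h⟩
  have hcomp : (fun x => A₁ x + b₁) '' E' =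
      (fun x => (A₀.trans A₁) x + (A₁ b₀ + b₁)) '' E := by
    rw [hE'def, image_image]
    congr 1
    ext x : 1
    simp [add_assoc]
  have hMM : MM p ((fun x => A₁ x + b₁) '' E') = MM p E := by
    rw [MM_image hE' A₁ hA₁ b₁ (by linarith), hE'def, MM_image hE A₀ hA₀ b₀ (by linarith)]
  set E'' : Set (X d) := (fun x => A₁ x + b₁) '' E' with hE''def
  refine ⟨A₀.trans A₁, A₁ b₀ + b₁, N, R', τ, ?_, hmN, ?_, hR', ?_, hcen, hiso, ?_⟩
  · have : ((A₀.trans A₁ : X d ≃ₗ[ℝ] X d) : X d →ₗ[ℝ] X d) =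
        (A₁ : X d →ₗ[ℝ] X d) ∘ₗ (A₀ : X d →ₗ[ℝ] X d) := rfl
    rw [this, LinearMap.det_comp, abs_mul, hA₀, hA₁, mul_one]
  · rw [← hcomp]
    exact image_mono inter_subset_left
  · rw [hvN]
    linarith
  -- the bound for `τ`
  set s : ℝ := (1 - θ) ^ 2 * (4 * π ^ 2) * τ with hs
  have hθ1' : 0 < 1 - θ := by linarith
  have hs0 : 0 < s := by positivity
  have hquad : ∀ ξ, rho E'' ξ ≤ Λ / √p → s * ‖ξ‖ ^ 2 ≤ 1 - PP E'' ξ := by
    intro ξ hξ
    set ζ : X d := LinearMap.adjoint (A₁ : X d →ₗ[ℝ] X d) ξ with hζ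
    have h1 : ‖ζ‖ ≤ C₂ * (Λ / √p) := by
      apply hrho
      rw [hζ, ← gl_rho_image hE' A₁ hA₁ b₁]
      exact hξ
    have h2 : PP E'' ξ = PP E' ζ := PP_image hE' A₁ hA₁ b₁ ξ
    have h3 := quad_lower hE' hmN₀ inter_subset_left hR0.le (y := 0) inter_subset_right ζ
    have h4 : ∫ x in N₀, ∫ y in N₀, ⟪x - y, ζ⟫_ℝ ^ 2 = ∫ x in N, ∫ y in N, ⟪x - y, ξ⟫_ℝ ^ 2 := by
      rw [hN, gl_int A₁ hA₁ b₁]
      congr 1
      ext x
      rw [gl_int A₁ hA₁ b₁]
      congr 1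
      ext y
      rw [hζ, LinearMap.adjoint_inner_right]
      congr 2
      simp [map_sub]
    have h5 := double_inner hmN hR' ξ
    rw [hcen ξ, hiso ξ, hvN] at h5
    rw [h4, h5] at h3
    have h6 : 1 - θ ≤ 1 - 14 * R ^ 2 * ‖ζ‖ ^ 2 := by
      have h7 : ‖ζ‖ ^ 2 ≤ C₂ ^ 2 * (Λ ^ 2 / p) := by
        calc ‖ζ‖ ^ 2 ≤ (C₂ * (Λ / √p)) ^ 2 := pow_le_pow_left₀ (norm_nonneg _) h1 2
          _ = C₂ ^ 2 * (Λ ^ 2 / p) := by
            rw [mul_pow, div_pow, Real.sq_sqrt hp0.le]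
      have h8 : 14 * R ^ 2 * (C₂ ^ 2 * (Λ ^ 2 / p)) ≤ θ := by
        rw [div_le_iff₀ hθ0] at hp3
        rw [show 14 * R ^ 2 * (C₂ ^ 2 * (Λ ^ 2 / p)) = 14 * R ^ 2 * C₂ ^ 2 * Λ ^ 2 / p by ring,
          div_le_iff₀ hp0]
        linarith
      have h9 : 14 * R ^ 2 * ‖ζ‖ ^ 2 ≤ 14 * R ^ 2 * (C₂ ^ 2 * (Λ ^ 2 / p)) := by gcongr
      linarith
    rw [h2]
    refine le_trans ?_ h3
    have h10 : 0 ≤ τ * ‖ξ‖ ^ 2 := by positivity
    have h11 : (1 - θ) * (1 - θ) ≤ (1 - 14 * R ^ 2 * ‖ζ‖ ^ 2) * volume.real N₀ := by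
      apply mul_le_mul h6 hvN₀ hθ1'.le
      linarith
    have h12 : 0 ≤ 4 * π ^ 2 * (τ * ‖ξ‖ ^ 2) := by positivity
    calc s * ‖ξ‖ ^ 2 = ((1 - θ) * (1 - θ)) * (4 * π ^ 2 * (τ * ‖ξ‖ ^ 2)) := by rw [hs]; ring
      _ ≤ ((1 - 14 * R ^ 2 * ‖ζ‖ ^ 2) * volume.real N₀) * (4 * π ^ 2 * (τ * ‖ξ‖ ^ 2)) :=
          mul_le_mul_of_nonneg_right h11 h12
      _ = _ := by ring
  by_contra hcon
  rw [not_le] at hcon
  have h1 := gl_gauss Ct hp8 hs0 hE'' (htail E'' hE'' p Λ hp8 hΛ0.le) hquad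
  have h2 := hball p (by linarith) E hM
  rw [hMM] at h1
  have h3 : (π / s) ^ ((d : ℝ) / 2) ≤ g * (1 + η / 2) ^ (-(d : ℝ) / 2) := by
    have h4 : (1 + η / 2) * (4 * π ^ 2 * sg d) ≤ s := by
      have h5 : 1 + η / 2 ≤ (1 - θ) ^ 2 * (1 + η) := by nlinarith
      calc (1 + η / 2) * (4 * π ^ 2 * sg d) ≤ ((1 - θ) ^ 2 * (1 + η)) * (4 * π ^ 2 * sg d) :=
            mul_le_mul_of_nonneg_right h5 (by positivity)
        _ = (1 - θ) ^ 2 * (4 * π ^ 2) * ((1 + η) * sg d) := by ring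
        _ ≤ s := by
            rw [hs]
            exact mul_le_mul_of_nonneg_left hcon.le (by positivity)
    have h6 : π / s ≤ (4 * π * sg d * (1 + η / 2))⁻¹ := by
      rw [div_le_iff₀ hs0, inv_mul_eq_div, le_div_iff₀ (by positivity)]
      calc π * (4 * π * sg d * (1 + η / 2)) = (1 + η / 2) * (4 * π ^ 2 * sg d) := by ring
        _ ≤ s := h4
    calc (π / s) ^ ((d : ℝ) / 2) ≤ ((4 * π * sg d * (1 + η / 2))⁻¹) ^ ((d : ℝ) / 2) :=
          Real.rpow_le_rpow (by positivity) h6 (by positivity)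
      _ = (4 * π * sg d * (1 + η / 2)) ^ (-(d : ℝ) / 2) := by
          rw [Real.inv_rpow (by positivity), ← Real.rpow_neg (by positivity)]
          congr 1
          ring
      _ = g * (1 + η / 2) ^ (-(d : ℝ) / 2) := by
          rw [Real.mul_rpow (by positivity) (by positivity)]
  have h7 : Cb / p ≤ ε / 2 := by
    rw [div_le_iff₀ hε0] at hp1
    rw [div_le_iff₀ hp0]
    linarith
  have h8 : g - g * (1 + η / 2) ^ (-(d : ℝ) / 2) = ε := by
    rw [hε]
    ring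
  linarith

theorem gl_vol_real_one {E : Set (X d)} (hE : UnitVol E) : volume.real E = 1 := by
  rw [measureReal_def, hE.vol]
  simp

theorem gl_norm_sq {N : Set (X d)} (hN : MeasurableSet N) {R τ : ℝ}
    (hR : N ⊆ Metric.closedBall 0 R)
    (hiso : ∀ u : X d, ∫ x in N, ⟪x, u⟫_ℝ ^ 2 = τ * ‖u‖ ^ 2) :
    ∫ x in N, ‖x‖ ^ 2 = d * τ := by
  have hfin : volume N ≠ ⊤ :=
    measure_ne_top_of_subset hR (isCompact_closedBall 0 R).measure_lt_top.ne
  have h1 : ∀ x : X d, ‖x‖ ^ 2 = ∑ i, ⟪x, EuclideanSpace.single i (1 : ℝ)⟫_ℝ ^ 2 := by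
    intro x
    rw [EuclideanSpace.norm_sq_eq]
    refine Finset.sum_congr rfl fun i _ => ?_
    rw [EuclideanSpace.inner_single_right]
    simp
  simp_rw [h1]
  rw [integral_finsetSum]
  · simp_rw [hiso]
    simp
  · intro i _
    refine Measure.integrableOn_of_bounded hfin (M := R ^ 2) ?_ ?_
    · exact (by fun_prop : Measurable fun x : X d =>
        ⟪x, EuclideanSpace.single i (1 : ℝ)⟫_ℝ ^ 2).aestronglyMeasurable
    · refine (ae_restrict_iff' hN).2 (Eventually.of_forall fun x hx => ?_)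
      have h2 : ‖x‖ ≤ R := by simpa using hR hx
      have h3 : |⟪x, EuclideanSpace.single i (1 : ℝ)⟫_ℝ| ≤ R := by
        refine (abs_real_inner_le_norm _ _).trans ?_
        rw [PiLp.norm_single]
        simpa using h2
      rw [Real.norm_eq_abs, abs_pow]
      exact pow_le_pow_left₀ (abs_nonneg _) h3 2

theorem global_close {d : ℕ} (hd : 0 < d) {δ : ℝ} (hδ : 0 < δ) : ∃ P : ℝ, 8 ≤ P ∧
    ∀ p : ℝ, P ≤ p → ∀ E : Set (X d), UnitVol E → MM p (Bl d) ≤ MM p E →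
    ∃ (A : X d ≃ₗ[ℝ] X d) (b : X d), |LinearMap.det (A : X d →ₗ[ℝ] X d)| = 1 ∧
      volume.real (((fun x => A x + b) '' E) ∆ Bl d) ≤ δ := by
  obtain ⟨C, hC, hbath⟩ := bath hd
  have hsg := sg_pos hd
  have hrd := rd_pos d
  have hdR : (0 : ℝ) < d := by exact_mod_cast hd
  set K : ℝ := C * (d * sg d + rd d ^ 2) with hK
  have hK0 : 0 < K := by positivity
  set η : ℝ := min (δ / 2) (δ ^ 2 / (4 * K)) with hη
  have hη0 : 0 < η := lt_min (by positivity) (by positivity)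
  obtain ⟨P, hP, h⟩ := global_cov hd hη0
  refine ⟨P, hP, fun p hp E hE hM => ?_⟩
  obtain ⟨A, b, N, R, τ, hA, hmN, hNE, hNR, hvN, hcen, hiso, hτ⟩ := h p hp E hE hM
  refine ⟨A, b, hA, ?_⟩
  have hE' := unitVol_image hE A hA b
  set E' : Set (X d) := (fun x => A x + b) '' E with hE'def
  have hBl := unitVol_Bl hd
  have hfinE : volume E' ≠ ⊤ := by rw [hE'.vol]; exact ENNReal.one_ne_top
  have hfinB : volume (Bl d) ≠ ⊤ := by rw [hBl.vol]; exact ENNReal.one_ne_top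
  have hfinN : volume N ≠ ⊤ := measure_ne_top_of_subset hNE hfinE
  have hv1 : volume.real N ≤ 1 := by
    rw [← gl_vol_real_one hE']
    exact measureReal_mono hNE hfinE
  have hgap : gap N ≤ (d * sg d + rd d ^ 2) * η := by
    rw [gap_eq hmN hNR]
    have h1 : ∫ x in N, (‖x‖ ^ 2 - rd d ^ 2) = d * τ - volume.real N * rd d ^ 2 := by
      rw [integral_sub, gl_norm_sq hmN hNR hiso, setIntegral_const, smul_eq_mul]
      · refine Measure.integrableOn_of_bounded hfinN (M := R ^ 2) ?_ ?_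
        · exact (by fun_prop : Measurable fun x : X d => ‖x‖ ^ 2).aestronglyMeasurable
        · refine (ae_restrict_iff' hmN).2 (Eventually.of_forall fun x hx => ?_)
          have h2 : ‖x‖ ≤ R := by simpa using hNR hx
          rw [Real.norm_eq_abs, abs_pow, abs_norm]
          exact pow_le_pow_left₀ (norm_nonneg _) h2 2
      · exact integrableOn_const hfinN
    have h2 : ∫ x in Bl d, (‖x‖ ^ 2 - rd d ^ 2) = d * sg d - rd d ^ 2 := by
      rw [integral_sub, gl_norm_sq hBl.meas (R := rd d) subset_rfl (ball_iso hd), setIntegral_const,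
        smul_eq_mul, gl_vol_real_one hBl, one_mul]
      · refine Measure.integrableOn_of_bounded hfinB (M := rd d ^ 2) ?_ ?_
        · exact (by fun_prop : Measurable fun x : X d => ‖x‖ ^ 2).aestronglyMeasurable
        · refine (ae_restrict_iff' hBl.meas).2 (Eventually.of_forall fun x hx => ?_)
          have h2 : ‖x‖ ≤ rd d := by simpa [Bl] using hx
          rw [Real.norm_eq_abs, abs_pow, abs_norm]
          exact pow_le_pow_left₀ (norm_nonneg _) h2 2
      · exact integrableOn_const hfinB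
    rw [h1, h2]
    have h3 : d * τ ≤ d * ((1 + η) * sg d) := by gcongr
    have h4 : (1 - volume.real N) * rd d ^ 2 ≤ η * rd d ^ 2 := by
      apply mul_le_mul_of_nonneg_right _ (by positivity)
      linarith
    nlinarith
  have hND : volume.real (N ∆ Bl d) ≤ δ / 2 := by
    have h1 := hbath N R hmN hNR (by linarith)
    have h2 : volume.real (N ∆ Bl d) ^ 2 ≤ (δ / 2) ^ 2 := by
      calc _ ≤ C * gap N := h1
        _ ≤ C * ((d * sg d + rd d ^ 2) * η) := by gcongr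
        _ = K * η := by rw [hK]; ring
        _ ≤ K * (δ ^ 2 / (4 * K)) := by
            gcongr
            exact min_le_right _ _
        _ = (δ / 2) ^ 2 := by field_simp; norm_num
    exact abs_le_of_sq_le_sq' h2 (by positivity) |>.2
  have hEN : volume.real (E' ∆ N) ≤ δ / 2 := by
    have h1 : E' ∆ N = E' \ N := by
      rw [Set.symmDiff_def, sdiff_eq_empty.2 hNE, union_empty]
    rw [h1, measureReal_sdiff hNE hmN, gl_vol_real_one hE']
    have := min_le_left (δ / 2) (δ ^ 2 / (4 * K))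
    linarith
  calc volume.real (E' ∆ Bl d) ≤ volume.real (E' ∆ N ∪ N ∆ Bl d) := by
        refine measureReal_mono (symmDiff_triangle E' N (Bl d)) ?_
        have h1 : E' ∆ N ∪ N ∆ Bl d ⊆ E' ∪ N ∪ Bl d := by
          intro x hx
          simp only [mem_union, mem_symmDiff] at hx ⊢
          tauto
        refine measure_ne_top_of_subset h1 ?_
        exact (measure_union_lt_top (measure_union_lt_top hfinE.lt_top hfinN.lt_top)
          hfinB.lt_top).ne
    _ ≤ volume.real (E' ∆ N) + volume.real (N ∆ Bl d) := measureReal_union_le _ _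
    _ ≤ δ := by linarith

end Pool.Agent.H82.Max
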