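import Pool.Agent.H82.Max.Defs

open MeasureTheory Set Filter Topology
open scoped ENNReal Real InnerProductSpace symmDiff

namespace Pool.Agent.H82.Max

variable {d : ℕ}

theorem Wf_nonneg {Ω : Type*} [MeasurableSpace Ω] (ν : Measure Ω) (z : Ω → X d) (ξ : X d) :
    0 ≤ Wf ν z ξ :=
  integral_nonneg fun ω => by
    have := Real.cos_le_one (2 * π * ⟪z ω, ξ⟫_ℝ)
    simp only [Pi.zero_apply]
    linarith

theorem Wf_zero {Ω : Type*} [MeasurableSpace Ω] (ν : Measure Ω) (z : Ω → X d) :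
    Wf ν z 0 = 0 := by
  simp [Wf]

theorem Wf_neg {Ω : Type*} [MeasurableSpace Ω] (ν : Measure Ω) (z : Ω → X d) (ξ : X d) :
    Wf ν z (-ξ) = Wf ν z ξ := by
  simp [Wf]

theorem Wf_integrable {Ω : Type*} [MeasurableSpace Ω] (ν : Measure Ω) [IsFiniteMeasure ν]
    {z : Ω → X d} (hz : Measurable z) (ξ : X d) :
    Integrable (fun ω => 1 - Real.cos (2 * π * ⟪z ω, ξ⟫_ℝ)) ν := by
  refine (integrable_const (2 : ℝ)).mono' (by fun_prop) (ae_of_all _ fun q => ?_)
  rw [Real.norm_eq_abs, abs_le]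
  constructor <;> linarith [Real.neg_one_le_cos (2 * π * ⟪z q, ξ⟫_ℝ),
    Real.cos_le_one (2 * π * ⟪z q, ξ⟫_ℝ)]

theorem Wf_continuous {Ω : Type*} [MeasurableSpace Ω] (ν : Measure Ω) [IsFiniteMeasure ν]
    {z : Ω → X d} (hz : Measurable z) : Continuous (Wf ν z) := by
  unfold Wf
  refine continuous_of_dominated (bound := fun _ => (2 : ℝ)) ?_ ?_ (integrable_const _) ?_
  · exact fun ξ => by fun_prop
  · refine fun ξ => ae_of_all _ fun q => ?_
    rw [Real.norm_eq_abs, abs_le]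
    constructor <;> linarith [Real.neg_one_le_cos (2 * π * ⟪z q, ξ⟫_ℝ),
      Real.cos_le_one (2 * π * ⟪z q, ξ⟫_ℝ)]
  · exact ae_of_all _ fun x => by fun_prop

theorem one_sub_cos_eq (t : ℝ) : 1 - Real.cos t = 2 * |Real.sin (t / 2)| ^ 2 := by
  rw [sq_abs, Real.sin_sq_eq_half_sub, show 2 * (t / 2) = t by ring]
  ring

/-- `√W` is subadditive: `2 W(ξ) = ∫ |1 - e(⟨z,ξ⟩)|^2 dν` and
`1 - e(a+b) = (1 - e(a)) + e(a)(1 - e(b))`; Minkowski in `L^2(ν)`. -/
theorem sqrt_Wf_add {Ω : Type*} [MeasurableSpace Ω] (ν : Measure Ω) [IsFiniteMeasure ν]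
    {z : Ω → X d} (hz : Measurable z) (ξ η : X d) :
    √(Wf ν z (ξ + η)) ≤ √(Wf ν z ξ) + √(Wf ν z η) := by
  set f : Ω → ℝ := fun ω => |Real.sin (2 * π * ⟪z ω, ξ⟫_ℝ / 2)| with hf
  set g : Ω → ℝ := fun ω => |Real.sin (2 * π * ⟪z ω, η⟫_ℝ / 2)| with hg
  have hfm : Measurable f := by
    rw [hf]
    exact (by fun_prop : Measurable fun ω => Real.sin (2 * π * ⟪z ω, ξ⟫_ℝ / 2)).abs
  have hgm : Measurable g := by
    rw [hg]
    exact (by fun_prop : Measurable fun ω => Real.sin (2 * π * ⟪z ω, η⟫_ℝ / 2)).abs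
  have hf0 : ∀ ω, 0 ≤ f ω := fun ω => abs_nonneg _
  have hg0 : ∀ ω, 0 ≤ g ω := fun ω => abs_nonneg _
  have hf1 : ∀ ω, f ω ≤ 1 := fun ω => Real.abs_sin_le_one _
  have hg1 : ∀ ω, g ω ≤ 1 := fun ω => Real.abs_sin_le_one _
  have bd : ∀ {h : Ω → ℝ}, Measurable h → (∀ ω, 0 ≤ h ω) → (∀ ω, h ω ≤ 1) → Integrable h ν := by
    intro h hm h0 h1
    refine (integrable_const (1 : ℝ)).mono' hm.aestronglyMeasurable (ae_of_all _ fun ω => ?_)
    rw [Real.norm_eq_abs, abs_of_nonneg (h0 ω)]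
    exact h1 ω
  have if2 : Integrable (fun ω => f ω ^ 2) ν := bd (hfm.pow_const 2) (fun ω => sq_nonneg _)
    (fun ω => pow_le_one₀ (hf0 ω) (hf1 ω))
  have ig2 : Integrable (fun ω => g ω ^ 2) ν := bd (hgm.pow_const 2) (fun ω => sq_nonneg _)
    (fun ω => pow_le_one₀ (hg0 ω) (hg1 ω))
  have ifg : Integrable (fun ω => f ω * g ω) ν := bd (hfm.mul hgm)
    (fun ω => mul_nonneg (hf0 ω) (hg0 ω)) (fun ω => mul_le_one₀ (hf1 ω) (hg0 ω) (hg1 ω))
  have hA : Wf ν z ξ = 2 * ∫ ω, f ω ^ 2 ∂ν := by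
    unfold Wf
    rw [← integral_const_mul]
    simp only [one_sub_cos_eq, hf]
  have hB : Wf ν z η = 2 * ∫ ω, g ω ^ 2 ∂ν := by
    unfold Wf
    rw [← integral_const_mul]
    simp only [one_sub_cos_eq, hg]
  -- Cauchy-Schwarz
  have hCS : ∫ ω, f ω * g ω ∂ν ≤ √(∫ ω, f ω ^ 2 ∂ν) * √(∫ ω, g ω ^ 2 ∂ν) := by
    have h2 : (2 : ℝ).HolderConjugate 2 := Real.HolderConjugate.two_two
    have mf : MemLp f (ENNReal.ofReal 2) ν := by
      rw [ENNReal.ofReal_ofNat]
      exact (memLp_two_iff_integrable_sq hfm.aestronglyMeasurable).2 if2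
    have mg : MemLp g (ENNReal.ofReal 2) ν := by
      rw [ENNReal.ofReal_ofNat]
      exact (memLp_two_iff_integrable_sq hgm.aestronglyMeasurable).2 ig2
    have h := integral_mul_le_Lp_mul_Lq_of_nonneg h2 (ae_of_all _ hf0) (ae_of_all _ hg0) mf mg
    rw [Real.sqrt_eq_rpow, Real.sqrt_eq_rpow]
    simpa only [Real.rpow_two] using h
  have hadd : Wf ν z (ξ + η) ≤ 2 * (∫ ω, f ω ^ 2 ∂ν) + 2 * (∫ ω, g ω ^ 2 ∂ν) +
      4 * ∫ ω, f ω * g ω ∂ν := by
    have e : 2 * (∫ ω, f ω ^ 2 ∂ν) + 2 * (∫ ω, g ω ^ 2 ∂ν) + 4 * ∫ ω, f ω * g ω ∂ν =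
        ∫ ω, (2 * f ω ^ 2 + 2 * g ω ^ 2 + 4 * (f ω * g ω)) ∂ν := by
      have j1 : Integrable (fun ω => 2 * f ω ^ 2) ν := if2.const_mul 2
      have j2 : Integrable (fun ω => 2 * g ω ^ 2) ν := ig2.const_mul 2
      have j3 : Integrable (fun ω => 4 * (f ω * g ω)) ν := ifg.const_mul 4
      have j4 : Integrable (fun ω => 2 * f ω ^ 2 + 2 * g ω ^ 2) ν := j1.add j2
      rw [integral_add j4 j3, integral_add j1 j2, integral_const_mul, integral_const_mul,
        integral_const_mul]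
    rw [e]
    refine integral_mono (Wf_integrable ν hz _) ?_ fun ω => ?_
    · exact ((if2.const_mul 2).add (ig2.const_mul 2)).add (ifg.const_mul 4)
    · change 1 - Real.cos (2 * π * ⟪z ω, ξ + η⟫_ℝ) ≤ 2 * f ω ^ 2 + 2 * g ω ^ 2 + 4 * (f ω * g ω)
      rw [one_sub_cos_eq]
      have h1 : |Real.sin (2 * π * ⟪z ω, ξ + η⟫_ℝ / 2)| ≤ f ω + g ω := by
        have e1 : 2 * π * ⟪z ω, ξ + η⟫_ℝ / 2 = 2 * π * ⟪z ω, ξ⟫_ℝ / 2 + 2 * π * ⟪z ω, η⟫_ℝ / 2 := by
          rw [inner_add_right]; ring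
        rw [e1, Real.sin_add]
        refine (abs_add_le _ _).trans ?_
        rw [abs_mul, abs_mul]
        have c1 := Real.abs_cos_le_one (2 * π * ⟪z ω, η⟫_ℝ / 2)
        have c2 := Real.abs_cos_le_one (2 * π * ⟪z ω, ξ⟫_ℝ / 2)
        have d1 := mul_le_mul_of_nonneg_left c1 (hf0 ω)
        have d2 := mul_le_mul_of_nonneg_right c2 (hg0 ω)
        simp only [hf, hg] at d1 d2 ⊢
        linarith
      have h2 := pow_le_pow_left₀ (abs_nonneg _) h1 2
      nlinarith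
  have hF : 0 ≤ ∫ ω, f ω ^ 2 ∂ν := integral_nonneg fun ω => sq_nonneg _
  have hG : 0 ≤ ∫ ω, g ω ^ 2 ∂ν := integral_nonneg fun ω => sq_nonneg _
  rw [hA, hB]
  have s1 : √(2 * ∫ ω, f ω ^ 2 ∂ν) = √2 * √(∫ ω, f ω ^ 2 ∂ν) := Real.sqrt_mul (by norm_num) _
  have s2 : √(2 * ∫ ω, g ω ^ 2 ∂ν) = √2 * √(∫ ω, g ω ^ 2 ∂ν) := Real.sqrt_mul (by norm_num) _
  rw [s1, s2]
  refine Real.sqrt_le_iff.2 ⟨by positivity, hadd.trans ?_⟩
  have q1 := Real.sq_sqrt hF
  have q2 := Real.sq_sqrt hG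
  have q3 : √2 ^ 2 = 2 := Real.sq_sqrt (by norm_num)
  calc 2 * (∫ ω, f ω ^ 2 ∂ν) + 2 * (∫ ω, g ω ^ 2 ∂ν) + 4 * ∫ ω, f ω * g ω ∂ν
      ≤ 2 * √(∫ ω, f ω ^ 2 ∂ν) ^ 2 + 2 * √(∫ ω, g ω ^ 2 ∂ν) ^ 2 +
        4 * (√(∫ ω, f ω ^ 2 ∂ν) * √(∫ ω, g ω ^ 2 ∂ν)) := by
        rw [q1, q2]; linarith
    _ = √2 ^ 2 * (√(∫ ω, f ω ^ 2 ∂ν) + √(∫ ω, g ω ^ 2 ∂ν)) ^ 2 := by rw [q3]; ring
    _ = (√2 * √(∫ ω, f ω ^ 2 ∂ν) + √2 * √(∫ ω, g ω ^ 2 ∂ν)) ^ 2 := by ring

/-- `1 - sin u / u ≥ c min(1,u^2)` in integrated form: for `b > 0` and real `t`,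
`c · b · min 1 (b^2 t^2) ≤ ∫_0^b (1 - cos (2π t s)) ds`. -/
theorem cos_average : ∃ c : ℝ, 0 < c ∧ ∀ b t : ℝ, 0 < b →
    c * b * min 1 (b ^ 2 * t ^ 2) ≤ ∫ s in (0 : ℝ)..b, (1 - Real.cos (2 * π * (t * s))) := by
  refine ⟨2 / 3, by norm_num, fun b t hb => ?_⟩
  have hpi := Real.pi_pos
  rcases le_or_gt (|t| * b) (1 / 2) with h | h
  · have h1 : ∫ s in (0 : ℝ)..b, 8 * t ^ 2 * s ^ 2 ≤
        ∫ s in (0 : ℝ)..b, (1 - Real.cos (2 * π * (t * s))) := by
      refine intervalIntegral.integral_mono_on hb.le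
        (Continuous.intervalIntegrable (by fun_prop) _ _)
        (Continuous.intervalIntegrable (by fun_prop) _ _) fun s hs => ?_
      have h2 : |2 * π * (t * s)| ≤ π := by
        rw [abs_mul, abs_of_pos (by positivity : (0 : ℝ) < 2 * π), abs_mul, abs_of_nonneg hs.1]
        have : |t| * s ≤ |t| * b := mul_le_mul_of_nonneg_left hs.2 (abs_nonneg _)
        nlinarith
      have h3 := Real.cos_le_one_sub_mul_cos_sq h2
      have h4 : 2 / π ^ 2 * (2 * π * (t * s)) ^ 2 = 8 * t ^ 2 * s ^ 2 := by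
        field_simp
        ring
      linarith
    refine le_trans ?_ h1
    rw [intervalIntegral.integral_const_mul, integral_pow]
    have h5 : min 1 (b ^ 2 * t ^ 2) ≤ b ^ 2 * t ^ 2 := min_le_right _ _
    have h6 : 0 ≤ b * (b ^ 2 * t ^ 2) := by positivity
    norm_num
    nlinarith [mul_le_mul_of_nonneg_left h5 hb.le]
  · have ht : t ≠ 0 := by
      rintro rfl
      simp at h
      linarith
    have h1 : ∫ s in (0 : ℝ)..b, (1 - Real.cos (2 * π * (t * s))) =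
        b - Real.sin (2 * π * t * b) / (2 * π * t) := by
      rw [intervalIntegral.integral_sub (Continuous.intervalIntegrable (by fun_prop) _ _)
        (Continuous.intervalIntegrable (by fun_prop) _ _)]
      have e : ∀ s : ℝ, Real.cos (2 * π * (t * s)) = Real.cos ((2 * π * t) * s) := by
        intro s; congr 1; ring
      simp only [e]
      rw [intervalIntegral.integral_comp_mul_left (fun x => Real.cos x)
        (by positivity : 2 * π * t ≠ 0), integral_cos]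
      simp
      ring
    rw [h1]
    have h2 : |Real.sin (2 * π * t * b) / (2 * π * t)| ≤ b / 3 := by
      rw [abs_div, div_le_iff₀ (abs_pos.2 (by positivity)), abs_mul,
        abs_of_pos (by positivity : (0 : ℝ) < 2 * π)]
      have h3 := Real.abs_sin_le_one (2 * π * t * b)
      have h4 : 3 < π := Real.pi_gt_three
      nlinarith [abs_nonneg t]
    have h3 := (abs_le.1 h2).2
    have h4 : min 1 (b ^ 2 * t ^ 2) ≤ 1 := min_le_left _ _
    nlinarith

theorem min_sum_le (d : ℕ) (b : ℝ) (x : X d) :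
    min 1 (b ^ 2 * ‖x‖ ^ 2) ≤ ∑ i, min 1 (b ^ 2 * x i ^ 2) := by
  by_cases h : ∃ i, 1 ≤ b ^ 2 * x i ^ 2
  · obtain ⟨i, hi⟩ := h
    refine (min_le_left _ _).trans ?_
    calc (1 : ℝ) = min 1 (b ^ 2 * x i ^ 2) := (min_eq_left hi).symm
      _ ≤ ∑ i, min 1 (b ^ 2 * x i ^ 2) := Finset.single_le_sum
        (f := fun i => min 1 (b ^ 2 * x i ^ 2)) (fun j _ => le_min zero_le_one (by positivity))
        (Finset.mem_univ i)
  · push Not at h
    refine (min_le_right _ _).trans (le_of_eq ?_)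
    rw [EuclideanSpace.norm_sq_eq, Finset.mul_sum]
    refine Finset.sum_congr rfl fun i _ => ?_
    rw [min_eq_right (h i).le, Real.norm_eq_abs, sq_abs]

/-- If `W(s e_i) ≤ w` for `0 ≤ s ≤ b` and all coordinates `i`, then
`∫ min(1, b^2 |z|^2) dν ≤ C w` (average over `s`, Fubini, `cos_average`,
`min 1 (b^2|z|^2) ≤ ∑_i min 1 (b^2 z_i^2)`). -/
theorem Wf_axis (d : ℕ) (hd : 0 < d) : ∃ C : ℝ, 0 < C ∧ ∀ {Ω : Type} [MeasurableSpace Ω]
    (ν : Measure Ω) [IsFiniteMeasure ν] (z : Ω → X d), Measurable z → ∀ b w : ℝ, 0 < b →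
    (∀ i : Fin d, ∀ s ∈ Icc (0 : ℝ) b, Wf ν z (EuclideanSpace.single i s) ≤ w) →
    ∫ ω, min 1 (b ^ 2 * ‖z ω‖ ^ 2) ∂ν ≤ C * w := by
  obtain ⟨c, hc, hcos⟩ := cos_average
  have hd' : (0 : ℝ) < d := by exact_mod_cast hd
  refine ⟨d / c, by positivity, fun {Ω} _ ν _ z hz b w hb hw => ?_⟩
  have hzi : ∀ i : Fin d, Measurable fun ω => z ω i := fun i => by fun_prop
  have hmin : ∀ i : Fin d, Integrable (fun ω => min 1 (b ^ 2 * z ω i ^ 2)) ν := by
    intro i
    have hm : Measurable fun ω => min 1 (b ^ 2 * z ω i ^ 2) :=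
      measurable_const.min (((hzi i).pow_const 2).const_mul _)
    refine (integrable_const (1 : ℝ)).mono' hm.aestronglyMeasurable (ae_of_all _ fun ω => ?_)
    rw [Real.norm_eq_abs, abs_of_nonneg (le_min zero_le_one (by positivity))]
    exact min_le_left _ _
  -- one coordinate
  have key : ∀ i : Fin d, ∫ ω, min 1 (b ^ 2 * z ω i ^ 2) ∂ν ≤ w / c := by
    intro i
    have hF : ∀ s : ℝ, Wf ν z (EuclideanSpace.single i s) =
        ∫ ω, (1 - Real.cos (2 * π * (z ω i * s))) ∂ν := by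
      intro s
      unfold Wf
      congr 1
      ext ω
      rw [EuclideanSpace.inner_single_right]
      simp
      ring_nf
    have h1 : ∫ s in (0 : ℝ)..b, Wf ν z (EuclideanSpace.single i s) ≤ b * w := by
      have hcont : Continuous fun s : ℝ => Wf ν z (EuclideanSpace.single i s) :=
        (Wf_continuous ν hz).comp (by
          have : (EuclideanSpace.single i : ℝ → X d) =
            fun s : ℝ => s • (EuclideanSpace.single i (1 : ℝ) : X d) := by
            ext s j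
            simp [PiLp.single_apply]
          rw [this]
          fun_prop)
      calc ∫ s in (0 : ℝ)..b, Wf ν z (EuclideanSpace.single i s) ≤ ∫ _s in (0 : ℝ)..b, w :=
            intervalIntegral.integral_mono_on hb.le (hcont.intervalIntegrable _ _)
              (by simp) fun s hs => hw i s hs
        _ = b * w := by simp
    have h2 : ∫ s in (0 : ℝ)..b, Wf ν z (EuclideanSpace.single i s) =
        ∫ ω, (∫ s in (0 : ℝ)..b, (1 - Real.cos (2 * π * (z ω i * s)))) ∂ν := by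
      simp only [hF]
      rw [intervalIntegral.integral_of_le hb.le]
      simp only [intervalIntegral.integral_of_le hb.le]
      refine integral_integral_swap ?_
      refine (integrable_const (2 : ℝ)).mono' ?_ (ae_of_all _ fun q => ?_)
      · refine Measurable.aestronglyMeasurable ?_
        have : Measurable fun q : ℝ × Ω => z q.2 i * q.1 :=
          ((hzi i).comp measurable_snd).mul measurable_fst
        exact measurable_const.sub (Real.measurable_cos.comp (this.const_mul _))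
      · rw [Real.norm_eq_abs, abs_le]
        simp only [Function.uncurry]
        constructor <;> linarith [Real.neg_one_le_cos (2 * π * (z q.2 i * q.1)),
          Real.cos_le_one (2 * π * (z q.2 i * q.1))]
    have h3 : c * b * ∫ ω, min 1 (b ^ 2 * z ω i ^ 2) ∂ν ≤
        ∫ ω, (∫ s in (0 : ℝ)..b, (1 - Real.cos (2 * π * (z ω i * s)))) ∂ν := by
      rw [← integral_const_mul]
      refine integral_mono_of_nonneg (ae_of_all _ fun ω => ?_) ?_ (ae_of_all _ fun ω => ?_)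
      · have : 0 ≤ min 1 (b ^ 2 * z ω i ^ 2) := le_min zero_le_one (by positivity)
        simp only [Pi.zero_apply]
        positivity
      · have hm : Measurable fun ω => ∫ s in (0 : ℝ)..b, (1 - Real.cos (2 * π * (z ω i * s))) := by
          have hc' : Continuous fun t : ℝ => ∫ s in (0 : ℝ)..b, (1 - Real.cos (2 * π * (t * s))) := by
            refine intervalIntegral.continuous_parametric_intervalIntegral_of_continuous' ?_ _ _
            fun_prop
          exact hc'.measurable.comp (hzi i)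
        refine (integrable_const (2 * b : ℝ)).mono' hm.aestronglyMeasurable
          (ae_of_all _ fun ω => ?_)
        have := intervalIntegral.norm_integral_le_of_norm_le_const (a := (0 : ℝ)) (b := b)
          (f := fun s => 1 - Real.cos (2 * π * (z ω i * s))) (C := 2) (fun s _ => by
            rw [Real.norm_eq_abs, abs_le]
            constructor <;> linarith [Real.neg_one_le_cos (2 * π * (z ω i * s)),
              Real.cos_le_one (2 * π * (z ω i * s))])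
        rwa [sub_zero, abs_of_pos hb] at this
      · exact hcos b (z ω i) hb
    rw [le_div_iff₀ hc]
    have h4 : c * b * ∫ ω, min 1 (b ^ 2 * z ω i ^ 2) ∂ν ≤ b * w := h3.trans (h2 ▸ h1)
    have h5 : b * (c * ∫ ω, min 1 (b ^ 2 * z ω i ^ 2) ∂ν) ≤ b * w := by
      calc _ = c * b * ∫ ω, min 1 (b ^ 2 * z ω i ^ 2) ∂ν := by ring
        _ ≤ _ := h4
    have := le_of_mul_le_mul_left h5 hb
    linarith
  calc ∫ ω, min 1 (b ^ 2 * ‖z ω‖ ^ 2) ∂ν ≤ ∫ ω, ∑ i, min 1 (b ^ 2 * z ω i ^ 2) ∂ν := by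
        refine integral_mono_of_nonneg (ae_of_all _ fun ω => ?_)
          (integrable_finsetSum _ fun i _ => hmin i) (ae_of_all _ fun ω => min_sum_le d b (z ω))
        exact le_min zero_le_one (by positivity)
    _ = ∑ i, ∫ ω, min 1 (b ^ 2 * z ω i ^ 2) ∂ν := integral_finsetSum _ fun i _ => hmin i
    _ ≤ ∑ _i : Fin d, w / c := Finset.sum_le_sum fun i _ => key i
    _ = d / c * w := by simp; ring

end Pool.Agent.H82.Max
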