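import Pool.Agent.H82.Max.Coer
import Pool.Agent.H82.Max.Mom
import Pool.Agent.H82.Max.WMod

open MeasureTheory Set Filter Topology
open scoped ENNReal Real InnerProductSpace symmDiff

namespace Pool.Agent.H82.Max

variable {d : ℕ}

namespace Ker

/-! ### basic facts on the ball -/

lemma PPB (ξ : X d) : PP (Bl d) ξ = cs (Bl d) ξ ^ 2 := by
  unfold PP
  rw [sn_Bl]
  ring

lemma PPB_le_one (hd : 0 < d) (ξ : X d) : PP (Bl d) ξ ≤ 1 := PP_le_one (unitVol_Bl hd) ξ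

lemma abs_cs (hd : 0 < d) (ξ : X d) : |cs (Bl d) ξ| ≤ 1 := by
  have := PPB_le_one hd ξ
  rw [PPB] at this
  exact (sq_le_one_iff_abs_le_one _).mp this

lemma contP (hd : 0 < d) : Continuous (PP (Bl d)) :=
  PP_continuous (unitVol_Bl hd).meas (by rw [(unitVol_Bl hd).vol]; exact ENNReal.one_ne_top)

lemma contC (hd : 0 < d) : Continuous (cs (Bl d)) :=
  cs_continuous (unitVol_Bl hd).meas (by rw [(unitVol_Bl hd).vol]; exact ENNReal.one_ne_top)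

lemma contPr (hd : 0 < d) {q : ℝ} (hq : 0 ≤ q) : Continuous fun ξ : X d => PP (Bl d) ξ ^ q :=
  (contP hd).rpow_const fun _ => Or.inr hq

lemma intPr (hd : 0 < d) {q : ℝ} (hq : 1 ≤ q) : Integrable fun ξ : X d => PP (Bl d) ξ ^ q :=
  PP_rpow_integrable (unitVol_Bl hd) hq

lemma rp_nonneg (ξ : X d) (q : ℝ) : 0 ≤ PP (Bl d) ξ ^ q := Real.rpow_nonneg (PP_nonneg _ _) _

lemma intK (hd : 0 < d) {p : ℝ} (hp : 2 ≤ p) {h : X d → ℝ} (hc : Continuous h) {A : ℝ}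
    (hA : ∀ ξ, |h ξ| ≤ A) :
    Integrable fun ξ => PP (Bl d) ξ ^ (p - 1) * cs (Bl d) ξ * h ξ := by
  refine Integrable.mono' ((intPr hd (q := p - 1) (by linarith)).mul_const A) ?_ ?_
  · exact (((contPr hd (by linarith)).mul (contC hd)).mul hc).aestronglyMeasurable
  · refine Eventually.of_forall fun ξ => ?_
    rw [Real.norm_eq_abs, abs_mul, abs_mul, abs_of_nonneg (rp_nonneg _ _)]
    have h1 := abs_cs hd ξ
    have h2 := hA ξ
    have h3 := rp_nonneg ξ (p - 1)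
    calc _ ≤ PP (Bl d) ξ ^ (p - 1) * 1 * A := by gcongr
      _ = _ := by ring

lemma cont_cos (x : X d) : Continuous fun ξ : X d => Real.cos (2 * π * ⟪x, ξ⟫_ℝ) := by fun_prop

lemma KK_sub (hd : 0 < d) {p : ℝ} (hp : 2 ≤ p) (x y : X d) :
    KK d p x - KK d p y = ∫ ξ, PP (Bl d) ξ ^ (p - 1) * cs (Bl d) ξ *
      (Real.cos (2 * π * ⟪x, ξ⟫_ℝ) - Real.cos (2 * π * ⟪y, ξ⟫_ℝ)) := by
  unfold KK
  rw [← integral_sub (intK hd hp (cont_cos x) (A := 1) fun ξ => Real.abs_cos_le_one _)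
    (intK hd hp (cont_cos y) (A := 1) fun ξ => Real.abs_cos_le_one _)]
  congr 1
  ext ξ
  ring

/-- the constants attached to the ball -/
lemma consts (hd : 0 < d) : ∃ c₀ : ℝ, 0 < c₀ ∧ c₀ ≤ 1 / 2 ∧
    ∀ ξ : X d, PP (Bl d) ξ ≤ 1 - c₀ * min 1 (‖ξ‖ ^ 2) := by
  obtain ⟨δ₀, c₀, hδ, hc, hc', h⟩ := coer hd
  refine ⟨c₀, hc, hc', fun ξ => ?_⟩
  have := h (Bl d) (unitVol_Bl hd) (by simp [hδ.le]) ξ
  linarith

lemma pow_split {a p : ℝ} (ha : 0 ≤ a) (hp : 2 ≤ p) : a ^ (p - 1) = a ^ (p - 2) * a := by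
  have := Real.rpow_add_of_nonneg ha (y := p - 2) (z := 1) (by linarith) zero_le_one
  rw [Real.rpow_one] at this
  rw [← this]
  congr 1
  ring

lemma int_sq (hd : 0 < d) {p : ℝ} (hp : 3 ≤ p) :
    Integrable fun ξ : X d => PP (Bl d) ξ ^ (p - 1) * ‖ξ‖ ^ 2 := by
  obtain ⟨C, hC, h⟩ := PP_Bl_decay hd
  refine Integrable.mono' ((intPr hd (q := p - 2) (by linarith)).mul_const C) ?_ ?_
  · exact ((contPr hd (by linarith)).mul (continuous_norm.pow 2)).aestronglyMeasurable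
  · refine Eventually.of_forall fun ξ => ?_
    have h3 := rp_nonneg ξ (p - 2)
    rw [Real.norm_of_nonneg (mul_nonneg (rp_nonneg _ _) (by positivity)),
      pow_split (PP_nonneg _ _) (by linarith)]
    calc _ = PP (Bl d) ξ ^ (p - 2) * (‖ξ‖ ^ 2 * PP (Bl d) ξ) := by ring
      _ ≤ _ := by gcongr; exact h ξ

/-- the tail of the second moment -/
lemma tail (hd : 0 < d) : ∃ c₀ C₁ C₂ : ℝ, 0 < c₀ ∧ 0 < C₁ ∧ 0 < C₂ ∧ ∀ p : ℝ, 4 ≤ p →
    ∀ θ : ℝ, 0 ≤ θ → ∫ ξ in {ξ : X d | θ < ‖ξ‖}, PP (Bl d) ξ ^ (p - 1) * ‖ξ‖ ^ 2 ≤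
      (C₁ * Real.exp (-(c₀ * θ ^ 2 * p)) + C₂ / p) * p ^ (-(d : ℝ) / 2 - 1) := by
  obtain ⟨c₀, hc₀, hc₀', hP⟩ := consts hd
  obtain ⟨Cd, hCd, hdec⟩ := PP_Bl_decay hd
  obtain ⟨Cm, hCm, hmom⟩ := mom d 2 hc₀
  obtain ⟨Ce, hCe, hexp⟩ := exp_le_rpow hc₀ ((d : ℝ) / 2 + 2)
  refine ⟨c₀ / 4, Cm * 4 ^ ((d : ℝ) / 2 + 1), Cd * (Real.exp (3 * c₀) * Ce), by positivity,
    by positivity, by positivity, fun p hp θ hθ => ?_⟩
  have hp0 : 0 < p := by linarith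
  have hmP : Measurable (PP (Bl d)) := (contP hd).measurable
  set S : Set (X d) := {ξ : X d | θ < ‖ξ‖} with hS
  have hSm : MeasurableSet S := measurableSet_lt measurable_const measurable_norm
  set B1 : Set (X d) := Metric.closedBall 0 1 with hB1
  have hBm : MeasurableSet B1 := measurableSet_closedBall
  have hI1 : IntegrableOn (fun ξ : X d => ‖ξ‖ ^ 2 * PP (Bl d) ξ ^ ((p - 1) / 2)) B1 := by
    refine ContinuousOn.integrableOn_compact (isCompact_closedBall _ _) ?_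
    exact ((continuous_norm.pow 2).mul (contPr hd (by linarith))).continuousOn
  have hI2 : IntegrableOn (fun ξ : X d => PP (Bl d) ξ ^ (p - 2)) B1ᶜ :=
    (intPr hd (by linarith)).integrableOn
  have hI3 := int_sq hd (p := p) (by linarith)
  set e0 : ℝ := Real.exp (-(c₀ / 4 * θ ^ 2 * p)) with he0
  have hstep : ∫ ξ in S, PP (Bl d) ξ ^ (p - 1) * ‖ξ‖ ^ 2 ≤
      (∫ ξ in B1, e0 * (‖ξ‖ ^ 2 * PP (Bl d) ξ ^ ((p - 1) / 2))) +
      ∫ ξ in B1ᶜ, Cd * PP (Bl d) ξ ^ (p - 2) := by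
    have hJ1 : IntegrableOn (fun ξ : X d => e0 * (‖ξ‖ ^ 2 * PP (Bl d) ξ ^ ((p - 1) / 2))) B1 :=
      hI1.const_mul e0
    have hJ2 : IntegrableOn (fun ξ : X d => Cd * PP (Bl d) ξ ^ (p - 2)) B1ᶜ := hI2.const_mul Cd
    rw [← integral_indicator hSm, ← integral_indicator hBm, ← integral_indicator hBm.compl,
      ← integral_add (hJ1.integrable_indicator hBm) (hJ2.integrable_indicator hBm.compl)]
    refine integral_mono (hI3.indicator hSm) ((hJ1.integrable_indicator hBm).add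
        (hJ2.integrable_indicator hBm.compl)) ?_
    intro ξ
    simp only
    have h0 := PP_nonneg (Bl d) ξ
    by_cases hξB : ξ ∈ B1
    · rw [indicator_of_mem hξB (fun ξ : X d => e0 * (‖ξ‖ ^ 2 * PP (Bl d) ξ ^ ((p - 1) / 2))),
        indicator_of_notMem (fun h : ξ ∈ B1ᶜ => h hξB)]
      rw [add_zero]
      have hn1 : ‖ξ‖ ≤ 1 := by simpa [hB1] using hξB
      by_cases hξ : ξ ∈ S
      · rw [indicator_of_mem hξ]
        have hθξ : θ < ‖ξ‖ := hξ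
        have e1 : PP (Bl d) ξ ^ (p - 1) = PP (Bl d) ξ ^ ((p - 1) / 2) * PP (Bl d) ξ ^ ((p - 1) / 2) := by
          rw [← Real.rpow_add_of_nonneg h0 (by linarith) (by linarith)]
          congr 1
          ring
        have e2 : PP (Bl d) ξ ≤ Real.exp (-(c₀ * θ ^ 2)) := by
          have h1 := hP ξ
          have h2 : ‖ξ‖ ^ 2 ≤ 1 := by nlinarith [norm_nonneg ξ]
          rw [min_eq_right h2] at h1
          have h3 : θ ^ 2 ≤ ‖ξ‖ ^ 2 := by gcongr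
          have h4 := Real.add_one_le_exp (-(c₀ * θ ^ 2))
          nlinarith
        have e3 : PP (Bl d) ξ ^ ((p - 1) / 2) ≤ e0 := by
          calc PP (Bl d) ξ ^ ((p - 1) / 2) ≤ (Real.exp (-(c₀ * θ ^ 2))) ^ ((p - 1) / 2) := by
                gcongr
                linarith
            _ = Real.exp (-(c₀ * θ ^ 2) * ((p - 1) / 2)) := by rw [← Real.exp_mul]
            _ ≤ e0 := by
                rw [he0]
                apply Real.exp_le_exp.mpr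
                have : 0 ≤ c₀ * θ ^ 2 := by positivity
                nlinarith
        rw [e1]
        have h5 := rp_nonneg ξ ((p - 1) / 2)
        calc PP (Bl d) ξ ^ ((p - 1) / 2) * PP (Bl d) ξ ^ ((p - 1) / 2) * ‖ξ‖ ^ 2
            ≤ e0 * PP (Bl d) ξ ^ ((p - 1) / 2) * ‖ξ‖ ^ 2 := by gcongr
          _ = _ := by ring
      · rw [indicator_of_notMem hξ]
        have h5 := rp_nonneg ξ ((p - 1) / 2)
        positivity
    · rw [indicator_of_notMem hξB (fun ξ : X d => e0 * (‖ξ‖ ^ 2 * PP (Bl d) ξ ^ ((p - 1) / 2))),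
        indicator_of_mem (show ξ ∈ B1ᶜ from hξB) (fun ξ : X d => Cd * PP (Bl d) ξ ^ (p - 2)),
        zero_add]
      have h6 := rp_nonneg ξ (p - 2)
      by_cases hξ : ξ ∈ S
      · rw [indicator_of_mem hξ, pow_split h0 (by linarith)]
        calc PP (Bl d) ξ ^ (p - 2) * PP (Bl d) ξ * ‖ξ‖ ^ 2
            = (‖ξ‖ ^ 2 * PP (Bl d) ξ) * PP (Bl d) ξ ^ (p - 2) := by ring
          _ ≤ _ := by gcongr; exact hdec ξ
      · rw [indicator_of_notMem hξ]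
        positivity
  have h1 : ∫ ξ in B1, e0 * (‖ξ‖ ^ 2 * PP (Bl d) ξ ^ ((p - 1) / 2)) ≤
      e0 * (Cm * 4 ^ ((d : ℝ) / 2 + 1) * p ^ (-(d : ℝ) / 2 - 1)) := by
    rw [integral_const_mul]
    have he : 0 ≤ e0 := (Real.exp_pos _).le
    refine mul_le_mul_of_nonneg_left ?_ he
    refine (hmom (PP (Bl d)) hmP (PP_nonneg _) hP ((p - 1) / 2) (by linarith)).trans ?_
    rw [mul_assoc]
    refine mul_le_mul_of_nonneg_left ?_ hCm.le
    have e1 : ((4:ℝ)) ^ ((d : ℝ) / 2 + 1) * p ^ (-(d : ℝ) / 2 - 1) = (p / 4) ^ (-(d : ℝ) / 2 - 1) := by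
      rw [Real.div_rpow hp0.le (by norm_num)]
      rw [show ((d : ℝ) / 2 + 1) = -(-(d : ℝ) / 2 - 1) by ring, Real.rpow_neg (by norm_num)]
      field_simp
    rw [e1]
    have e2 : (-((d : ℝ) + ((2 : ℕ) : ℝ)) / 2) = -(d : ℝ) / 2 - 1 := by push_cast; ring
    rw [e2]
    apply Real.rpow_le_rpow_of_nonpos (by positivity) (by linarith)
    have : (0:ℝ) ≤ d := Nat.cast_nonneg d
    linarith
  have h2 : ∫ ξ in B1ᶜ, Cd * PP (Bl d) ξ ^ (p - 2) ≤
      Cd * (Real.exp (3 * c₀) * Ce) / p * p ^ (-(d : ℝ) / 2 - 1) := by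
    rw [integral_const_mul]
    have hm := mom_out d hc₀ (PP (Bl d)) (PP_integrable (unitVol_Bl hd)) (PP_nonneg _) hP
      (integral_PP (unitVol_Bl hd)).le (p - 2) (by linarith)
    have he := hexp p (by linarith)
    have e3 : Real.exp (-c₀ * (p - 2 - 1)) = Real.exp (3 * c₀) * Real.exp (-c₀ * p) := by
      rw [← Real.exp_add]
      congr 1
      ring
    have e4 : p ^ (-((d : ℝ) / 2 + 2)) = p⁻¹ * p ^ (-(d : ℝ) / 2 - 1) := by
      rw [← Real.rpow_neg_one, ← Real.rpow_add hp0]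
      congr 1
      ring
    calc Cd * ∫ ξ in B1ᶜ, PP (Bl d) ξ ^ (p - 2)
        ≤ Cd * (Real.exp (3 * c₀) * (Ce * p ^ (-((d : ℝ) / 2 + 2)))) := by
          refine mul_le_mul_of_nonneg_left ?_ hCd.le
          refine hm.trans ?_
          rw [e3]
          gcongr
      _ = _ := by
          rw [e4]
          ring
  calc _ ≤ _ := hstep
    _ ≤ e0 * (Cm * 4 ^ ((d : ℝ) / 2 + 1) * p ^ (-(d : ℝ) / 2 - 1)) +
        Cd * (Real.exp (3 * c₀) * Ce) / p * p ^ (-(d : ℝ) / 2 - 1) := add_le_add h1 h2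
    _ = _ := by ring

open scoped Pointwise in
/-- scaling of integrals over balls -/
lemma scale {a : ℝ} (ha : 0 < a) (g : X d → ℝ) :
    ∫ ξ in Metric.closedBall (0 : X d) (a * rd d), g ξ = a ^ d * ∫ η in Bl d, g (a • η) := by
  have h := Measure.setIntegral_comp_smul_of_pos (μ := (volume : Measure (X d))) g (Bl d) ha
  rw [h]
  have e1 : a • Bl d = Metric.closedBall (0 : X d) (a * rd d) := by
    unfold Bl
    rw [smul_closedBall _ _ (rd_pos d).le, smul_zero, Real.norm_of_nonneg ha.le]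
  rw [e1, finrank_euclideanSpace_fin, smul_eq_mul, ← mul_assoc, mul_inv_cancel₀ (by positivity),
    one_mul]

lemma exp_le_one_sub {u : ℝ} (h0 : 0 ≤ u) (h1 : u ≤ 1 / 2) : Real.exp (-(2 * u)) ≤ 1 - u := by
  rw [Real.exp_neg]
  have h2 := Real.add_one_le_exp (2 * u)
  have h3 : (Real.exp (2 * u))⁻¹ ≤ (2 * u + 1)⁻¹ := inv_anti₀ (by linarith) h2
  refine h3.trans ?_
  rw [inv_le_iff_one_le_mul₀ (by linarith)]
  nlinarith

/-- the constant `b = 4 π² sg rd²` -/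
noncomputable def bb (d : ℕ) : ℝ := 4 * π ^ 2 * sg d * rd d ^ 2

lemma bb_pos (hd : 0 < d) : 0 < bb d := by
  have := sg_pos hd
  have := rd_pos d
  unfold bb
  positivity

/-- inside the ball of radius `rd/√p` the weight is bounded below -/
lemma inner_lower (hd : 0 < d) {p : ℝ} (hp : 4 ≤ p) (hpb : 2 * bb d ≤ p) {ξ : X d}
    (hξ : ‖ξ‖ ≤ (√p)⁻¹ * rd d) :
    Real.exp (-(2 * bb d)) / 2 ≤ PP (Bl d) ξ ^ (p - 1) * cs (Bl d) ξ := by
  have hp0 : 0 < p := by linarith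
  have hb := bb_pos hd
  have hs := sg_pos hd
  have hr := rd_pos d
  have h1 : ‖ξ‖ ^ 2 ≤ rd d ^ 2 / p := by
    calc ‖ξ‖ ^ 2 ≤ ((√p)⁻¹ * rd d) ^ 2 := by gcongr
      _ = rd d ^ 2 / p := by
        rw [mul_pow, inv_pow, Real.sq_sqrt hp0.le]
        ring
  have h2 : 4 * π ^ 2 * sg d * ‖ξ‖ ^ 2 ≤ bb d / p := by
    calc 4 * π ^ 2 * sg d * ‖ξ‖ ^ 2 ≤ 4 * π ^ 2 * sg d * (rd d ^ 2 / p) := by gcongr
      _ = bb d / p := by unfold bb; ring
  have hbp : bb d / p ≤ 1 / 2 := by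
    rw [div_le_iff₀ hp0]
    linarith
  have hbp0 : 0 ≤ bb d / p := by positivity
  have h3 : 1 - bb d / p ≤ PP (Bl d) ξ := by
    have := one_sub_PP_Bl_le hd ξ
    linarith
  have h4 : 1 / 2 ≤ cs (Bl d) ξ := by
    have := one_sub_cs_Bl_le hd ξ
    nlinarith
  have h5 : Real.exp (-(2 * bb d)) ≤ PP (Bl d) ξ ^ (p - 1) := by
    calc Real.exp (-(2 * bb d)) = (Real.exp (-(2 * (bb d / p)))) ^ p := by
          rw [← Real.exp_mul]
          congr 1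
          field_simp
      _ ≤ (1 - bb d / p) ^ p := by
          gcongr
          exact exp_le_one_sub hbp0 hbp
      _ ≤ PP (Bl d) ξ ^ p := by
          gcongr
          linarith
      _ ≤ PP (Bl d) ξ ^ (p - 1) := by
          apply Real.rpow_le_rpow_of_exponent_ge (by linarith) (PPB_le_one hd ξ) (by linarith)
  have h6 := rp_nonneg ξ (p - 1)
  calc Real.exp (-(2 * bb d)) / 2 = Real.exp (-(2 * bb d)) * (1 / 2) := by ring
    _ ≤ _ := by gcongr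

lemma sqrt_pow {p : ℝ} (hp : 0 < p) (d : ℕ) : ((√p)⁻¹) ^ d = p ^ (-(d : ℝ) / 2) := by
  rw [Real.sqrt_eq_rpow, ← Real.rpow_neg hp.le, ← Real.rpow_natCast, ← Real.rpow_mul hp.le]
  congr 1
  ring

/-- `cos a - cos b` bounds -/
lemma cos_sub_abs (s t u : ℝ) (hs : 0 ≤ s) (hst : s ≤ t) :
    |Real.cos (2 * π * (s * u)) - Real.cos (2 * π * (t * u))| ≤
      2 * π ^ 2 * (t ^ 2 - s ^ 2) * u ^ 2 := by
  rw [Real.cos_sub_cos]
  rw [abs_mul, abs_mul]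
  have ht : 0 ≤ t := hs.trans hst
  have h1 : |Real.sin ((2 * π * (s * u) + 2 * π * (t * u)) / 2)| ≤ π * (s + t) * |u| := by
    refine (Real.abs_sin_le_abs (x := _)).trans ?_
    rw [show (2 * π * (s * u) + 2 * π * (t * u)) / 2 = π * (s + t) * u by ring, abs_mul,
      abs_of_nonneg (by positivity)]
  have h2 : |Real.sin ((2 * π * (s * u) - 2 * π * (t * u)) / 2)| ≤ π * (t - s) * |u| := by
    refine (Real.abs_sin_le_abs (x := _)).trans ?_
    rw [show (2 * π * (s * u) - 2 * π * (t * u)) / 2 = -(π * (t - s)) * u by ring, abs_mul, abs_neg,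
      abs_of_nonneg (mul_nonneg Real.pi_pos.le (by linarith))]
  have h3 : |(-2 : ℝ)| = 2 := by norm_num
  rw [h3]
  have h4 : 0 ≤ π * (t - s) * |u| := le_trans (abs_nonneg _) h2
  have h5 : 0 ≤ π * (s + t) * |u| := le_trans (abs_nonneg _) h1
  calc 2 * |Real.sin ((2 * π * (s * u) + 2 * π * (t * u)) / 2)| *
        |Real.sin ((2 * π * (s * u) - 2 * π * (t * u)) / 2)|
      ≤ 2 * (π * (s + t) * |u|) * (π * (t - s) * |u|) := by gcongr
    _ = 2 * π ^ 2 * (t ^ 2 - s ^ 2) * (|u| ^ 2) := by ring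
    _ = _ := by rw [sq_abs]

lemma cos_sub_lower (s t u : ℝ) (hs : 0 ≤ s) (hst : s ≤ t) (hu : (s + t) * |u| ≤ 1 / 2) :
    8 * (t ^ 2 - s ^ 2) * u ^ 2 ≤
      Real.cos (2 * π * (s * u)) - Real.cos (2 * π * (t * u)) := by
  have key : ∀ u : ℝ, 0 ≤ u → (s + t) * u ≤ 1 / 2 → 8 * (t ^ 2 - s ^ 2) * u ^ 2 ≤
      Real.cos (2 * π * (s * u)) - Real.cos (2 * π * (t * u)) := by
    intro u hu0 hu
    rw [Real.cos_sub_cos]
    rw [show (2 * π * (s * u) + 2 * π * (t * u)) / 2 = π * (s + t) * u by ring,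
      show (2 * π * (s * u) - 2 * π * (t * u)) / 2 = -(π * (t - s) * u) by ring, Real.sin_neg]
    have hpi := Real.pi_pos
    have hts : 0 ≤ t - s := by linarith
    have ht : 0 ≤ t := hs.trans hst
    have h0 : 0 ≤ π * (s + t) * u := by positivity
    have h0' : 0 ≤ π * (t - s) * u := by positivity
    have h1 : 2 / π * (π * (s + t) * u) ≤ Real.sin (π * (s + t) * u) := by
      apply Real.mul_le_sin h0
      nlinarith
    have h2 : 2 / π * (π * (t - s) * u) ≤ Real.sin (π * (t - s) * u) := by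
      apply Real.mul_le_sin h0'
      have : (t - s) * u ≤ (s + t) * u := by gcongr; linarith
      nlinarith
    have e1 : 2 / π * (π * (s + t) * u) = 2 * (s + t) * u := by field_simp
    have e2 : 2 / π * (π * (t - s) * u) = 2 * (t - s) * u := by field_simp
    rw [e1] at h1
    rw [e2] at h2
    have h3 : 0 ≤ 2 * (s + t) * u := by positivity
    have h4 : 0 ≤ 2 * (t - s) * u := by positivity
    calc 8 * (t ^ 2 - s ^ 2) * u ^ 2 = 2 * ((2 * (s + t) * u) * (2 * (t - s) * u)) := by ring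
      _ ≤ 2 * (Real.sin (π * (s + t) * u) * Real.sin (π * (t - s) * u)) := by
        have h5 := h3.trans h1
        gcongr
      _ = _ := by ring
  have h := key |u| (abs_nonneg _) hu
  rw [sq_abs] at h
  rcases abs_cases u with ⟨h1, _⟩ | ⟨h1, _⟩
  · rw [h1] at h
    exact h
  · rw [h1] at h
    rw [show 2 * π * (s * -u) = -(2 * π * (s * u)) by ring,
      show 2 * π * (t * -u) = -(2 * π * (t * u)) by ring, Real.cos_neg, Real.cos_neg] at h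
    exact h

end Ker

open Ker

theorem KK_radial {p : ℝ} (hp : 2 ≤ p) {x y : X d} (h : ‖x‖ = ‖y‖) : KK d p x = KK d p y := by
  set T := Submodule.reflection (ℝ ∙ (x - y))ᗮ with hT
  have hTx : T x = y := Submodule.reflection_sub h
  unfold KK
  have h1 := (LinearIsometryEquiv.measurePreserving T).integral_comp
    T.toHomeomorph.measurableEmbedding
    (fun ξ => PP (Bl d) ξ ^ (p - 1) * cs (Bl d) ξ * Real.cos (2 * π * ⟪y, ξ⟫_ℝ))
  rw [← h1]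
  congr 1
  ext ξ
  have h2 : ‖T ξ‖ = ‖ξ‖ := T.norm_map ξ
  have h3 : cs (Bl d) (T ξ) = cs (Bl d) ξ := cs_Bl_radial h2
  rw [PPB, PPB, h3, ← hTx, LinearIsometryEquiv.inner_map_map]

namespace Ker

/-- the core estimate along a ray -/
lemma ray (hd : 0 < d) : ∃ c c₁ P : ℝ, 0 < c ∧ 0 < c₁ ∧ 4 ≤ P ∧ ∀ p : ℝ, P ≤ p →
    ∀ (e : X d) (s t : ℝ), ‖e‖ = 1 → 0 ≤ s → s ≤ t → t ≤ c₁ * √p →
      c * p ^ (-(d : ℝ) / 2 - 1) * (t ^ 2 - s ^ 2) ≤ KK d p (s • e) - KK d p (t • e) := by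
  obtain ⟨c₀, C₁, C₂, hc₀, hC₁, hC₂, htail⟩ := tail hd
  have hs := sg_pos hd
  have hr := rd_pos d
  have hb := bb_pos hd
  -- the main constant
  set m : ℝ := 4 * Real.exp (-(2 * bb d)) * sg d with hm
  have hm0 : 0 < m := by positivity
  -- choice of c₁
  obtain ⟨L, hL0, hL⟩ : ∃ L : ℝ, 0 < L ∧ 2 * π ^ 2 * (C₁ * Real.exp (-L)) ≤ m / 4 := by
    have hA : 0 < 2 * π ^ 2 * C₁ := by positivity
    refine ⟨2 * π ^ 2 * C₁ * 4 / m, by positivity, ?_⟩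
    set A := 2 * π ^ 2 * C₁ with hAdef
    have h1 : Real.exp (-(A * 4 / m)) ≤ (A * 4 / m)⁻¹ := by
      rw [Real.exp_neg]
      apply inv_anti₀ (by positivity)
      linarith [Real.add_one_le_exp (A * 4 / m)]
    calc 2 * π ^ 2 * (C₁ * Real.exp (-(A * 4 / m))) = A * Real.exp (-(A * 4 / m)) := by
          rw [hAdef]; ring
      _ ≤ A * (A * 4 / m)⁻¹ := by gcongr
      _ = m / 4 := by field_simp
  set c₁ : ℝ := min (1 / (4 * rd d)) (√(c₀ / (16 * L))) with hc₁def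
  have hc₁ : 0 < c₁ := lt_min (by positivity) (Real.sqrt_pos.mpr (by positivity))
  have hc₁r : c₁ * (4 * rd d) ≤ 1 := by
    have : c₁ ≤ 1 / (4 * rd d) := min_le_left _ _
    rwa [le_div_iff₀ (by positivity)] at this
  have hc₁L : L ≤ c₀ / (16 * c₁ ^ 2) := by
    have h1 : c₁ ≤ √(c₀ / (16 * L)) := min_le_right _ _
    have h2 : c₁ ^ 2 ≤ c₀ / (16 * L) := by
      calc c₁ ^ 2 ≤ (√(c₀ / (16 * L))) ^ 2 := by gcongr
        _ = _ := Real.sq_sqrt (by positivity)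
    rw [le_div_iff₀ (by positivity)] at h2 ⊢
    linarith
  -- choice of P
  set P : ℝ := max (max 4 (2 * bb d)) (max (2 * π ^ 2 * C₂ * 4 / m)
    (sg d * π ^ 2 / (4 * c₁ ^ 2))) with hPdef
  refine ⟨m / 2, c₁, P, by positivity, hc₁, (le_max_left _ _).trans (le_max_left _ _),
    fun p hp e s t he hs0 hst ht => ?_⟩
  have hp4 : 4 ≤ p := ((le_max_left _ _).trans (le_max_left _ _)).trans hp
  have hpb : 2 * bb d ≤ p := ((le_max_right _ _).trans (le_max_left _ _)).trans hp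
  have hpm : 2 * π ^ 2 * C₂ * 4 / m ≤ p := ((le_max_left _ _).trans (le_max_right _ _)).trans hp
  have hps : sg d * π ^ 2 / (4 * c₁ ^ 2) ≤ p :=
    ((le_max_right _ _).trans (le_max_right _ _)).trans hp
  have hp0 : 0 < p := by linarith
  have hsp : 0 < √p := Real.sqrt_pos.mpr hp0
  have hsp2 : √p ^ 2 = p := Real.sq_sqrt hp0.le
  set a : ℝ := (√p)⁻¹ with ha
  have ha0 : 0 < a := by positivity
  have ha2 : a ^ 2 = p⁻¹ := by rw [ha, inv_pow, hsp2]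
  set θ : ℝ := 1 / (4 * c₁ * √p) with hθ
  have hθ0 : 0 < θ := by positivity
  have hθ2 : θ ^ 2 = 1 / (16 * c₁ ^ 2 * p) := by
    rw [hθ, div_pow, mul_pow, mul_pow, hsp2]
    ring
  have haθ : a * rd d ≤ θ := by
    rw [hθ, le_div_iff₀ (by positivity), ha]
    calc (√p)⁻¹ * rd d * (4 * c₁ * √p) = c₁ * (4 * rd d) * ((√p)⁻¹ * √p) := by ring
      _ = c₁ * (4 * rd d) := by rw [inv_mul_cancel₀ hsp.ne', mul_one]
      _ ≤ 1 := hc₁r
  have hts : 0 ≤ t ^ 2 - s ^ 2 := by nlinarith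
  have ht0 : 0 ≤ t := hs0.trans hst
  -- the positive and negative parts
  set g : X d → ℝ := fun ξ => m / sg d * (t ^ 2 - s ^ 2) * ⟪ξ, e⟫_ℝ ^ 2 with hg
  set n : X d → ℝ := fun ξ => 2 * π ^ 2 * (t ^ 2 - s ^ 2) * (PP (Bl d) ξ ^ (p - 1) * ‖ξ‖ ^ 2) with hn
  set Bs : Set (X d) := Metric.closedBall 0 (a * rd d) with hBs
  set S : Set (X d) := {ξ : X d | θ < ‖ξ‖} with hS
  have hSm : MeasurableSet S := measurableSet_lt measurable_const measurable_norm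
  have hBm : MeasurableSet Bs := measurableSet_closedBall
  have hgc : Continuous g := by
    rw [hg]
    fun_prop
  have hgI : IntegrableOn g Bs := hgc.continuousOn.integrableOn_compact (isCompact_closedBall _ _)
  have hnI : Integrable n := (int_sq hd (p := p) (by linarith)).const_mul _
  have hkI : Integrable (fun ξ => PP (Bl d) ξ ^ (p - 1) * cs (Bl d) ξ *
      (Real.cos (2 * π * ⟪s • e, ξ⟫_ℝ) - Real.cos (2 * π * ⟪t • e, ξ⟫_ℝ))) := by
    refine intK hd (by linarith) (A := 2) ((cont_cos _).sub (cont_cos _)) fun ξ => ?_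
    refine (abs_sub _ _).trans ?_
    linarith [Real.abs_cos_le_one (2 * π * ⟪s • e, ξ⟫_ℝ), Real.abs_cos_le_one (2 * π * ⟪t • e, ξ⟫_ℝ)]
  have hpt : ∀ ξ, Bs.indicator g ξ - S.indicator n ξ ≤ PP (Bl d) ξ ^ (p - 1) * cs (Bl d) ξ *
      (Real.cos (2 * π * ⟪s • e, ξ⟫_ℝ) - Real.cos (2 * π * ⟪t • e, ξ⟫_ℝ)) := by
    intro ξ
    set u : ℝ := ⟪ξ, e⟫_ℝ with hu
    have e1 : ⟪s • e, ξ⟫_ℝ = s * u := by rw [real_inner_smul_left, real_inner_comm]
    have e2 : ⟪t • e, ξ⟫_ℝ = t * u := by rw [real_inner_smul_left, real_inner_comm]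
    rw [e1, e2]
    have huξ : |u| ≤ ‖ξ‖ := by
      have := abs_real_inner_le_norm ξ e
      rwa [he, mul_one] at this
    have hrp := rp_nonneg ξ (p - 1)
    have hc := abs_cs hd ξ
    by_cases hξS : ξ ∈ S
    · have hξB : ξ ∉ Bs := by
        intro h
        have h1 : ‖ξ‖ ≤ a * rd d := by simpa [hBs] using h
        have h2 : θ < ‖ξ‖ := hξS
        linarith
      rw [indicator_of_notMem hξB, indicator_of_mem hξS, zero_sub]
      have h1 := cos_sub_abs s t u hs0 hst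
      have h2 : |PP (Bl d) ξ ^ (p - 1) * cs (Bl d) ξ *
          (Real.cos (2 * π * (s * u)) - Real.cos (2 * π * (t * u)))| ≤ n ξ := by
        rw [abs_mul, abs_mul, abs_of_nonneg hrp]
        have h3 : u ^ 2 ≤ ‖ξ‖ ^ 2 := by
          rw [← sq_abs u]
          gcongr
        calc _ ≤ PP (Bl d) ξ ^ (p - 1) * 1 * (2 * π ^ 2 * (t ^ 2 - s ^ 2) * u ^ 2) := by gcongr
          _ ≤ PP (Bl d) ξ ^ (p - 1) * 1 * (2 * π ^ 2 * (t ^ 2 - s ^ 2) * ‖ξ‖ ^ 2) := by gcongr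
          _ = n ξ := by rw [hn]; ring
      exact (abs_le.mp h2).1
    · rw [indicator_of_notMem hξS, sub_zero]
      have hξθ : ‖ξ‖ ≤ θ := not_lt.mp hξS
      have h0 : (s + t) * |u| ≤ 1 / 2 := by
        calc (s + t) * |u| ≤ (c₁ * √p + c₁ * √p) * θ := by
              gcongr
              · exact hst.trans ht
              · exact huξ.trans hξθ
          _ = 1 / 2 := by
              rw [hθ]
              field_simp
              norm_num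
      have h1 := cos_sub_lower s t u hs0 hst h0
      have h1' : 0 ≤ 8 * (t ^ 2 - s ^ 2) * u ^ 2 := by positivity
      by_cases hξB : ξ ∈ Bs
      · rw [indicator_of_mem hξB]
        have h2 : ‖ξ‖ ≤ a * rd d := by simpa [hBs] using hξB
        have h3 := inner_lower hd hp4 hpb h2
        have h4 : 0 ≤ PP (Bl d) ξ ^ (p - 1) * cs (Bl d) ξ := le_trans (by positivity) h3
        calc g ξ = Real.exp (-(2 * bb d)) / 2 * (8 * (t ^ 2 - s ^ 2) * u ^ 2) := by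
              rw [hg, hm]
              field_simp
              ring
          _ ≤ _ := by gcongr
      · rw [indicator_of_notMem hξB]
        have hcs : 0 ≤ cs (Bl d) ξ := by
          have h2 := one_sub_cs_Bl_le hd ξ
          have h3 : ‖ξ‖ ^ 2 ≤ θ ^ 2 := by gcongr
          rw [hθ2] at h3
          have h4 : 2 * π ^ 2 * sg d * ‖ξ‖ ^ 2 ≤ 2 * π ^ 2 * sg d * (1 / (16 * c₁ ^ 2 * p)) := by
            gcongr
          have h5 : 2 * π ^ 2 * sg d * (1 / (16 * c₁ ^ 2 * p)) ≤ 1 := by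
            rw [div_le_iff₀ (by positivity)] at hps
            rw [mul_one_div, div_le_one (by positivity)]
            nlinarith
          linarith
        have : 0 ≤ PP (Bl d) ξ ^ (p - 1) * cs (Bl d) ξ := mul_nonneg hrp hcs
        exact mul_nonneg this (h1'.trans h1)
  have hint : ∫ ξ, (Bs.indicator g ξ - S.indicator n ξ) ≤ _ :=
    integral_mono ((hgI.integrable_indicator hBm).sub (hnI.indicator hSm)) hkI hpt
  rw [← KK_sub hd (by linarith)] at hint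
  have hint2 : ∫ ξ, (Bs.indicator g ξ - S.indicator n ξ) =
      (∫ ξ in Bs, g ξ) - ∫ ξ in S, n ξ := by
    rw [integral_sub (hgI.integrable_indicator hBm) (hnI.indicator hSm),
      integral_indicator hBm, integral_indicator hSm]
  have hint3 : ∫ ξ in Bs, g ξ = m * (t ^ 2 - s ^ 2) * p ^ (-(d : ℝ) / 2 - 1) := by
    rw [hBs, scale ha0 g]
    have e3 : ∀ η : X d, g (a • η) = (m / sg d * (t ^ 2 - s ^ 2) * a ^ 2) * ⟪η, e⟫_ℝ ^ 2 := by
      intro η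
      rw [hg]
      simp only [real_inner_smul_left]
      ring
    simp only [e3]
    rw [integral_const_mul, ball_iso hd e, he, ha2]
    have e4 : a ^ d = p ^ (-(d : ℝ) / 2) := sqrt_pow hp0 d
    have e5 : p ^ (-(d : ℝ) / 2 - 1) = p ^ (-(d : ℝ) / 2) * p⁻¹ := by
      rw [Real.rpow_sub hp0, Real.rpow_one]
      ring
    rw [e4, e5]
    field_simp
  have hint4 : ∫ ξ in S, n ξ ≤ 2 * π ^ 2 * (t ^ 2 - s ^ 2) *
      ((C₁ * Real.exp (-L) + C₂ / p) * p ^ (-(d : ℝ) / 2 - 1)) := by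
    rw [hn, integral_const_mul]
    have h1 := htail p hp4 θ hθ0.le
    refine mul_le_mul_of_nonneg_left (h1.trans ?_) (by positivity)
    have h2 : c₀ * θ ^ 2 * p = c₀ / (16 * c₁ ^ 2) := by
      rw [hθ2]
      field_simp
    rw [h2]
    gcongr
  rw [hint2, hint3] at hint
  have hY : 0 ≤ (t ^ 2 - s ^ 2) * p ^ (-(d : ℝ) / 2 - 1) :=
    mul_nonneg hts (Real.rpow_nonneg hp0.le _)
  have h6 : 2 * π ^ 2 * (C₂ / p) ≤ m / 4 := by
    rw [div_le_iff₀ hm0] at hpm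
    rw [← mul_div_assoc, div_le_iff₀ hp0]
    linarith
  have h7 : 2 * π ^ 2 * (C₁ * Real.exp (-L) + C₂ / p) ≤ m / 2 := by linarith
  have h8 := mul_le_mul_of_nonneg_right h7 hY
  calc m / 2 * p ^ (-(d : ℝ) / 2 - 1) * (t ^ 2 - s ^ 2)
      = m * ((t ^ 2 - s ^ 2) * p ^ (-(d : ℝ) / 2 - 1)) -
        m / 2 * ((t ^ 2 - s ^ 2) * p ^ (-(d : ℝ) / 2 - 1)) := by ring
    _ ≤ m * (t ^ 2 - s ^ 2) * p ^ (-(d : ℝ) / 2 - 1) - ∫ ξ in S, n ξ := by
        have h9 := hint4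
        nlinarith
    _ ≤ _ := hint

end Ker

/-- radial decrease of the kernel in the range `‖y‖ ≤ c₁ √p` -/
theorem KK_decr {d : ℕ} (hd : 0 < d) : ∃ c c₁ P : ℝ, 0 < c ∧ 0 < c₁ ∧ 4 ≤ P ∧ ∀ p : ℝ, P ≤ p →
    ∀ x y : X d, ‖x‖ ≤ ‖y‖ → ‖y‖ ≤ c₁ * √p →
      c * p ^ (-(d : ℝ) / 2 - 1) * (‖y‖ ^ 2 - ‖x‖ ^ 2) ≤ KK d p x - KK d p y := by
  obtain ⟨c, c₁, P, hc, hc₁, hP, h⟩ := ray hd
  refine ⟨c, c₁, P, hc, hc₁, hP, fun p hp x y hxy hy => ?_⟩
  have hn : Nonempty (Fin d) := ⟨⟨0, hd⟩⟩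
  obtain ⟨i⟩ := hn
  set e : X d := EuclideanSpace.single i 1 with he
  have he1 : ‖e‖ = 1 := by simp [he]
  have h1 := h p hp e ‖x‖ ‖y‖ he1 (norm_nonneg _) hxy hy
  have e1 : KK d p x = KK d p (‖x‖ • e) := by
    apply KK_radial (by linarith)
    rw [norm_smul, he1, norm_norm, mul_one]
  have e2 : KK d p y = KK d p (‖y‖ • e) := by
    apply KK_radial (by linarith)
    rw [norm_smul, he1, norm_norm, mul_one]
  rw [e1, e2]
  exact h1

namespace Ker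

/-- `∫ (1 - cos)` over the small ball -/
lemma int_one_sub_cos (hd : 0 < d) {a : ℝ} (ha : 0 < a) (y : X d) :
    ∫ ξ in Metric.closedBall (0 : X d) (a * rd d), (1 - Real.cos (2 * π * ⟪y, ξ⟫_ℝ)) =
      a ^ d * (1 - cs (Bl d) (a • y)) := by
  rw [scale ha]
  congr 1
  have hB := unitVol_Bl hd
  have hI1 : IntegrableOn (fun _ : X d => (1 : ℝ)) (Bl d) := by
    refine integrableOn_const ?_ (by simp)
    rw [hB.vol]
    exact ENNReal.one_ne_top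
  have hI2 : IntegrableOn (fun η : X d => Real.cos (2 * π * ⟪y, a • η⟫_ℝ)) (Bl d) := by
    refine ContinuousOn.integrableOn_compact (isCompact_closedBall _ _) ?_
    fun_prop
  rw [integral_sub hI1 hI2]
  have h1 : ∫ _ in Bl d, (1 : ℝ) = 1 := by
    simp [measureReal_def, hB.vol]
  rw [h1]
  unfold cs
  congr 2
  ext η
  rw [real_inner_smul_right, real_inner_comm, real_inner_smul_right]

lemma one_sub_cs_lower (hd : 0 < d) : ∃ c₀ : ℝ, 0 < c₀ ∧ ∀ v : X d,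
    c₀ * min 1 (‖v‖ ^ 2) ≤ 1 - cs (Bl d) v := by
  obtain ⟨c₀, hc₀, _, hP⟩ := consts hd
  refine ⟨c₀ / 2, by positivity, fun v => ?_⟩
  have h1 := hP v
  rw [PPB] at h1
  have h2 := abs_le.mp (abs_cs hd v)
  nlinarith [h2.1, h2.2]

/-- the weight far from the origin -/
lemma far_weight (hd : 0 < d) {θ : ℝ} (hθ : 0 < θ) : ∃ C : ℝ, 0 < C ∧ ∀ p : ℝ, 4 ≤ p →
    ∫ ξ in {ξ : X d | θ < ‖ξ‖}, PP (Bl d) ξ ^ (p - 1) ≤ C * p ^ (-(d : ℝ) / 2 - 1) := by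
  obtain ⟨c₀, C₁, C₂, hc₀, hC₁, hC₂, htail⟩ := tail hd
  refine ⟨(θ ^ 2)⁻¹ * (C₁ + C₂), by positivity, fun p hp => ?_⟩
  have hp0 : 0 < p := by linarith
  have h := htail p hp θ hθ.le
  have hSm : MeasurableSet {ξ : X d | θ < ‖ξ‖} := measurableSet_lt measurable_const measurable_norm
  have h1 : ∫ ξ in {ξ : X d | θ < ‖ξ‖}, PP (Bl d) ξ ^ (p - 1) ≤
      ∫ ξ in {ξ : X d | θ < ‖ξ‖}, (θ ^ 2)⁻¹ * (PP (Bl d) ξ ^ (p - 1) * ‖ξ‖ ^ 2) := by
    refine setIntegral_mono_on (intPr hd (by linarith)).integrableOn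
      ((int_sq hd (by linarith)).const_mul _).integrableOn hSm ?_
    intro ξ hξ
    have hξ' : θ < ‖ξ‖ := hξ
    have h2 := rp_nonneg ξ (p - 1)
    have h3 : θ ^ 2 ≤ ‖ξ‖ ^ 2 := by gcongr
    calc PP (Bl d) ξ ^ (p - 1) = (θ ^ 2)⁻¹ * (PP (Bl d) ξ ^ (p - 1) * θ ^ 2) := by field_simp
      _ ≤ _ := by gcongr
  rw [integral_const_mul] at h1
  have h4 : C₁ * Real.exp (-(c₀ * θ ^ 2 * p)) + C₂ / p ≤ C₁ + C₂ := by
    have h5 : Real.exp (-(c₀ * θ ^ 2 * p)) ≤ 1 := by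
      rw [Real.exp_le_one_iff]
      have : 0 ≤ c₀ * θ ^ 2 * p := by positivity
      linarith
    have h6 : C₂ / p ≤ C₂ := div_le_self hC₂.le (by linarith)
    nlinarith
  have h7 : 0 ≤ p ^ (-(d : ℝ) / 2 - 1) := Real.rpow_nonneg hp0.le _
  calc _ ≤ _ := h1
    _ ≤ (θ ^ 2)⁻¹ * ((C₁ * Real.exp (-(c₀ * θ ^ 2 * p)) + C₂ / p) * p ^ (-(d : ℝ) / 2 - 1)) := by
        gcongr
    _ ≤ (θ ^ 2)⁻¹ * ((C₁ + C₂) * p ^ (-(d : ℝ) / 2 - 1)) := by gcongr
    _ = _ := by ring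

lemma full_sq (hd : 0 < d) : ∃ C : ℝ, 0 < C ∧ ∀ p : ℝ, 4 ≤ p →
    ∫ ξ : X d, PP (Bl d) ξ ^ (p - 1) * ‖ξ‖ ^ 2 ≤ C * p ^ (-(d : ℝ) / 2 - 1) := by
  obtain ⟨c₀, C₁, C₂, hc₀, hC₁, hC₂, htail⟩ := tail hd
  refine ⟨C₁ + C₂, by positivity, fun p hp => ?_⟩
  have hp0 : 0 < p := by linarith
  have h := htail p hp 0 le_rfl
  have h1 : ∫ ξ in {ξ : X d | 0 < ‖ξ‖}, PP (Bl d) ξ ^ (p - 1) * ‖ξ‖ ^ 2 =
      ∫ ξ : X d, PP (Bl d) ξ ^ (p - 1) * ‖ξ‖ ^ 2 := by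
    apply setIntegral_eq_integral_of_forall_compl_eq_zero
    intro ξ hξ
    have : ‖ξ‖ = 0 := le_antisymm (not_lt.mp hξ) (norm_nonneg _)
    rw [this]
    ring
  rw [h1] at h
  refine h.trans ?_
  have h6 : C₂ / p ≤ C₂ := div_le_self hC₂.le (by linarith)
  have h7 : 0 ≤ p ^ (-(d : ℝ) / 2 - 1) := Real.rpow_nonneg hp0.le _
  have h8 : Real.exp (-(c₀ * 0 ^ 2 * p)) = 1 := by simp
  rw [h8]
  gcongr
  linarith

end Ker

/-- the kernel is smaller by a fixed proportion for `‖y‖ ≥ c₁ √p` -/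
theorem KK_far {d : ℕ} (hd : 0 < d) {c₁ : ℝ} (hc₁ : 0 < c₁) : ∃ c P : ℝ, 0 < c ∧ 4 ≤ P ∧
    ∀ p : ℝ, P ≤ p → ∀ x y : X d, ‖x‖ ≤ rd d → c₁ * √p ≤ ‖y‖ →
      c * p ^ (-(d : ℝ) / 2) ≤ KK d p x - KK d p y := by
  obtain ⟨c₀, hc₀, hlow⟩ := one_sub_cs_lower hd
  obtain ⟨C₃, hC₃, hfull⟩ := full_sq hd
  have hs := sg_pos hd
  have hr := rd_pos d
  have hb := bb_pos hd
  -- cs ≥ 0 for ‖ξ‖ ≤ θ
  set θ : ℝ := √(1 / (2 * π ^ 2 * sg d)) with hθ
  have hθ0 : 0 < θ := Real.sqrt_pos.mpr (by positivity)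
  have hθ2 : θ ^ 2 = 1 / (2 * π ^ 2 * sg d) := Real.sq_sqrt (by positivity)
  obtain ⟨C₄, hC₄, hfw⟩ := far_weight hd hθ0
  set m : ℝ := Real.exp (-(2 * bb d)) / 2 * (c₀ * min 1 (c₁ ^ 2)) with hm
  have hm0 : 0 < m := by positivity
  set A : ℝ := 2 * C₄ + 2 * π ^ 2 * rd d ^ 2 * C₃ with hA
  have hA0 : 0 < A := by positivity
  set P : ℝ := max (max 4 (2 * bb d)) (max (2 * A / m) (rd d ^ 2 / θ ^ 2)) with hP
  refine ⟨m / 2, P, by positivity, (le_max_left _ _).trans (le_max_left _ _),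
    fun p hp x y hx hy => ?_⟩
  have hp4 : 4 ≤ p := ((le_max_left _ _).trans (le_max_left _ _)).trans hp
  have hpb : 2 * bb d ≤ p := ((le_max_right _ _).trans (le_max_left _ _)).trans hp
  have hpA : 2 * A / m ≤ p := ((le_max_left _ _).trans (le_max_right _ _)).trans hp
  have hpθ : rd d ^ 2 / θ ^ 2 ≤ p := ((le_max_right _ _).trans (le_max_right _ _)).trans hp
  have hp0 : 0 < p := by linarith
  have hsp : 0 < √p := Real.sqrt_pos.mpr hp0
  have hsp2 : √p ^ 2 = p := Real.sq_sqrt hp0.le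
  set a : ℝ := (√p)⁻¹ with ha
  have ha0 : 0 < a := by positivity
  have ha2 : a ^ 2 = p⁻¹ := by rw [ha, inv_pow, hsp2]
  have haθ : a * rd d ≤ θ := by
    apply le_of_sq_le_sq _ hθ0.le
    rw [mul_pow, ha2]
    rw [div_le_iff₀ (by positivity)] at hpθ
    rw [inv_mul_le_iff₀ hp0]
    exact hpθ
  set E0 : ℝ := Real.exp (-(2 * bb d)) / 2 with hE0
  have hE0' : 0 < E0 := by positivity
  set g : X d → ℝ := fun ξ => E0 * (1 - Real.cos (2 * π * ⟪y, ξ⟫_ℝ)) with hg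
  set n : X d → ℝ := fun ξ => 2 * PP (Bl d) ξ ^ (p - 1) with hn
  set k : X d → ℝ := fun ξ => 2 * π ^ 2 * rd d ^ 2 * (PP (Bl d) ξ ^ (p - 1) * ‖ξ‖ ^ 2) with hk
  set Bs : Set (X d) := Metric.closedBall 0 (a * rd d) with hBs
  set S : Set (X d) := {ξ : X d | θ < ‖ξ‖} with hS
  have hSm : MeasurableSet S := measurableSet_lt measurable_const measurable_norm
  have hBm : MeasurableSet Bs := measurableSet_closedBall
  have hgc : Continuous g := by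
    rw [hg]
    fun_prop
  have hgI : IntegrableOn g Bs := hgc.continuousOn.integrableOn_compact (isCompact_closedBall _ _)
  have hnI : Integrable n := (intPr hd (by linarith)).const_mul _
  have hkI : Integrable k := (int_sq hd (p := p) (by linarith)).const_mul _
  have hfI : Integrable (fun ξ => PP (Bl d) ξ ^ (p - 1) * cs (Bl d) ξ *
      (Real.cos (2 * π * ⟪x, ξ⟫_ℝ) - Real.cos (2 * π * ⟪y, ξ⟫_ℝ))) := by
    refine intK hd (by linarith) (A := 2) ((cont_cos _).sub (cont_cos _)) fun ξ => ?_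
    refine (abs_sub _ _).trans ?_
    linarith [Real.abs_cos_le_one (2 * π * ⟪x, ξ⟫_ℝ), Real.abs_cos_le_one (2 * π * ⟪y, ξ⟫_ℝ)]
  have hpt : ∀ ξ, Bs.indicator g ξ - S.indicator n ξ - k ξ ≤ PP (Bl d) ξ ^ (p - 1) * cs (Bl d) ξ *
      (Real.cos (2 * π * ⟪x, ξ⟫_ℝ) - Real.cos (2 * π * ⟪y, ξ⟫_ℝ)) := by
    intro ξ
    have hrp := rp_nonneg ξ (p - 1)
    have hc := abs_cs hd ξ
    have hcx := Real.cos_le_one (2 * π * ⟪x, ξ⟫_ℝ)
    have hcy := Real.cos_le_one (2 * π * ⟪y, ξ⟫_ℝ)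
    have hcy' := Real.neg_one_le_cos (2 * π * ⟪y, ξ⟫_ℝ)
    have h1 : PP (Bl d) ξ ^ (p - 1) * cs (Bl d) ξ * (1 - Real.cos (2 * π * ⟪x, ξ⟫_ℝ)) ≤ k ξ := by
      have h2 := Real.one_sub_sq_div_two_le_cos (x := 2 * π * ⟪x, ξ⟫_ℝ)
      have h3 : |⟪x, ξ⟫_ℝ| ≤ rd d * ‖ξ‖ :=
        (abs_real_inner_le_norm x ξ).trans (by gcongr)
      have h4 : ⟪x, ξ⟫_ℝ ^ 2 ≤ (rd d * ‖ξ‖) ^ 2 := by
        rw [← sq_abs]
        gcongr
      have h5 : 1 - Real.cos (2 * π * ⟪x, ξ⟫_ℝ) ≤ 2 * π ^ 2 * (rd d * ‖ξ‖) ^ 2 := by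
        calc 1 - Real.cos (2 * π * ⟪x, ξ⟫_ℝ) ≤ 2 * π ^ 2 * ⟪x, ξ⟫_ℝ ^ 2 := by
              nlinarith
          _ ≤ _ := by gcongr
      have h6 : cs (Bl d) ξ ≤ 1 := (abs_le.mp hc).2
      have h7 : 0 ≤ 1 - Real.cos (2 * π * ⟪x, ξ⟫_ℝ) := by linarith
      calc PP (Bl d) ξ ^ (p - 1) * cs (Bl d) ξ * (1 - Real.cos (2 * π * ⟪x, ξ⟫_ℝ))
          ≤ PP (Bl d) ξ ^ (p - 1) * 1 * (1 - Real.cos (2 * π * ⟪x, ξ⟫_ℝ)) := by gcongr
        _ ≤ PP (Bl d) ξ ^ (p - 1) * 1 * (2 * π ^ 2 * (rd d * ‖ξ‖) ^ 2) := by gcongr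
        _ = k ξ := by
            rw [hk]
            ring
    have h2 : Bs.indicator g ξ - S.indicator n ξ ≤ PP (Bl d) ξ ^ (p - 1) * cs (Bl d) ξ *
        (1 - Real.cos (2 * π * ⟪y, ξ⟫_ℝ)) := by
      by_cases hξS : ξ ∈ S
      · have hξB : ξ ∉ Bs := by
          intro h
          have h1 : ‖ξ‖ ≤ a * rd d := by simpa [hBs] using h
          have h2 : θ < ‖ξ‖ := hξS
          linarith
        rw [indicator_of_notMem hξB, indicator_of_mem hξS, zero_sub]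
        have h3 : |PP (Bl d) ξ ^ (p - 1) * cs (Bl d) ξ *
            (1 - Real.cos (2 * π * ⟪y, ξ⟫_ℝ))| ≤ n ξ := by
          rw [abs_mul, abs_mul, abs_of_nonneg hrp, abs_of_nonneg (by linarith :
            (0:ℝ) ≤ 1 - Real.cos (2 * π * ⟪y, ξ⟫_ℝ))]
          calc _ ≤ PP (Bl d) ξ ^ (p - 1) * 1 * 2 := by
                gcongr
                linarith
            _ = n ξ := by rw [hn]; ring
        exact (abs_le.mp h3).1
      · rw [indicator_of_notMem hξS, sub_zero]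
        have hξθ : ‖ξ‖ ≤ θ := not_lt.mp hξS
        have h7 : 0 ≤ 1 - Real.cos (2 * π * ⟪y, ξ⟫_ℝ) := by linarith
        by_cases hξB : ξ ∈ Bs
        · rw [indicator_of_mem hξB]
          have h2 : ‖ξ‖ ≤ a * rd d := by simpa [hBs] using hξB
          have h3 := inner_lower hd hp4 hpb h2
          rw [hg]
          exact mul_le_mul_of_nonneg_right h3 h7
        · rw [indicator_of_notMem hξB]
          have hcs : 0 ≤ cs (Bl d) ξ := by
            have h2 := one_sub_cs_Bl_le hd ξ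
            have h3 : ‖ξ‖ ^ 2 ≤ θ ^ 2 := by gcongr
            rw [hθ2] at h3
            have h4 : 2 * π ^ 2 * sg d * ‖ξ‖ ^ 2 ≤ 2 * π ^ 2 * sg d * (1 / (2 * π ^ 2 * sg d)) := by
              gcongr
            have h5 : 2 * π ^ 2 * sg d * (1 / (2 * π ^ 2 * sg d)) = 1 := by field_simp
            linarith
          exact mul_nonneg (mul_nonneg hrp hcs) h7
    have h3 : PP (Bl d) ξ ^ (p - 1) * cs (Bl d) ξ *
      (Real.cos (2 * π * ⟪x, ξ⟫_ℝ) - Real.cos (2 * π * ⟪y, ξ⟫_ℝ)) =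
      PP (Bl d) ξ ^ (p - 1) * cs (Bl d) ξ * (1 - Real.cos (2 * π * ⟪y, ξ⟫_ℝ)) -
      PP (Bl d) ξ ^ (p - 1) * cs (Bl d) ξ * (1 - Real.cos (2 * π * ⟪x, ξ⟫_ℝ)) := by ring
    rw [h3]
    linarith
  have hint : ∫ ξ, (Bs.indicator g ξ - S.indicator n ξ - k ξ) ≤ _ :=
    integral_mono (((hgI.integrable_indicator hBm).sub (hnI.indicator hSm)).sub hkI) hfI hpt
  rw [← KK_sub hd (by linarith)] at hint
  have hint2 : ∫ ξ, (Bs.indicator g ξ - S.indicator n ξ - k ξ) =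
      (∫ ξ in Bs, g ξ) - (∫ ξ in S, n ξ) - ∫ ξ, k ξ := by
    have h1 : ∫ ξ, (Bs.indicator g ξ - S.indicator n ξ - k ξ) =
        (∫ ξ, (Bs.indicator g ξ - S.indicator n ξ)) - ∫ ξ, k ξ :=
      integral_sub ((hgI.integrable_indicator hBm).sub (hnI.indicator hSm)) hkI
    rw [h1]
    congr 1
    have := integral_sub (hgI.integrable_indicator hBm) (hnI.indicator hSm)
    rw [integral_indicator hBm, integral_indicator hSm] at this
    exact this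
  have hint3 : m * p ^ (-(d : ℝ) / 2) ≤ ∫ ξ in Bs, g ξ := by
    rw [hg, integral_const_mul, hBs, int_one_sub_cos hd ha0]
    have e4 : a ^ d = p ^ (-(d : ℝ) / 2) := sqrt_pow hp0 d
    have h1 := hlow (a • y)
    have h2 : c₁ ^ 2 ≤ ‖a • y‖ ^ 2 := by
      rw [norm_smul, Real.norm_of_nonneg ha0.le]
      have : c₁ ≤ a * ‖y‖ := by
        rw [ha, le_inv_mul_iff₀ hsp, mul_comm]
        exact hy
      gcongr
    have h3 : c₀ * min 1 (c₁ ^ 2) ≤ 1 - cs (Bl d) (a • y) := by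
      refine le_trans ?_ h1
      gcongr
    rw [e4, hm]
    have h4 : 0 ≤ p ^ (-(d : ℝ) / 2) := Real.rpow_nonneg hp0.le _
    calc E0 * (c₀ * min 1 (c₁ ^ 2)) * p ^ (-(d : ℝ) / 2)
        ≤ E0 * (1 - cs (Bl d) (a • y)) * p ^ (-(d : ℝ) / 2) := by gcongr
      _ = _ := by ring
  have hint4 : ∫ ξ in S, n ξ ≤ 2 * (C₄ * p ^ (-(d : ℝ) / 2 - 1)) := by
    rw [hn, integral_const_mul]
    have := hfw p hp4
    gcongr
  have hint5 : ∫ ξ, k ξ ≤ 2 * π ^ 2 * rd d ^ 2 * (C₃ * p ^ (-(d : ℝ) / 2 - 1)) := by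
    rw [hk, integral_const_mul]
    have := hfull p hp4
    gcongr
  rw [hint2] at hint
  have e5 : p ^ (-(d : ℝ) / 2 - 1) = p ^ (-(d : ℝ) / 2) * p⁻¹ := by
    rw [Real.rpow_sub hp0, Real.rpow_one]
    ring
  have h4 : 0 ≤ p ^ (-(d : ℝ) / 2) := Real.rpow_nonneg hp0.le _
  have h6 : A * p⁻¹ ≤ m / 2 := by
    rw [div_le_iff₀ hm0] at hpA
    rw [← div_eq_mul_inv, div_le_iff₀ hp0]
    linarith
  have h7 : A * p ^ (-(d : ℝ) / 2 - 1) ≤ m / 2 * p ^ (-(d : ℝ) / 2) := by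
    rw [e5]
    calc A * (p ^ (-(d : ℝ) / 2) * p⁻¹) = (A * p⁻¹) * p ^ (-(d : ℝ) / 2) := by ring
      _ ≤ _ := by gcongr
  have h8 : A * p ^ (-(d : ℝ) / 2 - 1) = 2 * (C₄ * p ^ (-(d : ℝ) / 2 - 1)) +
      2 * π ^ 2 * rd d ^ 2 * (C₃ * p ^ (-(d : ℝ) / 2 - 1)) := by
    rw [hA]
    ring
  linarith

theorem kernel {d : ℕ} (hd : 0 < d) : ∃ c P : ℝ, 0 < c ∧ 4 ≤ P ∧ ∀ p : ℝ, P ≤ p → ∃ κ : ℝ,
    ∀ x : X d, (rd d ≤ ‖x‖ →
        KK d p x ≤ κ - c * p ^ (-(d : ℝ) / 2 - 1) * min (‖x‖ ^ 2 - rd d ^ 2) p) ∧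
      (‖x‖ ≤ rd d → κ + c * p ^ (-(d : ℝ) / 2 - 1) * (rd d ^ 2 - ‖x‖ ^ 2) ≤ KK d p x) := by
  obtain ⟨c, c₁, P₁, hc, hc₁, hP₁, hdecr⟩ := KK_decr hd
  obtain ⟨c', P₂, hc', hP₂, hfar⟩ := KK_far hd hc₁
  have hr := rd_pos d
  set P : ℝ := max (max P₁ P₂) (rd d ^ 2 / c₁ ^ 2) with hP
  refine ⟨min c c', P, lt_min hc hc', hP₁.trans ((le_max_left _ _).trans (le_max_left _ _)),
    fun p hp => ?_⟩
  have hpP₁ : P₁ ≤ p := ((le_max_left _ _).trans (le_max_left _ _)).trans hp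
  have hpP₂ : P₂ ≤ p := ((le_max_right _ _).trans (le_max_left _ _)).trans hp
  have hpr : rd d ^ 2 / c₁ ^ 2 ≤ p := (le_max_right _ _).trans hp
  have hp0 : 0 < p := by linarith
  have hn : Nonempty (Fin d) := ⟨⟨0, hd⟩⟩
  obtain ⟨i⟩ := hn
  set e : X d := EuclideanSpace.single i (rd d) with he
  have he1 : ‖e‖ = rd d := by simp [he, abs_of_pos hr]
  have hrc : rd d ≤ c₁ * √p := by
    apply le_of_sq_le_sq _ (by positivity)
    rw [mul_pow, Real.sq_sqrt hp0.le]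
    rw [div_le_iff₀ (by positivity)] at hpr
    linarith
  have hpw : 0 ≤ p ^ (-(d : ℝ) / 2 - 1) := Real.rpow_nonneg hp0.le _
  refine ⟨KK d p e, fun x => ⟨fun hx => ?_, fun hx => ?_⟩⟩
  · by_cases hxp : ‖x‖ ≤ c₁ * √p
    · have h1 := hdecr p hpP₁ e x (by rw [he1]; exact hx) hxp
      rw [he1] at h1
      have h2 : 0 ≤ ‖x‖ ^ 2 - rd d ^ 2 := by nlinarith
      have h3 : min c c' * p ^ (-(d : ℝ) / 2 - 1) * min (‖x‖ ^ 2 - rd d ^ 2) p ≤
          c * p ^ (-(d : ℝ) / 2 - 1) * (‖x‖ ^ 2 - rd d ^ 2) := by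
        have h4 : min (‖x‖ ^ 2 - rd d ^ 2) p ≤ ‖x‖ ^ 2 - rd d ^ 2 := min_le_left _ _
        have h5 : 0 ≤ min (‖x‖ ^ 2 - rd d ^ 2) p := le_min h2 hp0.le
        have h6 : min c c' ≤ c := min_le_left _ _
        gcongr
      linarith
    · have h1 := hfar p hpP₂ e x he1.le (not_le.mp hxp).le
      have e5 : p ^ (-(d : ℝ) / 2) = p ^ (-(d : ℝ) / 2 - 1) * p := by
        rw [Real.rpow_sub hp0, Real.rpow_one]
        field_simp
      rw [e5] at h1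
      have h2 : 0 ≤ ‖x‖ ^ 2 - rd d ^ 2 := by nlinarith
      have h3 : min c c' * p ^ (-(d : ℝ) / 2 - 1) * min (‖x‖ ^ 2 - rd d ^ 2) p ≤
          c' * (p ^ (-(d : ℝ) / 2 - 1) * p) := by
        have h4 : min (‖x‖ ^ 2 - rd d ^ 2) p ≤ p := min_le_right _ _
        have h5 : 0 ≤ min (‖x‖ ^ 2 - rd d ^ 2) p := le_min h2 hp0.le
        have h6 : min c c' ≤ c' := min_le_right _ _
        rw [mul_assoc]
        gcongr
      linarith
  · have h1 := hdecr p hpP₁ x e (by rw [he1]; exact hx) (by rw [he1]; exact hrc)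
    rw [he1] at h1
    have h2 : 0 ≤ rd d ^ 2 - ‖x‖ ^ 2 := by nlinarith [norm_nonneg x]
    have h3 : min c c' * p ^ (-(d : ℝ) / 2 - 1) * (rd d ^ 2 - ‖x‖ ^ 2) ≤
        c * p ^ (-(d : ℝ) / 2 - 1) * (rd d ^ 2 - ‖x‖ ^ 2) := by
      have h6 : min c c' ≤ c := min_le_left _ _
      gcongr
    linarith

end Pool.Agent.H82.Max
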