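import Pool.Agent.H82.Max.Basic
import Pool.Agent.H82.Max.WMod

open MeasureTheory Set Filter Topology
open scoped ENNReal Real InnerProductSpace symmDiff

namespace Pool.Agent.H82.Max

variable {d : ℕ}

theorem rho_nonneg (E : Set (X d)) (ξ : X d) : 0 ≤ rho E ξ := Real.sqrt_nonneg _

theorem rho_sq {E : Set (X d)} (hE : UnitVol E) (ξ : X d) : rho E ξ ^ 2 = 1 - PP E ξ := by
  unfold rho
  exact Real.sq_sqrt (by linarith [PP_le_one hE ξ])

theorem rho_zero {E : Set (X d)} (hE : UnitVol E) : rho E 0 = 0 := by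
  unfold rho
  rw [PP_zero, measureReal_def, hE.vol]
  simp

theorem rho_neg (E : Set (X d)) (ξ : X d) : rho E (-ξ) = rho E ξ := by
  unfold rho
  rw [PP_neg]

theorem rho_add {E : Set (X d)} (hE : UnitVol E) (ξ η : X d) :
    rho E (ξ + η) ≤ rho E ξ + rho E η := by
  have hfin : IsFiniteMeasure (volume.restrict E) := ⟨by
    rw [Measure.restrict_apply_univ, hE.vol]; exact ENNReal.one_lt_top⟩
  unfold rho
  rw [one_sub_PP hE, one_sub_PP hE, one_sub_PP hE]
  exact sqrt_Wf_add _ (measurable_fst.sub measurable_snd) ξ η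

theorem rho_continuous {E : Set (X d)} (hE : UnitVol E) : Continuous (rho E) := by
  have h := PP_continuous hE.meas (by rw [hE.vol]; exact ENNReal.one_ne_top)
  unfold rho
  exact (continuous_const.sub h).sqrt

private theorem lv_rho_nsmul {E : Set (X d)} (hE : UnitVol E) (n : ℕ) (ξ : X d) :
    rho E ((n : ℝ) • ξ) ≤ n * rho E ξ := by
  induction n with
  | zero => simp [rho_zero hE]
  | succ n ih =>
    push_cast
    rw [add_smul, one_smul]
    refine (rho_add hE _ _).trans ?_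
    rw [add_mul, one_mul]
    linarith

private theorem lv_one_sub_le {E : Set (X d)} (hE : UnitVol E) {t : ℝ} {ξ : X d}
    (h : rho E ξ ≤ t) : 1 - t ^ 2 ≤ PP E ξ := by
  have h1 := rho_sq hE ξ
  have h2 := rho_nonneg E ξ
  nlinarith [pow_le_pow_left₀ h2 h 2]

theorem rho_compact {E : Set (X d)} (hE : UnitVol E) {t : ℝ} (ht : t < 1) :
    IsCompact {ξ | rho E ξ ≤ t} := by
  rcases lt_or_ge t 0 with h0 | h0
  · have : {ξ | rho E ξ ≤ t} = ∅ := by
      ext ξ
      simp only [mem_setOf_eq, mem_empty_iff_false, iff_false, not_le]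
      exact lt_of_lt_of_le h0 (rho_nonneg E ξ)
    rw [this]
    exact isCompact_empty
  · have hpos : 0 < 1 - t ^ 2 := by nlinarith
    have hev : ∀ᶠ ξ in cocompact (X d), PP E ξ < 1 - t ^ 2 :=
      (PP_tendsto hE).eventually (gt_mem_nhds hpos)
    obtain ⟨K, hK, hsub⟩ := mem_cocompact.1 hev
    refine hK.of_isClosed_subset (isClosed_le (rho_continuous hE) continuous_const) ?_
    intro ξ hξ
    by_contra hn
    have := hsub hn
    simp only [mem_setOf_eq] at this hξ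
    linarith [lv_one_sub_le hE hξ]

private theorem lv_smul_vol {E : Set (X d)} (hE : UnitVol E) {n : ℕ} {s t : ℝ}
    (hst : n * s ≤ t) :
    ENNReal.ofReal ((n : ℝ) ^ d) * volume {ξ | rho E ξ ≤ s} ≤ volume {ξ | rho E ξ ≤ t} := by
  have h := Measure.addHaar_smul (volume : Measure (X d)) (n : ℝ) {ξ | rho E ξ ≤ s}
  have hf : Module.finrank ℝ (X d) = d := by simp
  rw [hf, abs_of_nonneg (by positivity)] at h
  rw [← h]
  apply measure_mono
  rintro _ ⟨ξ, hξ, rfl⟩
  simp only [mem_setOf_eq] at hξ ⊢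
  refine (lv_rho_nsmul hE n ξ).trans (le_trans ?_ hst)
  exact mul_le_mul_of_nonneg_left hξ (Nat.cast_nonneg n)

private theorem lv_half {E : Set (X d)} (hE : UnitVol E) :
    volume {ξ | rho E ξ ≤ 1 / 2} ≤ ENNReal.ofReal (4 / 3) := by
  have hfin : volume {ξ | rho E ξ ≤ 1 / 2} ≠ ⊤ := (rho_compact hE (by norm_num)).measure_ne_top
  have hms : MeasurableSet {ξ | rho E ξ ≤ 1 / 2} :=
    (isClosed_le (rho_continuous hE) continuous_const).measurableSet
  have h1 : ∫ ξ in {ξ | rho E ξ ≤ 1 / 2}, (3 / 4 : ℝ) ≤ ∫ ξ in {ξ | rho E ξ ≤ 1 / 2}, PP E ξ := by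
    apply setIntegral_mono_on (integrableOn_const hfin) (PP_integrable hE).integrableOn hms
    intro ξ hξ
    have := lv_one_sub_le hE hξ
    linarith
  have h2 : ∫ ξ in {ξ | rho E ξ ≤ 1 / 2}, PP E ξ ≤ 1 := by
    rw [← integral_PP hE]
    exact setIntegral_le_integral (PP_integrable hE) (Eventually.of_forall fun ξ => PP_nonneg E ξ)
  rw [setIntegral_const, smul_eq_mul] at h1
  have h3 : volume.real {ξ | rho E ξ ≤ 1 / 2} ≤ 4 / 3 := by linarith
  rw [← ENNReal.ofReal_toReal hfin]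
  exact ENNReal.ofReal_le_ofReal h3

/-- Markov for `t` in `(1/4, 1/2]`, then `2^k • {ρ ≤ t} ⊆ {ρ ≤ 2^k t}` -/
theorem level_vol (d : ℕ) : ∃ C : ℝ, 0 < C ∧ ∀ E : Set (X d), UnitVol E →
    ∀ t : ℝ, 0 < t → t ≤ 1 / 2 → volume {ξ | rho E ξ ≤ t} ≤ ENNReal.ofReal (C * t ^ d) := by
  refine ⟨4 / 3 * 4 ^ d, by positivity, ?_⟩
  intro E hE t ht ht2
  set n : ℕ := ⌊1 / (2 * t)⌋₊ with hn
  have hx : 1 ≤ 1 / (2 * t) := by
    rw [le_div_iff₀ (by positivity)]; linarith
  have hn1 : 1 ≤ n := by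
    rw [hn, Nat.one_le_floor_iff]
    exact hx
  have hn2 : (n : ℝ) * t ≤ 1 / 2 := by
    have := Nat.floor_le (show 0 ≤ 1 / (2 * t) by positivity)
    rw [← hn] at this
    calc (n : ℝ) * t ≤ 1 / (2 * t) * t := mul_le_mul_of_nonneg_right this ht.le
      _ = 1 / 2 := by field_simp
  have hn3 : 1 / (4 * t) ≤ n := by
    have h1 := Nat.lt_floor_add_one (1 / (2 * t))
    rw [← hn] at h1
    have h2 : (1 : ℝ) ≤ n := by exact_mod_cast hn1
    have h3 : 1 / (4 * t) = 1 / (2 * t) / 2 := by field_simp; norm_num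
    rw [h3]
    linarith
  have hv := (lv_smul_vol hE hn2).trans (lv_half hE)
  have hnpos : (0 : ℝ) < (n : ℝ) ^ d := by
    have : (0 : ℝ) < n := by exact_mod_cast hn1
    positivity
  have hne0 : ENNReal.ofReal ((n : ℝ) ^ d) ≠ 0 := by
    rw [Ne, ENNReal.ofReal_eq_zero, not_le]; exact hnpos
  have h4 : volume {ξ | rho E ξ ≤ t} ≤ ENNReal.ofReal (4 / 3) / ENNReal.ofReal ((n : ℝ) ^ d) := by
    rw [ENNReal.le_div_iff_mul_le (Or.inl hne0) (Or.inl ENNReal.ofReal_ne_top), mul_comm]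
    exact hv
  refine h4.trans ?_
  rw [← ENNReal.ofReal_div_of_pos hnpos]
  apply ENNReal.ofReal_le_ofReal
  rw [div_le_iff₀ hnpos]
  have h5 : 1 ≤ 4 ^ d * t ^ d * (n : ℝ) ^ d := by
    rw [← mul_pow, ← mul_pow]
    apply one_le_pow₀
    rw [div_le_iff₀ (by positivity)] at hn3
    linarith
  nlinarith

private theorem lv_PP_pow_le_exp {E : Set (X d)} (hE : UnitVol E) {p : ℝ} (hp : 0 ≤ p) (ξ : X d) :
    PP E ξ ^ p ≤ Real.exp (-(p * rho E ξ ^ 2)) := by
  have h0 := PP_nonneg E ξ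
  rw [rho_sq hE]
  have h1 : PP E ξ ≤ Real.exp (-(1 - PP E ξ)) := by
    have := Real.add_one_le_exp (-(1 - PP E ξ))
    linarith
  calc PP E ξ ^ p ≤ (Real.exp (-(1 - PP E ξ))) ^ p := Real.rpow_le_rpow h0 h1 hp
    _ = Real.exp (-(p * (1 - PP E ξ))) := by
      rw [← Real.exp_mul]; congr 1; ring

/-- real exponents and squares of the radius -/
private theorem lv_pow_eq (d : ℕ) {p : ℝ} (hp : 0 < p) : p ^ (-(d : ℝ) / 2) = (1 / √p) ^ d := by
  rw [one_div, inv_pow, ← Real.rpow_natCast (√p) d, Real.sqrt_eq_rpow, ← Real.rpow_mul hp.le,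
    ← Real.rpow_neg hp.le]
  congr 1; ring

private theorem lv_tail_const (d : ℕ) : ∃ C : ℝ, 0 < C ∧ ∀ p : ℝ, 1 ≤ p →
    (3 / 4 : ℝ) ^ (p - 1) ≤ C * (1 / √p) ^ d := by
  have ha : 0 < Real.log (4 / 3) := Real.log_pos (by norm_num)
  set a := Real.log (4 / 3) with haa
  refine ⟨4 / 3 * (d.factorial / a ^ d), by positivity, fun p hp => ?_⟩
  have h1 : (3 / 4 : ℝ) ^ (p - 1) = 4 / 3 * Real.exp (-(a * p)) := by
    have h2 : Real.log (3 / 4) = -a := by
      rw [haa, ← Real.log_inv]; norm_num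
    rw [Real.rpow_def_of_pos (by norm_num), h2]
    have h3 : Real.exp a = 4 / 3 := Real.exp_log (by norm_num)
    rw [← h3, ← Real.exp_add]
    congr 1; ring
  rw [h1, mul_assoc]
  apply mul_le_mul_of_nonneg_left _ (by norm_num)
  have h4 := Real.pow_div_factorial_le_exp (a * p) (by positivity) d
  have h5 : Real.exp (-(a * p)) ≤ d.factorial / a ^ d * (1 / p) ^ d := by
    rw [Real.exp_neg]
    have h6 : (d.factorial : ℝ) / a ^ d * (1 / p) ^ d = ((a * p) ^ d / d.factorial)⁻¹ := by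
      rw [inv_div, mul_pow, one_div, inv_pow]
      field_simp
    rw [h6]
    exact inv_anti₀ (by positivity) h4
  refine h5.trans (mul_le_mul_of_nonneg_left ?_ (by positivity))
  apply pow_le_pow_left₀ (by positivity)
  apply one_div_le_one_div_of_le (Real.sqrt_pos.2 (by linarith))
  rw [Real.sqrt_le_left (by linarith)]
  nlinarith

private theorem lv_summable (d : ℕ) :
    Summable fun j : ℕ => Real.exp (-(j : ℝ) ^ 2) * ((j : ℝ) + 1) ^ d := by
  have h := Real.summable_pow_mul_exp_neg_nat_mul d (r := 1) one_pos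
  have h1 : Summable fun j : ℕ => Real.exp 1 *
      ((((j + 1 : ℕ) : ℝ)) ^ d * Real.exp (-1 * ((j + 1 : ℕ) : ℝ))) :=
    ((summable_nat_add_iff 1).2 h).mul_left (Real.exp 1)
  refine Summable.of_nonneg_of_le (fun j => by positivity) (fun j => ?_) h1
  push_cast
  have h2 : Real.exp 1 * (((j : ℝ) + 1) ^ d * Real.exp (-1 * ((j : ℝ) + 1))) =
      Real.exp (-(j : ℝ)) * ((j : ℝ) + 1) ^ d := by
    have : Real.exp (-(j : ℝ)) = Real.exp 1 * Real.exp (-1 * ((j : ℝ) + 1)) := by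
      rw [← Real.exp_add]; congr 1; ring
    rw [this]; ring
  rw [h2]
  apply mul_le_mul_of_nonneg_right _ (by positivity)
  apply Real.exp_le_exp.2
  have : (j : ℝ) ≤ (j : ℝ) ^ 2 := by
    have := Nat.le_self_pow two_ne_zero j
    exact_mod_cast this
  linarith

private theorem lv_ofReal_MM {E : Set (X d)} (hE : UnitVol E) {p : ℝ} (hp : 1 ≤ p) :
    ENNReal.ofReal (MM p E) = ∫⁻ ξ, ENNReal.ofReal (PP E ξ ^ p) :=
  ofReal_integral_eq_lintegral_ofReal (PP_rpow_integrable hE hp)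
    (Eventually.of_forall fun ξ => Real.rpow_nonneg (PP_nonneg E ξ) p)

/-- `∫ (1-V)^p = ∫_0^1 p (1-s)^(p-1) |{V ≤ s}| ds` and `|{V ≤ s}| ≤ C s^(d/2)/(1-s)` -/
theorem MM_upper (d : ℕ) : ∃ C : ℝ, 0 < C ∧ ∀ E : Set (X d), UnitVol E →
    ∀ p : ℝ, 4 ≤ p → MM p E ≤ C * p ^ (-(d : ℝ) / 2) := by
  obtain ⟨C1, hC1, h1⟩ := level_vol d
  obtain ⟨C2, hC2, h2⟩ := lv_tail_const d
  have hs := lv_summable d
  set S : ℝ := ∑' j : ℕ, Real.exp (-(j : ℝ) ^ 2) * ((j : ℝ) + 1) ^ d with hS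
  have hS0 : 0 ≤ S := tsum_nonneg fun j => by positivity
  refine ⟨C2 + C1 * S, by positivity, ?_⟩
  intro E hE p hp
  have hp0 : 0 < p := by linarith
  have hsp : 0 < √p := Real.sqrt_pos.2 hp0
  rw [lv_pow_eq d hp0]
  rw [← ENNReal.ofReal_le_ofReal_iff (by positivity), lv_ofReal_MM hE (by linarith)]
  set m : ℕ → ℝ := fun j => min (((j : ℝ) + 1) / √p) (1 / 2) with hm
  have hms : ∀ t : ℝ, MeasurableSet {ξ | rho E ξ ≤ t} := fun t =>
    (isClosed_le (rho_continuous hE) continuous_const).measurableSet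
  -- pointwise bound
  have hpt : ∀ ξ : X d, ENNReal.ofReal (PP E ξ ^ p) ≤
      ENNReal.ofReal ((3 / 4 : ℝ) ^ (p - 1) * PP E ξ) +
      ∑' j : ℕ, ({ξ | rho E ξ ≤ m j}.indicator
        (fun _ => ENNReal.ofReal (Real.exp (-(j : ℝ) ^ 2))) ξ) := by
    intro ξ
    rcases le_or_gt (rho E ξ) (1 / 2) with h | h
    · refine le_trans ?_ le_add_self
      set j : ℕ := ⌊√p * rho E ξ⌋₊ with hj
      have hnn : 0 ≤ √p * rho E ξ := mul_nonneg hsp.le (rho_nonneg E ξ)
      have hj1 : (j : ℝ) ≤ √p * rho E ξ := Nat.floor_le hnn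
      have hj2 : √p * rho E ξ < j + 1 := Nat.lt_floor_add_one _
      refine le_trans ?_ (ENNReal.le_tsum j)
      have hmem : ξ ∈ {ξ | rho E ξ ≤ m j} := by
        change rho E ξ ≤ min (((j : ℝ) + 1) / √p) (1 / 2)
        refine le_min ?_ h
        rw [le_div_iff₀ hsp, mul_comm]
        exact hj2.le
      rw [indicator_of_mem hmem]
      apply ENNReal.ofReal_le_ofReal
      refine (lv_PP_pow_le_exp hE hp0.le ξ).trans (Real.exp_le_exp.2 ?_)
      have h3 : (j : ℝ) ^ 2 ≤ (√p * rho E ξ) ^ 2 := pow_le_pow_left₀ (Nat.cast_nonneg j) hj1 2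
      rw [mul_pow, Real.sq_sqrt hp0.le] at h3
      linarith
    · refine le_trans ?_ le_self_add
      apply ENNReal.ofReal_le_ofReal
      have h0 := PP_nonneg E ξ
      have h3 : PP E ξ ≤ 3 / 4 := by
        have := rho_sq hE ξ
        nlinarith
      have h4 : PP E ξ ^ p = PP E ξ ^ (p - 1) * PP E ξ := by
        have h5 := Real.rpow_add_of_nonneg h0 (show (0:ℝ) ≤ p - 1 by linarith) zero_le_one
        rw [sub_add_cancel, Real.rpow_one] at h5
        exact h5
      rw [h4]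
      exact mul_le_mul_of_nonneg_right (Real.rpow_le_rpow h0 h3 (by linarith)) h0
  have hPm : Measurable (PP E) :=
    (PP_continuous hE.meas (by rw [hE.vol]; exact ENNReal.one_ne_top)).measurable
  calc ∫⁻ ξ, ENNReal.ofReal (PP E ξ ^ p) ≤ ∫⁻ ξ, (ENNReal.ofReal ((3 / 4 : ℝ) ^ (p - 1) * PP E ξ) +
      ∑' j : ℕ, ({ξ | rho E ξ ≤ m j}.indicator
        (fun _ => ENNReal.ofReal (Real.exp (-(j : ℝ) ^ 2))) ξ)) := lintegral_mono hpt
    _ = (∫⁻ ξ, ENNReal.ofReal ((3 / 4 : ℝ) ^ (p - 1) * PP E ξ)) +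
      ∑' j : ℕ, ∫⁻ ξ, ({ξ | rho E ξ ≤ m j}.indicator
        (fun _ => ENNReal.ofReal (Real.exp (-(j : ℝ) ^ 2))) ξ) := by
        rw [lintegral_add_left (by fun_prop), lintegral_tsum]
        intro j
        exact (measurable_const.indicator (hms _)).aemeasurable
    _ ≤ ENNReal.ofReal ((3 / 4 : ℝ) ^ (p - 1)) +
      ∑' j : ℕ, ENNReal.ofReal (C1 * (1 / √p) ^ d *
        (Real.exp (-(j : ℝ) ^ 2) * ((j : ℝ) + 1) ^ d)) := by
        apply add_le_add
        · rw [← ofReal_integral_eq_lintegral_ofReal ((PP_integrable hE).const_mul _)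
            (Eventually.of_forall fun ξ => mul_nonneg (by positivity) (PP_nonneg E ξ)),
            integral_const_mul, integral_PP hE, mul_one]
        · apply ENNReal.tsum_le_tsum
          intro j
          rw [lintegral_indicator (hms _), setLIntegral_const]
          have hmj : 0 < m j := lt_min (by positivity) (by norm_num)
          have hv := h1 E hE (m j) hmj (min_le_right _ _)
          calc ENNReal.ofReal (Real.exp (-(j : ℝ) ^ 2)) * volume {ξ | rho E ξ ≤ m j}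
              ≤ ENNReal.ofReal (Real.exp (-(j : ℝ) ^ 2)) * ENNReal.ofReal (C1 * m j ^ d) :=
                mul_le_mul_right hv _
            _ = ENNReal.ofReal (Real.exp (-(j : ℝ) ^ 2) * (C1 * m j ^ d)) :=
                (ENNReal.ofReal_mul (Real.exp_pos _).le).symm
            _ ≤ _ := by
                apply ENNReal.ofReal_le_ofReal
                have h3 : m j ^ d ≤ (((j : ℝ) + 1) / √p) ^ d :=
                  pow_le_pow_left₀ hmj.le (min_le_left _ _) d
                rw [div_pow] at h3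
                calc Real.exp (-(j : ℝ) ^ 2) * (C1 * m j ^ d)
                    ≤ Real.exp (-(j : ℝ) ^ 2) * (C1 * (((j : ℝ) + 1) ^ d / √p ^ d)) := by
                      gcongr
                  _ = _ := by rw [one_div, inv_pow]; ring
    _ = ENNReal.ofReal ((3 / 4 : ℝ) ^ (p - 1)) + ENNReal.ofReal (C1 * (1 / √p) ^ d * S) := by
        congr 1
        rw [hS, ← tsum_mul_left, ENNReal.ofReal_tsum_of_nonneg (fun j => by positivity)
          (hs.mul_left _)]
    _ = ENNReal.ofReal ((3 / 4 : ℝ) ^ (p - 1) + C1 * (1 / √p) ^ d * S) := by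
        rw [ENNReal.ofReal_add (by positivity) (by positivity)]
    _ ≤ ENNReal.ofReal ((C2 + C1 * S) * (1 / √p) ^ d) := by
        apply ENNReal.ofReal_le_ofReal
        have := h2 p (by linarith)
        linarith

/-- on `ρ > Λ/√p`: `PP^p ≤ exp(-Λ^2/2) PP^(p/2)` -/
theorem MM_tail (d : ℕ) : ∃ C : ℝ, 0 < C ∧ ∀ E : Set (X d), UnitVol E →
    ∀ p Λ : ℝ, 8 ≤ p → 0 ≤ Λ → ∫ ξ in {ξ | Λ / √p < rho E ξ}, PP E ξ ^ p ≤
      C * Real.exp (-Λ ^ 2 / 2) * p ^ (-(d : ℝ) / 2) := by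
  obtain ⟨C, hC, h⟩ := MM_upper d
  refine ⟨C * (2 : ℝ) ^ ((d : ℝ) / 2), by positivity, ?_⟩
  intro E hE p Λ hp hΛ
  have hp0 : 0 < p := by linarith
  have hsp : 0 < √p := Real.sqrt_pos.2 hp0
  have h1 := h E hE (p / 2) (by linarith)
  have hms : MeasurableSet {ξ | Λ / √p < rho E ξ} :=
    (isOpen_lt continuous_const (rho_continuous hE)).measurableSet
  have hint := PP_rpow_integrable hE (p := p / 2) (by linarith)
  calc ∫ ξ in {ξ | Λ / √p < rho E ξ}, PP E ξ ^ p
      ≤ ∫ ξ in {ξ | Λ / √p < rho E ξ}, Real.exp (-Λ ^ 2 / 2) * PP E ξ ^ (p / 2) := by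
        apply setIntegral_mono_on (PP_rpow_integrable hE (by linarith)).integrableOn
          (hint.const_mul _).integrableOn hms
        intro ξ hξ
        have hξ' : Λ / √p < rho E ξ := hξ
        have h2 : PP E ξ ^ p = PP E ξ ^ (p / 2) * PP E ξ ^ (p / 2) := by
          rw [← Real.rpow_add_of_nonneg (PP_nonneg E ξ) (by linarith) (by linarith), add_halves]
        rw [h2]
        apply mul_le_mul_of_nonneg_right _ (Real.rpow_nonneg (PP_nonneg E ξ) _)
        refine (lv_PP_pow_le_exp hE (by linarith) ξ).trans (Real.exp_le_exp.2 ?_)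
        have h3 : (Λ / √p) ^ 2 ≤ rho E ξ ^ 2 := pow_le_pow_left₀ (by positivity) hξ'.le 2
        rw [div_pow, Real.sq_sqrt hp0.le, div_le_iff₀ hp0] at h3
        linarith
    _ = Real.exp (-Λ ^ 2 / 2) * ∫ ξ in {ξ | Λ / √p < rho E ξ}, PP E ξ ^ (p / 2) := by
        rw [integral_const_mul]
    _ ≤ Real.exp (-Λ ^ 2 / 2) * MM (p / 2) E := by
        apply mul_le_mul_of_nonneg_left _ (Real.exp_pos _).le
        exact setIntegral_le_integral hint
          (Eventually.of_forall fun ξ => Real.rpow_nonneg (PP_nonneg E ξ) _)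
    _ ≤ Real.exp (-Λ ^ 2 / 2) * (C * (p / 2) ^ (-(d : ℝ) / 2)) := by gcongr
    _ = _ := by
        rw [Real.div_rpow hp0.le (by norm_num)]
        have : (2 : ℝ) ^ (-(d : ℝ) / 2) = ((2 : ℝ) ^ ((d : ℝ) / 2))⁻¹ := by
          rw [← Real.rpow_neg (by norm_num)]; congr 1; ring
        rw [this]
        field_simp

/-- near extremality forces large level sets, with a constant independent of `Λ` -/
theorem level_lower (d : ℕ) {c₀ : ℝ} (hc₀ : 0 < c₀) : ∃ c Λ₀ : ℝ, 0 < c ∧ 1 ≤ Λ₀ ∧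
    ∀ E : Set (X d), UnitVol E → ∀ p : ℝ, 8 ≤ p → c₀ * p ^ (-(d : ℝ) / 2) ≤ MM p E →
    ∀ Λ : ℝ, Λ₀ ≤ Λ → ENNReal.ofReal (c * (Λ / √p) ^ d) ≤ volume {ξ | rho E ξ ≤ Λ / √p} := by
  obtain ⟨C, hC, htail⟩ := MM_tail d
  -- choose `L` with `C exp(-L^2/2) ≤ c₀/2`
  obtain ⟨L, hL1, hL⟩ : ∃ L : ℝ, 1 ≤ L ∧ C * Real.exp (-L ^ 2 / 2) ≤ c₀ / 2 := by
    refine ⟨1 + 4 * C / c₀, by
      have : 0 < 4 * C / c₀ := by positivity
      linarith, ?_⟩
    set u := 4 * C / c₀ with hu
    have hu0 : 0 < u := by positivity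
    have h1 : Real.exp (-(1 + u) ^ 2 / 2) ≤ 1 / ((1 + u) ^ 2 / 2 + 1) := by
      rw [one_div, neg_div, Real.exp_neg]
      exact inv_anti₀ (by positivity) (Real.add_one_le_exp _)
    have h2 : (1:ℝ) / ((1 + u) ^ 2 / 2 + 1) ≤ 1 / u := by
      apply one_div_le_one_div_of_le hu0
      nlinarith [sq_nonneg u]
    calc C * Real.exp (-(1 + u) ^ 2 / 2) ≤ C * (1 / u) := by
          apply mul_le_mul_of_nonneg_left (h1.trans h2) hC.le
      _ = c₀ / 4 := by rw [hu]; field_simp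
      _ ≤ c₀ / 2 := by linarith
  refine ⟨c₀ / 2 / (2 * L) ^ d, L, by positivity, hL1, ?_⟩
  intro E hE p hp hM Λ hΛ
  have hp0 : 0 < p := by linarith
  have hsp : 0 < √p := Real.sqrt_pos.2 hp0
  have hL0 : 0 < L := by linarith
  rw [lv_pow_eq d hp0] at hM
  have hms : MeasurableSet {ξ | rho E ξ ≤ L / √p} :=
    (isClosed_le (rho_continuous hE) continuous_const).measurableSet
  have hcompl : {ξ | rho E ξ ≤ L / √p}ᶜ = {ξ | L / √p < rho E ξ} := by
    ext ξ
    change ¬ (rho E ξ ≤ L / √p) ↔ L / √p < rho E ξ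
    exact not_le
  set x : ℝ := (1 / √p) ^ d with hx
  have hx0 : 0 < x := by rw [hx]; positivity
  have ht := htail E hE p L hp hL0.le
  rw [lv_pow_eq d hp0, ← hx] at ht
  have hint := PP_rpow_integrable hE (p := p) (by linarith)
  have hkey : ENNReal.ofReal (c₀ / 2 * x) ≤ volume {ξ | rho E ξ ≤ L / √p} := by
    have h1 : ENNReal.ofReal (c₀ / 2 * x) + ENNReal.ofReal (c₀ / 2 * x) ≤
        volume {ξ | rho E ξ ≤ L / √p} + ENNReal.ofReal (c₀ / 2 * x) := by
      calc ENNReal.ofReal (c₀ / 2 * x) + ENNReal.ofReal (c₀ / 2 * x)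
          = ENNReal.ofReal (c₀ * x) := by
            rw [← ENNReal.ofReal_add (by positivity) (by positivity)]
            congr 1; ring
        _ ≤ ENNReal.ofReal (MM p E) := ENNReal.ofReal_le_ofReal hM
        _ = ∫⁻ ξ, ENNReal.ofReal (PP E ξ ^ p) := lv_ofReal_MM hE (by linarith)
        _ = (∫⁻ ξ in {ξ | rho E ξ ≤ L / √p}, ENNReal.ofReal (PP E ξ ^ p)) +
            ∫⁻ ξ in {ξ | rho E ξ ≤ L / √p}ᶜ, ENNReal.ofReal (PP E ξ ^ p) :=
            (lintegral_add_compl _ hms).symm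
        _ ≤ volume {ξ | rho E ξ ≤ L / √p} + ENNReal.ofReal (c₀ / 2 * x) := by
            apply add_le_add
            · calc (∫⁻ ξ in {ξ | rho E ξ ≤ L / √p}, ENNReal.ofReal (PP E ξ ^ p))
                  ≤ ∫⁻ ξ in {ξ | rho E ξ ≤ L / √p}, 1 := by
                    apply lintegral_mono
                    intro ξ
                    change ENNReal.ofReal (PP E ξ ^ p) ≤ 1
                    rw [← ENNReal.ofReal_one]
                    exact ENNReal.ofReal_le_ofReal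
                      (Real.rpow_le_one (PP_nonneg E ξ) (PP_le_one hE ξ) hp0.le)
                _ = volume {ξ | rho E ξ ≤ L / √p} := by
                    rw [setLIntegral_const, one_mul]
            · rw [hcompl, ← ofReal_integral_eq_lintegral_ofReal hint.integrableOn
                (Eventually.of_forall fun ξ => Real.rpow_nonneg (PP_nonneg E ξ) p)]
              apply ENNReal.ofReal_le_ofReal
              refine ht.trans ?_
              exact mul_le_mul_of_nonneg_right hL hx0.le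
    exact (ENNReal.add_le_add_iff_right ENNReal.ofReal_ne_top).1 h1
  set n : ℕ := ⌊Λ / L⌋₊ with hn
  have hΛL : 1 ≤ Λ / L := by rw [le_div_iff₀ hL0]; linarith
  have hn1 : 1 ≤ n := by
    rw [hn, Nat.one_le_floor_iff]
    exact hΛL
  have hn2 : (n : ℝ) * (L / √p) ≤ Λ / √p := by
    have := Nat.floor_le (show 0 ≤ Λ / L by linarith)
    rw [← hn, le_div_iff₀ hL0] at this
    rw [← mul_div_assoc]
    exact div_le_div_of_nonneg_right this hsp.le
  have hn3 : Λ / (2 * L) ≤ n := by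
    have h1 := Nat.lt_floor_add_one (Λ / L)
    rw [← hn] at h1
    have h2 : (1 : ℝ) ≤ n := by exact_mod_cast hn1
    have h3 : Λ / (2 * L) = Λ / L / 2 := by field_simp
    rw [h3]
    linarith
  refine le_trans ?_ (lv_smul_vol hE hn2)
  refine le_trans ?_ (mul_le_mul_right hkey _)
  rw [← ENNReal.ofReal_mul (by positivity)]
  apply ENNReal.ofReal_le_ofReal
  have h4 : (Λ / (2 * L)) ^ d ≤ (n : ℝ) ^ d :=
    pow_le_pow_left₀ (div_nonneg (by linarith) (by positivity)) hn3 d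
  calc c₀ / 2 / (2 * L) ^ d * (Λ / √p) ^ d = (Λ / (2 * L)) ^ d * (c₀ / 2 * x) := by
        rw [hx, div_pow, div_pow, one_div, inv_pow]
        field_simp
    _ ≤ (n : ℝ) ^ d * (c₀ / 2 * x) := mul_le_mul_of_nonneg_right h4 (by positivity)

end Pool.Agent.H82.Max
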