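import Pool.Agent.H82.Max.Four
import Pool.Agent.H82.Max.Kernel

open MeasureTheory Set Filter Topology
open scoped ENNReal Real InnerProductSpace symmDiff

namespace Pool.Agent.H82.Max

variable {d : ℕ}

private lemma loc_cs_le {E : Set (X d)} (hE : UnitVol E) (ξ : X d) : |cs E ξ| ≤ 1 := by
  have h := PP_le_one hE ξ
  unfold PP at h
  rw [← sq_le_one_iff_abs_le_one]
  nlinarith [sq_nonneg (sn E ξ)]

private lemma loc_sn_le {E : Set (X d)} (hE : UnitVol E) (ξ : X d) : |sn E ξ| ≤ 1 := by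
  have h := PP_le_one hE ξ
  unfold PP at h
  rw [← sq_le_one_iff_abs_le_one]
  nlinarith [sq_nonneg (cs E ξ)]

private lemma loc_ne_top {E : Set (X d)} (hE : UnitVol E) : volume E ≠ ⊤ := by
  rw [hE.vol]; exact ENNReal.one_ne_top

private lemma loc_int {E : Set (X d)} (hE : UnitVol E) {q : ℝ} (hq : 1 ≤ q) {f : X d → ℝ}
    (hf : Continuous f) {C : ℝ} (hC : ∀ ξ, |f ξ| ≤ C) :
    Integrable (fun ξ => f ξ * PP E ξ ^ q) :=
  (PP_rpow_integrable hE hq).bdd_mul hf.aestronglyMeasurable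
    (Eventually.of_forall fun ξ => by simpa using hC ξ)

private lemma loc_unit {p δ : ℝ} {N F : Set (X d)} (h : Loc d p δ N F) : UnitVol (N ∪ F) :=
  ⟨h.mN.union h.mF, h.vol⟩

private lemma loc_finF {p δ : ℝ} {N F : Set (X d)} (h : Loc d p δ N F) : volume F ≠ ⊤ := by
  have h1 : volume F ≤ volume (N ∪ F) := measure_mono subset_union_right
  rw [h.vol] at h1
  exact (h1.trans_lt ENNReal.one_lt_top).ne

private lemma loc_finN {p δ : ℝ} {N F : Set (X d)} (h : Loc d p δ N F) : volume N ≠ ⊤ := by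
  have h1 : volume N ≤ volume (N ∪ F) := measure_mono subset_union_left
  rw [h.vol] at h1
  exact (h1.trans_lt ENNReal.one_lt_top).ne

private lemma loc_volN {p δ : ℝ} {N F : Set (X d)} (h : Loc d p δ N F) : volume.real N ≤ 1 := by
  have h1 : volume N ≤ volume (N ∪ F) := measure_mono subset_union_left
  rw [h.vol] at h1
  rw [measureReal_def]
  exact ENNReal.toReal_le_of_le_ofReal zero_le_one (by simpa using h1)

private lemma loc_min_int {p : ℝ} (hp : 0 ≤ p) {F : Set (X d)} (hF : volume F ≠ ⊤) :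
    IntegrableOn (fun x : X d => min p (‖x‖ ^ 2)) F := by
  have : IsFiniteMeasure (volume.restrict F) := ⟨by simpa using hF.lt_top⟩
  refine Integrable.of_bound (C := p) ?_ (Eventually.of_forall fun x => ?_)
  · exact (Continuous.aestronglyMeasurable (by fun_prop))
  · rw [Real.norm_of_nonneg (by positivity)]
    exact min_le_left _ _

private lemma loc_gam_nonneg {p : ℝ} (hp : 0 ≤ p) (F : Set (X d)) :
    0 ≤ ∫ x in F, min p (‖x‖ ^ 2) :=
  integral_nonneg fun x => by positivity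

private lemma loc_volF {p δ : ℝ} {N F : Set (X d)} (h : Loc d p δ N F)
    (hp : 9 / 4 * rd d ^ 2 ≤ p) :
    9 / 4 * rd d ^ 2 * volume.real F ≤ ∫ x in F, min p (‖x‖ ^ 2) := by
  have hr := rd_pos d
  have hp0 : 0 ≤ p := le_trans (by positivity) hp
  have h1 : ∫ x in F, (9 / 4 * rd d ^ 2) ≤ ∫ x in F, min p (‖x‖ ^ 2) := by
    refine setIntegral_mono_on ?_ (loc_min_int hp0 (loc_finF h)) h.mF ?_
    · exact integrableOn_const (loc_finF h)
    · intro x hx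
      refine le_min hp ?_
      have := h.hF x hx
      nlinarith [norm_nonneg x]
  rw [setIntegral_const] at h1
  simpa [mul_comm] using h1


/-- the weight of the first variation -/
private noncomputable def loc_w (d : ℕ) (p : ℝ) (ξ : X d) : ℝ :=
  PP (Bl d) ξ ^ (p - 1) * cs (Bl d) ξ

private lemma loc_w_int {d : ℕ} (hd : 0 < d) {p : ℝ} (hp : 2 ≤ p) : Integrable (loc_w d p) := by
  have h := loc_int (unitVol_Bl hd) (q := p - 1) (by linarith)
    (cs_continuous (unitVol_Bl hd).meas (loc_ne_top (unitVol_Bl hd)))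
    (loc_cs_le (unitVol_Bl hd))
  refine h.congr (Eventually.of_forall fun ξ => ?_)
  simp only [loc_w]; ring

private lemma loc_fub {d : ℕ} (hd : 0 < d) {p : ℝ} (hp : 2 ≤ p) {E : Set (X d)}
    (hE' : volume E ≠ ⊤) :
    IntegrableOn (KK d p) E ∧ ∫ ξ, loc_w d p ξ * cs E ξ = ∫ x in E, KK d p x := by
  have : IsFiniteMeasure (volume.restrict E) := ⟨by simpa using hE'.lt_top⟩
  have h1 : Integrable (fun z : X d × X d => loc_w d p z.1 * (1:ℝ))
      (volume.prod (volume.restrict E)) :=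
    (loc_w_int hd hp).mul_prod (integrable_const (1:ℝ))
  have h2 : Integrable (fun z : X d × X d =>
      Real.cos (2 * π * ⟪z.2, z.1⟫_ℝ) * (loc_w d p z.1 * (1:ℝ)))
      (volume.prod (volume.restrict E)) := by
    refine h1.bdd_mul (c := 1) (Continuous.aestronglyMeasurable (by fun_prop)) ?_
    exact Eventually.of_forall fun z => Real.abs_cos_le_one _
  have h3 : Integrable (Function.uncurry fun (ξ x : X d) =>
      loc_w d p ξ * Real.cos (2 * π * ⟪x, ξ⟫_ℝ)) (volume.prod (volume.restrict E)) := by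
    refine h2.congr (Eventually.of_forall fun z => ?_)
    simp only [Function.uncurry]; ring
  refine ⟨?_, ?_⟩
  · exact h3.integral_prod_right
  · have h4 := integral_integral_swap h3
    have h5 : ∀ ξ, loc_w d p ξ * cs E ξ =
        ∫ x in E, loc_w d p ξ * Real.cos (2 * π * ⟪x, ξ⟫_ℝ) := by
      intro ξ
      rw [cs, integral_const_mul]
    simp_rw [h5]
    rw [h4]
    rfl

private lemma loc_gap {d : ℕ} {N : Set (X d)} (hN : MeasurableSet N)
    (hR : N ⊆ Metric.closedBall 0 (3 * rd d)) :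
    gap N = (∫ x in N \ Bl d, (‖x‖ ^ 2 - rd d ^ 2)) + ∫ x in Bl d \ N, (rd d ^ 2 - ‖x‖ ^ 2) := by
  have hr := rd_pos d
  have hBm : MeasurableSet (Bl d) := Metric.isClosed_closedBall.measurableSet
  have hsub : ∀ S : Set (X d), S ⊆ Metric.closedBall 0 (3 * rd d) →
      IntegrableOn (fun x : X d => |‖x‖ ^ 2 - rd d ^ 2|) S := by
    intro S hS
    have hc : Continuous fun x : X d => |‖x‖ ^ 2 - rd d ^ 2| := by fun_prop
    exact (hc.continuousOn.integrableOn_compact (isCompact_closedBall 0 (3 * rd d))).mono_set hS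
  have hB3 : Bl d ⊆ Metric.closedBall 0 (3 * rd d) :=
    Metric.closedBall_subset_closedBall (by linarith)
  unfold gap
  rw [Set.symmDiff_def, setIntegral_union]
  · congr 1
    · refine setIntegral_congr_fun (hN.diff hBm) fun x hx => ?_
      have hx1 : rd d < ‖x‖ := by simpa [Bl] using hx.2
      rw [abs_of_nonneg]
      nlinarith [norm_nonneg x]
    · refine setIntegral_congr_fun (hBm.diff hN) fun x hx => ?_
      have hx1 : ‖x‖ ≤ rd d := by simpa [Bl] using hx.1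
      rw [abs_of_nonpos]
      · ring
      · nlinarith [norm_nonneg x]
  · exact Set.disjoint_left.2 fun x hx hx' => hx.2 hx'.1
  · exact hBm.diff hN
  · exact hsub _ (sdiff_subset.trans hR)
  · exact hsub _ (sdiff_subset.trans hB3)

/-- the first variation (Fubini and the kernel estimate) -/
theorem linear_term {d : ℕ} (hd : 0 < d) : ∃ c P : ℝ, 0 < c ∧ 8 ≤ P ∧ ∀ p δ : ℝ, P ≤ p → δ ≤ 1 →
    ∀ N F : Set (X d), Loc d p δ N F →
    ∫ ξ, PP (Bl d) ξ ^ (p - 1) * cs (Bl d) ξ * (cs (N ∪ F) ξ - cs (Bl d) ξ) ≤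
      -(c * p ^ (-(d : ℝ) / 2 - 1) * (gap N + ∫ x in F, min p (‖x‖ ^ 2))) := by
  obtain ⟨c, P, hc, hP, hK⟩ := kernel hd
  have hr := rd_pos d
  refine ⟨c * (5 / 9), max P (8 + 8 * rd d ^ 2), by positivity,
    (by nlinarith [sq_nonneg (rd d)] : (8:ℝ) ≤ 8 + 8 * rd d ^ 2).trans (le_max_right _ _), ?_⟩
  intro p δ hpP hδ N F h
  have hpP1 : P ≤ p := (le_max_left _ _).trans hpP
  have hpr : 8 + 8 * rd d ^ 2 ≤ p := (le_max_right _ _).trans hpP
  have hp8 : 8 ≤ p := by nlinarith [sq_nonneg (rd d)]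
  have hp0 : 0 < p := by linarith
  obtain ⟨κ, hκ⟩ := hK p hpP1
  set c' : ℝ := c * p ^ (-(d : ℝ) / 2 - 1) with hc'
  have hc'0 : 0 < c' := by positivity
  set E : Set (X d) := N ∪ F with hEdef
  have hE : UnitVol E := loc_unit h
  have hB : UnitVol (Bl d) := unitVol_Bl hd
  obtain ⟨iE, eE⟩ := loc_fub hd (p := p) (by linarith) (E := E) (loc_ne_top hE)
  obtain ⟨iB, eB⟩ := loc_fub hd (p := p) (by linarith) (E := Bl d) (loc_ne_top hB)
  have hBm : MeasurableSet (Bl d) := hB.meas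
  have hEm : MeasurableSet E := hE.meas
  -- the left side in terms of the kernel
  have e1 : ∫ ξ, PP (Bl d) ξ ^ (p - 1) * cs (Bl d) ξ * (cs E ξ - cs (Bl d) ξ) =
      (∫ x in E, KK d p x) - ∫ x in Bl d, KK d p x := by
    rw [← eE, ← eB, ← integral_sub]
    · refine integral_congr_ae (Eventually.of_forall fun ξ => ?_)
      simp only [loc_w]; ring
    · have := (loc_w_int hd (p := p) (by linarith)).mul_bdd (c := 1)
        (cs_continuous hE.meas (loc_ne_top hE)).aestronglyMeasurable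
        (Eventually.of_forall fun ξ => by simpa using loc_cs_le hE ξ)
      exact this
    · have := (loc_w_int hd (p := p) (by linarith)).mul_bdd (c := 1)
        (cs_continuous hB.meas (loc_ne_top hB)).aestronglyMeasurable
        (Eventually.of_forall fun ξ => by simpa using loc_cs_le hB ξ)
      exact this
  have ic : ∀ S : Set (X d), volume S ≠ ⊤ → IntegrableOn (fun _ : X d => κ) S :=
    fun S hS => integrableOn_const hS
  have e2 : (∫ x in E, KK d p x) - ∫ x in Bl d, KK d p x =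
      (∫ x in E, (KK d p x - κ)) - ∫ x in Bl d, (KK d p x - κ) := by
    rw [integral_sub iE (ic _ (loc_ne_top hE)), integral_sub iB (ic _ (loc_ne_top hB)),
      setIntegral_const, setIntegral_const, measureReal_def, measureReal_def, hE.vol, hB.vol]
    ring
  have jE : IntegrableOn (fun x => KK d p x - κ) E := iE.sub (ic _ (loc_ne_top hE))
  have jB : IntegrableOn (fun x => KK d p x - κ) (Bl d) := iB.sub (ic _ (loc_ne_top hB))
  have e3 : (∫ x in E, (KK d p x - κ)) - ∫ x in Bl d, (KK d p x - κ) =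
      (∫ x in E \ Bl d, (KK d p x - κ)) - ∫ x in Bl d \ E, (KK d p x - κ) := by
    rw [← integral_inter_add_sdiff hBm jE, ← integral_inter_add_sdiff hEm jB, inter_comm]
    ring
  have hFB : Disjoint F (Bl d) := by
    rw [Set.disjoint_left]
    intro x hx hxB
    have h1 := h.hF x hx
    have h2 : ‖x‖ ≤ rd d := by simpa [Bl] using hxB
    linarith
  have hsE : E \ Bl d = (N \ Bl d) ∪ F := by
    rw [hEdef, union_sdiff_distrib, hFB.sdiff_eq_left]
  have hsB : Bl d \ E = Bl d \ N := by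
    rw [hEdef, ← sdiff_sdiff, sdiff_eq_left.2]
    exact (hFB.symm.mono_left sdiff_subset)
  have hnormB : ∀ x : X d, x ∉ Bl d → rd d < ‖x‖ := by
    intro x hx
    simpa [Bl] using hx
  have finNB : volume (N \ Bl d) ≠ ⊤ :=
    ((measure_mono sdiff_subset).trans_lt (loc_finN h).lt_top).ne
  have finBN : volume (Bl d \ N) ≠ ⊤ :=
    ((measure_mono sdiff_subset).trans_lt (loc_ne_top hB).lt_top).ne
  have b1 : ∫ x in E \ Bl d, (KK d p x - κ) ≤
      -(c' * ((∫ x in N \ Bl d, (‖x‖ ^ 2 - rd d ^ 2)) + 5 / 9 * ∫ x in F, min p (‖x‖ ^ 2))) := by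
    rw [hsE, setIntegral_union (h.disj.mono_left sdiff_subset) h.mF]
    · have a1 : ∫ x in N \ Bl d, (KK d p x - κ) ≤
          ∫ x in N \ Bl d, -(c' * (‖x‖ ^ 2 - rd d ^ 2)) := by
        refine setIntegral_mono_on (jE.mono_set ?_) ?_ (h.mN.diff hBm) ?_
        · exact sdiff_subset.trans subset_union_left
        · have hcc : Continuous fun x : X d => -(c' * (‖x‖ ^ 2 - rd d ^ 2)) := by fun_prop
          exact (hcc.continuousOn.integrableOn_compact
            (isCompact_closedBall 0 (3 * rd d))).mono_set (sdiff_subset.trans h.hN)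
        · intro x hx
          have hx1 := hnormB x hx.2
          have hx2 : ‖x‖ ≤ 3 * rd d := by simpa using h.hN hx.1
          have h3 := (hκ x).1 hx1.le
          rw [min_eq_left] at h3
          · rw [hc']; linarith
          · nlinarith [norm_nonneg x]
      have a2 : ∫ x in F, (KK d p x - κ) ≤ ∫ x in F, -(c' * (5 / 9 * min p (‖x‖ ^ 2))) := by
        refine setIntegral_mono_on (jE.mono_set subset_union_right) ?_ h.mF ?_
        · exact (((loc_min_int hp0.le (loc_finF h)).const_mul (5 / 9)).const_mul c').neg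
        · intro x hx
          have hx1 := h.hF x hx
          have h3 := (hκ x).1 (by linarith)
          have h4 : 5 / 9 * min p (‖x‖ ^ 2) ≤ min (‖x‖ ^ 2 - rd d ^ 2) p := by
            have h5 : 0 ≤ ‖x‖ := norm_nonneg x
            refine le_min ?_ ?_
            · have h6 : min p (‖x‖ ^ 2) ≤ ‖x‖ ^ 2 := min_le_right _ _
              nlinarith
            · have h6 : min p (‖x‖ ^ 2) ≤ p := min_le_left _ _
              nlinarith
          have h5 := mul_le_mul_of_nonneg_left h4 hc'0.le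
          rw [hc'] at h5 ⊢
          linarith
      rw [integral_neg, integral_const_mul] at a1 a2
      rw [integral_const_mul] at a2
      linarith
    · exact jE.mono_set (sdiff_subset.trans subset_union_left)
    · exact jE.mono_set subset_union_right
  have b2 : c' * (∫ x in Bl d \ N, (rd d ^ 2 - ‖x‖ ^ 2)) ≤ ∫ x in Bl d \ E, (KK d p x - κ) := by
    rw [hsB, ← integral_const_mul]
    refine setIntegral_mono_on ?_ (jB.mono_set sdiff_subset) (hBm.diff h.mN) ?_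
    · have hcc : Continuous fun x : X d => c' * (rd d ^ 2 - ‖x‖ ^ 2) := by fun_prop
      exact (hcc.continuousOn.integrableOn_compact
        (isCompact_closedBall 0 (rd d))).mono_set sdiff_subset
    · intro x hx
      have hx1 : ‖x‖ ≤ rd d := by simpa [Bl] using hx.1
      have h3 := (hκ x).2 hx1
      rw [hc']; linarith
  rw [e1, e2, e3, loc_gap h.mN h.hN]
  have hg2 : 0 ≤ ∫ x in Bl d \ N, (rd d ^ 2 - ‖x‖ ^ 2) := by
    refine setIntegral_nonneg (hBm.diff h.mN) fun x hx => ?_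
    have hx1 : ‖x‖ ≤ rd d := by simpa [Bl] using hx.1
    nlinarith [norm_nonneg x]
  have hg1 : 0 ≤ ∫ x in N \ Bl d, (‖x‖ ^ 2 - rd d ^ 2) := by
    refine setIntegral_nonneg (h.mN.diff hBm) fun x hx => ?_
    have hx1 := hnormB x hx.2
    nlinarith [norm_nonneg x]
  have h6 := mul_nonneg hc'0.le hg1
  have h7 := mul_nonneg hc'0.le hg2
  have e9 : c * (5 / 9) * p ^ (-(d : ℝ) / 2 - 1) = 5 / 9 * c' := by rw [hc']; ring
  rw [e9]
  nlinarith


/-- the moments `0`, `4`, `8` of `PP^(p-2)` on the unit ball and the mass outside -/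
private lemma loc_moments {d : ℕ} (c₀ : ℝ) (hc₀ : 0 < c₀) : ∃ K : ℝ, 0 < K ∧
    ∀ E : Set (X d), UnitVol E → (∀ ξ, c₀ * min 1 (‖ξ‖ ^ 2) ≤ 1 - PP E ξ) →
    ∀ p : ℝ, 4 ≤ p →
      (∫ ξ in Metric.closedBall 0 1, PP E ξ ^ (p - 2) ≤ K * p ^ (-(d : ℝ) / 2)) ∧
      (∫ ξ in Metric.closedBall 0 1, ‖ξ‖ ^ 4 * PP E ξ ^ (p - 2) ≤
        K * p ^ (-(d : ℝ) / 2) / p ^ 2) ∧
      (∫ ξ in Metric.closedBall 0 1, ‖ξ‖ ^ 8 * PP E ξ ^ (p - 2) ≤
        K * p ^ (-(d : ℝ) / 2) / p ^ 4) ∧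
      (∫ ξ in (Metric.closedBall 0 1)ᶜ, PP E ξ ^ (p - 2) ≤
        K * p ^ (-(d : ℝ) / 2) / p ^ 3) := by
  obtain ⟨C0, hC0, h0⟩ := mom d 0 hc₀
  obtain ⟨C4, hC4, h4⟩ := mom d 4 hc₀
  obtain ⟨C8, hC8, h8⟩ := mom d 8 hc₀
  obtain ⟨C9, hC9, h9⟩ := exp_le_rpow hc₀ ((d : ℝ) / 2 + 3)
  set T : ℝ := (2:ℝ) ^ (((d : ℝ) + 8) / 2) with hT
  have hT0 : 0 < T := by positivity
  refine ⟨(C0 + C4 + C8) * T + Real.exp (3 * c₀) * C9, by positivity, ?_⟩
  intro E hE hco p hp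
  have hp0 : 0 < p := by linarith
  have hPm : Measurable (PP E) := (PP_continuous hE.meas (loc_ne_top hE)).measurable
  have hle : ∀ ξ, PP E ξ ≤ 1 - c₀ * min 1 (‖ξ‖ ^ 2) := fun ξ => by linarith [hco ξ]
  have hrp : 0 < p ^ (-(d : ℝ) / 2) := by positivity
  -- comparison of `p-2` and `p`
  have hcmp : ∀ k : ℕ, k ≤ 8 → (p - 2) ^ (-((d : ℝ) + k) / 2) ≤
      T * (p ^ (-(d : ℝ) / 2) * p ^ (-(k : ℝ) / 2)) := by
    intro k hk
    have h1 : (p - 2) ^ (-((d : ℝ) + k) / 2) ≤ (p / 2) ^ (-((d : ℝ) + k) / 2) := by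
      apply Real.rpow_le_rpow_of_nonpos (by positivity) (by linarith)
      have : (0:ℝ) ≤ d := Nat.cast_nonneg d
      have : (0:ℝ) ≤ k := Nat.cast_nonneg k
      linarith
    refine h1.trans ?_
    rw [Real.div_rpow hp0.le (by norm_num), ← Real.rpow_add hp0]
    have e1 : -(d : ℝ) / 2 + -(k : ℝ) / 2 = -((d : ℝ) + k) / 2 := by ring
    rw [e1, div_eq_mul_inv, ← Real.rpow_neg (by norm_num), mul_comm]
    apply mul_le_mul_of_nonneg_right _ (by positivity)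
    rw [hT]
    apply Real.rpow_le_rpow_of_exponent_le (by norm_num)
    have : (k:ℝ) ≤ 8 := by exact_mod_cast hk
    linarith
  have hpk : ∀ j : ℕ, p ^ (-((2 * j : ℕ) : ℝ) / 2) = 1 / p ^ j := by
    intro j
    have : -((2 * j : ℕ) : ℝ) / 2 = -(j : ℝ) := by push_cast; ring
    rw [this, Real.rpow_neg hp0.le, Real.rpow_natCast, one_div]
  have hX : 0 ≤ Real.exp (3 * c₀) * C9 := by positivity
  have hmain : ∀ (j : ℕ) (C : ℝ), 0 < C → C ≤ C0 + C4 + C8 → 2 * j ≤ 8 →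
      C * (p - 2) ^ (-((d : ℝ) + (2 * j : ℕ)) / 2) ≤
        ((C0 + C4 + C8) * T + Real.exp (3 * c₀) * C9) * p ^ (-(d : ℝ) / 2) / p ^ j := by
    intro j C hC hCle hj
    have h1 := hcmp (2 * j) hj
    rw [hpk j] at h1
    calc C * (p - 2) ^ (-((d : ℝ) + (2 * j : ℕ)) / 2)
        ≤ C * (T * (p ^ (-(d : ℝ) / 2) * (1 / p ^ j))) := mul_le_mul_of_nonneg_left h1 hC.le
      _ = C * T * (p ^ (-(d : ℝ) / 2) / p ^ j) := by ring
      _ ≤ ((C0 + C4 + C8) * T + Real.exp (3 * c₀) * C9) * (p ^ (-(d : ℝ) / 2) / p ^ j) := by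
          apply mul_le_mul_of_nonneg_right _ (by positivity)
          have := mul_le_mul_of_nonneg_right hCle hT0.le
          linarith
      _ = _ := by ring
  refine ⟨?_, ?_, ?_, ?_⟩
  · have h1 := h0 (PP E) hPm (PP_nonneg E) hle (p - 2) (by linarith)
    have h2 := hmain 0 C0 hC0 (by linarith) (by norm_num)
    simp only [pow_zero, one_mul, Nat.cast_zero, mul_zero, div_one] at h1 h2
    exact h1.trans h2
  · have h1 := h4 (PP E) hPm (PP_nonneg E) hle (p - 2) (by linarith)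
    have h2 := hmain 2 C4 hC4 (by linarith) (by norm_num)
    exact h1.trans (by simpa using h2)
  · have h1 := h8 (PP E) hPm (PP_nonneg E) hle (p - 2) (by linarith)
    have h2 := hmain 4 C8 hC8 (by linarith) (by norm_num)
    exact h1.trans (by simpa using h2)
  · have h1 := mom_out d hc₀ (PP E) (PP_integrable hE) (PP_nonneg E) hle
      (integral_PP hE).le (p - 2) (by linarith)
    refine h1.trans ?_
    have h2 := h9 p (by linarith)
    have e1 : Real.exp (-c₀ * (p - 2 - 1)) = Real.exp (3 * c₀) * Real.exp (-c₀ * p) := by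
      rw [← Real.exp_add]; congr 1; ring
    rw [e1]
    have e2 : p ^ (-((d : ℝ) / 2 + 3)) = p ^ (-(d : ℝ) / 2) / p ^ 3 := by
      have : -((d : ℝ) / 2 + 3) = -(d : ℝ) / 2 - (3 : ℕ) := by push_cast; ring
      rw [this, Real.rpow_sub hp0, Real.rpow_natCast]
    rw [e2] at h2
    calc Real.exp (3 * c₀) * Real.exp (-c₀ * p)
        ≤ Real.exp (3 * c₀) * (C9 * (p ^ (-(d : ℝ) / 2) / p ^ 3)) :=
          mul_le_mul_of_nonneg_left h2 (Real.exp_pos _).le
      _ = Real.exp (3 * c₀) * C9 * (p ^ (-(d : ℝ) / 2) / p ^ 3) := by ring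
      _ ≤ ((C0 + C4 + C8) * T + Real.exp (3 * c₀) * C9) * (p ^ (-(d : ℝ) / 2) / p ^ 3) := by
          apply mul_le_mul_of_nonneg_right _ (by positivity)
          have : 0 < (C0 + C4 + C8) * T := by positivity
          linarith
      _ = _ := by ring


/-- pointwise second order estimate -/
private lemma loc_pointwise {a b C u v p : ℝ} (hp : 2 ≤ p) (hC : |C| ≤ 1) (hu : |u| ≤ 2)
    (ha : a = C ^ 2) (hb : b = (C + u) ^ 2 + v ^ 2) (ha1 : a ≤ 1) :
    b ^ p - a ^ p - 2 * p * (a ^ (p - 1) * C * u) ≤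
      (17 * p ^ 2 * u ^ 2 + p * v ^ 2 + p ^ 2 * v ^ 4) * (a ^ (p - 2) + b ^ (p - 2)) := by
  have ha0 : 0 ≤ a := by rw [ha]; positivity
  have hb0 : 0 ≤ b := by rw [hb]; positivity
  have h1 := taylor_rpow ha0 hb0 hp
  have hba : b - a = 2 * C * u + u ^ 2 + v ^ 2 := by rw [ha, hb]; ring
  have hQa : 0 ≤ a ^ (p - 2) := Real.rpow_nonneg ha0 _
  have hQb : 0 ≤ b ^ (p - 2) := Real.rpow_nonneg hb0 _
  have hmono : a ^ (p - 1) ≤ a ^ (p - 2) := by
    rcases ha0.eq_or_lt with h | h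
    · rw [← h]
      rcases hp.eq_or_lt with h2 | h2
      · rw [← h2]; norm_num
      · rw [Real.zero_rpow (by linarith), Real.zero_rpow (by linarith)]
    · exact Real.rpow_le_rpow_of_exponent_ge h ha1 (by linarith)
  have hsq : (b - a) ^ 2 ≤ 32 * u ^ 2 + 2 * v ^ 4 := by
    rw [hba]
    have h3 : (2 * C * u + u ^ 2) ^ 2 ≤ 16 * u ^ 2 := by
      have h4 : (2 * C + u) ^ 2 ≤ 16 := by
        have h5 := abs_le.1 hC
        have h6 := abs_le.1 hu
        nlinarith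
      have e : (2 * C * u + u ^ 2) ^ 2 = (2 * C + u) ^ 2 * u ^ 2 := by ring
      rw [e]
      exact mul_le_mul_of_nonneg_right h4 (sq_nonneg _)
    have h7 : (2 * C * u + u ^ 2 + v ^ 2) ^ 2 ≤
        2 * (2 * C * u + u ^ 2) ^ 2 + 2 * (v ^ 2) ^ 2 := by
      nlinarith [sq_nonneg (2 * C * u + u ^ 2 - v ^ 2)]
    have e2 : (v ^ 2) ^ 2 = v ^ 4 := by ring
    rw [e2] at h7
    linarith
  set Q := a ^ (p - 2) + b ^ (p - 2) with hQ
  have hQ0 : 0 ≤ Q := by positivity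
  have hp0 : 0 ≤ p := by linarith
  have h8 : p * a ^ (p - 1) * (b - a) ≤
      2 * p * (a ^ (p - 1) * C * u) + p * (u ^ 2 + v ^ 2) * Q := by
    rw [hba]
    have h9 : a ^ (p - 1) ≤ Q := by rw [hQ]; linarith
    have h10 : p * (u ^ 2 + v ^ 2) * a ^ (p - 1) ≤ p * (u ^ 2 + v ^ 2) * Q :=
      mul_le_mul_of_nonneg_left h9 (by positivity)
    nlinarith
  have h11 : p ^ 2 / 2 * (b - a) ^ 2 * Q ≤ p ^ 2 / 2 * (32 * u ^ 2 + 2 * v ^ 4) * Q := by
    apply mul_le_mul_of_nonneg_right _ hQ0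
    exact mul_le_mul_of_nonneg_left hsq (by positivity)
  have h12 : p * u ^ 2 * Q ≤ p ^ 2 * u ^ 2 * Q := by
    apply mul_le_mul_of_nonneg_right _ hQ0
    apply mul_le_mul_of_nonneg_right _ (sq_nonneg _)
    nlinarith
  nlinarith

/-- bound of the quadratic form inside the unit ball -/
private lemma loc_inside {C₁ s g β γ p u v : ℝ} (hC₁ : 0 < C₁) (hs : 0 ≤ s) (hs1 : s ≤ 1)
    (hβ : 0 ≤ β) (hβ1 : β ≤ 1) (hγ : 0 ≤ γ) (hγ1 : γ ≤ 1) (hp : 1 ≤ p)
    (hu : |u| ≤ C₁ * (s * g + s ^ 2 * β + (s + 1 / p) * γ))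
    (hv : v ^ 2 ≤ C₁ * (s ^ 3 * β ^ 2 + (s + 1 / p) * γ ^ 2)) :
    17 * p ^ 2 * u ^ 2 + p * v ^ 2 + p ^ 2 * v ^ 4 ≤
      200 * (C₁ + 1) ^ 2 * (p ^ 2 * s ^ 2 * (g ^ 2 + γ ^ 2) + p ^ 2 * s ^ 4 * β ^ 2 + γ ^ 2 +
        s ^ 2 * β ^ 2) := by
  have hp0 : 0 < p := by linarith
  set W := p ^ 2 * s ^ 2 * (g ^ 2 + γ ^ 2) + p ^ 2 * s ^ 4 * β ^ 2 + γ ^ 2 + s ^ 2 * β ^ 2 with hW
  have hW0 : 0 ≤ W := by positivity
  -- first term
  have h1 : p * |u| ≤ C₁ * (p * s * g + p * s ^ 2 * β + (p * s + 1) * γ) := by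
    have h := mul_le_mul_of_nonneg_left hu hp0.le
    calc p * |u| ≤ p * (C₁ * (s * g + s ^ 2 * β + (s + 1 / p) * γ)) := h
      _ = C₁ * (p * s * g + p * s ^ 2 * β + (p * s + p * (1 / p)) * γ) := by ring
      _ = _ := by rw [mul_one_div_cancel hp0.ne']
  have h2 : p ^ 2 * u ^ 2 ≤ C₁ ^ 2 * (6 * W) := by
    have h3 : (p * |u|) ^ 2 ≤ (C₁ * (p * s * g + p * s ^ 2 * β + (p * s + 1) * γ)) ^ 2 :=
      pow_le_pow_left₀ (by positivity) h1 2
    have e3 : (p * |u|) ^ 2 = p ^ 2 * u ^ 2 := by rw [mul_pow, sq_abs]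
    rw [e3, mul_pow] at h3
    refine h3.trans (mul_le_mul_of_nonneg_left ?_ (by positivity))
    rw [hW]
    nlinarith [sq_nonneg (p * s * g - p * s ^ 2 * β), sq_nonneg (p * s * g - (p * s + 1) * γ),
      sq_nonneg (p * s ^ 2 * β - (p * s + 1) * γ), sq_nonneg (p * s * γ - γ),
      mul_nonneg (sq_nonneg s) (sq_nonneg β), sq_nonneg (p * s * g), sq_nonneg (p * s ^ 2 * β),
      sq_nonneg (p * s * γ), sq_nonneg γ]
  -- second term
  have h4 : p * v ^ 2 ≤ C₁ * (p * s ^ 3 * β ^ 2 + (p * s + 1) * γ ^ 2) := by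
    have h := mul_le_mul_of_nonneg_left hv hp0.le
    calc p * v ^ 2 ≤ p * (C₁ * (s ^ 3 * β ^ 2 + (s + 1 / p) * γ ^ 2)) := h
      _ = C₁ * (p * s ^ 3 * β ^ 2 + (p * s + p * (1 / p)) * γ ^ 2) := by ring
      _ = _ := by rw [mul_one_div_cancel hp0.ne']
  have h5 : p * s ^ 3 * β ^ 2 + (p * s + 1) * γ ^ 2 ≤ 2 * W := by
    rw [hW]
    have a1 : p * s ^ 3 ≤ p ^ 2 * s ^ 4 + s ^ 2 := by
      nlinarith [sq_nonneg (p * s ^ 2 - s), sq_nonneg (p * s ^ 2), sq_nonneg s]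
    have a2 : p * s ≤ p ^ 2 * s ^ 2 + 1 := by nlinarith [sq_nonneg (p * s - 1), sq_nonneg (p * s)]
    have a3 := mul_le_mul_of_nonneg_right a1 (sq_nonneg β)
    have a4 := mul_le_mul_of_nonneg_right a2 (sq_nonneg γ)
    nlinarith [mul_nonneg (mul_nonneg (sq_nonneg p) (sq_nonneg s)) (sq_nonneg g),
      mul_nonneg (mul_nonneg (sq_nonneg p) (sq_nonneg s)) (sq_nonneg γ),
      mul_nonneg (mul_nonneg (sq_nonneg p) (sq_nonneg (s ^ 2))) (sq_nonneg β),
      mul_nonneg (sq_nonneg s) (sq_nonneg β)]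
  have h6 : p * v ^ 2 ≤ C₁ * (2 * W) := h4.trans (mul_le_mul_of_nonneg_left h5 hC₁.le)
  -- third term
  have h7 : p ^ 2 * v ^ 4 ≤ C₁ ^ 2 * (4 * W) := by
    have h8 : (p * v ^ 2) ^ 2 ≤ (C₁ * (p * s ^ 3 * β ^ 2 + (p * s + 1) * γ ^ 2)) ^ 2 :=
      pow_le_pow_left₀ (by positivity) h4 2
    have e3 : (p * v ^ 2) ^ 2 = p ^ 2 * v ^ 4 := by ring
    rw [e3, mul_pow] at h8
    refine h8.trans (mul_le_mul_of_nonneg_left ?_ (by positivity))
    have a1 : (p * s ^ 3 * β ^ 2) ^ 2 ≤ p ^ 2 * s ^ 4 * β ^ 2 := by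
      have b1 : s ^ 6 ≤ s ^ 4 := pow_le_pow_of_le_one hs hs1 (by norm_num)
      have b2 : β ^ 4 ≤ β ^ 2 := pow_le_pow_of_le_one hβ hβ1 (by norm_num)
      calc (p * s ^ 3 * β ^ 2) ^ 2 = p ^ 2 * (s ^ 6 * β ^ 4) := by ring
        _ ≤ p ^ 2 * (s ^ 4 * β ^ 2) :=
          mul_le_mul_of_nonneg_left (mul_le_mul b1 b2 (by positivity) (by positivity))
            (by positivity)
        _ = _ := by ring
    have a2 : ((p * s + 1) * γ ^ 2) ^ 2 ≤ 2 * (p ^ 2 * s ^ 2 + 1) * γ ^ 2 := by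
      have b2 : γ ^ 4 ≤ γ ^ 2 := pow_le_pow_of_le_one hγ hγ1 (by norm_num)
      calc ((p * s + 1) * γ ^ 2) ^ 2 = (p * s + 1) ^ 2 * γ ^ 4 := by ring
        _ ≤ (2 * (p ^ 2 * s ^ 2 + 1)) * γ ^ 2 :=
          mul_le_mul (by nlinarith [sq_nonneg (p * s - 1)]) b2 (by positivity) (by positivity)
    have a3 : (p * s ^ 3 * β ^ 2 + (p * s + 1) * γ ^ 2) ^ 2 ≤
        2 * (p * s ^ 3 * β ^ 2) ^ 2 + 2 * ((p * s + 1) * γ ^ 2) ^ 2 := by
      nlinarith [sq_nonneg (p * s ^ 3 * β ^ 2 - (p * s + 1) * γ ^ 2)]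
    rw [hW]
    nlinarith [mul_nonneg (mul_nonneg (sq_nonneg p) (sq_nonneg s)) (sq_nonneg g),
      mul_nonneg (mul_nonneg (sq_nonneg p) (sq_nonneg s)) (sq_nonneg γ),
      mul_nonneg (mul_nonneg (sq_nonneg p) (sq_nonneg (s ^ 2))) (sq_nonneg β),
      mul_nonneg (sq_nonneg s) (sq_nonneg β)]
  have h9 : (102 * C₁ ^ 2 + 2 * C₁ + 4 * C₁ ^ 2) * W ≤ 200 * (C₁ + 1) ^ 2 * W := by
    apply mul_le_mul_of_nonneg_right _ hW0
    nlinarith
  nlinarith



private lemma loc_sq_abs {x M : ℝ} (h : |x| ≤ M) : x ^ 2 ≤ M ^ 2 := by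
  have := pow_le_pow_left₀ (abs_nonneg x) h 2
  rwa [sq_abs] at this

private lemma loc_sq_sum {c x y : ℝ} : (c * (x + y)) ^ 2 ≤ 2 * c ^ 2 * (x ^ 2 + y ^ 2) := by
  nlinarith [mul_nonneg (sq_nonneg c) (sq_nonneg (x - y))]

/-- the higher order terms -/
theorem error_term {d : ℕ} (hd : 0 < d) : ∃ C P δ₀ : ℝ, 0 < C ∧ 8 ≤ P ∧ 0 < δ₀ ∧ δ₀ ≤ 1 ∧
    ∀ p δ : ℝ, P ≤ p → δ ≤ δ₀ → ∀ N F : Set (X d), Loc d p δ N F →
    MM p (N ∪ F) - MM p (Bl d) -
      2 * p * ∫ ξ, PP (Bl d) ξ ^ (p - 1) * cs (Bl d) ξ * (cs (N ∪ F) ξ - cs (Bl d) ξ) ≤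
      C * p ^ (-(d : ℝ) / 2) * (δ + 1 / p) * (gap N + ∫ x in F, min p (‖x‖ ^ 2)) := by
  obtain ⟨C₁, P₁, hC₁, hP₁, hfour⟩ := four_bounds hd
  obtain ⟨δ₁, c₀, hδ₁, hc₀, _, hcoer⟩ := coer hd
  obtain ⟨K, hK, hmom⟩ := loc_moments (d := d) c₀ hc₀
  obtain ⟨Cb, hCb, hbath⟩ := bath hd
  have hr := rd_pos d
  set A : ℝ := 9 / 4 * rd d ^ 2 with hA
  have hA0 : 0 < A := by positivity
  set D : ℝ := 200 * (C₁ + 1) ^ 2 with hD
  have hD0 : 0 < D := by positivity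
  refine ⟨K * (4 * D * (8 * rd d ^ 2 + 1 + Cb) + 76 * C₁ ^ 2 * (Cb + 1)), max P₁ (8 + A),
    min 1 (δ₁ / (1 + 1 / A)), by positivity,
    (by linarith : (8:ℝ) ≤ 8 + A).trans (le_max_right _ _), by positivity, min_le_left _ _, ?_⟩
  intro p δ hpP hδ N F h
  have hpP₁ : P₁ ≤ p := (le_max_left _ _).trans hpP
  have hpA : 8 + A ≤ p := (le_max_right _ _).trans hpP
  have hp8 : 8 ≤ p := by linarith
  have hp0 : 0 < p := by linarith
  have hδ1 : δ ≤ 1 := hδ.trans (min_le_left _ _)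
  have hδ2 : δ * (1 + 1 / A) ≤ δ₁ := by
    have := hδ.trans (min_le_right _ _)
    rwa [le_div_iff₀ (by positivity)] at this
  set E : Set (X d) := N ∪ F with hEdef
  have hE : UnitVol E := loc_unit h
  have hB : UnitVol (Bl d) := unitVol_Bl hd
  set β : ℝ := volume.real (N ∆ Bl d) with hβdef
  set γ : ℝ := ∫ x in F, min p (‖x‖ ^ 2) with hγdef
  set g : ℝ := gap N with hgdef
  have hβ0 : 0 ≤ β := measureReal_nonneg
  have hβδ : β ≤ δ := h.close
  have hγ0 : 0 ≤ γ := loc_gam_nonneg hp0.le F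
  have hγδ : γ ≤ δ := h.far
  have hδ0 : 0 ≤ δ := hβ0.trans hβδ
  have hg0 : 0 ≤ g := gap_nonneg N
  have hgβ : g ≤ 8 * rd d ^ 2 * β := gap_le hd h.mN h.hN
  have hβg : β ^ 2 ≤ Cb * g := hbath N _ h.mN h.hN ((loc_volN h).trans (by norm_num))
  obtain ⟨f1, f2, f3, f4⟩ := hfour p δ hpP₁ hδ1 N F h β γ rfl rfl
  -- coercivity of both
  have hvolF : volume.real F ≤ γ / A := by
    rw [le_div_iff₀ hA0, mul_comm]
    exact loc_volF h (by linarith)
  have hclose : volume.real (E ∆ Bl d) ≤ δ₁ := by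
    have h1 : E ∆ Bl d ⊆ (N ∆ Bl d) ∪ F := by
      intro x hx
      rcases hx with ⟨hx1, hx2⟩ | ⟨hx1, hx2⟩
      · rcases hx1 with hx1 | hx1
        · exact Or.inl (Or.inl ⟨hx1, hx2⟩)
        · exact Or.inr hx1
      · exact Or.inl (Or.inr ⟨hx1, fun hN => hx2 (Or.inl hN)⟩)
    have hfin : volume ((N ∆ Bl d) ∪ F) ≠ ⊤ := by
      refine measure_union_ne_top ?_ (loc_finF h)
      refine ((measure_mono (symmDiff_subset_union)).trans_lt ?_).ne
      exact (measure_union_ne_top (loc_finN h) (loc_ne_top hB)).lt_top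
    have h2 : volume.real (E ∆ Bl d) ≤ volume.real ((N ∆ Bl d) ∪ F) :=
      measureReal_mono h1 hfin
    have h3 : volume.real ((N ∆ Bl d) ∪ F) ≤ β + volume.real F := measureReal_union_le _ _
    have h4 : γ / A ≤ δ / A := div_le_div_of_nonneg_right hγδ hA0.le
    have e : δ * (1 + 1 / A) = δ + δ / A := by ring
    rw [e] at hδ2
    linarith
  have coE : ∀ ξ, c₀ * min 1 (‖ξ‖ ^ 2) ≤ 1 - PP E ξ := hcoer E hE hclose
  have coB : ∀ ξ, c₀ * min 1 (‖ξ‖ ^ 2) ≤ 1 - PP (Bl d) ξ := by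
    refine hcoer _ hB ?_
    rw [symmDiff_self]
    simpa using hδ₁.le
  obtain ⟨mE0, mE4, mE8, mEo⟩ := hmom E hE coE p (by linarith)
  obtain ⟨mB0, mB4, mB8, mBo⟩ := hmom (Bl d) hB coB p (by linarith)
  set R : ℝ := p ^ (-(d : ℝ) / 2) with hR
  have hR0 : 0 < R := by positivity
  -- notation for the functions
  set u : X d → ℝ := fun ξ => cs E ξ - cs (Bl d) ξ with hu
  set v : X d → ℝ := fun ξ => sn E ξ with hv
  set Q : X d → ℝ := fun ξ => PP (Bl d) ξ ^ (p - 2) + PP E ξ ^ (p - 2) with hQ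
  set G : X d → ℝ := fun ξ => 17 * p ^ 2 * u ξ ^ 2 + p * v ξ ^ 2 + p ^ 2 * v ξ ^ 4 with hG
  have cE : Continuous (cs E) := cs_continuous hE.meas (loc_ne_top hE)
  have cB : Continuous (cs (Bl d)) := cs_continuous hB.meas (loc_ne_top hB)
  have cS : Continuous (sn E) := sn_continuous hE.meas (loc_ne_top hE)
  have cu : Continuous u := cE.sub cB
  have cG : Continuous G := by
    have cv : Continuous v := cS
    simp only [hG]
    fun_prop
  have hu2 : ∀ ξ, |u ξ| ≤ 2 := fun ξ => by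
    have h1 := abs_sub (cs E ξ) (cs (Bl d) ξ)
    have h2 := loc_cs_le hE ξ
    have h3 := loc_cs_le hB ξ
    simp only [hu]; linarith
  have hv1 : ∀ ξ, |v ξ| ≤ 1 := fun ξ => loc_sn_le hE ξ
  have hQ0 : ∀ ξ, 0 ≤ Q ξ := fun ξ =>
    add_nonneg (Real.rpow_nonneg (PP_nonneg _ _) _) (Real.rpow_nonneg (PP_nonneg _ _) _)
  have hG0 : ∀ ξ, 0 ≤ G ξ := fun ξ => by
    simp only [hG]; positivity
  have hu4 : ∀ ξ, u ξ ^ 2 ≤ 4 := fun ξ => (loc_sq_abs (hu2 ξ)).trans (by norm_num)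
  have hv4 : ∀ ξ, v ξ ^ 2 ≤ 1 := fun ξ => (loc_sq_abs (hv1 ξ)).trans (by norm_num)
  have hpp : p ≤ p ^ 2 := le_self_pow₀ (by linarith : 1 ≤ p) two_ne_zero
  have hGb : ∀ ξ, |G ξ| ≤ 17 * p ^ 2 * 4 + p * 1 + p ^ 2 * 1 := fun ξ => by
    rw [abs_of_nonneg (hG0 ξ)]
    have h1 : v ξ ^ 4 ≤ 1 := by
      have e : v ξ ^ 4 = (v ξ ^ 2) ^ 2 := by ring
      rw [e]
      exact pow_le_one₀ (sq_nonneg _) (hv4 ξ)
    simp only [hG]
    have h2 := mul_le_mul_of_nonneg_left (hu4 ξ) (by positivity : (0:ℝ) ≤ 17 * p ^ 2)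
    have h3 := mul_le_mul_of_nonneg_left (hv4 ξ) hp0.le
    have h4 := mul_le_mul_of_nonneg_left h1 (by positivity : (0:ℝ) ≤ p ^ 2)
    linarith
  have iPE : ∀ {f : X d → ℝ} {M : ℝ}, Continuous f → (∀ ξ, |f ξ| ≤ M) →
      Integrable fun ξ => f ξ * PP E ξ ^ (p - 2) := fun hf hM =>
    loc_int hE (by linarith) hf hM
  have iPB : ∀ {f : X d → ℝ} {M : ℝ}, Continuous f → (∀ ξ, |f ξ| ≤ M) →
      Integrable fun ξ => f ξ * PP (Bl d) ξ ^ (p - 2) := fun hf hM =>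
    loc_int hB (by linarith) hf hM
  have iGQ : Integrable fun ξ => G ξ * Q ξ := by
    refine ((iPB cG hGb).add (iPE cG hGb)).congr (Eventually.of_forall fun ξ => ?_)
    simp only [hQ, Pi.add_apply]; ring
  have iw : Integrable fun ξ => PP (Bl d) ξ ^ (p - 1) * cs (Bl d) ξ * u ξ := by
    have := (loc_w_int hd (p := p) (by linarith)).mul_bdd (c := 2)
      cu.aestronglyMeasurable (Eventually.of_forall fun ξ => by simpa using hu2 ξ)
    exact this
  have iE : Integrable fun ξ => PP E ξ ^ p := PP_rpow_integrable hE (by linarith)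
  have iB : Integrable fun ξ => PP (Bl d) ξ ^ p := PP_rpow_integrable hB (by linarith)
  have iEB : Integrable fun ξ => PP E ξ ^ p - PP (Bl d) ξ ^ p := iE.sub iB
  have iw2 : Integrable fun ξ => 2 * p * (PP (Bl d) ξ ^ (p - 1) * cs (Bl d) ξ * u ξ) :=
    iw.const_mul (2 * p)
  -- step 1: pointwise bound integrated
  have step1 : MM p E - MM p (Bl d) -
      2 * p * ∫ ξ, PP (Bl d) ξ ^ (p - 1) * cs (Bl d) ξ * u ξ ≤ ∫ ξ, G ξ * Q ξ := by
    have e1 : MM p E - MM p (Bl d) -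
        2 * p * ∫ ξ, PP (Bl d) ξ ^ (p - 1) * cs (Bl d) ξ * u ξ =
        ∫ ξ, (PP E ξ ^ p - PP (Bl d) ξ ^ p -
          2 * p * (PP (Bl d) ξ ^ (p - 1) * cs (Bl d) ξ * u ξ)) := by
      rw [integral_sub iEB iw2, integral_sub iE iB, integral_const_mul]
      rfl
    rw [e1]
    refine integral_mono (iEB.sub iw2) iGQ fun ξ => ?_
    refine loc_pointwise (by linarith) (loc_cs_le hB ξ) (hu2 ξ) ?_ ?_ (PP_le_one hB ξ)
    · simp only [PP, sn_Bl]; ring
    · simp only [PP, hu, hv]; ring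
  -- step 2: inside
  have mc : MeasurableSet (Metric.closedBall (0 : X d) 1) := Metric.isClosed_closedBall.measurableSet
  have ionE : ∀ k : ℕ, IntegrableOn (fun ξ => ‖ξ‖ ^ k * PP E ξ ^ (p - 2))
      (Metric.closedBall (0 : X d) 1) := by
    intro k
    have hc : Continuous fun ξ : X d => ‖ξ‖ ^ k * PP E ξ ^ (p - 2) :=
      (continuous_norm.pow k).mul
        ((PP_continuous hE.meas (loc_ne_top hE)).rpow_const fun ξ => Or.inr (by linarith))
    exact hc.continuousOn.integrableOn_compact (isCompact_closedBall 0 1)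
  have ionB : ∀ k : ℕ, IntegrableOn (fun ξ => ‖ξ‖ ^ k * PP (Bl d) ξ ^ (p - 2))
      (Metric.closedBall (0 : X d) 1) := by
    intro k
    have hc : Continuous fun ξ : X d => ‖ξ‖ ^ k * PP (Bl d) ξ ^ (p - 2) :=
      (continuous_norm.pow k).mul
        ((PP_continuous hB.meas (loc_ne_top hB)).rpow_const fun ξ => Or.inr (by linarith))
    exact hc.continuousOn.integrableOn_compact (isCompact_closedBall 0 1)
  have mom4 : ∫ ξ in Metric.closedBall (0 : X d) 1, ‖ξ‖ ^ 4 * Q ξ ≤ 2 * (K * R / p ^ 2) := by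
    have e : (fun ξ : X d => ‖ξ‖ ^ 4 * Q ξ) = fun ξ =>
        ‖ξ‖ ^ 4 * PP (Bl d) ξ ^ (p - 2) + ‖ξ‖ ^ 4 * PP E ξ ^ (p - 2) := by
      ext ξ; simp only [hQ]; ring
    rw [e, integral_add (ionB 4) (ionE 4)]
    linarith
  have mom8 : ∫ ξ in Metric.closedBall (0 : X d) 1, ‖ξ‖ ^ 8 * Q ξ ≤ 2 * (K * R / p ^ 4) := by
    have e : (fun ξ : X d => ‖ξ‖ ^ 8 * Q ξ) = fun ξ =>
        ‖ξ‖ ^ 8 * PP (Bl d) ξ ^ (p - 2) + ‖ξ‖ ^ 8 * PP E ξ ^ (p - 2) := by
      ext ξ; simp only [hQ]; ring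
    rw [e, integral_add (ionB 8) (ionE 8)]
    linarith
  have ionE0 : IntegrableOn (fun ξ => PP E ξ ^ (p - 2)) (Metric.closedBall (0 : X d) 1) := by
    simpa using ionE 0
  have ionB0 : IntegrableOn (fun ξ => PP (Bl d) ξ ^ (p - 2)) (Metric.closedBall (0 : X d) 1) := by
    simpa using ionB 0
  have mom0 : ∫ ξ in Metric.closedBall (0 : X d) 1, Q ξ ≤ 2 * (K * R) := by
    rw [integral_add ionB0 ionE0]
    linarith
  have iQ0 : IntegrableOn Q (Metric.closedBall (0 : X d) 1) := ionB0.add ionE0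
  have iQ4 : IntegrableOn (fun ξ => ‖ξ‖ ^ 4 * Q ξ) (Metric.closedBall (0 : X d) 1) := by
    refine ((ionB 4).add (ionE 4)).congr (Eventually.of_forall fun ξ => ?_)
    simp only [hQ, Pi.add_apply]; ring
  have iQ8 : IntegrableOn (fun ξ => ‖ξ‖ ^ 8 * Q ξ) (Metric.closedBall (0 : X d) 1) := by
    refine ((ionB 8).add (ionE 8)).congr (Eventually.of_forall fun ξ => ?_)
    simp only [hQ, Pi.add_apply]; ring
  have jQ4 : IntegrableOn (fun ξ => D * (p ^ 2 * (g ^ 2 + γ ^ 2) + β ^ 2) * (‖ξ‖ ^ 4 * Q ξ))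
      (Metric.closedBall (0 : X d) 1) := iQ4.const_mul _
  have jQ8 : IntegrableOn (fun ξ => D * (p ^ 2 * β ^ 2) * (‖ξ‖ ^ 8 * Q ξ))
      (Metric.closedBall (0 : X d) 1) := iQ8.const_mul _
  have jQ0 : IntegrableOn (fun ξ => D * γ ^ 2 * Q ξ)
      (Metric.closedBall (0 : X d) 1) := iQ0.const_mul _
  have jQ48 : IntegrableOn (fun ξ => D * (p ^ 2 * (g ^ 2 + γ ^ 2) + β ^ 2) * (‖ξ‖ ^ 4 * Q ξ) +
      D * (p ^ 2 * β ^ 2) * (‖ξ‖ ^ 8 * Q ξ)) (Metric.closedBall (0 : X d) 1) := jQ4.add jQ8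
  have inside : ∫ ξ in Metric.closedBall (0 : X d) 1, G ξ * Q ξ ≤
      D * ((p ^ 2 * (g ^ 2 + γ ^ 2) + β ^ 2) * (2 * (K * R / p ^ 2)) +
        p ^ 2 * β ^ 2 * (2 * (K * R / p ^ 4)) + γ ^ 2 * (2 * (K * R))) := by
    have h1 : ∫ ξ in Metric.closedBall (0 : X d) 1, G ξ * Q ξ ≤
        ∫ ξ in Metric.closedBall (0 : X d) 1,
          (D * (p ^ 2 * (g ^ 2 + γ ^ 2) + β ^ 2) * (‖ξ‖ ^ 4 * Q ξ) +
            D * (p ^ 2 * β ^ 2) * (‖ξ‖ ^ 8 * Q ξ) + D * γ ^ 2 * Q ξ) := by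
      refine setIntegral_mono_on iGQ.integrableOn (jQ48.add jQ0) mc ?_
      intro ξ hξ
      have hξ1 : ‖ξ‖ ≤ 1 := by simpa using hξ
      have hs0 : 0 ≤ ‖ξ‖ ^ 2 := by positivity
      have hs1 : ‖ξ‖ ^ 2 ≤ 1 := pow_le_one₀ (norm_nonneg _) hξ1
      have k1 : |u ξ| ≤ C₁ * (‖ξ‖ ^ 2 * g + (‖ξ‖ ^ 2) ^ 2 * β + (‖ξ‖ ^ 2 + 1 / p) * γ) := by
        have := f3 ξ hξ1
        have e : (‖ξ‖ ^ 2) ^ 2 = ‖ξ‖ ^ 4 := by ring
        rw [e]; exact this
      have k2 : v ξ ^ 2 ≤ C₁ * ((‖ξ‖ ^ 2) ^ 3 * β ^ 2 + (‖ξ‖ ^ 2 + 1 / p) * γ ^ 2) := by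
        have := f4 ξ hξ1
        have e : (‖ξ‖ ^ 2) ^ 3 = ‖ξ‖ ^ 6 := by ring
        rw [e]; exact this
      have k3 := loc_inside hC₁ hs0 hs1 hβ0 (hβδ.trans hδ1) hγ0 (hγδ.trans hδ1)
        (by linarith : 1 ≤ p) k1 k2
      have k4 := mul_le_mul_of_nonneg_right k3 (hQ0 ξ)
      calc G ξ * Q ξ ≤ _ := k4
        _ = _ := by rw [hD]; ring
    refine h1.trans ?_
    rw [integral_add jQ48 jQ0, integral_add jQ4 jQ8, integral_const_mul, integral_const_mul,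
      integral_const_mul]
    have a1 := mul_le_mul_of_nonneg_left mom4
      (by positivity : 0 ≤ D * (p ^ 2 * (g ^ 2 + γ ^ 2) + β ^ 2))
    have a2 := mul_le_mul_of_nonneg_left mom8 (by positivity : 0 ≤ D * (p ^ 2 * β ^ 2))
    have a3 := mul_le_mul_of_nonneg_left mom0 (by positivity : 0 ≤ D * γ ^ 2)
    calc _ ≤ _ := add_le_add (add_le_add a1 a2) a3
      _ = _ := by ring
  have inside' : ∫ ξ in Metric.closedBall (0 : X d) 1, G ξ * Q ξ ≤
      K * R * (4 * D * (g ^ 2 + γ ^ 2 + β ^ 2 / p)) := by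
    refine inside.trans ?_
    have e1 : D * ((p ^ 2 * (g ^ 2 + γ ^ 2) + β ^ 2) * (2 * (K * R / p ^ 2)) +
        p ^ 2 * β ^ 2 * (2 * (K * R / p ^ 4)) + γ ^ 2 * (2 * (K * R))) =
        K * R * (2 * D * (g ^ 2 + 2 * γ ^ 2 + 2 * (β ^ 2 / p ^ 2))) := by
      field_simp
      ring
    rw [e1]
    have e2 : β ^ 2 / p ^ 2 ≤ β ^ 2 / p := by
      exact div_le_div_of_nonneg_left (by positivity) hp0 hpp
    apply mul_le_mul_of_nonneg_left _ (by positivity)
    have e3 : g ^ 2 + 2 * γ ^ 2 + 2 * (β ^ 2 / p ^ 2) ≤ 2 * (g ^ 2 + γ ^ 2 + β ^ 2 / p) := by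
      linarith [sq_nonneg g, sq_nonneg γ]
    have := mul_le_mul_of_nonneg_left e3 (by positivity : 0 ≤ 2 * D)
    linarith
  -- step 3: outside
  have outside : ∫ ξ in (Metric.closedBall (0 : X d) 1)ᶜ, G ξ * Q ξ ≤
      K * R * (76 * C₁ ^ 2 * ((β ^ 2 + γ ^ 2) / p)) := by
    have iPE1 : Integrable fun ξ => PP E ξ ^ (p - 2) := PP_rpow_integrable hE (by linarith)
    have iPB1 : Integrable fun ξ => PP (Bl d) ξ ^ (p - 2) := PP_rpow_integrable hB (by linarith)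
    have iQ : Integrable Q := iPB1.add iPE1
    have h1 : ∫ ξ in (Metric.closedBall (0 : X d) 1)ᶜ, G ξ * Q ξ ≤
        ∫ ξ in (Metric.closedBall (0 : X d) 1)ᶜ, 38 * p ^ 2 * C₁ ^ 2 * (β ^ 2 + γ ^ 2) * Q ξ := by
      refine setIntegral_mono_on iGQ.integrableOn (iQ.const_mul _).integrableOn mc.compl ?_
      intro ξ _
      apply mul_le_mul_of_nonneg_right _ (hQ0 ξ)
      have a1 : u ξ ^ 2 ≤ 2 * C₁ ^ 2 * (β ^ 2 + γ ^ 2) := by
        exact (loc_sq_abs (f1 ξ)).trans loc_sq_sum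
      have a2 : v ξ ^ 2 ≤ 2 * C₁ ^ 2 * (β ^ 2 + γ ^ 2) := by
        exact (loc_sq_abs (f2 ξ)).trans loc_sq_sum
      have a3 : v ξ ^ 4 ≤ v ξ ^ 2 := by
        have e : v ξ ^ 4 = v ξ ^ 2 * v ξ ^ 2 := by ring
        rw [e]
        exact mul_le_of_le_one_left (sq_nonneg _) (hv4 ξ)
      have a4 : p * v ξ ^ 2 ≤ p ^ 2 * v ξ ^ 2 := by
        exact mul_le_mul_of_nonneg_right hpp (sq_nonneg _)
      have hp2 : 0 ≤ p ^ 2 := by positivity
      have a5 := mul_le_mul_of_nonneg_left a1 hp2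
      have a6 := mul_le_mul_of_nonneg_left a2 hp2
      have a7 := mul_le_mul_of_nonneg_left a3 hp2
      simp only [hG]
      linarith
    refine h1.trans ?_
    rw [integral_const_mul]
    have h2 : ∫ ξ in (Metric.closedBall (0 : X d) 1)ᶜ, Q ξ ≤ 2 * (K * R / p ^ 3) := by
      rw [integral_add iPB1.integrableOn iPE1.integrableOn]
      linarith
    have h3 := mul_le_mul_of_nonneg_left h2
      (by positivity : 0 ≤ 38 * p ^ 2 * C₁ ^ 2 * (β ^ 2 + γ ^ 2))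
    refine h3.trans (le_of_eq ?_)
    field_simp
    ring
  -- step 4: combination
  have htot : ∫ ξ, G ξ * Q ξ ≤ K * R * (4 * D * (g ^ 2 + γ ^ 2 + β ^ 2 / p)) +
      K * R * (76 * C₁ ^ 2 * ((β ^ 2 + γ ^ 2) / p)) := by
    rw [← integral_add_compl mc iGQ]
    exact add_le_add inside' outside
  refine (step1.trans htot).trans ?_
  have q0 : 0 ≤ 1 / p := by positivity
  have q1 : g ^ 2 ≤ 8 * rd d ^ 2 * (δ * g) := by
    have : g * g ≤ (8 * rd d ^ 2 * δ) * g := by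
      apply mul_le_mul_of_nonneg_right _ hg0
      exact hgβ.trans (mul_le_mul_of_nonneg_left hβδ (by positivity))
    calc g ^ 2 = g * g := sq g
      _ ≤ (8 * rd d ^ 2 * δ) * g := this
      _ = _ := by ring
  have q2 : γ ^ 2 ≤ δ * γ := by
    rw [sq]; exact mul_le_mul_of_nonneg_right hγδ hγ0
  have q3 : β ^ 2 / p ≤ Cb * (1 / p * g) := by
    calc β ^ 2 / p ≤ (Cb * g) / p := div_le_div_of_nonneg_right hβg hp0.le
      _ = _ := by ring
  have q4 : (β ^ 2 + γ ^ 2) / p ≤ (Cb + 1) * (1 / p * (g + γ)) := by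
    have b1 : γ ^ 2 ≤ γ := pow_le_of_le_one hγ0 (hγδ.trans hδ1) two_ne_zero
    calc (β ^ 2 + γ ^ 2) / p ≤ (Cb * g + γ) / p :=
          div_le_div_of_nonneg_right (add_le_add hβg b1) hp0.le
      _ ≤ ((Cb + 1) * (g + γ)) / p := by
          apply div_le_div_of_nonneg_right _ hp0.le
          have b3 := mul_nonneg hCb.le hγ0
          linarith
      _ = _ := by ring
  have hX : 0 ≤ (1 / p) * (g + γ) := by positivity
  have hY : 0 ≤ δ * (g + γ) := by positivity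
  have q5 : g ^ 2 + γ ^ 2 + β ^ 2 / p ≤
      (8 * rd d ^ 2 + 1 + Cb) * ((δ + 1 / p) * (g + γ)) := by
    have w1 : 0 ≤ δ * g := by positivity
    have w2 : 0 ≤ δ * γ := by positivity
    have w3 : 0 ≤ 1 / p * g := by positivity
    have w4 : 0 ≤ 1 / p * γ := by positivity
    have w5 : 0 ≤ 8 * rd d ^ 2 := by positivity
    have e : (8 * rd d ^ 2 + 1 + Cb) * ((δ + 1 / p) * (g + γ)) =
        8 * rd d ^ 2 * (δ * g) + 8 * rd d ^ 2 * (δ * γ + 1 / p * g + 1 / p * γ) +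
        δ * γ + (δ * g + 1 / p * g + 1 / p * γ) +
        Cb * (1 / p * g) + Cb * (δ * g + δ * γ + 1 / p * γ) := by ring
    rw [e]
    have z1 : 0 ≤ 8 * rd d ^ 2 * (δ * γ + 1 / p * g + 1 / p * γ) := by positivity
    have z2 : 0 ≤ Cb * (δ * g + δ * γ + 1 / p * γ) := by positivity
    linarith
  have q6 : (β ^ 2 + γ ^ 2) / p ≤ (Cb + 1) * ((δ + 1 / p) * (g + γ)) := by
    refine q4.trans (mul_le_mul_of_nonneg_left ?_ (by positivity))
    linarith
  have q7 := mul_le_mul_of_nonneg_left q5 (by positivity : 0 ≤ 4 * D)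
  have q8 := mul_le_mul_of_nonneg_left q6 (by positivity : 0 ≤ 76 * C₁ ^ 2)
  have q9 := mul_le_mul_of_nonneg_left (add_le_add q7 q8) (by positivity : 0 ≤ K * R)
  calc K * R * (4 * D * (g ^ 2 + γ ^ 2 + β ^ 2 / p)) +
      K * R * (76 * C₁ ^ 2 * ((β ^ 2 + γ ^ 2) / p))
      = K * R * (4 * D * (g ^ 2 + γ ^ 2 + β ^ 2 / p) +
        76 * C₁ ^ 2 * ((β ^ 2 + γ ^ 2) / p)) := by ring
    _ ≤ _ := q9
    _ = _ := by ring

theorem local_step {d : ℕ} (hd : 0 < d) : ∃ δ P : ℝ, 0 < δ ∧ 8 ≤ P ∧ ∀ p : ℝ, P ≤ p →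
    ∀ N F : Set (X d), Loc d p δ N F → MM p (Bl d) ≤ MM p (N ∪ F) →
    (N ∪ F : Set (X d)) =ᵐ[volume] Bl d := by
  obtain ⟨c, P₁, hc, hP₁, hlin⟩ := linear_term hd
  obtain ⟨C, P₂, δ₀, hC, hP₂, hδ₀, hδ₀1, herr⟩ := error_term hd
  have hr := rd_pos d
  refine ⟨min δ₀ (c / (2 * C)), max (max P₁ P₂) (max (2 * C / c) (9 / 4 * rd d ^ 2)),
    by positivity, hP₁.trans ((le_max_left _ _).trans (le_max_left _ _)), ?_⟩
  intro p hpP N F h hmax
  set δ := min δ₀ (c / (2 * C)) with hδdef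
  have hδδ₀ : δ ≤ δ₀ := min_le_left _ _
  have hδC : C * δ ≤ c / 2 := by
    have h1 : δ ≤ c / (2 * C) := min_le_right _ _
    calc C * δ ≤ C * (c / (2 * C)) := mul_le_mul_of_nonneg_left h1 hC.le
      _ = c / 2 := by field_simp
  have hpP₁ : P₁ ≤ p := ((le_max_left _ _).trans (le_max_left _ _)).trans hpP
  have hpP₂ : P₂ ≤ p := ((le_max_right _ _).trans (le_max_left _ _)).trans hpP
  have hpC : 2 * C / c ≤ p := ((le_max_left _ _).trans (le_max_right _ _)).trans hpP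
  have hpr : 9 / 4 * rd d ^ 2 ≤ p := ((le_max_right _ _).trans (le_max_right _ _)).trans hpP
  have hp0 : 0 < p := by linarith
  have hCp : C * (1 / p) ≤ c / 2 := by
    rw [div_le_iff₀ hc] at hpC
    rw [mul_one_div, div_le_iff₀ hp0]
    linarith
  have h1 := hlin p δ hpP₁ (hδδ₀.trans hδ₀1) N F h
  have h2 := herr p δ hpP₂ hδδ₀ N F h
  set L := ∫ ξ, PP (Bl d) ξ ^ (p - 1) * cs (Bl d) ξ * (cs (N ∪ F) ξ - cs (Bl d) ξ) with hL
  set γ : ℝ := ∫ x in F, min p (‖x‖ ^ 2) with hγdef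
  have hγ0 : 0 ≤ γ := loc_gam_nonneg hp0.le F
  have hg0 : 0 ≤ gap N := gap_nonneg N
  set R : ℝ := p ^ (-(d : ℝ) / 2) with hR
  have hR0 : 0 < R := by positivity
  have e1 : 2 * p * (c * p ^ (-(d : ℝ) / 2 - 1) * (gap N + γ)) = 2 * c * (R * (gap N + γ)) := by
    rw [Real.rpow_sub hp0, Real.rpow_one, ← hR]
    field_simp
  have h3 : 2 * p * L ≤ -(2 * c * (R * (gap N + γ))) := by
    have := mul_le_mul_of_nonneg_left h1 (by positivity : 0 ≤ 2 * p)
    rw [mul_neg, e1] at this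
    exact this
  have h4 : C * R * (δ + 1 / p) * (gap N + γ) ≤ c * (R * (gap N + γ)) := by
    have h5 : C * (δ + 1 / p) ≤ c := by linarith
    have h6 := mul_le_mul_of_nonneg_right h5 (by positivity : 0 ≤ R * (gap N + γ))
    calc C * R * (δ + 1 / p) * (gap N + γ) = C * (δ + 1 / p) * (R * (gap N + γ)) := by ring
      _ ≤ _ := h6
  have h7 : c * (R * (gap N + γ)) ≤ 0 := by linarith
  have h8 : gap N + γ ≤ 0 := by
    by_contra hcon
    push Not at hcon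
    have : 0 < c * (R * (gap N + γ)) := by positivity
    linarith
  have hg : gap N = 0 := by linarith
  have hγ : γ = 0 := by linarith
  have hN : N =ᵐ[volume] Bl d :=
    ae_eq_of_gap hd h.mN h.hN ((loc_volN h).trans (by norm_num)) hg
  have hF : F =ᵐ[volume] (∅ : Set (X d)) := by
    rw [ae_eq_empty]
    have h9 := loc_volF h hpr
    have h10 : volume.real F ≤ 0 := by
      by_contra hcon
      push Not at hcon
      have : 0 < 9 / 4 * rd d ^ 2 * volume.real F := by positivity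
      linarith
    have h11 : volume.real F = 0 := le_antisymm h10 measureReal_nonneg
    rcases (measureReal_eq_zero_iff (loc_finF h)).1 h11 with h12
    exact h12
  have := hN.union hF
  simpa using this

end Pool.Agent.H82.Max
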