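import Pool.Agent.H82.Max.Lin

open MeasureTheory Set Filter Topology
open scoped ENNReal Real InnerProductSpace symmDiff

namespace Pool.Agent.H82.Max

variable {d : ℕ}

namespace Renorm

theorem mp_affine (A : X d ≃ₗ[ℝ] X d) (hA : |LinearMap.det (A : X d →ₗ[ℝ] X d)| = 1) (b : X d) :
    MeasurePreserving (fun x => A x + b) volume volume ∧
      MeasurableEmbedding (fun x => A x + b) := by
  have h0 : LinearMap.det (A : X d →ₗ[ℝ] X d) ≠ 0 := (LinearEquiv.isUnit_det' A).ne_zero
  have e1 : MeasurableEmbedding (A : X d → X d) := Pool.Agent.H51.Maxi.emb_lin h0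
  have m1 : MeasurePreserving (A : X d → X d) volume volume := by
    refine ⟨e1.measurable, ?_⟩
    have := Measure.map_linearMap_addHaar_eq_smul_addHaar (volume : Measure (X d)) h0
    rw [abs_inv, hA, inv_one, ENNReal.ofReal_one, one_smul] at this
    exact this
  have m2 : MeasurePreserving (fun x : X d => x + b) volume volume :=
    measurePreserving_add_right volume b
  have e2 : MeasurableEmbedding (fun x : X d => x + b) :=
    (Homeomorph.addRight b).measurableEmbedding
  exact ⟨m2.comp m1, e2.comp e1⟩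

theorem vol_img {A : X d ≃ₗ[ℝ] X d} (hA : |LinearMap.det (A : X d →ₗ[ℝ] X d)| = 1) (b : X d)
    (s : Set (X d)) : volume ((fun x => A x + b) '' s) = volume s := by
  rw [Pool.Agent.H51.Maxi.vol_affine, hA, ENNReal.ofReal_one, one_mul]

end Renorm

open Renorm in
theorem renorm {d : ℕ} (hd : 0 < d) {δ : ℝ} (hδ : 0 < δ) : ∃ δ₁ : ℝ, 0 < δ₁ ∧
    ∀ p : ℝ, 1 ≤ p → ∀ E : Set (X d), UnitVol E → volume.real (E ∆ Bl d) ≤ δ₁ →
    ∫ x in E \ Metric.closedBall 0 (2 * rd d), min p (‖x‖ ^ 2) ≤ δ₁ →
    ∃ (A : X d ≃ₗ[ℝ] X d) (b : X d), |LinearMap.det (A : X d →ₗ[ℝ] X d)| = 1 ∧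
      ∃ N F : Set (X d), (fun x => A x + b) '' E = N ∪ F ∧ Loc d p δ N F := by
  obtain ⟨C, η₀, hC, hη₀, hiso⟩ := isotropic_close d hd
  obtain ⟨K, hK, hshell⟩ := shell_vol hd
  have hr := rd_pos d
  set r := rd d with hrd
  have hB := unitVol_Bl hd
  have vB : volume (Bl d) ≠ ⊤ := by rw [hB.vol]; exact ENNReal.one_ne_top
  obtain ⟨η, hη0, h1, h2, h3, h4, h5⟩ : ∃ η : ℝ, 0 < η ∧ η ≤ η₀ ∧ C * η ≤ 1 / 8 ∧
      C * η ≤ r / 4 ∧ η + 2 * (K * (C * η * r + C * η)) ≤ δ ∧ 2 * η ≤ δ := by
    refine ⟨min η₀ (min (1 / 8 / C) (min (r / 4 / C) (min (δ / (1 + 2 * (K * (C * r + C))))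
      (δ / 2)))), ?_, min_le_left _ _, ?_, ?_, ?_, ?_⟩
    · have : 0 < 1 + 2 * (K * (C * r + C)) := by positivity
      simp only [lt_min_iff]
      refine ⟨hη₀, by positivity, by positivity, by positivity, by positivity⟩
    · have : min η₀ (min (1 / 8 / C) (min (r / 4 / C) (min (δ / (1 + 2 * (K * (C * r + C))))
        (δ / 2)))) ≤ 1 / 8 / C := (min_le_right _ _).trans (min_le_left _ _)
      rw [le_div_iff₀ hC] at this
      linarith
    · have : min η₀ (min (1 / 8 / C) (min (r / 4 / C) (min (δ / (1 + 2 * (K * (C * r + C))))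
        (δ / 2)))) ≤ r / 4 / C :=
        (min_le_right _ _).trans ((min_le_right _ _).trans (min_le_left _ _))
      rw [le_div_iff₀ hC] at this
      linarith
    · have h6 : 0 < 1 + 2 * (K * (C * r + C)) := by positivity
      have : min η₀ (min (1 / 8 / C) (min (r / 4 / C) (min (δ / (1 + 2 * (K * (C * r + C))))
        (δ / 2)))) ≤ δ / (1 + 2 * (K * (C * r + C))) :=
        (min_le_right _ _).trans ((min_le_right _ _).trans
          ((min_le_right _ _).trans (min_le_left _ _)))
      rw [le_div_iff₀ h6] at this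
      refine le_trans (le_of_eq ?_) this
      ring
    · have : min η₀ (min (1 / 8 / C) (min (r / 4 / C) (min (δ / (1 + 2 * (K * (C * r + C))))
        (δ / 2)))) ≤ δ / 2 :=
        (min_le_right _ _).trans ((min_le_right _ _).trans
          ((min_le_right _ _).trans (min_le_right _ _)))
      linarith
  have hCη0 : 0 ≤ C * η := by positivity
  refine ⟨η, hη0, ?_⟩
  intro p hp E hE hEB hfar
  have hp0 : 0 ≤ p := by linarith
  have vE : volume E ≠ ⊤ := by rw [hE.vol]; exact ENNReal.one_ne_top
  set N0 := E ∩ Metric.closedBall 0 (2 * r) with hN0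
  set F0 := E \ Metric.closedBall 0 (2 * r) with hF0
  have mN0 : MeasurableSet N0 := hE.meas.inter measurableSet_closedBall
  have mF0 : MeasurableSet F0 := hE.meas.diff measurableSet_closedBall
  have hNB : volume.real (N0 ∆ Bl d) ≤ η := by
    refine le_trans (measureReal_mono ?_ ?_) hEB
    · intro x hx
      rcases hx with hx | hx
      · exact Or.inl ⟨hx.1.1, hx.2⟩
      · right
        refine ⟨hx.1, fun h6 => hx.2 ⟨h6, ?_⟩⟩
        have h7 : x ∈ Metric.closedBall (0 : X d) (rd d) := hx.1
        exact Metric.closedBall_subset_closedBall (by linarith) h7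
    · exact ((measure_mono symmDiff_subset_union).trans_lt
        ((measure_union_le _ _).trans_lt (ENNReal.add_lt_top.mpr ⟨vE.lt_top, vB.lt_top⟩))).ne
  obtain ⟨A, b, τ, hA, hcen, his, hb, hAx⟩ := hiso N0 η mN0 inter_subset_right hNB h1
  obtain ⟨hmp, hemb⟩ := mp_affine A hA b
  have hinj := hemb.injective
  have up : ∀ x : X d, ‖A x + b‖ ≤ (1 + C * η) * ‖x‖ + C * η := fun x =>
    (norm_add_le _ _).trans (add_le_add (hAx x).2 hb)
  have lo : ∀ x : X d, (1 - C * η) * ‖x‖ - C * η ≤ ‖A x + b‖ := by
    intro x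
    have h6 := norm_sub_norm_le (A x) (-b)
    rw [norm_neg, sub_neg_eq_add] at h6
    have := (hAx x).1
    linarith
  refine ⟨A, b, hA, (fun x => A x + b) '' N0, (fun x => A x + b) '' F0, ?_, ?_⟩
  · rw [← image_union, hN0, hF0, inter_union_sdiff]
  · refine ⟨hemb.measurableSet_image.mpr mN0, hemb.measurableSet_image.mpr mF0, ?_, ?_, ?_, ?_,
      hcen, ⟨τ, his⟩, ?_, ?_⟩
    · rw [disjoint_image_iff hinj]
      exact disjoint_left.mpr fun x h6 h7 => h7.2 h6.2
    · rw [← image_union, hN0, hF0, inter_union_sdiff, vol_img hA, hE.vol]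
    · rintro y ⟨x, hx, rfl⟩
      rw [Metric.mem_closedBall, dist_zero_right]
      have h6 := hx.2
      rw [Metric.mem_closedBall, dist_zero_right] at h6
      have h7 := up x
      have h8 : (1 + C * η) * ‖x‖ ≤ (1 + 1 / 8) * (2 * r) :=
        mul_le_mul (by linarith) h6 (norm_nonneg _) (by norm_num)
      show ‖A x + b‖ ≤ 3 * rd d
      linarith
    · rintro y ⟨x, hx, rfl⟩
      have h6 := hx.2
      rw [Metric.mem_closedBall, dist_zero_right, not_le] at h6
      have h7 := lo x
      have h8 : (1 - 1 / 8) * (2 * r) ≤ (1 - C * η) * ‖x‖ :=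
        mul_le_mul (by linarith) h6.le (by linarith) (by linarith)
      show 3 / 2 * rd d ≤ ‖A x + b‖
      linarith
    · -- closeness
      have hsub : ((fun x => A x + b) '' N0) ∆ Bl d ⊆
          ((fun x => A x + b) '' (N0 ∆ Bl d)) ∪
          ({x : X d | r ≤ ‖x‖ ∧ ‖x‖ ≤ (1 + C * η) * r + C * η} ∪
            {x : X d | (1 - C * η) * r - C * η ≤ ‖x‖ ∧ ‖x‖ ≤ r}) := by
        intro y hy
        obtain ⟨x, rfl⟩ : ∃ x, A x + b = y := ⟨A.symm (y - b), by simp⟩
        rcases hy with ⟨⟨x', hx', hxx⟩, hy⟩ | ⟨hy, hx⟩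
        · have : x' = x := hinj hxx
          subst this
          by_cases hB' : x' ∈ Bl d
          · right; left
            have h6 : x' ∈ Metric.closedBall (0 : X d) (rd d) := hB'
            rw [Metric.mem_closedBall, dist_zero_right] at h6
            have h7 : ¬ (A x' + b ∈ Metric.closedBall (0 : X d) (rd d)) := hy
            rw [Metric.mem_closedBall, dist_zero_right, not_le] at h7
            refine ⟨h7.le, (up x').trans ?_⟩
            have := mul_le_mul_of_nonneg_left h6 (by linarith : 0 ≤ 1 + C * η)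
            linarith
          · left
            exact ⟨x', Or.inl ⟨hx', hB'⟩, rfl⟩
        · have h7 : A x + b ∈ Metric.closedBall (0 : X d) (rd d) := hy
          rw [Metric.mem_closedBall, dist_zero_right] at h7
          have hx' : x ∉ N0 := fun h => hx ⟨x, h, rfl⟩
          by_cases hB' : x ∈ Bl d
          · left
            exact ⟨x, Or.inr ⟨hB', hx'⟩, rfl⟩
          · right; right
            have h6 : ¬ (x ∈ Metric.closedBall (0 : X d) (rd d)) := hB'
            rw [Metric.mem_closedBall, dist_zero_right, not_le] at h6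
            refine ⟨le_trans ?_ (lo x), h7⟩
            have := mul_le_mul_of_nonneg_left h6.le (by linarith : 0 ≤ 1 - C * η)
            linarith
      have s1 := hshell r ((1 + C * η) * r + C * η) hr.le (by nlinarith) (by nlinarith)
      have s2 := hshell ((1 - C * η) * r - C * η) r (by nlinarith) (by nlinarith) (by linarith)
      have fin1 : ∀ s t : ℝ, volume {x : X d | s ≤ ‖x‖ ∧ ‖x‖ ≤ t} ≠ ⊤ := by
        intro s t
        refine ((measure_mono (t := Metric.closedBall (0 : X d) t) ?_).trans_lt
          measure_closedBall_lt_top).ne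
        intro x hx
        rw [Metric.mem_closedBall, dist_zero_right]
        exact hx.2
      have vND : volume (N0 ∆ Bl d) ≠ ⊤ :=
        ((measure_mono symmDiff_subset_union).trans_lt
        ((measure_union_le _ _).trans_lt (ENNReal.add_lt_top.mpr
          ⟨(measure_mono inter_subset_left).trans_lt vE.lt_top, vB.lt_top⟩))).ne
      have fin2 : volume ((fun x => A x + b) '' (N0 ∆ Bl d)) ≠ ⊤ := by
        rw [vol_img hA]; exact vND
      refine (measureReal_mono hsub ?_).trans ?_
      · exact (measure_union_lt_top fin2.lt_top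
          (measure_union_lt_top (fin1 _ _).lt_top (fin1 _ _).lt_top)).ne
      refine (measureReal_union_le _ _).trans ?_
      have e1 : volume.real ((fun x => A x + b) '' (N0 ∆ Bl d)) ≤ η := by
        rw [measureReal_def, vol_img hA, ← measureReal_def]
        exact hNB
      have e2 := measureReal_union_le (μ := (volume : Measure (X d)))
        {x : X d | r ≤ ‖x‖ ∧ ‖x‖ ≤ (1 + C * η) * r + C * η}
        {x : X d | (1 - C * η) * r - C * η ≤ ‖x‖ ∧ ‖x‖ ≤ r}
      have e3 : K * ((1 + C * η) * r + C * η - r) = K * (C * η * r + C * η) := by ring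
      have e4 : K * (r - ((1 - C * η) * r - C * η)) = K * (C * η * r + C * η) := by ring
      rw [e3] at s1
      rw [e4] at s2
      linarith
    · -- the far part
      rw [hmp.setIntegral_image_emb hemb]
      have i1 : IntegrableOn (fun x : X d => min p (‖x‖ ^ 2)) F0 := by
        refine Measure.integrableOn_of_bounded (M := p)
          ((measure_mono sdiff_subset).trans_lt vE.lt_top).ne
          (by fun_prop : Continuous fun x : X d => min p (‖x‖ ^ 2)).aestronglyMeasurable
          (Eventually.of_forall fun x => ?_)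
        rw [Real.norm_eq_abs, abs_of_nonneg (le_min hp0 (by positivity))]
        exact min_le_left _ _
      have hAc : Continuous (fun x : X d => A x + b) := by
        have : Continuous (A : X d →ₗ[ℝ] X d) := LinearMap.continuous_of_finiteDimensional _
        exact this.add continuous_const
      have i2 : IntegrableOn (fun x : X d => min p (‖A x + b‖ ^ 2)) F0 := by
        refine Measure.integrableOn_of_bounded (M := p)
          ((measure_mono sdiff_subset).trans_lt vE.lt_top).ne
          (by fun_prop : Continuous fun x : X d => min p (‖A x + b‖ ^ 2)).aestronglyMeasurable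
          (Eventually.of_forall fun x => ?_)
        rw [Real.norm_eq_abs, abs_of_nonneg (le_min hp0 (by positivity))]
        exact min_le_left _ _
      have h6 : ∫ x in F0, min p (‖A x + b‖ ^ 2) ≤ ∫ x in F0, 2 * min p (‖x‖ ^ 2) := by
        refine setIntegral_mono_on i2 (i1.const_mul 2) mF0 ?_
        intro x hx
        have h7 := hx.2
        rw [Metric.mem_closedBall, dist_zero_right, not_le] at h7
        have h8 := up x
        have h9 : ‖A x + b‖ ≤ 5 / 4 * ‖x‖ := by
          have := mul_le_mul_of_nonneg_right h2 (norm_nonneg x)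
          nlinarith
        have h10 : ‖A x + b‖ ^ 2 ≤ 2 * ‖x‖ ^ 2 := by
          have := pow_le_pow_left₀ (norm_nonneg _) h9 2
          nlinarith [sq_nonneg ‖x‖]
        rcases le_total p (‖x‖ ^ 2) with h11 | h11
        · rw [min_eq_left h11]
          exact (min_le_left _ _).trans (by linarith)
        · rw [min_eq_right h11]
          exact (min_le_right _ _).trans h10
      rw [integral_const_mul] at h6
      linarith

end Pool.Agent.H82.Max
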