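import Pool.Agent.H82.Max.Global
import Pool.Agent.H82.Max.Far
import Pool.Agent.H82.Max.Renorm
import Pool.Agent.H82.Max.Local

open MeasureTheory Set Filter Topology
open scoped ENNReal Real InnerProductSpace symmDiff

namespace Pool.Agent.H82.Max

variable {d : ℕ}

theorem main {d : ℕ} (hd : 0 < d) : ∃ P : ℝ, 8 ≤ P ∧ ∀ p : ℝ, P ≤ p → ∀ E : Set (X d),
    UnitVol E → MM p (Bl d) ≤ MM p E →
    ∃ (A : X d ≃ₗ[ℝ] X d) (b : X d), |LinearMap.det (A : X d →ₗ[ℝ] X d)| = 1 ∧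
      ((fun x => A x + b) '' E : Set (X d)) =ᵐ[volume] Bl d := by
  obtain ⟨δ, P₁, hδ, hP₁, hloc⟩ := local_step hd
  obtain ⟨δ₁, hδ₁, hren⟩ := renorm hd hδ
  obtain ⟨δ₂, P₂, hδ₂, hP₂, hfar⟩ := far_small hd hδ₁
  obtain ⟨P₃, hP₃, hglob⟩ := global_close hd (lt_min hδ₁ hδ₂)
  refine ⟨max P₁ (max P₂ P₃), le_max_of_le_left hP₁, fun p hp E hE hM => ?_⟩
  have hp1 : P₁ ≤ p := (le_max_left _ _).trans hp
  have hp2 : P₂ ≤ p := (le_max_left _ _).trans ((le_max_right _ _).trans hp)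
  have hp3 : P₃ ≤ p := (le_max_right _ _).trans ((le_max_right _ _).trans hp)
  have hp0 : 1 ≤ p := by linarith
  obtain ⟨A₁, b₁, hA₁, hcl⟩ := hglob p hp3 E hE hM
  have hE₁ := unitVol_image hE A₁ hA₁ b₁
  have hM₁ : MM p (Bl d) ≤ MM p ((fun x => A₁ x + b₁) '' E) := by
    rw [MM_image hE A₁ hA₁ b₁ hp0]
    exact hM
  have hf := hfar p hp2 _ hE₁ (hcl.trans (min_le_right _ _)) hM₁
  obtain ⟨A₂, b₂, hA₂, N, F, hNF, hL⟩ := hren p hp0 _ hE₁ (hcl.trans (min_le_left _ _)) hf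
  have hM₂ : MM p (Bl d) ≤ MM p (N ∪ F) := by
    rw [← hNF, MM_image hE₁ A₂ hA₂ b₂ hp0]
    exact hM₁
  have hfin := hloc p hp1 N F hL hM₂
  refine ⟨A₁.trans A₂, A₂ b₁ + b₂, ?_, ?_⟩
  · have : ((A₁.trans A₂ : X d ≃ₗ[ℝ] X d) : X d →ₗ[ℝ] X d) =
        (A₂ : X d →ₗ[ℝ] X d) ∘ₗ (A₁ : X d →ₗ[ℝ] X d) := rfl
    rw [this, LinearMap.det_comp, abs_mul, hA₁, hA₂, one_mul]
  · have : ((fun x => (A₁.trans A₂) x + (A₂ b₁ + b₂)) '' E : Set (X d)) = N ∪ F := by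
      rw [← hNF, image_image]
      congr 1
      ext x
      simp [map_add, add_assoc]
    rw [this]
    exact hfin

end Pool.Agent.H82.Max
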